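import Pool.Agent.Lib.MP_d0a18a_nt.ZP.Spec

/-!
# MP_d0a18a_nt, second theorem: `#(D_2 ∩ [1,N]) ≥ N^0.687` (exponent `(2δ+1)/3 - ε`)

IDEA.  `K(uv) = <x_u, y_v>`.  Let `x` be a random point of a cell of side `q L` of the plane (at scale
`L`).  THREE DIRECTION INEQUALITY (G3D): let `x'` be a second point with the same first coordinate
`Z0` (direction of the empty word), `x, x'` independent given `Z0`, and let `v1, v2` be two random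
words.  Write `x = (x_1, θ x_1 + τ)`, `θ` the direction of the cell.  `(Z1(x), τ)` determines `x`,
`(Z2(x'), τ')` determines `x'`, and
`Z1(x)/(1+β1θ) - Z2(x')/(1+β2θ) = c1 τ - c2 τ'` (scale `L`), so `(Z1(x), Z2(x'))` determines
`(τ, τ')` up to the number of solutions of `c1 t - c2 t' = const` in the set `C × C` of offsets, `C` of
dimension `δ`.  The ratio `c2/c1` has nearly full entropy (RHO, dithering + Marstrand + local entropy),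
so this number is `q^(2δ-1+ε)` on average (FIB), and
`2 H(x) ≤ H(Z0) + H(Z1) + H(Z2) + (2δ-1+ε) log q`.
Adding up all scales (LEV, SUM) gives `#D_2(N) ≥ N^((2·2δ - (2δ-1))/3 - ε)`.

Every module XXX is a file `ZP/XXX.lean` (imports ZP.Spec2), theorem
`specXXX (hYYY : SpecYYY) .. : SpecXXX`; ANY other Spec (also of Spec.lean) may be a hypothesis; own
lemmas in namespace `Pool.Agent.Lib.MP_d0a18a_nt.ZP.XXXM`.
-/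

set_option autoImplicit false

namespace Pool.Agent.Lib.MP_d0a18a_nt.ZP

open Finset

/-! ## Part A: entropy -/

open Classical in
/-- the class of `x` in `X` under `g` -/
noncomputable def cls {α γ : Type} (X : Finset α) (g : α → γ) (x : α) : Finset α :=
  X.filter (fun y => g y = g x)

open Classical in
/-- ENC (120 lines; the entropy version of ENB, see ENB.lean).  `n_f(x) = #{y ∈ X : f y = f x}` etc.
PROOF.  (1) `Hs f - Hs f' = avg_x log (n_f'(x)/n_f(x))`.  (2) `Σ_x log (n_f'(x)/n_f(x)) ≥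
Σ_x log (n_(f',g)(x)/n_(f,g)(x))` (see ENB).  (3) `log (n_(f',g)/n_(f,g)) = log (n_g/n_(f,g)) -
log (n_g/n_(f',g))`; for a class `B` of `g`, `Σ_(x ∈ B) log (n_g/n_(f',g)) ≤ #B log m` (ENA) and
`(1/#B) Σ_(x ∈ B) log (#B/n_(f,g)(x)) = Hs B f`. -/
def SpecENC : Prop := ∀ (α β β' γ : Type) (X : Finset α) (f : α → β) (f' : α → β') (g : α → γ) (m : ℝ),
  X.Nonempty → 1 ≤ m →
  (∀ x ∈ X, ∀ y ∈ X, f x = f y → f' x = f' y) →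
  (∀ x ∈ X, ((((cls X g x).image f').card : ℕ) : ℝ) ≤ m) →
  Hs X f' + (∑ x ∈ X, Hs (cls X g x) f) / (X.card : ℝ) - Real.log m ≤ Hs X f

/-- EXC (80 lines; exact chain rule, `c` determines `g`).  PROOF.
`Σ_x Hs (cls X g x) c = Σ_x (1/n_g(x)) Σ_(y ∈ cls x) log (n_g(y)/n_c(y)) = Σ_y log (n_g(y)/n_c(y))`
(the class of `y` under `c` lies in its class under `g`). -/
def SpecEXC : Prop := ∀ (α β γ : Type) (X : Finset α) (c : α → β) (g : α → γ), X.Nonempty →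
  (∀ x ∈ X, ∀ y ∈ X, c x = c y → g x = g y) →
  Hs X c = Hs X g + (∑ x ∈ X, Hs (cls X g x) c) / (X.card : ℝ)

open Classical in
/-- ENM (60 lines; from EXC, ENA).  PROOF.  `Hs f ≤ Hs (f,g) = Hs g + avg Hs(cls g, (f,g))
≤ Hs g + log m` (on a class of `g` the pair `(f,g)` takes at most `m` values). -/
def SpecENM : Prop := ∀ (α β γ : Type) (X : Finset α) (f : α → β) (g : α → γ) (m : ℝ),
  X.Nonempty → 1 ≤ m → (∀ x ∈ X, ((((cls X g x).image f).card : ℕ) : ℝ) ≤ m) →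
  Hs X f ≤ Hs X g + Real.log m

open Classical in
/-- the number of pairs `(T y, T y')` with `Z0 y = Z0 y'`, `Z1 y = Z1 x`, `Z2 y' = Z2 x'` -/
noncomputable def Fb {α γ τ : Type} (X : Finset α) (Z0 Z1 Z2 : α → γ) (T : α → τ) (x x' : α) : ℕ :=
  (((X ×ˢ X).filter (fun p => Z0 p.1 = Z0 p.2 ∧ Z1 p.1 = Z1 x ∧ Z2 p.2 = Z2 x')).image
    (fun p => (T p.1, T p.2))).card

/-- average over `x ∈ X` and `x'` in the class of `x` under `Z0` -/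
noncomputable def av2 {α γ : Type} (X : Finset α) (Z0 : α → γ) (G : α → α → ℝ) : ℝ :=
  (∑ x ∈ X, (∑ x' ∈ cls X Z0 x, G x x') / ((cls X Z0 x).card : ℝ)) / (X.card : ℝ)

open Classical in
/-- G3D (200 lines; the three direction inequality, abstract form).  PROOF.  `n = #X`,
`n_i(x) = #{y : Z_i y = Z_i x}`, `N(x) = #{y : c y = c x}`, `S = {(x,x') ∈ X² : Z0 x = Z0 x'}`,
`w(x,x') = 1/(n n_0(x))` (`Σ_S w = 1`, both marginals of `w` are uniform),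
`ρ(x,x') = n_1(x) n_2(x') / (n² B² Fb(x,x') N(x) N(x'))`.
CLAIM `Σ_S ρ ≤ 1`: `Fb(x,x')` depends only on `z = Z1 x`, `z' = Z2 x'`.  For fixed `z, z'`:
`Σ_((x,x') ∈ S, Z1 x = z, Z2 x' = z') 1/(N(x)N(x'))` is at most the number of pairs `(c x, c x')`
occurring, and this is `≤ B² Fb`: for each of the `Fb` values of `(T x, T x')` there are at most `B`
values of `c x` and `B` values of `c x'`.  So `Σ_S ρ ≤ Σ_(z,z') (n_1(z)/n)(n_2(z')/n) = 1`, where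
`z, z'` run over the values.
By `log t ≤ t - 1`: `Σ_S w log (ρ/w) ≤ Σ_S ρ - Σ_S w ≤ 0`, i.e. `Σ w log (1/w) ≤ Σ w log (1/ρ)`.
Left: `avg_x log (n n_0(x)) = 2 log n - Hs Z0`.  Right (uniform marginals): `Hs Z1 + Hs Z2 + 2 log B +
av2 (log Fb) + 2 avg log N` and `avg log N = log n - Hs c`. -/
def SpecG3D : Prop := ∀ (α β γ τ : Type) (X : Finset α) (c : α → β) (Z0 Z1 Z2 : α → γ) (T : α → τ)
  (B : ℕ), X.Nonempty → 1 ≤ B →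
  (∀ z t, ((X.filter (fun y => Z1 y = z ∧ T y = t)).image c).card ≤ B) →
  (∀ z t, ((X.filter (fun y => Z2 y = z ∧ T y = t)).image c).card ≤ B) →
  2 * Hs X c ≤ Hs X Z0 + Hs X Z1 + Hs X Z2 + 2 * Real.log B +
    av2 X Z0 (fun x x' => Real.log (Fb X Z0 Z1 Z2 T x x' : ℝ))

/-! ## Part B: geometry of one cell -/

/-- the level-`i` value of the offset `x_2 - θ x_1` -/
noncomputable def ta (θ : ℝ) (q i : ℕ) (x : ℕ × ℕ) : ℤ :=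
  ⌊((x.2 : ℝ) - θ * (x.1 : ℝ)) / (q : ℝ) ^ i⌋

/-- `β/(1+θβ)` -/
noncomputable def cr (θ β : ℝ) : ℝ := β / (1 + θ * β)

/-- the pairs `p ∈ C × C` with `p_1 - t - κ (p_2 - t') = O(1)` -/
noncomputable def sol (C : Finset ℤ) (κ : ℝ) (t t' : ℤ) : Finset (ℤ × ℤ) :=
  (C ×ˢ C).filter (fun p => |((p.1 : ℝ) - t) - κ * ((p.2 : ℝ) - t')| ≤ 21)

open Classical in
/-- GEO (150 lines).  PROOF.  (1) `a = y_1/q^i`, `b = y_2/q^i`: `a + β b ∈ [z, z+1)`,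
`b - θ a ∈ [t, t+1)`, so `a (1+βθ) = (a+βb) - β(b-θa)` lies in an interval of length `1+β ≤ 2`, `⌊a⌋`
takes at most 3 values, `θa` lies in an interval of length `≤ 2`, `b` in one of length `≤ 3`, `⌊b⌋` takes
at most 4 values.  (2) Let `(y,y')` be counted in `Fb`, `τ_y = y_2 - θ y_1` etc., `c_j = cr θ β_j`.
`pr β y = (1+βθ)(y_1 + cr θ β τ_y)`.  So `|(y_1-x_1) + c_1(τ_y-τ_x)| < q^i`,
`|(y'_1-x'_1) + c_2(τ_y'-τ_x')| < q^i`, `|x_1-x'_1| < q^i`, `|y_1-y'_1| < q^i`, hence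
`|c_1(τ_y-τ_x) - c_2(τ_y'-τ_x')| < 4 q^i`; `c_1 ≥ 1/4`, `c_2 ≤ 1`:
`|(τ_y-τ_x) - κ(τ_y'-τ_x')| < 16 q^i`, `κ = c_2/c_1 ≤ 4`, and the floors cost `1 + κ ≤ 5`. -/
def SpecGEO : Prop := ∀ (X : Finset (ℕ × ℕ)) (q i : ℕ) (θ β1 β2 : ℝ), 1 ≤ q → 0 ≤ θ → θ ≤ 1 →
  1 / 3 ≤ β1 → β1 ≤ 1 → 1 / 3 ≤ β2 → β2 ≤ 1 →
  (∀ (z : ℕ) (t : ℤ),
    ((X.filter (fun y => fl β1 q i y = z ∧ ta θ q i y = t)).image (cell q i)).card ≤ 12) ∧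
  ∀ x ∈ X, ∀ x' ∈ X, fl 0 q i x = fl 0 q i x' →
    Fb X (fl 0 q i) (fl β1 q i) (fl β2 q i) (ta θ q i) x x' ≤
      (sol (X.image (ta θ q i)) (cr θ β2 / cr θ β1) (ta θ q i x) (ta θ q i x')).card

/-- the offsets, relative to the direction of `x`, of the points of the level-`(i+1)` cell of `x` -/
noncomputable def offs (Y : Finset (ℕ × ℕ)) (q i : ℕ) (x : ℕ × ℕ) : Finset ℤ :=
  (cls Y (cell q (i + 1)) x).image (ta ((x.2 : ℝ) / (x.1 : ℝ)) q i)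

/-- TCL (200 lines; from CLU; similar to XLD, see XLD.lean).  PROOF.  `θ = x_2/x_1`, `R = q^i`; for `y` in
the class `|y_j - x_j| < qR`, `τ_y = y_2 - θ y_1 = (y_2-x_2) - θ(y_1-x_1)`, `|τ_y| < 2qR`: first claim.
Let `y, z` be in the class with offsets `ta` in `[t, t+d]`: `|τ_y - τ_z| ≤ (d+1) R`.  With `y_1, z_1 > T`
(`y_1 = K w`, `w = true :: v`, `v ∈ stop T`, and `≤ 9T`):
`|y_2/y_1 - z_2/z_1| = |(τ_y-τ_z)/y_1 + τ_z(1/y_1-1/z_1)| ≤ (d+1)R/T + 2q²R²/T² ≤ (d+2)R/T`.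
`B = √(T/R) ≥ 1`; for each `w` take a beginning `s(w) ∈ stop B` of `w.reverse` (`exists_stop`;
`be w.reverse = y_2/y_1` by `yv_reverse`, `w.reverse` ends with `true`); CLU with `B := 3B`,
`ω := (d+2)R/T`: the number of the `s` is `≤ 1 + A(24 √(d+2)) ≤ C' d^δ`.  For fixed `s`: two points `y, z`
have `|y_2/y_1 - z_2/z_1| ≤ 1/K(s)² < R/T` (`be_near`), and
`τ_y - τ_z = y_1(y_2/y_1 - z_2/z_1) + (y_1-z_1)(z_2/z_1-θ)`, `|z_2/z_1-θ| = |τ_z|/z_1 ≤ 2qR/T`, so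
`|τ_y - τ_z| ≤ 9R + 2q²R²/T ≤ 10R`: at most 12 values of `ta`. -/
def SpecTCL : Prop := ∀ δ c C : ℝ, Cnt δ c C → 0 < δ → ∃ C1 : ℝ, 1 ≤ C1 ∧
  ∀ T : ℝ, 1 ≤ T → ∀ W : Finset Word, (∀ w ∈ W, ∃ v ∈ stop T, w = true :: v) →
    ∀ q i : ℕ, 2 ≤ q → 2 * (q : ℝ) ^ (i + 2) ≤ T → ∀ x ∈ W.image xv,
      (∀ s ∈ offs (W.image xv) q i x, |(s : ℝ)| ≤ 3 * (q : ℝ)) ∧
      ∀ (t : ℤ) (d : ℝ), 1 ≤ d →
        (((offs (W.image xv) q i x).filter (fun s => t ≤ s ∧ (s : ℝ) ≤ t + d)).card : ℝ) ≤ C1 * d ^ δ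

/-- FIB (250 lines; number of solutions, from the entropy of the ratio).  PROOF.  `F_ω = #sol ≥ 1`
(contains `(t,t')`), `ℓ_ω = ⌊lam ω 2^h⌋`, `n(ℓ) = #{ω : ℓ_ω = ℓ}`.  For `p ∈ C × C` let `k = k(p)` be the
least natural number with `|p_2 - t'| ≤ 2^k`; `k ≤ h + 3`.  If `p ∈ sol` for some `ω ∈ Ω` then
`|p_1 - t| ≤ e² 2^k + 21 ≤ 29·2^k`, so the number of such `p` with given `k` is
`≤ C1 (2·2^k)^δ C1 (58·2^k)^δ = C1² 116^δ 2^(2δk)`.  For given `p`, `k ≥ 1`: `|p_2-t'| > 2^(k-1)`,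
`|e^(lam ω) - (p_1-t)/(p_2-t')| ≤ 42·2^(-k)`, so `lam ω` lies in an interval of length
`84 e² 2^(-k) ≤ 621·2^(-k)`, and `ℓ_ω` takes at most `621·2^(h-k) + 2 ≤ 640·2^(h-k)` values; for `k = 0` at
most `4·2^h + 2` values.  Put `r(ℓ,p) = 1/((h+4) C1² 116^δ 2^(2δk) · 640·2^(h-k))` if `p ∈ sol` for some `ω`
with `ℓ_ω = ℓ`, and 0 otherwise: `Σ_(ℓ,p) r ≤ 1`.  By `log t ≤ t - 1`, with the weights
`1/(#Ω F_ω)` on the pairs `(ω,p)`, `p ∈ sol_ω`: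
`Σ_(ω,p) (1/(#Ω F_ω)) log (r(ℓ_ω,p) F_ω #Ω/n(ℓ_ω)) ≤ Σ_ω Σ_p r(ℓ_ω,p)/n(ℓ_ω) - 1 ≤ 0`, so
`avg log F_ω + Hs Ω ℓ ≤ max log (1/r) ≤ log (h+4) + C + 2δ h log 2` (`(2δ-1) k ≤ (2δ-1)(h+3)`). -/
def SpecFIB : Prop := ∀ δ C1 : ℝ, 1 / 2 ≤ δ → 1 ≤ C1 → ∃ C2 : ℝ, 1 ≤ C2 ∧
  ∀ (ι : Type) (Ω : Finset ι) (lam : ι → ℝ) (h : ℕ) (C : Finset ℤ), Ω.Nonempty → 1 ≤ h →
  (∀ ω ∈ Ω, |lam ω| ≤ 2) → (∀ s ∈ C, |(s : ℝ)| ≤ 3 * 2 ^ h) →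
  (∀ (t : ℤ) (d : ℝ), 1 ≤ d →
    ((C.filter (fun s => t ≤ s ∧ (s : ℝ) ≤ t + d)).card : ℝ) ≤ C1 * d ^ δ) →
  ∀ t ∈ C, ∀ t' ∈ C,
    (∑ ω ∈ Ω, Real.log ((sol C (Real.exp (lam ω)) t t').card : ℝ)) / (Ω.card : ℝ)
      ≤ 2 * δ * (h * Real.log 2) - Hs Ω (fun ω => ⌊lam ω * 2 ^ h⌋) + Real.log (h + 1) + C2

/-! ## Part C: the random pair of directions -/

/-- `log (be v/(1 + θ be v))` -/
noncomputable def lg (θ : ℝ) (v : Word) : ℝ := Real.log (cr θ (be v))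

/-- the pair of directions `v1 ω, v2 ω` (`ω ∈ Ω` uniform) has a ratio of almost full entropy -/
def Dir {ι : Type} (Ω : Finset ι) (v1 v2 : ι → Word) (h : ℕ) (ε : ℝ) : Prop :=
  (∀ ω ∈ Ω, v1 ω ≠ [] ∧ v2 ω ≠ []) ∧ ∀ θ : ℝ, 0 ≤ θ → θ ≤ 1 →
    (1 - ε) * (h * Real.log 2) ≤ Hs Ω (fun ω => ⌊(lg θ (v2 ω) - lg θ (v1 ω)) * 2 ^ h⌋)

/-- dithering: words whose continuants (in every context) form a slowly increasing geometric sequence -/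
def Dith (M : ℕ) (D : ℕ → Word) : Prop :=
  (∀ k ≤ M, D k ≠ [] ∧ Even (D k).length) ∧ 3 ≤ K (D 0) ∧
  ∀ k < M, ∀ x : Word,
    ((1 + 1 / (4 * (M : ℝ))) * ((yv (D k ++ x)).1 : ℝ) ≤ ((yv (D (k + 1) ++ x)).1 : ℝ) ∧
     ((yv (D (k + 1) ++ x)).1 : ℝ) ≤ (1 + 4 / (M : ℝ)) * ((yv (D k ++ x)).1 : ℝ)) ∧
    ((1 + 1 / (4 * (M : ℝ))) * ((yv (D k ++ x)).2 : ℝ) ≤ ((yv (D (k + 1) ++ x)).2 : ℝ) ∧
     ((yv (D (k + 1) ++ x)).2 : ℝ) ≤ (1 + 4 / (M : ℝ)) * ((yv (D k ++ x)).2 : ℝ))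

/-- IRR (80 lines).  `μ = (1+√5)/2`, `ν = 1+√2`.  PROOF.  If `μ^a = ν^b`, `a, b ≥ 1`: `2 μ^a = L + F √5`,
`ν^b = c + d √2` with positive integers `L, F, c, d`; squaring `F√5 - 2d√2 = 2c - L` shows that `√10` is
rational, contradiction.  So `ξ = log ν/log μ` is irrational, and by Dirichlet
(`Real.exists_int_int_abs_mul_sub_le`) there are `b ≥ 1` and `a` with `0 < |bξ - a|` as small as we want
(`a ≥ 1` as `ξ > 1`). -/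
def SpecIRR : Prop := ∀ η : ℝ, 0 < η → ∃ a b : ℕ, 1 ≤ a ∧ 1 ≤ b ∧
  0 < |(a : ℝ) * Real.log ((1 + Real.sqrt 5) / 2) - (b : ℝ) * Real.log (1 + Real.sqrt 2)| ∧
  |(a : ℝ) * Real.log ((1 + Real.sqrt 5) / 2) - (b : ℝ) * Real.log (1 + Real.sqrt 2)| ≤ η

/-- DIT (250 lines; from IRR).  PROOF.  Take `a', b'` from IRR, `a = 2a'`, `b = 2b'`,
`s = a log μ - b log ν`, `|s| ≤ η` small, `M = ⌈1/|s|⌉`.  If `s > 0`: `D k = 1^(a(M+k)) 2^(b(2M-k))`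
(`List.replicate`, false = letter 1, true = letter 2), if `s < 0`: `D k = 1^(a(2M-k)) 2^(b(M+k))`.
Case `s > 0` (the other one is the same).  Let `z = 2^(b(2M-k-1)) x`, `yv z = Y (1, β)`, `β = be z`;
`|β - (√2-1)| ≤ 1/K(2^(b(2M-k-1)))² ≤ ν^(-bM)` or so (`be_near`, comparison of two long words, or the
exact formula for Pell numbers).  `D (k+1) x = 1^(a(M+k)) 1^a z`, `D k x = 1^(a(M+k)) 2^b z`.  The linear
form `ℓ(s,t) = μ s + t` satisfies `ℓ(s+t, s) = μ ℓ(s,t)`, and the components of `yv (1^j w)` are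
`ℓ(yv w) μ^j/√5 · (μ, 1)` up to a relative error `O(μ^(-2j))` (Binet; the other eigenform is
`ℓ'(s,t) = s - μ t`, multiplied by `-1/μ` at each step, `|ℓ'| ≤ 2ℓ`).  So each component of
`yv (D (k+1) x)` divided by that of `yv (D k x)` is `ℓ(yv (1^a z))/ℓ(yv (2^b z))` up to a factor
`1 + O(μ^(-2M))`, and `ℓ(yv (1^a z)) = μ^a Y (μ+β)`; `yv (2^b z) = ν^b Y (1, √2-1) (1 + O(|β-(√2-1)|))`
componentwise (eigenvector of the letter 2; error `O(ν^(-M))`).  The quotient is `e^s (1 + O(c^M))`,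
`c < 1` absolute.  As `e^s ∈ [1 + 1/M, 1 + 2/M]` for `|s|` small, it lies in `[1 + 1/(4M), 1 + 4/M]` once
`M ≥ 2^n` is large. -/
def SpecDIT : Prop := ∀ n : ℕ, ∃ (M : ℕ) (D : ℕ → Word), 2 ^ n ≤ M ∧ Dith M D

/-- DCN (200 lines).  PROOF.  `cr θ (be v) = (yv v).2/((yv v).1 + θ (yv v).2)`.  As `(D k).length` is even,
`(yv (D k ++ y)).2 (yv (D k ++ z)).1 - (yv (D k ++ z)).2 (yv (D k ++ y)).1 = x K(y) K(z)`,
`x = be y - be z` (induction on `D k`: each letter changes the sign).  So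
`cr θ (be (D k y))/cr θ (be (D k z)) = 1 + x/h_k`,
`h_k = (yv (D k z)).2 ((yv (D k y)).1 + θ (yv (D k y)).2)/(K y K z)`, and by `Dith`
`(1+1/(4M))² h_k ≤ h_(k+1) ≤ (1+4/M)² h_k`; `K(D 0)²/3 ≤ h_0 ≤ 8 K(D 0)²`
(`K (D z)` without the first letter is `≥ (K D/3) K z`), so `3 ≤ h_k ≤ 8 e^8 K(D 0)²` for `k ≤ M`, and
`|x/h_k| ≤ 1/3`.  On `[-1/3,1/3]`, `(3/4)|u-v| ≤ |log(1+u) - log(1+v)| ≤ (3/2)|u-v|`: first claim.
The numbers `x/h_k` are monotone in `k` with gaps `≥ |x|/h_(k+1) · 1/(2M) ≥ |x|/(16 e^8 M K(D 0)²)`; so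
the `lg θ (D k y) - lg θ (D k z)` are monotone in `k` with gaps `≥ g = |x|/(C M K(D 0)²)` and at most
`1 + 2ρ/g` of them lie in `[s-ρ, s+ρ]`. -/
def SpecDCN : Prop := ∃ C : ℝ, 1 ≤ C ∧ ∀ (M : ℕ) (D : ℕ → Word), 1 ≤ M → Dith M D →
  ∀ (θ : ℝ) (y z : Word), 0 ≤ θ → θ ≤ 1 → y ≠ [] → z ≠ [] →
    (∀ k ≤ M, |be y - be z| / (C * (K (D 0) : ℝ) ^ 2) ≤ |lg θ (D k ++ y) - lg θ (D k ++ z)| ∧
      |lg θ (D k ++ y) - lg θ (D k ++ z)| ≤ C * |be y - be z| / (K (D 0) : ℝ) ^ 2) ∧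
    (be y ≠ be z → ∀ s ρ : ℝ, 0 < ρ →
      (((range M).filter (fun k => |lg θ (D k ++ y) - lg θ (D k ++ z) - s| ≤ ρ)).card : ℝ)
        ≤ C * (1 + (M : ℝ) * ρ * (K (D 0) : ℝ) ^ 2 / |be y - be z|))

/-- a finite prefix free code of dimension more than 1/2 -/
def Code (W : Finset Word) (L d : ℝ) : Prop :=
  2 ≤ L ∧ 1 / 2 < d ∧ d ≤ 1 ∧ (∀ w ∈ W, L < (K w : ℝ) ∧ (K w : ℝ) ≤ 3 * L) ∧
  (∀ w ∈ W, ∀ w' ∈ W, w <+: w' → w = w') ∧ (6 * L) ^ (2 * d) ≤ (W.card : ℝ)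

/-- COD (60 lines; from CRB, STP).  PROOF.  `W = stop L` for large `L`, `d = 103/200`: `#W ≥ A L ≥
c L^(69/65) ≥ (6L)^(103/100)`. -/
def SpecCOD : Prop := ∃ (W : Finset Word) (L d : ℝ), Code W L d

/-- the word formed by the first `i` blocks -/
def bw {N : ℕ} (ω : Fin N → Word) (i : ℕ) : Word := ((List.ofFn ω).take i).flatten

/-- the whole word, closed by the letter 2 -/
def yw {N : ℕ} (ω : Fin N → Word) : Word := bw ω N ++ [true]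

/-- the sequences of `N` blocks -/
noncomputable def Bl (W : Finset Word) (N : ℕ) : Finset (Fin N → Word) := Fintype.piFinset (fun _ => W)

open Classical in
/-- FRO (200 lines).  PROOF.  `K (bw ω (i+1)) ≤ 6L K (bw ω i)`, and `K (bw ω i)` increases in `i`.  Let
`κ = 1/(8√t)` and let `i*` be the least index with `K (bw ω i*) ≥ κ` (`i* ≤ N` by the last hypothesis).
If `ω' ≠ ω` is counted and `e` is the first index with `ω' e ≠ ω e`, then `ω e = p' ++ a :: r`,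
`ω' e = p' ++ b :: r'`, `a ≠ b` (prefix free), and `be_far` with `p = bw ω e ++ p'` gives
`1/(64 K(p)²) ≤ t`, `K (bw ω (e+1)) ≥ K p ≥ κ`, `e + 1 ≥ i*`.  So all `ω'` counted agree with `ω` in the
first `j = max i (i*-1)` blocks and their number is at most `#W^(N-j)`.  If `j = i`:
`K (bw ω i) ≥ κ/(6L)` (or `i* = 0`, `κ ≤ 1`), so `t K(bw ω i)² ≥ 1/(2304 L²)` and
`C = (2304 L²)^d` works.  If `j = i*-1 > i`: `(6L)^(i*-i) ≥ K(bw ω i*)/K(bw ω i) ≥ κ/K(bw ω i)`, so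
`#W^(j-i) ≥ (6L)^(2d(j-i)) ≥ (κ/(6L K(bw ω i)))^(2d) = (2304 L² t K(bw ω i)²)^(-d)`. -/
def SpecFRO : Prop := ∀ (W : Finset Word) (L d : ℝ), Code W L d → ∃ C : ℝ, 1 ≤ C ∧
  ∀ (N i : ℕ) (ω : Fin N → Word) (t : ℝ), i ≤ N → ω ∈ Bl W N → 0 < t →
    1 ≤ t * (K (bw ω N) : ℝ) ^ 2 →
    (((Bl W N).filter (fun ω' => (∀ l : Fin N, (l : ℕ) < i → ω' l = ω l) ∧
      |be (yw ω) - be (yw ω')| ≤ t)).card : ℝ)
      ≤ C * (t * (K (bw ω i) : ℝ) ^ 2) ^ d * (W.card : ℝ) ^ (N - i)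

/-- the blocks read until the square of the continuant reaches `S` -/
noncomputable def cel {N : ℕ} (S : ℝ) (ω : Fin N → Word) : List Word :=
  (List.ofFn ω).take (sInf {i : ℕ | S ≤ (K (bw ω i) : ℝ) ^ 2})

/-- CEL (120 lines).  PROOF.  `K (bw ω (i+1)) ≥ L K (bw ω i)` (`K_mul_le`), so `K (bw ω N) ≥ L^N`, the set in
`cel` contains `N`, let `i` be its minimum.  If `i ≥ 1`: `K(bw ω (i-1))² < S`,
`K(bw ω i)² ≤ 36 L² S`; if `i = 0`: `K = 1 ≤ 36 L² S`.  `bw ω' j` for `j ≤ i` depends only on the first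
`i` blocks. -/
def SpecCEL : Prop := ∀ (W : Finset Word) (L d : ℝ), Code W L d →
  ∀ (N : ℕ) (S : ℝ) (ω : Fin N → Word), ω ∈ Bl W N → 1 ≤ S → S ≤ (L ^ N) ^ 2 →
    L ^ N ≤ (K (bw ω N) : ℝ) ∧
    ∃ i ≤ N, S ≤ (K (bw ω i) : ℝ) ^ 2 ∧ (K (bw ω i) : ℝ) ^ 2 ≤ 36 * L ^ 2 * S ∧
      ∀ ω' ∈ Bl W N, (cel S ω' = cel S ω ↔ ∀ l : Fin N, (l : ℕ) < i → ω' l = ω l)

/-- the sample space: `(k, ω1, ω2)` -/
abbrev Smp (N : ℕ) : Type := ℕ × (Fin N → Word) × (Fin N → Word)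

noncomputable def Om (M N : ℕ) (W : Finset Word) : Finset (Smp N) := range M ×ˢ (Bl W N ×ˢ Bl W N)

/-- first random word -/
def w1 {N : ℕ} (D : ℕ → Word) (x : Smp N) : Word := D x.1 ++ yw x.2.1

/-- second random word -/
def w2 {N : ℕ} (D : ℕ → Word) (x : Smp N) : Word := D 0 ++ yw x.2.2

/-- the logarithm of the ratio -/
noncomputable def lm {N : ℕ} (θ : ℝ) (D : ℕ → Word) (x : Smp N) : ℝ := lg θ (w2 D x) - lg θ (w1 D x)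

/-- the cell of `x` at scale `S` -/
noncomputable def gS {N : ℕ} (S : ℝ) (x : Smp N) : ℕ × List Word × List Word :=
  (x.1, cel S x.2.1, cel S x.2.2)

/-- the value of `lm` at scale `S` -/
noncomputable def fS {N : ℕ} (θ : ℝ) (D : ℕ → Word) (S : ℝ) (x : Smp N) : ℕ :=
  ⌊(lm θ D x + 4) * ((K (D 0) : ℝ) ^ 2 * S)⌋₊

open Classical in
/-- VAR (100 lines; from CEL, DCN).  PROOF.  If `gS S x' = gS S x`, then `x'.1 = x.1 = k`, the words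
`yw x'.2.j`, `yw x.2.j` have the common beginning `bw _ i`, `K(bw _ i)² ≥ S`, so their `be` differ by
`≤ 1/S` (`be_near`), and by DCN `|lm x - lm x'| ≤ 2C/(K(D 0)² S)`: `fS` takes at most `4C + 2` values. -/
def SpecVAR : Prop := ∀ (W : Finset Word) (L d : ℝ), Code W L d → ∃ C : ℝ, 1 ≤ C ∧
  ∀ (M N : ℕ) (D : ℕ → Word) (S θ : ℝ), 1 ≤ M → Dith M D → 1 ≤ S → S ≤ (L ^ N) ^ 2 →
    0 ≤ θ → θ ≤ 1 → ∀ x ∈ Om M N W,
      ((((cls (Om M N W) (gS S) x).image (fS θ D S)).card : ℕ) : ℝ) ≤ C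

open Classical in
/-- COA (150 lines; abstract summation).  PROOF.  Split according to `2^(-l-1) < a u ≤ 2^(-l)`,
`0 ≤ l < n`, and `a u ≤ 2^(-n)`.  For `l < n`: at most `C 2^(-ld) #U` such `u`, for each at most
`#{v : b v ≤ 2C 2^(-l)} ≤ C (2C 2^(-l))^d #V` values `v` with `g u v ≠ 0`, and
`g u v ≤ C (2^(-n) + 2^(-n) 2^(l+1)) ≤ 3C 2^(l-n)`; the sum is
`≤ C' 2^(-n) Σ_l 2^((1-2d)l) #U #V`.  For `a u ≤ 2^(-n)`: `g ≤ 1`, at most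
`C 2^(-nd) #U · C (2C 2^(-n))^d #V ≤ C' 2^(-n) #U #V` pairs (`2d > 1`). -/
def SpecCOA : Prop := ∀ C d : ℝ, 1 ≤ C → 1 / 2 < d → d ≤ 1 → ∃ C' : ℝ, 1 ≤ C' ∧
  ∀ (α β : Type) (U : Finset α) (V : Finset β) (a : α → ℝ) (b : β → ℝ) (g : α → β → ℝ) (n : ℕ),
  (∀ u ∈ U, 0 ≤ a u ∧ a u ≤ 1) →
  (∀ t : ℝ, (2 : ℝ)⁻¹ ^ n ≤ t → ((U.filter (fun u => a u ≤ t)).card : ℝ) ≤ C * t ^ d * (U.card : ℝ)) →
  (∀ t : ℝ, (2 : ℝ)⁻¹ ^ n ≤ t → ((V.filter (fun v => b v ≤ t)).card : ℝ) ≤ C * t ^ d * (V.card : ℝ)) →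
  (∀ u ∈ U, ∀ v ∈ V, 0 ≤ g u v ∧ g u v ≤ 1) →
  (∀ u ∈ U, ∀ v ∈ V, 0 < a u → g u v ≤ C * ((2 : ℝ)⁻¹ ^ n + (2 : ℝ)⁻¹ ^ n / a u)) →
  (∀ u ∈ U, ∀ v ∈ V, C * (a u + (2 : ℝ)⁻¹ ^ n) < b v → g u v = 0) →
  ∑ u ∈ U, ∑ v ∈ V, g u v ≤ C' * (2 : ℝ)⁻¹ ^ n * (U.card : ℝ) * (V.card : ℝ)

/-- COL (250 lines; from CEL, FRO, DCN, COA; average collision probability; Marstrand).  PROOF.  Write
`[ω]` for the class `{ω' ∈ Bl : cel S ω' = cel S ω}`, `n(ω) = #[ω] = #W^(N-i)`.  The class of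
`(k,ω1,ω2)` is `{k} × [ω1] × [ω2]`.  Regrouping (the sum over `x` of a function of the class, divided by
the size of the class),
`Σ_x CP x = Σ_(ω1,ω2) (1/(n(ω1) n(ω2))) Σ_(ω1' ∈ [ω1], ω2' ∈ [ω2]) #{k < M : fS (k,ω1,ω2) = fS (k,ω1',ω2')}`
(`fS = fS θ D (S 2^n)`).  Fix `ω1, ω2`; `a(ω1') = S |be (yw ω1) - be (yw ω1')| ≤ 1` (`be_near`), `b(ω2')`
the same.  `g = #{k..}/M`.  If `fS` agree, then with `Δ1(k) = lg θ (D k yw ω1) - lg θ (D k yw ω1')`,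
`Δ2 = lg θ (D 0 yw ω2) - lg θ (D 0 yw ω2')`: `|Δ1(k) - Δ2| ≤ 1/(K(D 0)² S 2^n)`; so DCN (second claim,
`M ≥ 2^n`) gives `g ≤ C (2^(-n) + 2^(-n)/a)`, and by DCN (first claim) `g = 0` unless
`b ≤ C² (a + 2^(-n))`.  FRO (`t := t/S`, `K(bw ω i)² ≤ 36 L² S`, `K(bw ω N)² ≥ (L^N)² ≥ 2^n S`) gives the
bounds for `#{a ≤ t}`, `#{b ≤ t}` with `#W^(N-i) = n(ω)`.  COA: the inner sum is
`≤ C' 2^(-n) M n(ω1) n(ω2)`. -/
def SpecCOL : Prop := ∀ (W : Finset Word) (L d : ℝ), Code W L d → ∃ C : ℝ, 1 ≤ C ∧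
  ∀ (n M N : ℕ) (D : ℕ → Word) (S θ : ℝ), 2 ^ n ≤ M → Dith M D → 1 ≤ S →
    S * 2 ^ n ≤ (L ^ N) ^ 2 → 0 ≤ θ → θ ≤ 1 →
      (∑ x ∈ Om M N W, CP (Om M N W) (fS θ D (S * 2 ^ n)) (gS S) x) / ((Om M N W).card : ℝ)
        ≤ C / 2 ^ n

/-- RHO (250 lines; from COD, DIT, VAR, COL, ENB, ENM).  PROOF.  Fix the code.  Given `n`, take `M, D`
from DIT.  For `J ≥ 1` choose `N` with `2^(n(J+1)) ≤ (L^N)²`, `X = Om M N W`.  For `j < J`,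
`S = 2^(nj)`: ENB with `f = fS θ D (2^(n(j+1)))`, `f' = fS θ D (2^(nj))`, `g = gS (2^(nj))`, `m = C` (VAR)
(`⌊y 2^n⌋` determines `⌊y⌋`, `lm + 4 ≥ 0` as `cr ∈ [1/4,1]`), and `avg log (1/CP) ≥ -log (avg CP)
≥ n log 2 - log C` (Jensen, COL; `CP > 0`).  So `Hs X (fS θ D (2^(nJ))) ≥ J (n log 2 - C')`, `C'` independent
of `n, J, θ`.  Let `K(D 0)² ≤ 2^g`, `h = nJ + g`.  Given `⌊lm 2^h⌋`, `fS θ D (2^(nJ))` takes at most 3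
values, so by ENM `Hs X ⌊lm 2^h⌋ ≥ J (n log 2 - C') - log 3 ≥ (1-ε) h log 2` if
`C'/n ≤ (ε/2) log 2` and then `J` is large. -/
def SpecRHO : Prop := ∀ (ε : ℝ) (h1 : ℕ), 0 < ε → ∃ h : ℕ, h1 ≤ h ∧
  ∃ (ι : Type) (Ω : Finset ι) (v1 v2 : ι → Word), Ω.Nonempty ∧ Dir Ω v1 v2 h ε

/-! ## Part D: assembly -/

/-- LEV (150 lines; one level; from G3D, GEO, TCL, FIB).  PROOF.  `q = 2^h`, `P` the class of `x`,
`θ = x_2/x_1 ∈ [0,1]`.  For each `ω ∈ Ω` apply G3D to `P` with `c = cell q i`, `Z0 = fl 0 q i`,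
`Z_j = fl (be (v_j ω)) q i`, `T = ta θ q i`, `B = 12` (GEO with `(β1,β2)` and `(β2,β1)`; `be ≥ 1/3` by
`be_ge_third`), and average over `ω`.  `av2 P Z0` does not depend on `ω`, so the last term is `av2` of
`avg_ω log Fb ≤ avg_ω log #sol(offs, e^(lam ω), T x, T x')` (GEO), `lam ω = lg θ (v2 ω) - lg θ (v1 ω)`,
`|lam| ≤ log 4 ≤ 2`, which by FIB (hypotheses from TCL) is
`≤ 2δ h log 2 - (1-ε) h log 2 + log (h+1) + C2`. -/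
def SpecLEV : Prop := ∀ δ c C : ℝ, Cnt δ c C → 1 / 2 ≤ δ → ∃ C3 : ℝ, 1 ≤ C3 ∧
  ∀ (T : ℝ) (W : Finset Word), 1 ≤ T → (∀ w ∈ W, ∃ v ∈ stop T, w = true :: v) →
  ∀ (h i : ℕ) (ε : ℝ) (ι : Type) (Ω : Finset ι) (v1 v2 : ι → Word), 1 ≤ h →
    2 * (((2 ^ h : ℕ) : ℝ)) ^ (i + 2) ≤ T → Ω.Nonempty → Dir Ω v1 v2 h ε →
    ∀ x ∈ W.image xv,
      2 * Hs (cls (W.image xv) (cell (2 ^ h) (i + 1)) x) (cell (2 ^ h) i)
        ≤ Hs (cls (W.image xv) (cell (2 ^ h) (i + 1)) x) (fl 0 (2 ^ h) i)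
          + (∑ ω ∈ Ω, (Hs (cls (W.image xv) (cell (2 ^ h) (i + 1)) x) (fl (be (v1 ω)) (2 ^ h) i)
              + Hs (cls (W.image xv) (cell (2 ^ h) (i + 1)) x) (fl (be (v2 ω)) (2 ^ h) i)))
              / (Ω.card : ℝ)
          + (2 * δ - 1 + ε) * (h * Real.log 2) + Real.log (h + 1) + C3

/-- SUM (helper69; from STP, XCT, LEV, ENC, EXC, ENA, DNL) -/
def SpecSUM : Prop := ∀ δ c C : ℝ, Cnt δ c C → 1 / 2 ≤ δ → ∃ C4 : ℝ, 1 ≤ C4 ∧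
  ∀ (h : ℕ) (ε : ℝ) (ι : Type) (Ω : Finset ι) (v1 v2 : ι → Word), 1 ≤ h → Ω.Nonempty →
    Dir Ω v1 v2 h ε → ∃ C5 : ℝ, 1 ≤ C5 ∧ ∀ n : ℕ, 1 ≤ n →
      (n : ℝ) * ((2 * δ + 1 - ε) * (h * Real.log 2) - Real.log (h + 1) - C4) / 3 - C5
        ≤ Real.log ((Dn (C5 * 2 ^ (h * n))).card : ℝ)

/-- MA2 (120 lines; from SUM, RHO; compare MAI.lean).  PROOF.  `h1` with `log (h+1) + C4 ≤ ε h log 2` for
`h ≥ h1`; RHO with `ε, h1`; then `log #Dn(C5 2^(hn)) ≥ n h log 2 ((2δ+1-2ε)/3) - C5` for all `n ≥ 1`; for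
large `N` take the largest `n` with `C5 2^(hn) ≤ N`. -/
def SpecMA2 : Prop := ∀ δ c C : ℝ, Cnt δ c C → 1 / 2 ≤ δ → ∀ ε : ℝ, 0 < ε →
  ∃ N0 : ℝ, ∀ N : ℝ, N0 ≤ N → N ^ ((2 * δ + 1) / 3 - ε) ≤ ((Dn N).card : ℝ)

/-- FI2 (30 lines; from CNT, MA2).  `(2·69/130 + 1)/3 = 0.68717..`. -/
def SpecFI2 : Prop := ∃ N0 : ℝ, ∀ N : ℝ, N0 ≤ N → N ^ (0.687 : ℝ) ≤ ((Dn N).card : ℝ)

end Pool.Agent.Lib.MP_d0a18a_nt.ZP
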