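import Pool.Agent.Lib.MP_d0a18a_nt.ZP.Spec
import Pool.Agent.Lib.MP_d0a18a_nt.ZP.Spec2

section
set_option autoImplicit false

namespace Pool.Agent.Lib.MP_d0a18a_nt.ZP

namespace RESM

theorem cop (w : Word) : Nat.Coprime (yv w).2 (yv w).1 := by
  induction w with
  | nil => simp [yv_nil]
  | cons a w ih =>
    rw [yv_cons]
    show Nat.Coprime (yv w).1 (dg a * (yv w).1 + (yv w).2)
    rw [Nat.coprime_mul_right_add_right]
    exact ih.symm

theorem fold (w : Word) : (((yv w).2 : ℚ) / ((yv w).1 : ℚ))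
    = (w.map dg).foldr (fun (a : ℕ) (x : ℚ) => 1 / ((a : ℚ) + x)) (0 : ℚ) := by
  induction w with
  | nil => simp [yv_nil]
  | cons a w ih =>
    have h : ((yv w).1 : ℚ) ≠ 0 := by
      have := K_pos w
      rw [← yv_fst] at this
      have h2 : (yv w).1 ≠ 0 := by omega
      exact_mod_cast h2
    rw [List.map_cons, List.foldr_cons, ← ih, yv_cons]
    push_cast
    field_simp

/-- the clean form (no monadic coercion of the list) -/
theorem clean (w : Word) : ∃ b : ℕ, Nat.Coprime b (K w) ∧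
    ∃ l : List ℕ, (∀ a ∈ l, 1 ≤ a ∧ a ≤ 2) ∧
      ((b : ℚ) / (K w : ℚ) = l.foldr (fun (a : ℕ) (x : ℚ) => 1 / ((a : ℚ) + x)) (0 : ℚ)) := by
  refine ⟨(yv w).2, ?_, w.map dg, ?_, ?_⟩
  · rw [← yv_fst]
    exact cop w
  · intro a ha
    obtain ⟨x, _, rfl⟩ := List.mem_map.1 ha
    exact ⟨dg_pos x, dg_le x⟩
  · rw [← yv_fst]
    exact fold w

end RESM

theorem specRES : SpecRES := by
  intro w
  refine ⟨(yv w).2, ?_, w.map dg, ?_, ?_⟩
  · rw [← yv_fst]
    exact RESM.cop w
  · intro a ha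
    obtain ⟨x, _, rfl⟩ := List.mem_map.1 ha
    exact ⟨dg_pos x, dg_le x⟩
  · rw [← yv_fst, RESM.fold w]
    have e : ∀ l : List ℕ, l.foldr (fun (a : ℕ) (x : ℚ) => 1 / ((a : ℚ) + x)) (0 : ℚ)
        = (l.foldr (fun a x => 1 / ((a : ℚ) + x)) 0) := by
      intro l
      induction l with
      | nil => simp
      | cons a l ih =>
        rw [List.foldr_cons, ih]
        simp
    exact e _

end Pool.Agent.Lib.MP_d0a18a_nt.ZP
end

section
/-!
# MP_d0a18a_nt, module STP (helper49): the number of words is at most the size of the first passage set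
-/
set_option autoImplicit false

namespace Pool.Agent.Lib.MP_d0a18a_nt.ZP

namespace STPM

/-- `u` followed by the letter 2 and `k` letters 1 -/
def ph (u : Word) (k : ℕ) : Word := u ++ true :: List.replicate k false

theorem aux : ∀ (k k' : ℕ) (v v' : Word),
    List.replicate k false ++ true :: v = List.replicate k' false ++ true :: v' → v = v' := by
  intro k
  induction k with
  | zero =>
    intro k' v v' h
    cases k' with
    | zero => simpa using h
    | succ k' => simp [List.replicate_succ] at h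
  | succ k ih =>
    intro k' v v' h
    cases k' with
    | zero => simp [List.replicate_succ] at h
    | succ k' =>
      simp only [List.replicate_succ, List.cons_append, List.cons.injEq, true_and] at h
      exact ih k' v v' h

theorem ph_inj {u u' : Word} {k k' : ℕ} (h : ph u k = ph u' k') : u = u' := by
  have h1 := congrArg List.reverse h
  simp only [ph, List.reverse_append, List.reverse_cons, List.reverse_replicate, List.append_assoc,
    List.singleton_append] at h1
  exact List.reverse_injective (aux k k' _ _ h1)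

theorem ph_succ (u : Word) (k : ℕ) : ph u (k + 1) = ph u k ++ [false] := by
  simp only [ph, List.append_assoc, List.cons_append]
  rw [List.replicate_succ']

theorem exists_k (L : ℝ) (u : Word) : ∃ k, L < (K (ph u k) : ℝ) := by
  obtain ⟨n, hn⟩ := exists_nat_gt L
  refine ⟨n, lt_of_lt_of_le hn ?_⟩
  have h := length_le_K (ph u n)
  have h2 : n ≤ (ph u n).length := by
    simp only [ph, List.length_append, List.length_cons, List.length_replicate]
    omega
  exact_mod_cast h2.trans h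

end STPM

open STPM in
theorem specSTP : SpecSTP := by
  classical
  intro L hL
  refine Set.ncard_le_ncard_of_injOn (fun u => ph u (Nat.find (exists_k L u))) ?_ ?_ (stop_finite hL)
  · intro u hu
    have hu' : (K u : ℝ) ≤ L := hu
    refine ⟨Nat.find_spec (exists_k L u), ?_⟩
    intro u' a h
    rcases hk : Nat.find (exists_k L u) with _ | m
    · simp only [hk] at h
      have h1 : ph u 0 = u ++ [true] := by simp [ph]
      rw [h1] at h
      have := List.append_inj_left' h rfl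
      rw [← this]
      exact hu'
    · simp only [hk] at h
      rw [ph_succ] at h
      have := List.append_inj_left' h rfl
      rw [← this]
      exact not_lt.1 (Nat.find_min (exists_k L u) (by omega))
  · intro u _ u' _ h
    exact ph_inj h

end Pool.Agent.Lib.MP_d0a18a_nt.ZP
end

section
set_option autoImplicit false

namespace Pool.Agent.Lib.MP_d0a18a_nt.ZP

theorem specSUB : SpecSUB := by
  intro L M hL hM
  set SL : Set Word := {w : Word | (K w : ℝ) ≤ L} with hSL
  set SM : Set Word := {w : Word | (K w : ℝ) ≤ M} with hSM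
  have fL : SL.Finite := finite_K_le L
  have fM : SM.Finite := finite_K_le M
  set P : Set (Word × (Bool × Word)) := SL ×ˢ ((Set.univ : Set Bool) ×ˢ SM) with hP
  have fP : P.Finite := fL.prod (Set.finite_univ.prod fM)
  set φ : Word × (Bool × Word) → Word := fun p => p.1 ++ p.2.1 :: p.2.2 with hφ
  have hsub : {w : Word | (K w : ℝ) ≤ L * M} ⊆ SL ∪ φ '' P := by
    intro w hw
    have hw' : (K w : ℝ) ≤ L * M := hw
    by_cases h : (K w : ℝ) ≤ L
    · exact Or.inl h
    · right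
      obtain ⟨s, hs, r, hr⟩ := exists_stop w (not_le.1 h)
      rcases List.eq_nil_or_concat s with hn | ⟨u, a, hu⟩
      · exfalso
        subst hn
        have h1 := hs.1
        rw [K_nil] at h1
        push_cast at h1
        linarith
      · rw [List.concat_eq_append] at hu
        subst hu
        refine ⟨(u, (a, r)), ⟨hs.2 u a rfl, Set.mem_univ _, ?_⟩, ?_⟩
        · show (K r : ℝ) ≤ M
          have h1 : (K (u ++ [a]) : ℝ) * K r ≤ K w := by
            rw [← hr]
            exact_mod_cast K_mul_le (u ++ [a]) r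
          have h2 := hs.1
          have h3 : (1 : ℝ) ≤ K r := by exact_mod_cast K_pos r
          by_contra hc
          have hc' : M < (K r : ℝ) := not_le.1 hc
          nlinarith
        · show u ++ a :: r = w
          rw [← hr]
          simp
  have h1 : A (L * M) ≤ SL.ncard + (φ '' P).ncard := by
    unfold A
    exact (Set.ncard_le_ncard hsub (fL.union (fP.image φ))).trans (Set.ncard_union_le _ _)
  have h2 : (φ '' P).ncard ≤ P.ncard := Set.ncard_image_le fP
  have h3 : P.ncard = A L * (2 * A M) := by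
    rw [hP, Set.ncard_prod, Set.ncard_prod, Set.ncard_univ, Nat.card_eq_fintype_card,
      Fintype.card_bool]
    rfl
  have h4 : SL.ncard = A L := rfl
  have h5 := A_pos hM
  have h6 : A L ≤ A L * A M := Nat.le_mul_of_pos_right _ h5
  calc A (L * M) ≤ A L + A L * (2 * A M) := by rw [h4] at h1; omega
    _ ≤ A L * A M + A L * (2 * A M) := by omega
    _ = 3 * (A L * A M) := by ring

end Pool.Agent.Lib.MP_d0a18a_nt.ZP
end

section
/-!
# TEL: adding up the blocks for one direction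
-/
set_option autoImplicit false

namespace Pool.Agent.Lib.MP_d0a18a_nt.ZP

open Finset

namespace TELM

theorem pr_nonneg {β : ℝ} (h : 0 ≤ β) (x : ℕ × ℕ) : 0 ≤ pr β x := by
  unfold pr; positivity

/-- a lower level of the projection determines the higher ones -/
theorem fl_add (β : ℝ) (q b d : ℕ) (x : ℕ × ℕ) : fl β q (b + d) x = fl β q b x / q ^ d := by
  unfold fl
  rw [← Nat.floor_div_natCast]
  congr 1
  push_cast
  rw [pow_add, div_div]

theorem fl_mono_eq {β : ℝ} {q b a : ℕ} (h : b ≤ a) {x y : ℕ × ℕ} (e : fl β q b x = fl β q b y) :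
    fl β q a x = fl β q a y := by
  obtain ⟨d, rfl⟩ := Nat.exists_eq_add_of_le h
  rw [fl_add, fl_add, e]

/-- bounds for the projection of a point in terms of its cell -/
theorem pr_bounds {β : ℝ} (h0 : 0 ≤ β) (h1 : β ≤ 1) {q : ℕ} (hq : 2 ≤ q) (a : ℕ) (y : ℕ × ℕ) :
    ((cell q a y).1 : ℝ) + β * ((cell q a y).2 : ℝ) ≤ pr β y / (q : ℝ) ^ a ∧
    pr β y / (q : ℝ) ^ a < ((cell q a y).1 : ℝ) + β * ((cell q a y).2 : ℝ) + 2 := by
  have hq0 : (0 : ℝ) < (q : ℝ) ^ a := by
    have : (0 : ℝ) < q := by exact_mod_cast (by omega : 0 < q)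
    positivity
  have hqn : 0 < q ^ a := by positivity
  unfold cell pr
  have a1 : ((y.1 / q ^ a : ℕ) : ℝ) * (q : ℝ) ^ a ≤ (y.1 : ℝ) := by
    exact_mod_cast Nat.div_mul_le_self y.1 (q ^ a)
  have a2 : ((y.2 / q ^ a : ℕ) : ℝ) * (q : ℝ) ^ a ≤ (y.2 : ℝ) := by
    exact_mod_cast Nat.div_mul_le_self y.2 (q ^ a)
  have b1 : (y.1 : ℝ) < (((y.1 / q ^ a : ℕ) : ℝ) + 1) * (q : ℝ) ^ a := by
    exact_mod_cast Nat.lt_mul_of_div_lt (Nat.lt_succ_self (y.1 / q ^ a)) hqn
  have b2 : (y.2 : ℝ) < (((y.2 / q ^ a : ℕ) : ℝ) + 1) * (q : ℝ) ^ a := by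
    exact_mod_cast Nat.lt_mul_of_div_lt (Nat.lt_succ_self (y.2 / q ^ a)) hqn
  rw [le_div_iff₀ hq0, div_lt_iff₀ hq0]
  constructor
  · nlinarith [mul_le_mul_of_nonneg_left a2 h0]
  · nlinarith [mul_le_mul_of_nonneg_left b2.le h0, mul_le_mul_of_nonneg_right h1 hq0.le]

open Classical in
theorem card_vals {β : ℝ} (h0 : 0 ≤ β) (h1 : β ≤ 1) {q : ℕ} (hq : 2 ≤ q) (a : ℕ)
    (Y : Finset (ℕ × ℕ)) (x : ℕ × ℕ) :
    ((Y.filter (fun y => cell q a y = cell q a x)).image (fl β q a)).card ≤ 3 := by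
  set r : ℝ := ((cell q a x).1 : ℝ) + β * ((cell q a x).2 : ℝ) with hr
  have hr0 : 0 ≤ r := by positivity
  have hsub : (Y.filter (fun y => cell q a y = cell q a x)).image (fl β q a)
      ⊆ Finset.Icc ⌊r⌋₊ (⌊r⌋₊ + 2) := by
    intro v hv
    obtain ⟨y, hy, rfl⟩ := Finset.mem_image.1 hv
    have hc := (Finset.mem_filter.1 hy).2
    have hb := pr_bounds h0 h1 hq a y
    rw [hc, ← hr] at hb
    rw [Finset.mem_Icc]
    unfold fl
    constructor
    · exact Nat.floor_le_floor hb.1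
    · have := Nat.floor_le_floor hb.2.le
      rwa [show r + 2 = r + ((2 : ℕ) : ℝ) by norm_num, Nat.floor_add_natCast hr0] at this
  refine (Finset.card_le_card hsub).trans ?_
  rw [Nat.card_Icc]
  omega

end TELM

open TELM in
theorem specTEL (hENA : SpecENA) (hENB : SpecENB) : SpecTEL := by
  classical
  intro q Y β J t hq hY h0 h1 ht hJ
  have key : ∀ j < J, Hs Y (fl β q (t j))
      + ((∑ x ∈ Y, Real.log (1 / CP Y (fl β q (t (j + 1))) (cell q (t j)) x)) / (Y.card : ℝ)
        - Real.log 3) ≤ Hs Y (fl β q (t (j + 1))) := by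
    intro j hj
    have h := hENB (ℕ × ℕ) ℕ ℕ (ℕ × ℕ) Y (fl β q (t (j + 1))) (fl β q (t j)) (cell q (t j)) 3 hY
      (by norm_num) (fun x _ y _ e => fl_mono_eq (ht j hj).le e)
      (fun x _ => by
        have h3 := card_vals h0 h1 hq (t j) Y x
        have h4 : ((((Y.filter (fun y => cell q (t j) y = cell q (t j) x)).image
          (fl β q (t j))).card : ℕ) : ℝ) ≤ 3 := by exact_mod_cast h3
        refine le_trans (le_of_eq ?_) h4
        congr <;> exact Subsingleton.elim _ _)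
    linarith
  have sum : ∀ n ≤ J, Hs Y (fl β q (t 0)) + ∑ j ∈ range n,
      ((∑ x ∈ Y, Real.log (1 / CP Y (fl β q (t (j + 1))) (cell q (t j)) x)) / (Y.card : ℝ)
        - Real.log 3) ≤ Hs Y (fl β q (t n)) := by
    intro n
    induction n with
    | zero => intro _; simp
    | succ n ih =>
      intro hn
      have h2 := ih (by omega)
      have h3 := key n (by omega)
      rw [Finset.sum_range_succ]
      linarith
  have hs := sum J le_rfl
  have a0 := (hENA (ℕ × ℕ) ℕ Y (fl β q (t 0)) hY).1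
  have a1 := (hENA (ℕ × ℕ) ℕ Y (fl β q (t J)) hY).2
  rw [hJ] at hs a1
  have a2 : Hs Y (fl β q 0) ≤ Real.log ((Y.image (fl β q 0)).card : ℝ) := by
    refine a1.trans (le_of_eq ?_)
    congr <;> exact Subsingleton.elim _ _
  linarith

end Pool.Agent.Lib.MP_d0a18a_nt.ZP
end

section
/-!
# SUM: adding up all levels (three directions)
-/
set_option autoImplicit false

namespace Pool.Agent.Lib.MP_d0a18a_nt.ZP

open Finset

namespace SUMM

/-- the average conditional entropy at one level -/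
noncomputable def av {β : Type} (X : Finset (ℕ × ℕ)) (q i : ℕ) (f : ℕ × ℕ → β) : ℝ :=
  (∑ x ∈ X, Hs (cls X (cell q (i + 1)) x) f) / (X.card : ℝ)

theorem cell_zero (q : ℕ) (x : ℕ × ℕ) : cell q 0 x = x := by
  simp [cell]

theorem cell_nest (q i : ℕ) (x y : ℕ × ℕ) (h : cell q i x = cell q i y) :
    cell q (i + 1) x = cell q (i + 1) y := by
  have e : ∀ z : ℕ × ℕ, cell q (i + 1) z = ((cell q i z).1 / q, (cell q i z).2 / q) := by
    intro z
    simp [cell, pow_succ, Nat.div_div_eq_div_mul]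
  rw [e, e, h]

theorem Hs_nonneg (hENA : SpecENA) {α β : Type} (X : Finset α) (f : α → β) (h : X.Nonempty) :
    0 ≤ Hs X f := (hENA α β X f h).1

theorem Hs_cell_zero (X : Finset (ℕ × ℕ)) (hX : X.Nonempty) (q : ℕ) :
    Hs X (cell q 0) = Real.log (X.card : ℝ) := by
  classical
  have hc : (0 : ℝ) < (X.card : ℝ) := by exact_mod_cast Finset.card_pos.2 hX
  have e : Hs X (cell q 0) = (∑ _x ∈ X, Real.log (X.card : ℝ)) / (X.card : ℝ) := by
    unfold Hs
    congr 1
    apply Finset.sum_congr rfl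
    intro x hx
    have : ∀ inst : DecidablePred (fun y => cell q 0 y = cell q 0 x),
        @Finset.filter _ (fun y => cell q 0 y = cell q 0 x) inst X = {x} := by
      intro inst
      ext y
      rw [mem_filter, mem_singleton, cell_zero, cell_zero]
      exact ⟨fun h => h.2, fun h => ⟨h ▸ hx, h⟩⟩
    rw [this]
    simp
  rw [e, Finset.sum_const, nsmul_eq_mul]
  field_simp

theorem tele_cell (hEXC : SpecEXC) (X : Finset (ℕ × ℕ)) (hX : X.Nonempty) (q n : ℕ) :
    ∑ i ∈ range n, av X q i (cell q i) = Hs X (cell q 0) - Hs X (cell q n) := by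
  induction n with
  | zero => simp
  | succ n ih =>
    rw [sum_range_succ, ih]
    have h := hEXC (ℕ × ℕ) (ℕ × ℕ) (ℕ × ℕ) X (cell q n) (cell q (n + 1)) hX
      (fun x _ y _ e => cell_nest q n x y e)
    unfold av
    linarith

theorem tele_fl (hENC : SpecENC) (X : Finset (ℕ × ℕ)) (hX : X.Nonempty) (β : ℝ)
    (h0 : 0 ≤ β) (h1 : β ≤ 1) (q n : ℕ) (hq : 2 ≤ q) :
    ∑ i ∈ range n, av X q i (fl β q i) ≤ Hs X (fl β q 0) - Hs X (fl β q n) + n * Real.log 3 := by
  classical
  induction n with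
  | zero => simp
  | succ n ih =>
    rw [sum_range_succ]
    have h := hENC (ℕ × ℕ) ℕ ℕ (ℕ × ℕ) X (fl β q n) (fl β q (n + 1)) (cell q (n + 1)) 3 hX
      (by norm_num) (fun x _ y _ e => TELM.fl_mono_eq (Nat.le_succ n) e)
      (fun x _ => by
        have h3 := TELM.card_vals h0 h1 hq (n + 1) X x
        have h4 : ((((X.filter (fun y => cell q (n + 1) y = cell q (n + 1) x)).image
          (fl β q (n + 1))).card : ℕ) : ℝ) ≤ 3 := by exact_mod_cast h3
        unfold cls
        refine le_trans (le_of_eq ?_) h4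
        congr <;> exact Subsingleton.elim _ _)
    push_cast
    unfold av at ih ⊢
    linarith

/-- entropy at the top level -/
theorem Hs_top (hENA : SpecENA) (X : Finset (ℕ × ℕ)) (hX : X.Nonempty) (q n B : ℕ)
    (hB : ∀ x ∈ X, x.1 / q ^ n ≤ B ∧ x.2 / q ^ n ≤ B) :
    Hs X (cell q n) ≤ 2 * Real.log (B + 1) := by
  classical
  have h := (hENA (ℕ × ℕ) (ℕ × ℕ) X (cell q n) hX).2
  have hsub : X.image (cell q n) ⊆ range (B + 1) ×ˢ range (B + 1) := by
    intro z hz
    obtain ⟨x, hx, rfl⟩ := mem_image.1 hz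
    have := hB x hx
    rw [mem_product, mem_range, mem_range]
    exact ⟨Nat.lt_succ_of_le this.1, Nat.lt_succ_of_le this.2⟩
  have hc := card_le_card hsub
  rw [card_product, card_range] at hc
  have hpos : 0 < (X.image (cell q n)).card := card_pos.2 (hX.image _)
  have h2 : Real.log ((X.image (cell q n)).card : ℝ) ≤ Real.log (((B : ℝ) + 1) * ((B : ℝ) + 1)) := by
    apply Real.log_le_log
    · exact_mod_cast hpos
    · exact_mod_cast hc
  have h3 : (0 : ℝ) < (B : ℝ) + 1 := by positivity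
  rw [Real.log_mul h3.ne' h3.ne'] at h2
  have h4 : Hs X (cell q n) ≤ Real.log ((X.image (cell q n)).card : ℝ) := by
    refine h.trans (le_of_eq ?_)
    congr <;> exact Subsingleton.elim _ _
  linarith

theorem Dn_mono {M N : ℝ} (h : M ≤ N) : Dn M ⊆ Dn N := by
  classical
  intro d hd
  unfold Dn at hd ⊢
  rw [mem_filter, mem_range] at hd ⊢
  have := Nat.floor_le_floor h
  exact ⟨by omega, hd.2⟩

/-- entropy of the projection at level 0 -/
theorem Hs_fl (hENA : SpecENA) (hDNL : SpecDNL) (X : Finset (ℕ × ℕ)) (hX : X.Nonempty) (q : ℕ)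
    (v : Word) (R L : ℝ) (hq : 2 ≤ q) (h : ∀ x ∈ X, ∃ w : Word, xv w = x ∧ (K w : ℝ) ≤ R)
    (hv : (K v : ℝ) ≤ L) :
    Hs X (fl (be v) q 0) ≤ Real.log ((Dn (2 * R * L)).card : ℝ) := by
  classical
  have h1 := (hENA (ℕ × ℕ) ℕ X (fl (be v) q 0) hX).2
  have h2 := hDNL q X v R L hq h hv
  have hpos : 0 < (X.image (fl (be v) q 0)).card := card_pos.2 (hX.image _)
  have h3 : Real.log ((X.image (fl (be v) q 0)).card : ℝ) ≤ Real.log ((Dn (2 * R * L)).card : ℝ) := by
    apply Real.log_le_log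
    · exact_mod_cast hpos
    · exact_mod_cast h2
  refine le_trans (le_of_le_of_eq h1 ?_) h3
  congr <;> exact Subsingleton.elim _ _

/-- the average over the classes and over `ω` -/
theorem avg_lev {ι : Type} (X : Finset (ℕ × ℕ)) (hX : X.Nonempty) (Ω : Finset ι) (v1 v2 : ι → Word)
    (q i : ℕ) (E : ℝ)
    (h : ∀ x ∈ X, 2 * Hs (cls X (cell q (i + 1)) x) (cell q i)
        ≤ Hs (cls X (cell q (i + 1)) x) (fl 0 q i)
          + (∑ ω ∈ Ω, (Hs (cls X (cell q (i + 1)) x) (fl (be (v1 ω)) q i)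
              + Hs (cls X (cell q (i + 1)) x) (fl (be (v2 ω)) q i))) / (Ω.card : ℝ) + E) :
    2 * av X q i (cell q i) ≤ av X q i (fl 0 q i)
      + (∑ ω ∈ Ω, (av X q i (fl (be (v1 ω)) q i) + av X q i (fl (be (v2 ω)) q i))) / (Ω.card : ℝ)
      + E := by
  have hc : (0 : ℝ) < (X.card : ℝ) := by exact_mod_cast Finset.card_pos.2 hX
  have h1 := Finset.sum_le_sum h
  rw [← Finset.mul_sum, Finset.sum_add_distrib, Finset.sum_add_distrib, Finset.sum_const,
    nsmul_eq_mul, ← Finset.sum_div, Finset.sum_comm] at h1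
  simp_rw [Finset.sum_add_distrib] at h1
  unfold av
  have e : (∑ ω ∈ Ω, ((∑ x ∈ X, Hs (cls X (cell q (i + 1)) x) (fl (be (v1 ω)) q i)) / (X.card : ℝ) +
      (∑ x ∈ X, Hs (cls X (cell q (i + 1)) x) (fl (be (v2 ω)) q i)) / (X.card : ℝ))) / (Ω.card : ℝ)
      = ((∑ ω ∈ Ω, ∑ x ∈ X, Hs (cls X (cell q (i + 1)) x) (fl (be (v1 ω)) q i) +
      ∑ ω ∈ Ω, ∑ x ∈ X, Hs (cls X (cell q (i + 1)) x) (fl (be (v2 ω)) q i)) / (Ω.card : ℝ))
        / (X.card : ℝ) := by
    rw [Finset.sum_add_distrib, ← Finset.sum_div, ← Finset.sum_div]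
    ring
  rw [e]
  have h2 : (2 * ∑ x ∈ X, Hs (cls X (cell q (i + 1)) x) (cell q i)) / (X.card : ℝ) ≤
      (∑ x ∈ X, Hs (cls X (cell q (i + 1)) x) (fl 0 q i) +
        (∑ ω ∈ Ω, ∑ x ∈ X, Hs (cls X (cell q (i + 1)) x) (fl (be (v1 ω)) q i) +
      ∑ ω ∈ Ω, ∑ x ∈ X, Hs (cls X (cell q (i + 1)) x) (fl (be (v2 ω)) q i)) / (Ω.card : ℝ) +
        (X.card : ℝ) * E) / (X.card : ℝ) := by
    gcongr
  rw [add_div, add_div, mul_div_cancel_left₀ _ hc.ne'] at h2
  rw [mul_div_assoc] at h2
  exact h2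

end SUMM

open SUMM in
theorem specSUM (hSTP : SpecSTP) (hXCT : SpecXCT) (hLEV : SpecLEV) (hENC : SpecENC) (hEXC : SpecEXC)
    (hENA : SpecENA) (hDNL : SpecDNL) : SpecSUM := by
  classical
  intro δ c C hC hδ
  obtain ⟨C3, hC3, hL⟩ := hLEV δ c C hC hδ
  have hl3 : 0 ≤ Real.log 3 := Real.log_nonneg (by norm_num)
  refine ⟨C3 + 3 * Real.log 3, by linarith, ?_⟩
  intro h ε ι Ω v1 v2 hh hΩ hDir
  obtain ⟨hc, hC', hA⟩ := hC
  set q : ℕ := 2 ^ h with hq
  have hq2 : 2 ≤ q := by
    rw [hq]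
    calc 2 = 2 ^ 1 := by norm_num
      _ ≤ 2 ^ h := Nat.pow_le_pow_right (by norm_num) hh
  have hq0 : (0 : ℝ) < (q : ℝ) := by exact_mod_cast (by omega : 0 < q)
  have hqR : (q : ℝ) = 2 ^ h := by rw [hq]; push_cast; rfl
  -- bound for the words
  obtain ⟨L, hL1, hLv⟩ : ∃ L : ℝ, 1 ≤ L ∧ ∀ ω ∈ Ω, (K (v1 ω) : ℝ) ≤ L ∧ (K (v2 ω) : ℝ) ≤ L := by
    refine ⟨1 + ∑ ω ∈ Ω, ((K (v1 ω) : ℝ) + (K (v2 ω) : ℝ)), ?_, ?_⟩
    · have : 0 ≤ ∑ ω ∈ Ω, ((K (v1 ω) : ℝ) + (K (v2 ω) : ℝ)) :=
        Finset.sum_nonneg (fun _ _ => by positivity)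
      linarith
    · intro ω hω
      have h1 : (K (v1 ω) : ℝ) + (K (v2 ω) : ℝ) ≤ ∑ ω ∈ Ω, ((K (v1 ω) : ℝ) + (K (v2 ω) : ℝ)) :=
        Finset.single_le_sum (f := fun ω => (K (v1 ω) : ℝ) + (K (v2 ω) : ℝ))
          (fun _ _ => by positivity) hω
      have h2 : (0 : ℝ) ≤ (K (v1 ω) : ℝ) := by positivity
      have h3 : (0 : ℝ) ≤ (K (v2 ω) : ℝ) := by positivity
      constructor <;> linarith
  set C5 : ℝ := 36 * q * L + (4 * Real.log (18 * q + 1) + 2 * |Real.log c|) with hC5
  have hlq : 0 ≤ Real.log (18 * (q : ℝ) + 1) := Real.log_nonneg (by linarith)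
  have h36 : 36 ≤ 36 * (q : ℝ) * L := by
    have : (2 : ℝ) ≤ q := by exact_mod_cast hq2
    nlinarith
  have habs := abs_nonneg (Real.log c)
  refine ⟨C5, by rw [hC5]; linarith, ?_⟩
  intro n hn
  -- the set
  set T : ℝ := 2 * (q : ℝ) ^ (n + 1) with hT
  have hqp : 1 ≤ (q : ℝ) ^ (n + 1) := one_le_pow₀ (by exact_mod_cast (by omega : 1 ≤ q))
  have hT1 : 1 ≤ T := by rw [hT]; linarith
  have hfin := stop_finite hT1
  set W : Finset Word := hfin.toFinset.image (fun v => true :: v) with hW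
  have hmem : ∀ w ∈ W, ∃ v ∈ stop T, w = true :: v := by
    intro w hw
    rw [hW, Finset.mem_image] at hw
    obtain ⟨v, hv, rfl⟩ := hw
    exact ⟨v, hfin.mem_toFinset.1 hv, rfl⟩
  set X : Finset (ℕ × ℕ) := W.image xv with hXdef
  have hXw : ∀ x ∈ X, ∃ w : Word, xv w = x ∧ (K w : ℝ) ≤ 9 * T := by
    intro x hx
    obtain ⟨w, hw, rfl⟩ := Finset.mem_image.1 hx
    refine ⟨w, rfl, ?_⟩
    obtain ⟨v, hv, rfl⟩ := hmem w hw
    have h1 := stop_le hT1 hv
    have h2 : (K (true :: v) : ℝ) ≤ 3 * K v := by exact_mod_cast K_cons_le true v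
    linarith
  have hXc : c * T ^ (2 * δ) ≤ (X.card : ℝ) := by
    have h1 : (W.image xv).card = W.card := by
      apply Finset.card_image_of_injOn
      intro w hw w' hw' h
      obtain ⟨v, _, rfl⟩ := hmem w hw
      obtain ⟨v', _, rfl⟩ := hmem w' hw'
      exact hXCT _ _ (by simp) (by simp) h
    have h2 : W.card = (stop T).ncard := by
      rw [hW, Finset.card_image_of_injective, Set.ncard_eq_toFinset_card _ hfin]
      intro a b h
      simpa using h
    rw [hXdef, h1, h2]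
    have h3 := (hA T hT1).1
    have h4 : (A T : ℝ) ≤ ((stop T).ncard : ℝ) := by exact_mod_cast hSTP T hT1
    linarith
  have hTpos : 0 < T ^ (2 * δ) := Real.rpow_pos_of_pos (by linarith) _
  have hXc0 : (0 : ℝ) < (X.card : ℝ) := lt_of_lt_of_le (mul_pos hc hTpos) hXc
  have hXne : X.Nonempty := by
    rw [← Finset.card_pos]
    exact_mod_cast hXc0
  have hlogX : Real.log c + 2 * δ * (n * (h * Real.log 2)) ≤ Real.log (X.card : ℝ) := by
    have h1 : Real.log (c * T ^ (2 * δ)) ≤ Real.log (X.card : ℝ) :=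
      Real.log_le_log (mul_pos hc hTpos) hXc
    rw [Real.log_mul hc.ne' hTpos.ne', Real.log_rpow (by linarith)] at h1
    have h2 : n * (h * Real.log 2) ≤ Real.log T := by
      have h3 : Real.log T = Real.log 2 + (n + 1) * (h * Real.log 2) := by
        rw [hT, Real.log_mul (by norm_num) (by positivity), Real.log_pow, hqR, Real.log_pow]
        push_cast
        ring
      rw [h3]
      have h4 : 0 ≤ Real.log 2 := Real.log_nonneg (by norm_num)
      have h5 : 0 ≤ (h : ℝ) * Real.log 2 := by positivity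
      linarith
    have h6 : 2 * δ * (n * (h * Real.log 2)) ≤ 2 * δ * Real.log T :=
      mul_le_mul_of_nonneg_left h2 (by linarith)
    linarith
  -- the levels
  set E : ℝ := (2 * δ - 1 + ε) * (h * Real.log 2) + Real.log (h + 1) + C3 with hE
  have hlev : ∀ i ∈ range n, 2 * av X q i (cell q i) ≤ av X q i (fl 0 q i)
      + (∑ ω ∈ Ω, (av X q i (fl (be (v1 ω)) q i) + av X q i (fl (be (v2 ω)) q i))) / (Ω.card : ℝ)
      + E := by
    intro i hi
    rw [mem_range] at hi
    apply avg_lev X hXne Ω v1 v2 q i E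
    intro x hx
    have hTi : 2 * (((2 ^ h : ℕ) : ℝ)) ^ (i + 2) ≤ T := by
      rw [hT, ← hq]
      have : (q : ℝ) ^ (i + 2) ≤ (q : ℝ) ^ (n + 1) :=
        pow_le_pow_right₀ (by exact_mod_cast (by omega : 1 ≤ q)) (by omega)
      linarith
    have h1 := hL T W hT1 hmem h i ε ι Ω v1 v2 hh hTi hΩ hDir x (by simpa [hXdef] using hx)
    rw [hE, ← add_assoc, ← add_assoc]
    convert h1
  have hsum := Finset.sum_le_sum hlev
  rw [← Finset.mul_sum, Finset.sum_add_distrib, Finset.sum_add_distrib, Finset.sum_const,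
    nsmul_eq_mul, card_range, ← Finset.sum_div, Finset.sum_comm] at hsum
  simp_rw [Finset.sum_add_distrib] at hsum
  -- bounds of the projections
  set DL : ℝ := Real.log ((Dn (2 * (9 * T) * L)).card : ℝ) with hDL
  have hpj : ∀ v : Word, (K v : ℝ) ≤ L →
      ∑ i ∈ range n, av X q i (fl (be v) q i) ≤ DL + n * Real.log 3 := by
    intro v hv
    have h1 := tele_fl hENC X hXne (be v) (be_nonneg v) (be_le_one v) q n hq2
    have h2 := Hs_fl hENA hDNL X hXne q v (9 * T) L hq2 hXw hv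
    have h3 := Hs_nonneg hENA X (fl (be v) q n) hXne
    rw [hDL]
    linarith
  have hp0 : ∑ i ∈ range n, av X q i (fl 0 q i) ≤ DL + n * Real.log 3 := by
    have h1 := hpj [] (by rw [K_nil]; simpa using hL1)
    rwa [be_nil] at h1
  have hpO : ∀ v : ι → Word, (∀ ω ∈ Ω, (K (v ω) : ℝ) ≤ L) →
      ∑ ω ∈ Ω, ∑ i ∈ range n, av X q i (fl (be (v ω)) q i) ≤ Ω.card * (DL + n * Real.log 3) := by
    intro v hv
    rw [← nsmul_eq_mul, ← Finset.sum_const]
    exact Finset.sum_le_sum (fun ω hω => hpj (v ω) (hv ω hω))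
  have hO1 := hpO v1 (fun ω hω => (hLv ω hω).1)
  have hO2 := hpO v2 (fun ω hω => (hLv ω hω).2)
  have hOc : (0 : ℝ) < (Ω.card : ℝ) := by exact_mod_cast Finset.card_pos.2 hΩ
  have hO : (∑ ω ∈ Ω, ∑ i ∈ range n, av X q i (fl (be (v1 ω)) q i) +
      ∑ ω ∈ Ω, ∑ i ∈ range n, av X q i (fl (be (v2 ω)) q i)) / (Ω.card : ℝ)
      ≤ 2 * (DL + n * Real.log 3) := by
    rw [div_le_iff₀ hOc]
    linarith
  rw [tele_cell hEXC X hXne q n, Hs_cell_zero X hXne q] at hsum
  -- the top level
  have htop : Hs X (cell q n) ≤ 2 * Real.log (18 * q + 1) := by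
    have h1 := Hs_top hENA X hXne q n (18 * q) (by
      intro x hx
      obtain ⟨w, rfl, hw⟩ := hXw x hx
      have hK : K w ≤ 18 * q * q ^ n := by
        have : (K w : ℝ) ≤ 18 * (q : ℝ) * (q : ℝ) ^ n := by
          rw [hT, pow_succ] at hw
          linarith
        exact_mod_cast this
      have hqn : 0 < q ^ n := by positivity
      have e1 : (xv w).1 ≤ 18 * q * q ^ n := hK
      have e2 : (xv w).2 ≤ 18 * q * q ^ n := (xv_snd_le w).trans hK
      exact ⟨(Nat.div_le_iff_le_mul_add_pred hqn).2 (by nlinarith),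
        (Nat.div_le_iff_le_mul_add_pred hqn).2 (by nlinarith)⟩)
    push_cast at h1
    exact h1
  -- conclusion
  have hDn : DL ≤ Real.log ((Dn (C5 * 2 ^ (h * n))).card : ℝ) := by
    rw [hDL]
    apply Real.log_le_log
    · have : 0 < (Dn (2 * (9 * T) * L)).card := by
        apply card_pos.2
        refine ⟨1, ?_⟩
        unfold Dn
        rw [mem_filter, mem_range]
        have : 1 ≤ ⌊2 * (9 * T) * L⌋₊ := Nat.le_floor (by push_cast; nlinarith)
        exact ⟨by omega, [], K_nil⟩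
      exact_mod_cast this
    · have : 2 * (9 * T) * L ≤ C5 * 2 ^ (h * n) := by
        have e : (2 : ℝ) ^ (h * n) = (q : ℝ) ^ n := by rw [hqR, ← pow_mul]
        rw [e, hC5, hT, pow_succ]
        have : 0 ≤ (4 * Real.log (18 * q + 1) + 2 * |Real.log c|) * (q : ℝ) ^ n := by positivity
        nlinarith
      exact_mod_cast card_le_card (Dn_mono this)
  have habs2 := neg_abs_le (Real.log c)
  have hfinal : 2 * (Real.log c + 2 * δ * (n * (h * Real.log 2)) - 2 * Real.log (18 * q + 1))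
      ≤ 3 * (DL + n * Real.log 3) + n * E := by linarith
  rw [hE] at hfinal
  have h9 : (n : ℝ) * ((2 * δ + 1 - ε) * (h * Real.log 2) - Real.log (h + 1) -
      (C3 + 3 * Real.log 3)) ≤ 3 * DL + (4 * Real.log (18 * q + 1) + 2 * |Real.log c|) := by
    nlinarith
  have h10 : (4 * Real.log (18 * q + 1) + 2 * |Real.log c|) / 3 ≤ C5 := by
    rw [hC5]
    have : 0 ≤ 4 * Real.log (18 * (q : ℝ) + 1) + 2 * |Real.log c| := by positivity
    linarith
  linarith

end Pool.Agent.Lib.MP_d0a18a_nt.ZP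
end
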