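import Pool.Agent.Lib.MP_d0a18a_nt.ZP.Spec
import Pool.Agent.Lib.MP_d0a18a_nt.ZP.Spec2

section
/-!
# EXI: exact order of growth of the number of words
-/
set_option autoImplicit false

namespace Pool.Agent.Lib.MP_d0a18a_nt.ZP

namespace EXIM

open Filter Topology

/-- logarithm of the counting function along powers of two -/
noncomputable def u (k : ℕ) : ℝ := Real.log (A ((2 : ℝ) ^ k) : ℝ)

theorem one_le_pow' (k : ℕ) : (1 : ℝ) ≤ 2 ^ k := one_le_pow₀ (by norm_num)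

theorem A_real_pos {L : ℝ} (h : 1 ≤ L) : (0 : ℝ) < (A L : ℝ) := by
  exact_mod_cast A_pos h

theorem A_real_one {L : ℝ} (h : 1 ≤ L) : (1 : ℝ) ≤ (A L : ℝ) := by
  exact_mod_cast A_pos h

theorem u_nonneg (k : ℕ) : 0 ≤ u k := Real.log_nonneg (A_real_one (one_le_pow' k))

theorem exp_u (k : ℕ) : Real.exp (u k) = (A ((2 : ℝ) ^ k) : ℝ) :=
  Real.exp_log (A_real_pos (one_le_pow' k))

/-- the constant -/
noncomputable def D : ℝ := Real.log (3 * (A 6 : ℝ))

theorem log3_le_D : Real.log 3 ≤ D := by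
  unfold D
  apply Real.log_le_log (by norm_num)
  have := A_real_one (L := 6) (by norm_num)
  linarith

theorem D_nonneg : 0 ≤ D := le_trans (Real.log_nonneg (by norm_num)) log3_le_D

theorem u_add_le (hSUB : SpecSUB) (k l : ℕ) : u (k + l) ≤ u k + u l + D := by
  have h := hSUB ((2 : ℝ) ^ k) ((2 : ℝ) ^ l) (one_le_pow' k) (one_le_pow' l)
  rw [← pow_add] at h
  have h' : (A ((2 : ℝ) ^ (k + l)) : ℝ) ≤ 3 * ((A ((2 : ℝ) ^ k) : ℝ) * (A ((2 : ℝ) ^ l) : ℝ)) := by
    exact_mod_cast h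
  have hk := A_real_pos (one_le_pow' k)
  have hl := A_real_pos (one_le_pow' l)
  have h2 : u (k + l) ≤ Real.log (3 * ((A ((2 : ℝ) ^ k) : ℝ) * (A ((2 : ℝ) ^ l) : ℝ))) :=
    Real.log_le_log (A_real_pos (one_le_pow' _)) h'
  rw [Real.log_mul (by norm_num) (by positivity), Real.log_mul hk.ne' hl.ne'] at h2
  have := log3_le_D
  unfold u at *
  linarith

theorem u_add_ge (hSUB : SpecSUB) (hSUP : SpecSUP) (k l : ℕ) : u k + u l ≤ u (k + l) + D := by
  have h := hSUP ((2 : ℝ) ^ k) ((2 : ℝ) ^ l) (one_le_pow' k) (one_le_pow' l)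
  rw [← pow_add] at h
  have h1 := hSUB 6 ((2 : ℝ) ^ (k + l)) (by norm_num) (one_le_pow' _)
  have h' : (A ((2 : ℝ) ^ k) : ℝ) * (A ((2 : ℝ) ^ l) : ℝ)
      ≤ (3 * (A 6 : ℝ)) * (A ((2 : ℝ) ^ (k + l)) : ℝ) := by
    have := h.trans h1
    rw [mul_assoc]
    exact_mod_cast this
  have hk := A_real_pos (one_le_pow' k)
  have hl := A_real_pos (one_le_pow' l)
  have hkl := A_real_pos (one_le_pow' (k + l))
  have h6 := A_real_pos (L := 6) (by norm_num)
  have h2 := Real.log_le_log (by positivity) h'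
  rw [Real.log_mul hk.ne' hl.ne', Real.log_mul (by positivity) hkl.ne'] at h2
  unfold u D
  linarith

theorem u_le (hSUB : SpecSUB) (n : ℕ) : u (n + 1) ≤ ((n : ℝ) + 1) * (u 1 + D) := by
  induction n with
  | zero => simp; exact D_nonneg
  | succ n ih =>
    have h := u_add_le hSUB (n + 1) 1
    push_cast
    linarith

theorem main (hSUB : SpecSUB) (hSUP : SpecSUP) :
    ∃ l : ℝ, 0 ≤ l ∧ ∀ n : ℕ, l * n ≤ u n + D ∧ u n ≤ l * n + D := by
  have hf : Subadditive (fun k => u k + D) := by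
    intro m n
    have := u_add_le hSUB m n
    show u (m + n) + D ≤ (u m + D) + (u n + D)
    linarith
  have hg : Subadditive (fun k => D - u k) := by
    intro m n
    have := u_add_ge hSUB hSUP m n
    show D - u (m + n) ≤ (D - u m) + (D - u n)
    linarith
  have bf : BddBelow (Set.range (fun n : ℕ => (u n + D) / n)) := by
    refine ⟨0, ?_⟩
    rintro _ ⟨n, rfl⟩
    have := u_nonneg n
    have := D_nonneg
    positivity
  have bg : BddBelow (Set.range (fun n : ℕ => (D - u n) / n)) := by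
    refine ⟨-(u 1 + D), ?_⟩
    rintro _ ⟨n, rfl⟩
    have h0 := u_nonneg 1
    have h1 := D_nonneg
    cases n with
    | zero => simp; linarith
    | succ n =>
      have h2 := u_le hSUB n
      have h3 : (0 : ℝ) < ((n + 1 : ℕ) : ℝ) := by positivity
      rw [le_div_iff₀ h3]
      push_cast
      nlinarith
  have tf := hf.tendsto_lim bf
  have tg := hg.tendsto_lim bg
  have ts := tf.add tg
  have hz : hf.lim + hg.lim = 0 := by
    have h1 : Tendsto (fun n : ℕ => (u n + D) / n + (D - u n) / n) atTop (𝓝 0) := by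
      have h2 : (fun n : ℕ => (u n + D) / n + (D - u n) / n) = fun n : ℕ => (2 * D) / (n : ℝ) := by
        funext n
        rw [← add_div]
        congr 1
        ring
      rw [h2]
      exact tendsto_const_div_atTop_nhds_zero_nat _
    exact tendsto_nhds_unique ts h1
  have hl : 0 ≤ hf.lim := by
    apply ge_of_tendsto' tf
    intro n
    have := u_nonneg n
    have := D_nonneg
    positivity
  refine ⟨hf.lim, hl, fun n => ?_⟩
  rcases Nat.eq_zero_or_pos n with rfl | hn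
  · have h0 := u_nonneg 0
    have h1 := D_nonneg
    have h2 := u_add_ge hSUB hSUP 0 0
    simp only [add_zero] at h2
    constructor
    · simp; linarith
    · simp; linarith
  · have hn' : (0 : ℝ) < (n : ℝ) := by exact_mod_cast hn
    have e1 := hf.lim_le_div bf hn.ne'
    have e2 := hg.lim_le_div bg hn.ne'
    have e3 : hg.lim = -hf.lim := by linarith
    rw [e3] at e2
    rw [le_div_iff₀ hn'] at e1 e2
    constructor <;> linarith

end EXIM

open EXIM in
theorem specEXI (hSUB : SpecSUB) (hSUP : SpecSUP) : SpecEXI := by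
  obtain ⟨l, hl, h⟩ := main hSUB hSUP
  have hlog : 0 < Real.log 2 := Real.log_pos (by norm_num)
  refine ⟨l / (2 * Real.log 2), Real.exp (-(l + D)), Real.exp (l + D), Real.exp_pos _,
    Real.exp_pos _, fun L hL => ?_⟩
  obtain ⟨k, hk1, hk2⟩ := exists_nat_pow_near hL (show (1 : ℝ) < 2 by norm_num)
  have hL0 : 0 < L := by linarith
  have e : L ^ (2 * (l / (2 * Real.log 2))) = Real.exp (l * (Real.log L / Real.log 2)) := by
    rw [Real.rpow_def_of_pos hL0]
    congr 1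
    field_simp
  have g1 : (k : ℝ) ≤ Real.log L / Real.log 2 := by
    rw [le_div_iff₀ hlog, ← Real.log_pow]
    exact Real.log_le_log (by positivity) hk1
  have g2 : Real.log L / Real.log 2 ≤ (k : ℝ) + 1 := by
    rw [div_le_iff₀ hlog]
    have := Real.log_le_log hL0 hk2.le
    rw [Real.log_pow] at this
    push_cast at this
    exact this
  rw [e, ← Real.exp_add, ← Real.exp_add]
  constructor
  · have h1 : (A ((2 : ℝ) ^ k) : ℝ) ≤ (A L : ℝ) := by exact_mod_cast A_mono hk1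
    refine le_trans ?_ h1
    rw [← exp_u k]
    apply Real.exp_le_exp.2
    have := (h k).1
    nlinarith
  · have h1 : (A L : ℝ) ≤ (A ((2 : ℝ) ^ (k + 1)) : ℝ) := by exact_mod_cast A_mono hk2.le
    refine h1.trans ?_
    rw [← exp_u (k + 1)]
    apply Real.exp_le_exp.2
    have := (h (k + 1)).2
    push_cast at this
    nlinarith

end Pool.Agent.Lib.MP_d0a18a_nt.ZP
end

section
/-!
# MAI: choice of the parameters
-/
set_option autoImplicit false

namespace Pool.Agent.Lib.MP_d0a18a_nt.ZP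

open Finset

namespace MAIM

/-- `log (a n + b) ≤ ρ n` for some `n ≥ 1` -/
theorem exists_log_le (a b ρ : ℝ) (ha : 0 < a) (hb : 0 ≤ b) (hρ : 0 < ρ) :
    ∃ n : ℕ, 1 ≤ n ∧ Real.log (a * n + b) ≤ ρ * n := by
  have h1 : Filter.Tendsto (fun x : ℝ => (a + b) * (x + 1) * Real.exp (-(ρ * x)))
      Filter.atTop (nhds 0) := by
    have h2 : Filter.Tendsto (fun x : ℝ => x ^ 1 * Real.exp (-ρ * x)) Filter.atTop (nhds 0) := by
      have := Real.tendsto_pow_mul_exp_neg_atTop_nhds_zero 1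
      have h3 : Filter.Tendsto (fun x : ℝ => ρ * x) Filter.atTop Filter.atTop :=
        Filter.tendsto_id.const_mul_atTop hρ
      have h4 := this.comp h3
      have h5 := h4.const_mul (ρ⁻¹)
      rw [mul_zero] at h5
      refine h5.congr (fun x => ?_)
      simp only [Function.comp_apply, pow_one]
      rw [← mul_assoc, ← mul_assoc, inv_mul_cancel₀ hρ.ne', one_mul, neg_mul]
    have h3 : Filter.Tendsto (fun x : ℝ => Real.exp (-ρ * x)) Filter.atTop (nhds 0) := by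
      have h6 : Filter.Tendsto (fun x : ℝ => -ρ * x) Filter.atTop Filter.atBot :=
        Filter.tendsto_id.const_mul_atTop_of_neg (by linarith)
      exact Real.tendsto_exp_atBot.comp h6
    have h4 := (h2.add h3).const_mul (a + b)
    rw [add_zero, mul_zero] at h4
    refine h4.congr (fun x => ?_)
    rw [pow_one, neg_mul]
    ring
  have h2 : ∀ᶠ x : ℝ in Filter.atTop, (a + b) * (x + 1) * Real.exp (-(ρ * x)) < 1 :=
    (tendsto_order.1 h1).2 1 one_pos
  have h3 : ∀ᶠ n : ℕ in Filter.atTop,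
      (a + b) * ((n : ℝ) + 1) * Real.exp (-(ρ * (n : ℝ))) < 1 :=
    tendsto_natCast_atTop_atTop.eventually h2
  obtain ⟨n, hn, hn1⟩ := (h3.and (Filter.eventually_ge_atTop 1)).exists
  refine ⟨n, hn1, ?_⟩
  have hn' : (1 : ℝ) ≤ n := by exact_mod_cast hn1
  have hpos : 0 < a * n + b := by positivity
  rw [Real.log_le_iff_le_exp hpos]
  have h4 : a * n + b ≤ (a + b) * ((n : ℝ) + 1) := by nlinarith
  have h5 : (a + b) * ((n : ℝ) + 1) ≤ Real.exp (ρ * n) := by
    rw [Real.exp_neg] at hn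
    have h6 := Real.exp_pos (ρ * n)
    rw [← div_eq_mul_inv, div_lt_one h6] at hn
    exact hn.le
  exact h4.trans h5

theorem Dn_mono {M N : ℝ} (h : M ≤ N) : Dn M ⊆ Dn N := by
  classical
  intro d hd
  unfold Dn at hd ⊢
  rw [Finset.mem_filter, Finset.mem_range] at hd ⊢
  exact ⟨lt_of_lt_of_le hd.1 (Nat.succ_le_succ (Nat.floor_le_floor h)), hd.2⟩

theorem one_mem_Dn {N : ℝ} (h : 1 ≤ N) : 1 ∈ Dn N := by
  classical
  unfold Dn
  rw [Finset.mem_filter, Finset.mem_range]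
  refine ⟨Nat.lt_succ_of_le (Nat.le_floor (by simpa using h)), [], K_nil⟩

/-- choice of `h`, `ℓ`, `η` -/
theorem params (C2 ε : ℝ) (hC2 : 1 ≤ C2) (hε : 0 < ε) (hε1 : ε ≤ 1 / 2) :
    ∃ (h ℓ : ℕ) (η : ℝ), 1 ≤ h ∧ 1 ≤ ℓ ∧ 0 < η ∧ η ≤ 1 ∧
      Err C2 η h ℓ ≤ (3 * ε / 4) * (h * Real.log 2) := by
  have hl2 : (1 / 2 : ℝ) < Real.log 2 := by
    have := Real.log_two_gt_d9; linarith
  obtain ⟨h, hh1, hh⟩ := exists_log_le 4 2 (ε / 4 * Real.log 2) (by norm_num) (by norm_num)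
    (by positivity)
  have hh1' : (1 : ℝ) ≤ h := by exact_mod_cast hh1
  set η : ℝ := ε / 8 with hη
  have hη0 : 0 < η := by positivity
  -- the constant
  set P : ℝ := (2 / η + 2) * C2 with hP
  have hP0 : 0 < P := by positivity
  set ρ : ℝ := ε / 8 * (h * Real.log 2) / P with hρ
  have hρ0 : 0 < ρ := by positivity
  -- choose `ℓ = m * m0` with `log (m h + 1) ≤ ρ m`
  have key : ∃ ℓ : ℕ, 1 ≤ ℓ ∧ Real.log (ℓ * h + 1) ≤ ρ * ℓ ∧ (h + 1 : ℝ) ≤ ρ * ℓ := by
    obtain ⟨n, hn1, hn⟩ := exists_log_le (h * Real.exp (h + 1)) (Real.exp (h + 1)) ρ (by positivity)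
      (by positivity) hρ0
    have hn1' : (1 : ℝ) ≤ n := by exact_mod_cast hn1
    refine ⟨n, hn1, ?_, ?_⟩
    · refine le_trans (Real.log_le_log (by positivity) ?_) hn
      have h3 : (1 : ℝ) ≤ Real.exp (h + 1) := Real.one_le_exp (by positivity)
      nlinarith [mul_pos (show (0 : ℝ) < n by linarith) (show (0 : ℝ) < h by linarith)]
    · refine le_trans ?_ hn
      rw [Real.le_log_iff_exp_le (by positivity)]
      have h3 : (0 : ℝ) < Real.exp (h + 1) := Real.exp_pos _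
      have h4 : 0 ≤ (h : ℝ) * Real.exp (h + 1) * n := by positivity
      linarith
  obtain ⟨ℓ, hℓ1, hℓ2, hℓ3⟩ := key
  have hℓ1' : (1 : ℝ) ≤ ℓ := by exact_mod_cast hℓ1
  refine ⟨h, ℓ, η, hh1, hℓ1, hη0, by rw [hη]; linarith, ?_⟩
  unfold Err
  have e1 : Real.log (4 * h + 2) ≤ ε / 4 * (h * Real.log 2) := by
    calc Real.log (4 * h + 2) ≤ ε / 4 * Real.log 2 * h := hh
      _ = _ := by ring
  have e2 : η * h ≤ ε / 4 * (h * Real.log 2) := by
    rw [hη]
    nlinarith [mul_pos hε (show (0 : ℝ) < h by linarith)]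
  have e3 : (2 / η + 2) / ℓ * (C2 * (h + Real.log (ℓ * h + 1) + 1)) ≤
      ε / 4 * (h * Real.log 2) := by
    have e4 : (h : ℝ) + Real.log (ℓ * h + 1) + 1 ≤ 2 * (ρ * ℓ) := by linarith
    have e5 : (2 / η + 2) / ℓ * (C2 * (h + Real.log (ℓ * h + 1) + 1))
        = P / ℓ * (h + Real.log (ℓ * h + 1) + 1) := by
      rw [hP]; ring
    rw [e5]
    calc P / ℓ * (h + Real.log (ℓ * h + 1) + 1) ≤ P / ℓ * (2 * (ρ * ℓ)) := by
          apply mul_le_mul_of_nonneg_left e4 (by positivity)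
      _ = 2 * (P * ρ) := by field_simp
      _ = 2 * (ε / 8 * (h * Real.log 2)) := by
          rw [hρ, mul_div_cancel₀ _ hP0.ne']
      _ = ε / 4 * (h * Real.log 2) := by ring
  linarith

end MAIM

open MAIM in
theorem specMAI (hASM : SpecASM) : SpecMAI := by
  intro δ c C hC hδ1 hδ2 ε0 hε0
  obtain ⟨C2, hC2, H⟩ := hASM δ c C hC hδ1 hδ2
  set ε : ℝ := min ε0 (1 / 2) with hεdef
  have hε : 0 < ε := lt_min hε0 (by norm_num)
  have hε1 : ε ≤ 1 / 2 := min_le_right _ _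
  have hεε0 : ε ≤ ε0 := min_le_left _ _
  obtain ⟨h, ℓ, η, hh, hℓ, hη0, hη1, hErr⟩ := params C2 ε hC2 hε hε1
  obtain ⟨C3, hC3, H3⟩ := H h ℓ η hh hℓ hη0 hη1
  set θ : ℝ := 1 - (1 - δ) ^ 2 / δ with hθ
  have hδ0 : 0 < δ := by linarith
  have hq0 : 0 ≤ (1 - δ) ^ 2 / δ := by positivity
  have hq1 : (1 - δ) ^ 2 / δ ≤ 1 / 2 := by
    rw [div_le_iff₀ hδ0]; nlinarith
  have hθ1 : θ ≤ 1 := by rw [hθ]; linarith
  have hθ2 : 1 / 2 ≤ θ := by rw [hθ]; linarith
  have hh' : (1 : ℝ) ≤ h := by exact_mod_cast hh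
  have hl2 : (1 / 2 : ℝ) < Real.log 2 := by
    have := Real.log_two_gt_d9; linarith
  set g : ℝ := h * Real.log 2 with hg
  have hg0 : 0 < g := by positivity
  set B : ℝ := Real.log C3 + g + C3 with hB
  have hlC3 : 0 ≤ Real.log C3 := Real.log_nonneg hC3
  have hC3' : 0 < C3 := by linarith
  refine ⟨max (C3 * 2 ^ h) (Real.exp (4 / ε * B)), fun N hN => ?_⟩
  have hN1 : C3 * 2 ^ h ≤ N := (le_max_left _ _).trans hN
  have hN2 : Real.exp (4 / ε * B) ≤ N := (le_max_right _ _).trans hN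
  have h2h : (1 : ℝ) ≤ 2 ^ h := one_le_pow₀ (by norm_num)
  have hN3 : 1 ≤ N := by nlinarith
  have hN0 : 0 < N := by linarith
  have hlogN : 4 / ε * B ≤ Real.log N := by
    rwa [Real.le_log_iff_exp_le hN0]
  have hlogN' : B ≤ ε / 4 * Real.log N := by
    have e1 : ε / 4 * (4 / ε * B) ≤ ε / 4 * Real.log N :=
      mul_le_mul_of_nonneg_left hlogN (by positivity)
    have e2 : ε / 4 * (4 / ε * B) = B := by field_simp
    linarith
  -- the level
  set y : ℝ := Real.log (N / C3) / g with hy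
  have hlogdiv : Real.log (N / C3) = Real.log N - Real.log C3 :=
    Real.log_div hN0.ne' hC3'.ne'
  have hy1 : 1 ≤ y := by
    rw [hy, le_div_iff₀ hg0, one_mul, Real.le_log_iff_exp_le (by positivity), le_div_iff₀ hC3']
    have e1 : Real.exp g = 2 ^ h := by
      rw [hg, Real.exp_nat_mul, Real.exp_log (by norm_num)]
    rw [e1]; linarith
  set n : ℕ := ⌊y⌋₊ with hn
  have hn1 : 1 ≤ n := Nat.le_floor (by simpa using hy1)
  have hny : (n : ℝ) ≤ y := Nat.floor_le (by linarith)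
  have hyn : y < n + 1 := Nat.lt_floor_add_one y
  have hng : (n : ℝ) * g ≤ Real.log (N / C3) := by
    rw [hy, le_div_iff₀ hg0] at hny; exact hny
  have hng2 : Real.log (N / C3) ≤ (n : ℝ) * g + g := by
    rw [hy, div_lt_iff₀ hg0] at hyn
    linarith
  have hle : C3 * 2 ^ (h * n) ≤ N := by
    have e1 : Real.exp ((n : ℝ) * g) = 2 ^ (h * n) := by
      rw [hg, ← mul_assoc, ← Nat.cast_mul, Real.exp_nat_mul, Real.exp_log (by norm_num),
        Nat.mul_comm]
    have e2 : Real.exp ((n : ℝ) * g) ≤ N / C3 := by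
      rw [← Real.le_log_iff_exp_le (by positivity)]; exact hng
    rw [e1, le_div_iff₀ hC3'] at e2
    linarith
  have hcard : ((Dn (C3 * 2 ^ (h * n))).card : ℝ) ≤ ((Dn N).card : ℝ) := by
    exact_mod_cast Finset.card_le_card (Dn_mono hle)
  have hpos : (0 : ℝ) < ((Dn (C3 * 2 ^ (h * n))).card : ℝ) := by
    have h1 : (1 : ℝ) ≤ C3 * 2 ^ (h * n) := by
      have : (1 : ℝ) ≤ 2 ^ (h * n) := one_le_pow₀ (by norm_num)
      nlinarith
    exact_mod_cast Finset.card_pos.2 ⟨1, one_mem_Dn h1⟩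
  have hmain := H3 n hn1
  have hlog : Real.log ((Dn (C3 * 2 ^ (h * n))).card : ℝ) ≤ Real.log ((Dn N).card : ℝ) :=
    Real.log_le_log hpos hcard
  have hn0 : (0 : ℝ) ≤ n := by positivity
  have e1 : (n : ℝ) * Err C2 η h ℓ ≤ n * ((3 * ε / 4) * g) :=
    mul_le_mul_of_nonneg_left hErr hn0
  have e2 : (n : ℝ) * g * (θ - 3 * ε / 4) - C3 ≤ Real.log ((Dn N).card : ℝ) := by
    have : (n : ℝ) * g * (θ - 3 * ε / 4) = n * g * θ - n * ((3 * ε / 4) * g) := by ring
    linarith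
  set κ : ℝ := θ - 3 * ε / 4 with hκ
  have hκ0 : 0 ≤ κ := by rw [hκ]; linarith
  have hκ1 : κ ≤ 1 := by rw [hκ]; linarith
  have e3 : (Real.log N - Real.log C3 - g) * κ ≤ (n : ℝ) * g * κ := by
    apply mul_le_mul_of_nonneg_right _ hκ0
    linarith
  have e4 : κ * (Real.log C3 + g) ≤ Real.log C3 + g := by
    have : 0 ≤ Real.log C3 + g := by linarith
    nlinarith
  have e5 : (θ - ε) * Real.log N ≤ Real.log ((Dn N).card : ℝ) := by
    have e6 : (Real.log N - Real.log C3 - g) * κ = κ * Real.log N - κ * (Real.log C3 + g) := by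
      ring
    have e7 : (θ - ε) * Real.log N = κ * Real.log N - ε / 4 * Real.log N := by
      rw [hκ]; ring
    rw [e7]
    linarith
  have hcN : (0 : ℝ) < ((Dn N).card : ℝ) := lt_of_lt_of_le hpos hcard
  have e8 : N ^ (θ - ε0) ≤ N ^ (θ - ε) :=
    Real.rpow_le_rpow_of_exponent_le hN3 (by linarith)
  refine e8.trans ?_
  rw [Real.rpow_def_of_pos hN0, mul_comm, ← Real.le_log_iff_exp_le hcN]
  exact e5

end Pool.Agent.Lib.MP_d0a18a_nt.ZP
end

section
/-!
# MA2: choice of the parameters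
-/
set_option autoImplicit false

namespace Pool.Agent.Lib.MP_d0a18a_nt.ZP

open Finset

namespace MA2M

/-- `log (h+1) + C ≤ ρ h` for all large `h` -/
theorem ev_log_le (C ρ : ℝ) (hρ : 0 < ρ) :
    ∃ h1 : ℕ, ∀ h : ℕ, h1 ≤ h → Real.log (h + 1) + C ≤ ρ * h := by
  have h1 : ∀ᶠ x : ℝ in Filter.atTop, ‖Real.log x‖ ≤ ρ / 4 * ‖x‖ :=
    (Real.isLittleO_log_id_atTop.def (by positivity : 0 < ρ / 4))
  have h2 : ∀ᶠ h : ℕ in Filter.atTop, ‖Real.log ((h : ℝ) + 1)‖ ≤ ρ / 4 * ‖(h : ℝ) + 1‖ := by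
    have : Filter.Tendsto (fun h : ℕ => (h : ℝ) + 1) Filter.atTop Filter.atTop :=
      Filter.tendsto_atTop_add_const_right _ _ tendsto_natCast_atTop_atTop
    exact this.eventually h1
  have h3 : ∀ᶠ h : ℕ in Filter.atTop, C / (ρ / 2) ≤ (h : ℝ) :=
    tendsto_natCast_atTop_atTop.eventually_ge_atTop _
  obtain ⟨N, hN⟩ := Filter.eventually_atTop.1 (h2.and (h3.and (Filter.eventually_ge_atTop 1)))
  refine ⟨N, fun h hh => ?_⟩
  obtain ⟨a1, a2, a3⟩ := hN h hh
  have a3' : (1 : ℝ) ≤ h := by exact_mod_cast a3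
  rw [Real.norm_eq_abs, Real.norm_eq_abs, abs_of_nonneg (by positivity : (0 : ℝ) ≤ (h : ℝ) + 1)] at a1
  have a4 := le_trans (le_abs_self _) a1
  rw [div_le_iff₀ (by positivity)] at a2
  nlinarith

end MA2M

open MA2M MAIM in
theorem specMA2 (hSUM : SpecSUM) (hRHO : SpecRHO) : SpecMA2 := by
  intro δ c C hC hδ1 ε0 hε0
  obtain ⟨C4, hC4, H⟩ := hSUM δ c C hC hδ1
  obtain ⟨ε, hε, hε1, hεε0⟩ : ∃ ε : ℝ, 0 < ε ∧ ε ≤ 1 / 2 ∧ ε ≤ ε0 :=
    ⟨min ε0 (1 / 2), lt_min hε0 (by norm_num), min_le_right _ _, min_le_left _ _⟩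
  have hl2 : 0 < Real.log 2 := Real.log_pos (by norm_num)
  obtain ⟨h1, hh1⟩ := ev_log_le C4 (ε * Real.log 2) (by positivity)
  obtain ⟨h, hh, ι, Ω, v1, v2, hΩ, hDir⟩ := hRHO ε (max h1 1) hε
  have hhh1 : h1 ≤ h := le_trans (le_max_left _ _) hh
  have hhh : 1 ≤ h := le_trans (le_max_right _ _) hh
  obtain ⟨C5, hC5, H5⟩ := H h ε ι Ω v1 v2 hhh hΩ hDir
  have hErr := hh1 h hhh1
  have hh' : (1 : ℝ) ≤ h := by exact_mod_cast hhh
  set g : ℝ := h * Real.log 2 with hg
  have hg0 : 0 < g := by positivity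
  have hErr' : Real.log (h + 1) + C4 ≤ ε * g := by rw [hg]; linarith
  set κ : ℝ := (2 * δ + 1) / 3 - 2 * ε / 3 with hκ
  have hκ0 : 0 < κ := by rw [hκ]; linarith
  set B : ℝ := κ * (Real.log C5 + g) + C5 with hB
  have hlC5 : 0 ≤ Real.log C5 := Real.log_nonneg hC5
  have hC5' : 0 < C5 := by linarith
  refine ⟨max (C5 * 2 ^ h) (Real.exp (3 / ε * B)), fun N hN => ?_⟩
  have hN1 : C5 * 2 ^ h ≤ N := (le_max_left _ _).trans hN
  have hN2 : Real.exp (3 / ε * B) ≤ N := (le_max_right _ _).trans hN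
  have h2h : (1 : ℝ) ≤ 2 ^ h := one_le_pow₀ (by norm_num)
  have hN3 : 1 ≤ N := by nlinarith
  have hN0 : 0 < N := by linarith
  have hlogN : 3 / ε * B ≤ Real.log N := by
    rwa [Real.le_log_iff_exp_le hN0]
  have hlogN' : B ≤ ε / 3 * Real.log N := by
    have e1 : ε / 3 * (3 / ε * B) ≤ ε / 3 * Real.log N :=
      mul_le_mul_of_nonneg_left hlogN (by positivity)
    have e2 : ε / 3 * (3 / ε * B) = B := by field_simp
    linarith
  -- the level
  set y : ℝ := Real.log (N / C5) / g with hy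
  have hlogdiv : Real.log (N / C5) = Real.log N - Real.log C5 :=
    Real.log_div hN0.ne' hC5'.ne'
  have hy1 : 1 ≤ y := by
    rw [hy, le_div_iff₀ hg0, one_mul, Real.le_log_iff_exp_le (by positivity), le_div_iff₀ hC5']
    have e1 : Real.exp g = 2 ^ h := by
      rw [hg, Real.exp_nat_mul, Real.exp_log (by norm_num)]
    rw [e1]; linarith
  set n : ℕ := ⌊y⌋₊ with hn
  have hn1 : 1 ≤ n := Nat.le_floor (by simpa using hy1)
  have hny : (n : ℝ) ≤ y := Nat.floor_le (by linarith)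
  have hyn : y < n + 1 := Nat.lt_floor_add_one y
  have hng : (n : ℝ) * g ≤ Real.log (N / C5) := by
    rw [hy, le_div_iff₀ hg0] at hny; exact hny
  have hng2 : Real.log (N / C5) ≤ (n : ℝ) * g + g := by
    rw [hy, div_lt_iff₀ hg0] at hyn
    linarith
  have hle : C5 * 2 ^ (h * n) ≤ N := by
    have e1 : Real.exp ((n : ℝ) * g) = 2 ^ (h * n) := by
      rw [hg, ← mul_assoc, ← Nat.cast_mul, Real.exp_nat_mul, Real.exp_log (by norm_num),
        Nat.mul_comm]
    have e2 : Real.exp ((n : ℝ) * g) ≤ N / C5 := by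
      rw [← Real.le_log_iff_exp_le (by positivity)]; exact hng
    rw [e1, le_div_iff₀ hC5'] at e2
    linarith
  have hcard : ((Dn (C5 * 2 ^ (h * n))).card : ℝ) ≤ ((Dn N).card : ℝ) := by
    exact_mod_cast Finset.card_le_card (Dn_mono hle)
  have hpos : (0 : ℝ) < ((Dn (C5 * 2 ^ (h * n))).card : ℝ) := by
    have h1 : (1 : ℝ) ≤ C5 * 2 ^ (h * n) := by
      have : (1 : ℝ) ≤ 2 ^ (h * n) := one_le_pow₀ (by norm_num)
      nlinarith
    exact_mod_cast Finset.card_pos.2 ⟨1, one_mem_Dn h1⟩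
  have hmain := H5 n hn1
  have hlog : Real.log ((Dn (C5 * 2 ^ (h * n))).card : ℝ) ≤ Real.log ((Dn N).card : ℝ) :=
    Real.log_le_log hpos hcard
  have hn0 : (0 : ℝ) ≤ n := by positivity
  have e2 : (n : ℝ) * g * κ - C5 ≤ Real.log ((Dn N).card : ℝ) := by
    have e3 : (n : ℝ) * g * κ ≤ (n : ℝ) * ((2 * δ + 1 - ε) * g - Real.log (h + 1) - C4) / 3 := by
      have e4 : g * κ * 3 ≤ (2 * δ + 1 - ε) * g - Real.log (h + 1) - C4 := by
        rw [hκ]; linarith
      calc (n : ℝ) * g * κ = (n : ℝ) * (g * κ * 3) / 3 := by ring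
        _ ≤ _ := by gcongr
    linarith
  have e3 : (Real.log N - Real.log C5 - g) * κ ≤ (n : ℝ) * g * κ := by
    apply mul_le_mul_of_nonneg_right _ hκ0.le
    linarith
  have e5 : ((2 * δ + 1) / 3 - ε) * Real.log N ≤ Real.log ((Dn N).card : ℝ) := by
    have e6 : (Real.log N - Real.log C5 - g) * κ = κ * Real.log N - κ * (Real.log C5 + g) := by
      ring
    have e7 : ((2 * δ + 1) / 3 - ε) * Real.log N = κ * Real.log N - ε / 3 * Real.log N := by
      rw [hκ]; ring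
    rw [e7]
    linarith
  have hcN : (0 : ℝ) < ((Dn N).card : ℝ) := lt_of_lt_of_le hpos hcard
  have e8 : N ^ ((2 * δ + 1) / 3 - ε0) ≤ N ^ ((2 * δ + 1) / 3 - ε) :=
    Real.rpow_le_rpow_of_exponent_le hN3 (by linarith)
  refine e8.trans ?_
  rw [Real.rpow_def_of_pos hN0, mul_comm, ← Real.le_log_iff_exp_le hcN]
  exact e5

end Pool.Agent.Lib.MP_d0a18a_nt.ZP
end

section
/-!
# TCL: the offsets of the points of a cell form a `δ`-regular set
-/
set_option autoImplicit false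

namespace Pool.Agent.Lib.MP_d0a18a_nt.ZP

open Finset

namespace TCLM

/-- same cell: the coordinates differ by at most the side -/
theorem near_of_div {n m R : ℕ} (hR : 0 < R) (h : n / R = m / R) :
    |(n : ℝ) - (m : ℝ)| ≤ (R : ℝ) := by
  have h1 := Nat.div_add_mod n R
  have h2 := Nat.div_add_mod m R
  have h3 := Nat.mod_lt n hR
  have h4 := Nat.mod_lt m hR
  rw [h] at h1
  have h5 : n ≤ m + R := by omega
  have h6 : m ≤ n + R := by omega
  have h5' : (n : ℝ) ≤ m + R := by exact_mod_cast h5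
  have h6' : (m : ℝ) ≤ n + R := by exact_mod_cast h6
  rw [abs_le]
  constructor <;> linarith

theorem be_rev (w : Word) : be w.reverse = ((xv w).2 : ℝ) / ((xv w).1 : ℝ) := by
  unfold be
  rw [yv_reverse]

/-- directions of two points in terms of the offsets -/
theorem dir_near {y1 y2 z1 z2 θ R T d Q : ℝ} (hR : 0 < R) (hT : 0 < T) (hy : T ≤ y1) (hz : T ≤ z1)
    (hQ : 0 ≤ Q) (hd : 0 ≤ d) (hbig : 2 * Q ^ 2 * R ≤ T)
    (h1 : |(y2 - θ * y1) - (z2 - θ * z1)| ≤ (d + 1) * R) (h2 : |z2 - θ * z1| ≤ 2 * Q * R)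
    (h3 : |y1 - z1| ≤ Q * R) :
    |y2 / y1 - z2 / z1| ≤ (d + 2) * R / T := by
  have hy0 : 0 < y1 := by linarith
  have hz0 : 0 < z1 := by linarith
  have e : y2 / y1 - z2 / z1 = ((y2 - θ * y1) - (z2 - θ * z1)) / y1 +
      (z2 - θ * z1) * (z1 - y1) / (y1 * z1) := by
    field_simp
    ring
  have a1 : |((y2 - θ * y1) - (z2 - θ * z1)) / y1| ≤ (d + 1) * R / T := by
    rw [abs_div, abs_of_pos hy0]
    exact div_le_div₀ (by positivity) h1 hT hy
  have a2 : |(z2 - θ * z1) * (z1 - y1) / (y1 * z1)| ≤ R / T := by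
    rw [abs_div, abs_mul, abs_of_pos (mul_pos hy0 hz0), abs_sub_comm z1 y1]
    have b1 : |z2 - θ * z1| * |y1 - z1| ≤ (2 * Q * R) * (Q * R) :=
      mul_le_mul h2 h3 (abs_nonneg _) (by positivity)
    have b2 : T * T ≤ y1 * z1 := mul_le_mul hy hz hT.le hy0.le
    calc |z2 - θ * z1| * |y1 - z1| / (y1 * z1) ≤ ((2 * Q * R) * (Q * R)) / (T * T) :=
          div_le_div₀ (by positivity) b1 (by positivity) b2
      _ = (2 * Q ^ 2 * R) * R / (T * T) := by ring
      _ ≤ T * R / (T * T) := by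
          apply div_le_div_of_nonneg_right _ (by positivity)
          exact mul_le_mul_of_nonneg_right hbig hR.le
      _ = R / T := by field_simp
  rw [e]
  calc _ ≤ _ := abs_add_le _ _
    _ ≤ (d + 1) * R / T + R / T := add_le_add a1 a2
    _ = (d + 2) * R / T := by ring

/-- offsets of two points with almost equal directions -/
theorem off_near {y1 y2 z1 z2 θ R T Q : ℝ} (hR : 0 < R) (hT : 0 < T) (hy : T ≤ y1)
    (hy9 : y1 ≤ 9 * T) (hz : T ≤ z1) (hQ : 0 ≤ Q) (hbig : 2 * Q ^ 2 * R ≤ T)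
    (h1 : |y2 / y1 - z2 / z1| ≤ R / T) (h2 : |z2 - θ * z1| ≤ 2 * Q * R)
    (h3 : |y1 - z1| ≤ Q * R) :
    |(y2 - θ * y1) - (z2 - θ * z1)| ≤ 10 * R := by
  have hy0 : 0 < y1 := by linarith
  have hz0 : 0 < z1 := by linarith
  have e : (y2 - θ * y1) - (z2 - θ * z1) = y1 * (y2 / y1 - z2 / z1) +
      (y1 - z1) * ((z2 - θ * z1) / z1) := by
    field_simp
    ring
  have a1 : |y1 * (y2 / y1 - z2 / z1)| ≤ 9 * R := by
    rw [abs_mul, abs_of_pos hy0]
    calc y1 * |y2 / y1 - z2 / z1| ≤ (9 * T) * (R / T) :=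
          mul_le_mul hy9 h1 (abs_nonneg _) (by positivity)
      _ = 9 * R := by field_simp
  have a2 : |(y1 - z1) * ((z2 - θ * z1) / z1)| ≤ R := by
    rw [abs_mul, abs_div, abs_of_pos hz0]
    calc |y1 - z1| * (|z2 - θ * z1| / z1) ≤ (Q * R) * ((2 * Q * R) / T) :=
          mul_le_mul h3 (div_le_div₀ (by positivity) h2 hT hz) (by positivity) (by positivity)
      _ = (2 * Q ^ 2 * R) * R / T := by ring
      _ ≤ T * R / T := by
          apply div_le_div_of_nonneg_right _ hT.le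
          exact mul_le_mul_of_nonneg_right hbig hR.le
      _ = R := by field_simp
  rw [e]
  calc _ ≤ _ := abs_add_le _ _
    _ ≤ 9 * R + R := add_le_add a1 a2
    _ = 10 * R := by ring

theorem ta_bounds (θ : ℝ) (q i : ℕ) (hq : 0 < q) (y : ℕ × ℕ) :
    ((ta θ q i y : ℤ) : ℝ) * (q : ℝ) ^ i ≤ ((y.2 : ℝ) - θ * (y.1 : ℝ)) ∧
      ((y.2 : ℝ) - θ * (y.1 : ℝ)) < (((ta θ q i y : ℤ) : ℝ) + 1) * (q : ℝ) ^ i := by
  have hR : (0 : ℝ) < (q : ℝ) ^ i := by
    have : (0 : ℝ) < q := by exact_mod_cast hq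
    positivity
  have h1 : ((ta θ q i y : ℤ) : ℝ) ≤ ((y.2 : ℝ) - θ * (y.1 : ℝ)) / (q : ℝ) ^ i := Int.floor_le _
  have h2 : ((y.2 : ℝ) - θ * (y.1 : ℝ)) / (q : ℝ) ^ i < ((ta θ q i y : ℤ) : ℝ) + 1 :=
    Int.lt_floor_add_one _
  exact ⟨(le_div_iff₀ hR).1 h1, (div_lt_iff₀ hR).1 h2⟩

open Classical in
theorem mem_cls {α γ : Type} (X : Finset α) (g : α → γ) (x y : α) :
    y ∈ cls X g x ↔ y ∈ X ∧ g y = g x := by
  unfold cls
  rw [Finset.mem_filter]

end TCLM

open TCLM in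
theorem specTCL (hCLU : SpecCLU) : SpecTCL := by
  classical
  intro δ c C hC hδ
  obtain ⟨hc0, hC0, hCnt⟩ := hC
  have hCd0 : 0 ≤ C * (1728 : ℝ) ^ δ := by positivity
  refine ⟨23 * (1 + C * (1728 : ℝ) ^ δ), by linarith, ?_⟩
  intro T hT W hW q i hq hbig x hx
  have hq0 : 0 < q := by omega
  have hqR : (1 : ℝ) ≤ (q : ℝ) := by exact_mod_cast hq0
  have hR2 : 0 < q ^ (i + 1) := pow_pos hq0 _
  set R : ℝ := (q : ℝ) ^ i with hRdef
  have hR : 0 < R := by rw [hRdef]; positivity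
  have hT0 : (0 : ℝ) < T := by linarith
  have hbig' : 2 * (q : ℝ) ^ 2 * R ≤ T := by
    calc 2 * (q : ℝ) ^ 2 * R = 2 * (q : ℝ) ^ (i + 2) := by rw [hRdef]; ring
      _ ≤ T := hbig
  have hRT : R ≤ T := by nlinarith [mul_le_mul hqR hqR (by norm_num) (by linarith)]
  have hK : ∀ w ∈ W, T < ((xv w).1 : ℝ) ∧ ((xv w).1 : ℝ) ≤ 9 * T ∧
      w.reverse.getLast? = some true := by
    intro w hw
    obtain ⟨v, hv, rfl⟩ := hW w hw
    have h1 := hv.1
    have h2 := stop_le hT hv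
    have h3 : (K (true :: v) : ℝ) ≤ 3 * K v := by exact_mod_cast K_cons_le true v
    have h4 : (K v : ℝ) ≤ K (true :: v) := by exact_mod_cast K_le_append_right [true] v
    rw [xv_fst]
    refine ⟨by linarith, by linarith, ?_⟩
    simp
  obtain ⟨w0, hw0, hw0x⟩ := Finset.mem_image.1 hx
  have hx1 : T < (x.1 : ℝ) := by rw [← hw0x]; exact (hK w0 hw0).1
  have hx0 : (0 : ℝ) < (x.1 : ℝ) := by linarith
  set θ : ℝ := (x.2 : ℝ) / (x.1 : ℝ) with hθ
  have hθ0 : 0 ≤ θ := by rw [hθ]; positivity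
  have hθ1 : θ ≤ 1 := by
    rw [hθ]
    apply div_le_one_of_le₀ _ hx0.le
    rw [← hw0x]
    exact_mod_cast xv_snd_le w0
  have hxθ : (x.2 : ℝ) = θ * (x.1 : ℝ) := by rw [hθ]; field_simp
  -- points of the same cell
  have hcell : ∀ y z : ℕ × ℕ, cell q (i + 1) y = cell q (i + 1) z →
      |(y.1 : ℝ) - z.1| ≤ q * R ∧ |(y.2 : ℝ) - z.2| ≤ q * R := by
    intro y z h
    have e1 : y.1 / q ^ (i + 1) = z.1 / q ^ (i + 1) := congrArg Prod.fst h
    have e2 : y.2 / q ^ (i + 1) = z.2 / q ^ (i + 1) := congrArg Prod.snd h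
    have n1 := near_of_div hR2 e1
    have n2 := near_of_div hR2 e2
    push_cast at n1 n2
    have e3 : (q : ℝ) ^ (i + 1) = q * R := by rw [hRdef]; ring
    rw [e3] at n1 n2
    exact ⟨n1, n2⟩
  have hoff : ∀ y : ℕ × ℕ, cell q (i + 1) y = cell q (i + 1) x →
      |(y.2 : ℝ) - θ * (y.1 : ℝ)| ≤ 2 * q * R := by
    intro y h
    obtain ⟨n1, n2⟩ := hcell y x h
    have e : (y.2 : ℝ) - θ * (y.1 : ℝ) = ((y.2 : ℝ) - x.2) - θ * ((y.1 : ℝ) - x.1) := by
      rw [hxθ]; ring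
    rw [e]
    have a1 : |θ * ((y.1 : ℝ) - x.1)| ≤ 1 * (q * R) := by
      rw [abs_mul, abs_of_nonneg hθ0]
      exact mul_le_mul hθ1 n1 (abs_nonneg _) (by norm_num)
    calc _ ≤ |(y.2 : ℝ) - x.2| + |θ * ((y.1 : ℝ) - x.1)| := abs_sub _ _
      _ ≤ q * R + 1 * (q * R) := add_le_add n2 a1
      _ = 2 * q * R := by ring
  constructor
  · intro s hs
    unfold offs at hs
    obtain ⟨y, hy, rfl⟩ := Finset.mem_image.1 hs
    have hy2 := ((mem_cls _ _ _ _).1 hy).2
    have h1 := hoff y hy2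
    obtain ⟨b1, b2⟩ := ta_bounds θ q i hq0 y
    rw [abs_le] at h1
    have c1 : ((ta θ q i y : ℤ) : ℝ) * R ≤ (2 * q) * R := b1.trans h1.2
    have c2 : (-(2 * (q : ℝ)) - 1) * R ≤ ((ta θ q i y : ℤ) : ℝ) * R := by
      nlinarith [h1.1, b2]
    have d1 := le_of_mul_le_mul_right c1 hR
    have d2 := le_of_mul_le_mul_right c2 hR
    rw [abs_le]
    constructor <;> linarith
  · intro t d hd
    set W' : Finset Word := W.filter (fun w => cell q (i + 1) (xv w) = cell q (i + 1) x ∧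
      t ≤ ta θ q i (xv w) ∧ ((ta θ q i (xv w) : ℤ) : ℝ) ≤ t + d) with hW'
    have hW'm : ∀ w ∈ W', w ∈ W ∧ cell q (i + 1) (xv w) = cell q (i + 1) x ∧
      t ≤ ta θ q i (xv w) ∧ ((ta θ q i (xv w) : ℤ) : ℝ) ≤ t + d := fun w hw =>
        ⟨(Finset.mem_filter.1 hw).1, (Finset.mem_filter.1 hw).2⟩
    set B : ℝ := Real.sqrt (T / R) with hB
    have hTR : 1 ≤ T / R := by rwa [one_le_div hR]
    have hB1 : 1 ≤ B := by rw [hB]; exact Real.one_le_sqrt.mpr hTR
    have hBT : B ≤ T := by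
      have h1 : T / R ≤ T ^ 2 := by
        have h2 : (1 : ℝ) ≤ R := one_le_pow₀ hqR
        calc T / R ≤ T / 1 := div_le_div_of_nonneg_left hT0.le one_pos h2
          _ ≤ T ^ 2 := by rw [div_one]; nlinarith
      rw [hB]
      calc Real.sqrt (T / R) ≤ Real.sqrt (T ^ 2) := Real.sqrt_le_sqrt h1
        _ = T := Real.sqrt_sq hT0.le
    have hBsq : B ^ 2 = T / R := Real.sq_sqrt (by positivity)
    have hs : ∀ w : Word, ∃ s : Word, w ∈ W → s ∈ stop B ∧ s <+: w.reverse := by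
      intro w
      by_cases hw : w ∈ W
      · obtain ⟨s, h1, h2⟩ := exists_stop (L := B) w.reverse (by
          rw [K_reverse, ← xv_fst]
          exact lt_of_le_of_lt hBT (hK w hw).1)
        exact ⟨s, fun _ => ⟨h1, h2⟩⟩
      · exact ⟨[], fun h => absurd h hw⟩
    choose sf hsf using hs
    set S : Finset Word := W'.image sf with hS
    have hw0 : ∀ s : Word, ∃ w : Word, s ∈ S → w ∈ W' ∧ sf w = s := by
      intro s
      by_cases h : s ∈ S
      · obtain ⟨w, h1, h2⟩ := Finset.mem_image.1 h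
        exact ⟨w, fun _ => ⟨h1, h2⟩⟩
      · exact ⟨[], fun h' => absurd h' h⟩
    choose wf hwf using hw0
    have hwfW : ∀ s ∈ S, wf s ∈ W := fun s h => (hW'm _ (hwf s h).1).1
    have hext : ∀ s ∈ S, s ++ (wf s).reverse.drop s.length = (wf s).reverse := by
      intro s h
      have h1 := (hsf (wf s) (hwfW s h)).2
      rw [(hwf s h).2] at h1
      obtain ⟨r, hr⟩ := h1
      rw [← hr, List.drop_left']
      rfl
    have hnear : ∀ w ∈ W', ∀ w' ∈ W', |be w.reverse - be w'.reverse| ≤ (d + 2) * R / T := by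
      intro w hw w' hw'
      obtain ⟨g1, g2, g3, g4⟩ := hW'm w hw
      obtain ⟨k1, k2, k3, k4⟩ := hW'm w' hw'
      obtain ⟨b1, b2⟩ := ta_bounds θ q i hq0 (xv w)
      obtain ⟨b1', b2'⟩ := ta_bounds θ q i hq0 (xv w')
      have g3' : (t : ℝ) ≤ ((ta θ q i (xv w) : ℤ) : ℝ) := by exact_mod_cast g3
      have k3' : (t : ℝ) ≤ ((ta θ q i (xv w') : ℤ) : ℝ) := by exact_mod_cast k3
      rw [be_rev, be_rev]
      refine dir_near (θ := θ) (Q := q) hR hT0 (hK w g1).1.le (hK w' k1).1.le (by positivity)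
        (by linarith) hbig' ?_ (hoff _ k2) (hcell _ _ (g2.trans k2.symm)).1
      have e1 : (t : ℝ) * R ≤ ((ta θ q i (xv w) : ℤ) : ℝ) * R := mul_le_mul_of_nonneg_right g3' hR.le
      have e2 : (t : ℝ) * R ≤ ((ta θ q i (xv w') : ℤ) : ℝ) * R :=
        mul_le_mul_of_nonneg_right k3' hR.le
      have e3 : (((ta θ q i (xv w) : ℤ) : ℝ) + 1) * R ≤ (t + d + 1) * R :=
        mul_le_mul_of_nonneg_right (by linarith) hR.le
      have e4 : (((ta θ q i (xv w') : ℤ) : ℝ) + 1) * R ≤ (t + d + 1) * R :=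
        mul_le_mul_of_nonneg_right (by linarith) hR.le
      rw [abs_le]
      constructor <;> linarith
    have hω : 0 < (d + 2) * R / T := by positivity
    have hcl := hCLU S (fun s => (wf s).reverse.drop s.length) (3 * B) ((d + 2) * R / T) hω
      (by
        intro s h s' h' hp
        have h1 := (hsf (wf s) (hwfW s h)).1
        have h2 := (hsf (wf s') (hwfW s' h')).1
        rw [(hwf s h).2] at h1
        rw [(hwf s' h').2] at h2
        exact stop_prefix h1 h2 hp)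
      (by
        intro s h
        have h1 := (hsf (wf s) (hwfW s h)).1
        rw [(hwf s h).2] at h1
        exact stop_le hB1 h1)
      (by
        intro s h
        show (s ++ (wf s).reverse.drop s.length).getLast? = some true
        rw [hext s h]
        exact (hK (wf s) (hwfW s h)).2.2)
      (by
        intro s h s' h'
        show |be (s ++ (wf s).reverse.drop s.length) - be (s' ++ (wf s').reverse.drop s'.length)| ≤ _
        rw [hext s h, hext s' h']
        exact hnear _ (hwf s h).1 _ (hwf s' h').1)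
    have hdδ : (1 : ℝ) ≤ d ^ δ := Real.one_le_rpow hd hδ.le
    -- the number of classes
    have hSc : (S.card : ℝ) ≤ (1 + C * (1728 : ℝ) ^ δ) * d ^ δ := by
      have e1 : 8 * (3 * B) * Real.sqrt ((d + 2) * R / T) = 24 * Real.sqrt (d + 2) := by
        rw [hB]
        have e2 : Real.sqrt (T / R) * Real.sqrt ((d + 2) * R / T) = Real.sqrt (d + 2) := by
          rw [← Real.sqrt_mul (by positivity)]
          congr 1
          field_simp
        calc 8 * (3 * Real.sqrt (T / R)) * Real.sqrt ((d + 2) * R / T) =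
            24 * (Real.sqrt (T / R) * Real.sqrt ((d + 2) * R / T)) := by ring
          _ = _ := by rw [e2]
      rw [e1] at hcl
      have hL1 : 1 ≤ 24 * Real.sqrt (d + 2) := by
        have : 1 ≤ Real.sqrt (d + 2) := Real.one_le_sqrt.mpr (by linarith)
        linarith
      have hA := (hCnt _ hL1).2
      have e3 : (24 * Real.sqrt (d + 2)) ^ (2 * δ) ≤ (1728 : ℝ) ^ δ * d ^ δ := by
        rw [Real.rpow_mul (by positivity)]
        have e4 : (24 * Real.sqrt (d + 2)) ^ (2 : ℝ) = 576 * (d + 2) := by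
          rw [Real.rpow_two, mul_pow, Real.sq_sqrt (by positivity)]
          ring
        rw [e4, ← Real.mul_rpow (by norm_num) (by positivity)]
        apply Real.rpow_le_rpow (by positivity) (by linarith) hδ.le
      have e5 : C * (24 * Real.sqrt (d + 2)) ^ (2 * δ) ≤ C * ((1728 : ℝ) ^ δ * d ^ δ) :=
        mul_le_mul_of_nonneg_left e3 hC0.le
      nlinarith
    -- the values in one class
    set G : Word → Finset ℤ := fun s =>
      Finset.Icc (ta θ q i (xv (wf s)) - 11) (ta θ q i (xv (wf s)) + 11) with hG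
    have hGc : ∀ s ∈ S, (G s).card ≤ 23 := by
      intro s _
      rw [hG]
      simp only [Int.card_Icc]
      omega
    have hsub : (offs (W.image xv) q i x).filter (fun s => t ≤ s ∧ (s : ℝ) ≤ t + d) ⊆
        S.biUnion G := by
      intro z hz
      obtain ⟨hz1, hz2⟩ := Finset.mem_filter.1 hz
      unfold offs at hz1
      obtain ⟨y, hy, rfl⟩ := Finset.mem_image.1 hz1
      obtain ⟨hy1, hy2⟩ := (mem_cls _ _ _ _).1 hy
      obtain ⟨w, hw, rfl⟩ := Finset.mem_image.1 hy1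
      have hwW' : w ∈ W' := Finset.mem_filter.2 ⟨hw, hy2, hz2.1, hz2.2⟩
      have hsS : sf w ∈ S := Finset.mem_image.2 ⟨w, hwW', rfl⟩
      rw [Finset.mem_biUnion]
      refine ⟨sf w, hsS, ?_⟩
      obtain ⟨k1, k2, k3, k4⟩ := hW'm _ (hwf _ hsS).1
      have hst := (hsf w hw).1
      have hpw := (hsf w hw).2
      have hpw' := (hsf (wf (sf w)) (hwfW _ hsS)).2
      rw [(hwf _ hsS).2] at hpw'
      obtain ⟨r, hr⟩ := hpw
      obtain ⟨r', hr'⟩ := hpw'
      have hn := be_near (sf w) r r'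
      rw [hr, hr', be_rev w, be_rev (wf (sf w))] at hn
      have hKs : 1 / (K (sf w) : ℝ) ^ 2 ≤ R / T := by
        have h1 : B ≤ (K (sf w) : ℝ) := hst.1.le
        have h2 : B ^ 2 ≤ (K (sf w) : ℝ) ^ 2 := pow_le_pow_left₀ (by linarith) h1 2
        rw [hBsq] at h2
        have h3 : 0 < T / R := by positivity
        calc 1 / (K (sf w) : ℝ) ^ 2 ≤ 1 / (T / R) := one_div_le_one_div_of_le h3 h2
          _ = R / T := by rw [one_div_div]
      have hfin := off_near (θ := θ) (Q := q) hR hT0 (hK w hw).1.le (hK w hw).2.1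
        (hK _ k1).1.le (by positivity) hbig' (hn.trans hKs) (hoff _ k2)
        (hcell _ _ (hy2.trans k2.symm)).1
      obtain ⟨b1, b2⟩ := ta_bounds θ q i hq0 (xv w)
      obtain ⟨b1', b2'⟩ := ta_bounds θ q i hq0 (xv (wf (sf w)))
      rw [abs_le] at hfin
      have m1 : ((ta θ q i (xv w) : ℤ) : ℝ) * R <
          (((ta θ q i (xv (wf (sf w))) : ℤ) : ℝ) + 11) * R := by
        nlinarith [hfin.1, hfin.2]
      have m2 : (((ta θ q i (xv (wf (sf w))) : ℤ) : ℝ) - 11) * R <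
          ((ta θ q i (xv w) : ℤ) : ℝ) * R := by
        nlinarith [hfin.1, hfin.2]
      have m3 := lt_of_mul_lt_mul_right m1 hR.le
      have m4 := lt_of_mul_lt_mul_right m2 hR.le
      have m5 : ta θ q i (xv w) < ta θ q i (xv (wf (sf w))) + 11 := by exact_mod_cast m3
      have m6 : ta θ q i (xv (wf (sf w))) - 11 < ta θ q i (xv w) := by exact_mod_cast m4
      rw [hG]
      simp only [Finset.mem_Icc]
      exact ⟨m6.le, m5.le⟩
    have hcard := (Finset.card_le_card hsub).trans (Finset.card_biUnion_le_card_mul S G _ hGc)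
    have hcard' : (((offs (W.image xv) q i x).filter
        (fun s => t ≤ s ∧ (s : ℝ) ≤ t + d)).card : ℝ) ≤ (S.card : ℝ) * 23 := by
      exact_mod_cast hcard
    refine hcard'.trans ?_
    nlinarith [hSc]

end Pool.Agent.Lib.MP_d0a18a_nt.ZP
end
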