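import Pool.Agent.Lib.MP_d0a18a_nt.ZP.Spec2

section
/-! Module CEL: the blocks read until the square of the continuant reaches `S`. -/
set_option autoImplicit false

namespace Pool.Agent.Lib.MP_d0a18a_nt.ZP

open Finset

namespace CELM

theorem take_eq_iff {N : ℕ} (ω ω' : Fin N → Word) (i : ℕ) (hi : i ≤ N) :
    (List.ofFn ω').take i = (List.ofFn ω).take i ↔ ∀ l : Fin N, (l : ℕ) < i → ω' l = ω l := by
  constructor
  · intro h l hl
    have h1 : ((List.ofFn ω').take i)[(l : ℕ)]? = ((List.ofFn ω).take i)[(l : ℕ)]? := by rw [h]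
    rw [List.getElem?_take_of_lt hl, List.getElem?_take_of_lt hl] at h1
    simpa using h1
  · intro h
    apply List.ext_getElem
    · simp
    · intro n h1 h2
      have hn : n < i := by
        rw [List.length_take] at h1
        exact lt_of_lt_of_le h1 (min_le_left _ _)
      have := h ⟨n, by omega⟩ hn
      simpa using this

theorem bw_congr {N : ℕ} (ω ω' : Fin N → Word) (i j : ℕ) (hi : i ≤ N) (hj : j ≤ i)
    (h : ∀ l : Fin N, (l : ℕ) < i → ω' l = ω l) : bw ω' j = bw ω j := by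
  unfold bw
  rw [(take_eq_iff ω ω' j (hj.trans hi)).2 (fun l hl => h l (lt_of_lt_of_le hl hj))]

theorem bw_zero {N : ℕ} (ω : Fin N → Word) : bw ω 0 = [] := by simp [bw]

theorem bw_succ {N : ℕ} (ω : Fin N → Word) (i : ℕ) (hi : i < N) :
    bw ω (i + 1) = bw ω i ++ ω ⟨i, hi⟩ := by
  unfold bw
  rw [List.take_succ_eq_append_getElem (by simpa using hi), List.flatten_append]
  simp

theorem bw_split {N : ℕ} (ω : Fin N → Word) (i : ℕ) :
    bw ω N = bw ω i ++ ((List.ofFn ω).drop i).flatten := by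
  unfold bw
  rw [List.take_of_length_le (by simp), ← List.flatten_append, List.take_append_drop]

end CELM

open CELM in
theorem specCEL : SpecCEL := by
  intro W L d hcode N S ω hω hS hSN
  obtain ⟨hL2, _, _, hK, _, _⟩ := hcode
  have hL0 : (0 : ℝ) < L := by linarith
  have hmem : ∀ ω' ∈ Bl W N, ∀ l : Fin N, ω' l ∈ W := by
    intro ω' h' l
    exact (Fintype.mem_piFinset.1 h') l
  have hstep : ∀ i (hi : i < N), L * (K (bw ω i) : ℝ) ≤ (K (bw ω (i + 1)) : ℝ) ∧
      (K (bw ω (i + 1)) : ℝ) ≤ 6 * L * (K (bw ω i) : ℝ) := by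
    intro i hi
    rw [bw_succ ω i hi]
    have h1 := hK _ (hmem ω hω ⟨i, hi⟩)
    have h2 : (K (bw ω i) : ℝ) * (K (ω ⟨i, hi⟩) : ℝ) ≤ (K (bw ω i ++ ω ⟨i, hi⟩) : ℝ) := by
      exact_mod_cast K_mul_le _ _
    have h3 : (K (bw ω i ++ ω ⟨i, hi⟩) : ℝ) ≤ 2 * ((K (bw ω i) : ℝ) * (K (ω ⟨i, hi⟩) : ℝ)) := by
      exact_mod_cast K_append_le _ _
    have h4 : (0 : ℝ) < (K (bw ω i) : ℝ) := by exact_mod_cast K_pos _
    constructor
    · nlinarith
    · nlinarith
  have hpow : ∀ i, i ≤ N → L ^ i ≤ (K (bw ω i) : ℝ) := by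
    intro i
    induction i with
    | zero => intro _; rw [bw_zero, K_nil]; simp
    | succ i ih =>
      intro hi
      have h1 := ih (by omega)
      have h2 := (hstep i (by omega)).1
      rw [pow_succ]
      nlinarith
  refine ⟨hpow N le_rfl, ?_⟩
  set s : Set ℕ := {i : ℕ | S ≤ (K (bw ω i) : ℝ) ^ 2} with hs
  have hN : N ∈ s := by
    have h1 := hpow N le_rfl
    have h2 : (0 : ℝ) ≤ L ^ N := by positivity
    show S ≤ (K (bw ω N) : ℝ) ^ 2
    exact hSN.trans (pow_le_pow_left₀ h2 h1 2)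
  have hiN : sInf s ≤ N := Nat.sInf_le hN
  have hi0 : sInf s ∈ s := Nat.sInf_mem ⟨N, hN⟩
  refine ⟨sInf s, hiN, hi0, ?_, ?_⟩
  · rcases Nat.eq_zero_or_pos (sInf s) with h0 | hpos
    · rw [h0, bw_zero, K_nil]
      push_cast
      nlinarith [mul_pos hL0 hL0]
    · obtain ⟨j, hj⟩ : ∃ j, sInf s = j + 1 := ⟨sInf s - 1, by omega⟩
      have h1 : j ∉ s := Nat.notMem_of_lt_sInf (by omega)
      have h2 : (K (bw ω j) : ℝ) ^ 2 < S := not_le.1 h1
      rw [hj]
      have h3 := (hstep j (by omega)).2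
      have h4 : (0 : ℝ) < (K (bw ω (j + 1)) : ℝ) := by exact_mod_cast K_pos _
      have h5 : (K (bw ω (j + 1)) : ℝ) ^ 2 ≤ (6 * L * (K (bw ω j) : ℝ)) ^ 2 :=
        pow_le_pow_left₀ h4.le h3 2
      nlinarith [mul_pos hL0 hL0]
  · intro ω' hω'
    have hpow' : L ^ N ≤ (K (bw ω' N) : ℝ) := by
      have hst : ∀ i (_ : i ≤ N), L ^ i ≤ (K (bw ω' i) : ℝ) := by
        intro i
        induction i with
        | zero => intro _; rw [bw_zero, K_nil]; simp
        | succ i ih =>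
          intro hi
          have h1 := ih (by omega)
          rw [bw_succ ω' i (by omega)]
          have h2 := hK _ (hmem ω' hω' ⟨i, by omega⟩)
          have h3 : (K (bw ω' i) : ℝ) * (K (ω' ⟨i, by omega⟩) : ℝ) ≤
              (K (bw ω' i ++ ω' ⟨i, by omega⟩) : ℝ) := by
            exact_mod_cast K_mul_le _ _
          have h4 : (0 : ℝ) < (K (bw ω' i) : ℝ) := by exact_mod_cast K_pos _
          have h5 : (0 : ℝ) ≤ L ^ i := by positivity
          rw [pow_succ]
          nlinarith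
      exact hst N le_rfl
    have hN' : S ≤ (K (bw ω' N) : ℝ) ^ 2 :=
      hSN.trans (pow_le_pow_left₀ (by positivity) hpow' 2)
    have hiN' : sInf {i : ℕ | S ≤ (K (bw ω' i) : ℝ) ^ 2} ≤ N := Nat.sInf_le hN'
    constructor
    · intro h
      unfold cel at h
      have hlen := congrArg List.length h
      rw [List.length_take, List.length_take, List.length_ofFn, List.length_ofFn,
        min_eq_left hiN', min_eq_left hiN] at hlen
      rw [hlen] at h
      exact (take_eq_iff ω ω' _ hiN).1 h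
    · intro h
      have h1 : sInf {i : ℕ | S ≤ (K (bw ω' i) : ℝ) ^ 2} = sInf s := by
        apply le_antisymm
        · apply Nat.sInf_le
          show S ≤ (K (bw ω' (sInf s)) : ℝ) ^ 2
          rw [bw_congr ω ω' (sInf s) (sInf s) hiN le_rfl h]
          exact hi0
        · by_contra hlt
          push Not at hlt
          have h2 : S ≤ (K (bw ω' (sInf {i : ℕ | S ≤ (K (bw ω' i) : ℝ) ^ 2})) : ℝ) ^ 2 :=
            Nat.sInf_mem (s := {i : ℕ | S ≤ (K (bw ω' i) : ℝ) ^ 2}) ⟨N, hN'⟩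
          rw [bw_congr ω ω' (sInf s) _ hiN hlt.le h] at h2
          exact Nat.notMem_of_lt_sInf hlt h2
      unfold cel
      rw [h1]
      exact (take_eq_iff ω ω' _ hiN).2 h

end Pool.Agent.Lib.MP_d0a18a_nt.ZP
end

section
/-!
# COA: the abstract summation for the collision probability
-/
set_option autoImplicit false

namespace Pool.Agent.Lib.MP_d0a18a_nt.ZP

open Finset

namespace COAM

/-- dyadic location of `x ∈ [2^(-n), 1]` -/
theorem loc (n : ℕ) (x : ℝ) (h1 : (2 : ℝ)⁻¹ ^ n ≤ x) (h2 : x ≤ 1) :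
    ∃ l ≤ n, (2 : ℝ)⁻¹ ^ (l + 1) ≤ x ∧ x ≤ (2 : ℝ)⁻¹ ^ l := by
  induction n with
  | zero =>
    refine ⟨0, le_refl _, ?_, by simpa using h2⟩
    simp at h1 ⊢
    linarith
  | succ n ih =>
    by_cases h : (2 : ℝ)⁻¹ ^ n ≤ x
    · obtain ⟨l, hl, h3⟩ := ih h
      exact ⟨l, by omega, h3⟩
    · push Not at h
      exact ⟨n, by omega, h1, h.le⟩

/-- the Frostman sum -/
theorem fsum {α : Type} (U : Finset α) (A : α → ℝ) (C d : ℝ) (n : ℕ) (hC : 0 ≤ C)
    (hd1 : 1 / 2 < d) (hd2 : d ≤ 1) (hA : ∀ u ∈ U, (2 : ℝ)⁻¹ ^ n ≤ A u ∧ A u ≤ 1)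
    (hF : ∀ t : ℝ, (2 : ℝ)⁻¹ ^ n ≤ t →
      ((U.filter (fun u => A u ≤ t)).card : ℝ) ≤ C * t ^ d * (U.card : ℝ)) :
    ∑ u ∈ U, (A u) ^ (d - 1) ≤ 2 * C * (1 / (1 - (2 : ℝ)⁻¹ ^ (2 * d - 1))) * (U.card : ℝ) := by
  classical
  have h2 : (0 : ℝ) < 2⁻¹ := by norm_num
  have hr0 : 0 < (2 : ℝ)⁻¹ ^ (2 * d - 1) := Real.rpow_pos_of_pos h2 _
  have hr1 : (2 : ℝ)⁻¹ ^ (2 * d - 1) < 1 :=
    Real.rpow_lt_one h2.le (by norm_num) (by linarith)
  have step : ∀ u ∈ U, (A u) ^ (d - 1) ≤ ∑ l ∈ range (n + 1),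
      if A u ≤ (2 : ℝ)⁻¹ ^ l then ((2 : ℝ)⁻¹ ^ (l + 1)) ^ (d - 1) else 0 := by
    intro u hu
    obtain ⟨l, hl, h3, h4⟩ := loc n (A u) (hA u hu).1 (hA u hu).2
    have hnn : ∀ l ∈ range (n + 1), 0 ≤
        (if A u ≤ (2 : ℝ)⁻¹ ^ l then ((2 : ℝ)⁻¹ ^ (l + 1)) ^ (d - 1) else 0) := by
      intro l _
      split_ifs
      · positivity
      · exact le_refl _
    refine le_trans ?_ (Finset.single_le_sum hnn (Finset.mem_range.2 (Nat.lt_succ_of_le hl)))
    rw [if_pos h4]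
    exact Real.rpow_le_rpow_of_nonpos (by positivity) h3 (by linarith)
  refine (Finset.sum_le_sum step).trans ?_
  rw [Finset.sum_comm]
  have step2 : ∀ l ∈ range (n + 1), (∑ u ∈ U,
      if A u ≤ (2 : ℝ)⁻¹ ^ l then ((2 : ℝ)⁻¹ ^ (l + 1)) ^ (d - 1) else 0) ≤
      2 * C * (U.card : ℝ) * ((2 : ℝ)⁻¹ ^ (2 * d - 1)) ^ l := by
    intro l hl
    have hln : l ≤ n := Nat.lt_succ_iff.1 (Finset.mem_range.1 hl)
    rw [← Finset.sum_filter, Finset.sum_const, nsmul_eq_mul]
    have h5 := hF ((2 : ℝ)⁻¹ ^ l) (pow_le_pow_of_le_one h2.le (by norm_num) hln)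
    have h6 : ((2 : ℝ)⁻¹ ^ (l + 1)) ^ (d - 1) = (2 : ℝ)⁻¹ ^ (d - 1) * ((2 : ℝ)⁻¹ ^ l) ^ (d - 1) := by
      rw [pow_succ', Real.mul_rpow h2.le (by positivity)]
    have h7 : (2 : ℝ)⁻¹ ^ (d - 1) ≤ 2 := by
      calc (2 : ℝ)⁻¹ ^ (d - 1) ≤ (2 : ℝ)⁻¹ ^ (-1 : ℝ) :=
            Real.rpow_le_rpow_of_exponent_ge h2 (by norm_num) (by linarith)
        _ = 2 := by rw [Real.rpow_neg_one]; norm_num
    have h8 : ((2 : ℝ)⁻¹ ^ l) ^ d * ((2 : ℝ)⁻¹ ^ l) ^ (d - 1) = ((2 : ℝ)⁻¹ ^ (2 * d - 1)) ^ l := by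
      rw [← Real.rpow_add (by positivity), ← Real.rpow_natCast, ← Real.rpow_natCast,
        ← Real.rpow_mul h2.le, ← Real.rpow_mul h2.le]
      congr 1
      ring
    have hp : 0 ≤ ((2 : ℝ)⁻¹ ^ l) ^ (d - 1) := by positivity
    have hp' : 0 ≤ ((2 : ℝ)⁻¹ ^ l) ^ d := by positivity
    have hp'' : 0 ≤ (2 : ℝ)⁻¹ ^ (d - 1) := by positivity
    have hU : (0 : ℝ) ≤ (U.card : ℝ) := by positivity
    rw [h6]
    calc ((U.filter (fun u => A u ≤ (2 : ℝ)⁻¹ ^ l)).card : ℝ) *
          ((2 : ℝ)⁻¹ ^ (d - 1) * ((2 : ℝ)⁻¹ ^ l) ^ (d - 1))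
        ≤ (C * ((2 : ℝ)⁻¹ ^ l) ^ d * (U.card : ℝ)) * (2 * ((2 : ℝ)⁻¹ ^ l) ^ (d - 1)) := by
          apply mul_le_mul h5 _ (by positivity) (by positivity)
          exact mul_le_mul_of_nonneg_right h7 hp
      _ = 2 * C * (U.card : ℝ) * (((2 : ℝ)⁻¹ ^ l) ^ d * ((2 : ℝ)⁻¹ ^ l) ^ (d - 1)) := by ring
      _ = _ := by rw [h8]
  refine (Finset.sum_le_sum step2).trans ?_
  rw [← Finset.mul_sum]
  have h9 : ∑ l ∈ range (n + 1), ((2 : ℝ)⁻¹ ^ (2 * d - 1)) ^ l ≤
      1 / (1 - (2 : ℝ)⁻¹ ^ (2 * d - 1)) := by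
    rw [le_div_iff₀ (by linarith)]
    have := geom_sum_mul ((2 : ℝ)⁻¹ ^ (2 * d - 1)) (n + 1)
    have h10 : 0 ≤ ((2 : ℝ)⁻¹ ^ (2 * d - 1)) ^ (n + 1) := by positivity
    linarith
  calc 2 * C * (U.card : ℝ) * ∑ l ∈ range (n + 1), ((2 : ℝ)⁻¹ ^ (2 * d - 1)) ^ l
      ≤ 2 * C * (U.card : ℝ) * (1 / (1 - (2 : ℝ)⁻¹ ^ (2 * d - 1))) := by
        apply mul_le_mul_of_nonneg_left h9 (by positivity)
    _ = _ := by ring

end COAM

open COAM in
theorem specCOA : SpecCOA := by
  classical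
  intro C d hC hd1 hd2
  have h2 : (0 : ℝ) < 2⁻¹ := by norm_num
  set G : ℝ := 1 / (1 - (2 : ℝ)⁻¹ ^ (2 * d - 1)) with hG
  have hr0 : 0 < (2 : ℝ)⁻¹ ^ (2 * d - 1) := Real.rpow_pos_of_pos h2 _
  have hr1 : (2 : ℝ)⁻¹ ^ (2 * d - 1) < 1 :=
    Real.rpow_lt_one h2.le (by norm_num) (by linarith)
  have hG1 : 1 ≤ G := by
    rw [hG, le_div_iff₀ (by linarith)]
    linarith
  have hC0 : 0 < C := by linarith
  have hC4 : 1 ≤ C ^ 4 := one_le_pow₀ hC
  refine ⟨8 * C ^ 4 * G, by nlinarith, ?_⟩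
  intro α β U V a b g n ha hFa hFb hg hg1 hg2
  set q : ℝ := (2 : ℝ)⁻¹ ^ n with hq
  have hq0 : 0 < q := by positivity
  have hq1 : q ≤ 1 := pow_le_one₀ h2.le (by norm_num)
  have hU0 : (0 : ℝ) ≤ U.card := by positivity
  have hV0 : (0 : ℝ) ≤ V.card := by positivity
  -- the modified distance
  have hsum := fsum U (fun u => max (a u) q) C d n hC0.le hd1 hd2
    (fun u hu => ⟨le_max_right _ _, max_le (ha u hu).2 hq1⟩)
    (fun t ht => by
      refine le_trans ?_ (hFa t ht)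
      exact_mod_cast Finset.card_le_card (Finset.monotone_filter_right _
        (fun u _ hu => le_trans (le_max_left _ _) hu)))
  have inner : ∀ u ∈ U, ∑ v ∈ V, g u v ≤
      4 * C ^ 3 * q * (max (a u) q) ^ (d - 1) * (V.card : ℝ) := by
    intro u hu
    set A : ℝ := max (a u) q with hA
    have hAq : q ≤ A := le_max_right _ _
    have hAa : a u ≤ A := le_max_left _ _
    have hA0 : 0 < A := by linarith
    have hA1 : A ≤ 1 := max_le (ha u hu).2 hq1
    have e1 : ∑ v ∈ V, g u v = ∑ v ∈ V.filter (fun v => b v ≤ 2 * C * A), g u v := by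
      rw [Finset.sum_filter]
      refine Finset.sum_congr rfl fun v hv => ?_
      split_ifs with h
      · rfl
      · refine hg2 u hu v hv (lt_of_le_of_lt ?_ (not_le.1 h))
        nlinarith
    have e2 : ∀ v ∈ V.filter (fun v => b v ≤ 2 * C * A), g u v ≤ 2 * C * q / A := by
      intro v hv
      have hv' := (Finset.mem_filter.1 hv).1
      by_cases h : q ≤ a u
      · have hAe : A = a u := max_eq_left h
        refine (hg1 u hu v hv' (by linarith)).trans ?_
        rw [← hAe]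
        have : q ≤ q / A := by
          rw [le_div_iff₀ hA0]; nlinarith
        have e : 2 * C * q / A = C * (q / A + q / A) := by ring
        rw [e]
        gcongr
      · have hAe : A = q := max_eq_right (not_le.1 h).le
        refine ((hg u hu v hv').2).trans ?_
        rw [hAe, mul_div_assoc, div_self hq0.ne']
        linarith
    rw [e1]
    refine (Finset.sum_le_card_nsmul _ _ _ e2).trans ?_
    rw [nsmul_eq_mul]
    have e3 := hFb (2 * C * A) (by nlinarith)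
    have e4 : (2 * C * A) ^ d ≤ 2 * C * A ^ d := by
      rw [Real.mul_rpow (by positivity) hA0.le]
      have : (2 * C) ^ d ≤ (2 * C) ^ (1 : ℝ) :=
        Real.rpow_le_rpow_of_exponent_le (by linarith) hd2
      rw [Real.rpow_one] at this
      gcongr
    have e5 : A ^ d / A = A ^ (d - 1) := by
      rw [Real.rpow_sub_one hA0.ne']
    calc ((V.filter (fun v => b v ≤ 2 * C * A)).card : ℝ) * (2 * C * q / A)
        ≤ (C * (2 * C * A) ^ d * (V.card : ℝ)) * (2 * C * q / A) := by gcongr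
      _ ≤ (C * (2 * C * A ^ d) * (V.card : ℝ)) * (2 * C * q / A) := by gcongr
      _ = 4 * C ^ 3 * q * (A ^ d / A) * (V.card : ℝ) := by ring
      _ = _ := by rw [e5]
  refine (Finset.sum_le_sum inner).trans ?_
  have e6 : ∑ u ∈ U, 4 * C ^ 3 * q * (max (a u) q) ^ (d - 1) * (V.card : ℝ) =
      4 * C ^ 3 * q * (V.card : ℝ) * ∑ u ∈ U, (max (a u) q) ^ (d - 1) := by
    rw [Finset.mul_sum]
    refine Finset.sum_congr rfl fun u _ => by ring
  rw [e6]
  calc 4 * C ^ 3 * q * (V.card : ℝ) * ∑ u ∈ U, (max (a u) q) ^ (d - 1)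
      ≤ 4 * C ^ 3 * q * (V.card : ℝ) * (2 * C * G * (U.card : ℝ)) := by
        apply mul_le_mul_of_nonneg_left hsum (by positivity)
    _ = 8 * C ^ 4 * G * q * (U.card : ℝ) * (V.card : ℝ) := by ring

end Pool.Agent.Lib.MP_d0a18a_nt.ZP
end

section
/-! Module COD: a finite prefix free code of dimension more than 1/2. -/
set_option autoImplicit false

namespace Pool.Agent.Lib.MP_d0a18a_nt.ZP

open Finset Filter

theorem specCOD (hCRB : SpecCRB) (hSTP : SpecSTP) : SpecCOD := by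
  obtain ⟨c, hc, hA⟩ := hCRB
  -- a large L
  have h1 : Tendsto (fun L : ℝ => L ^ (69 / 65 - 103 / 100 : ℝ)) atTop atTop :=
    tendsto_rpow_atTop (by norm_num)
  obtain ⟨L, hL2, hL⟩ := ((eventually_ge_atTop (2 : ℝ)).and
    (h1.eventually_ge_atTop ((6 : ℝ) ^ (103 / 100 : ℝ) / c))).exists
  have hL1 : (1 : ℝ) ≤ L := by linarith
  have hL0 : (0 : ℝ) < L := by linarith
  refine ⟨(stop_finite hL1).toFinset, L, 103 / 200, hL2, by norm_num, by norm_num, ?_, ?_, ?_⟩
  · intro w hw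
    rw [Set.Finite.mem_toFinset] at hw
    exact ⟨stop_lt hw, stop_le hL1 hw⟩
  · intro w hw w' hw' hp
    rw [Set.Finite.mem_toFinset] at hw hw'
    exact stop_prefix hw hw' hp
  · have h2 : ((A L : ℕ) : ℝ) ≤ ((stop L).ncard : ℝ) := by exact_mod_cast hSTP L hL1
    have h3 := hA L hL2
    have h4 : (((stop_finite hL1).toFinset.card : ℕ) : ℝ) = ((stop L).ncard : ℝ) := by
      rw [Set.ncard_eq_toFinset_card _ (stop_finite hL1)]
    rw [h4]
    refine le_trans ?_ (h3.trans h2)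
    have h5 : (6 * L) ^ (2 * (103 / 200 : ℝ)) = (6 : ℝ) ^ (103 / 100 : ℝ) * L ^ (103 / 100 : ℝ) := by
      rw [Real.mul_rpow (by norm_num) hL0.le]
      norm_num
    have h6 : L ^ (69 / 65 : ℝ) = L ^ (69 / 65 - 103 / 100 : ℝ) * L ^ (103 / 100 : ℝ) := by
      rw [← Real.rpow_add hL0]
      norm_num
    rw [h5, h6, ← mul_assoc]
    refine mul_le_mul_of_nonneg_right ?_ (Real.rpow_nonneg hL0.le _)
    rw [div_le_iff₀ hc] at hL
    linarith

end Pool.Agent.Lib.MP_d0a18a_nt.ZP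
end

section
/-!
# MP_d0a18a_nt, module FRO: Frostman bound for the directions of random words
-/
set_option autoImplicit false

namespace Pool.Agent.Lib.MP_d0a18a_nt.ZP

namespace FROM

variable {N : ℕ}

theorem bw_succ (ω : Fin N → Word) (e : ℕ) (he : e < N) : bw ω (e + 1) = bw ω e ++ ω ⟨e, he⟩ := by
  unfold bw
  rw [List.take_add_one, List.flatten_append]
  congr 1
  rw [List.getElem?_ofFn, dif_pos he]
  simp

theorem bw_ge (ω : Fin N → Word) (e : ℕ) (he : N ≤ e) : bw ω e = bw ω N := by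
  unfold bw
  rw [List.take_of_length_le (by simpa using he), List.take_of_length_le (by simp)]

theorem bw_split (ω : Fin N → Word) (e : ℕ) : ∃ s, bw ω N = bw ω e ++ s := by
  refine ⟨((List.ofFn ω).drop e).flatten, ?_⟩
  unfold bw
  rw [← List.flatten_append, List.take_append_drop, List.take_of_length_le (by simp)]

theorem bw_congr (ω ω' : Fin N → Word) (e : ℕ) (h : ∀ l : Fin N, (l : ℕ) < e → ω' l = ω l) :
    bw ω' e = bw ω e := by
  unfold bw
  congr 1
  apply List.ext_getElem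
  · simp
  · intro n h1 h2
    simp only [List.getElem_take, List.getElem_ofFn]
    apply h
    simp at h1
    simpa using h1.1

theorem K_succ_le {W : Finset Word} {L d : ℝ} (hW : Code W L d) (ω : Fin N → Word) (hω : ω ∈ Bl W N)
    (e : ℕ) : (K (bw ω (e + 1)) : ℝ) ≤ 6 * L * K (bw ω e) := by
  obtain ⟨hL, hd, hd1, hK, hp, hc⟩ := hW
  have hk : (1 : ℝ) ≤ K (bw ω e) := by exact_mod_cast K_pos _
  by_cases he : e < N
  · rw [bw_succ ω e he]
    have h1 : (K (bw ω e ++ ω ⟨e, he⟩) : ℝ) ≤ 2 * (K (bw ω e) * K (ω ⟨e, he⟩)) := by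
      exact_mod_cast K_append_le _ _
    have h2 := (hK (ω ⟨e, he⟩) (Fintype.mem_piFinset.1 hω _)).2
    nlinarith
  · rw [bw_ge ω (e + 1) (by omega), bw_ge ω e (by omega)]
    have hk : (1 : ℝ) ≤ K (bw ω N) := by exact_mod_cast K_pos _
    nlinarith

theorem K_add_le {W : Finset Word} {L d : ℝ} (hW : Code W L d) (ω : Fin N → Word) (hω : ω ∈ Bl W N)
    (i m : ℕ) : (K (bw ω (i + m)) : ℝ) ≤ (6 * L) ^ m * K (bw ω i) := by
  induction m with
  | zero => simp
  | succ m ih =>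
    have h1 := K_succ_le hW ω hω (i + m)
    have hL := hW.1
    calc (K (bw ω (i + (m + 1))) : ℝ) = K (bw ω (i + m + 1)) := by rw [add_assoc]
      _ ≤ 6 * L * K (bw ω (i + m)) := h1
      _ ≤ 6 * L * ((6 * L) ^ m * K (bw ω i)) := by
          apply mul_le_mul_of_nonneg_left ih; linarith
      _ = (6 * L) ^ (m + 1) * K (bw ω i) := by ring

theorem K_mono (ω : Fin N → Word) {e e' : ℕ} (h : e ≤ e') : K (bw ω e) ≤ K (bw ω e') := by
  have : bw ω e <+: bw ω e' := by
    unfold bw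
    obtain ⟨s, hs⟩ := List.take_prefix_take_left (l := List.ofFn ω) h
    rw [← hs, List.flatten_append]
    exact List.prefix_append _ _
  obtain ⟨s, hs⟩ := this
  rw [← hs]
  exact K_le_append_left _ _

/-- two words, neither a beginning of the other -/
theorem split_ne : ∀ (u v : Word), ¬ u <+: v → ¬ v <+: u →
    ∃ (p r r' : Word) (a b : Bool), a ≠ b ∧ u = p ++ a :: r ∧ v = p ++ b :: r'
  | [], v, h, _ => absurd (List.nil_prefix) h
  | u, [], _, h => absurd (List.nil_prefix) h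
  | x :: u, y :: v, h, h' => by
    by_cases hxy : x = y
    · subst hxy
      rw [List.cons_prefix_cons] at h h'
      obtain ⟨p, r, r', a, b, hab, h1, h2⟩ := split_ne u v (fun q => h ⟨rfl, q⟩) (fun q => h' ⟨rfl, q⟩)
      exact ⟨x :: p, r, r', a, b, hab, by rw [h1]; rfl, by rw [h2]; rfl⟩
    · exact ⟨[], u, v, x, y, hxy, rfl, rfl⟩

/-- the separation of words with different blocks at the first place of difference `e` -/
theorem far {W : Finset Word} {L d : ℝ} (hW : Code W L d) (ω ω' : Fin N → Word) (hω : ω ∈ Bl W N)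
    (hω' : ω' ∈ Bl W N) (e : ℕ) (he : e < N) (h : ∀ l : Fin N, (l : ℕ) < e → ω' l = ω l)
    (hne : ω' ⟨e, he⟩ ≠ ω ⟨e, he⟩) :
    1 / (64 * (K (bw ω (e + 1)) : ℝ) ^ 2) ≤ |be (yw ω) - be (yw ω')| := by
  obtain ⟨hL, hd, hd1, hK, hp, hc⟩ := hW
  have m1 : ω ⟨e, he⟩ ∈ W := Fintype.mem_piFinset.1 hω _
  have m2 : ω' ⟨e, he⟩ ∈ W := Fintype.mem_piFinset.1 hω' _
  obtain ⟨p, r, r', a, b, hab, h1, h2⟩ := split_ne (ω ⟨e, he⟩) (ω' ⟨e, he⟩)
    (fun q => hne (hp _ m1 _ m2 q).symm) (fun q => hne (hp _ m2 _ m1 q))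
  obtain ⟨s, hs⟩ := bw_split ω (e + 1)
  obtain ⟨s', hs'⟩ := bw_split ω' (e + 1)
  rw [bw_succ ω e he, h1] at hs
  rw [bw_succ ω' e he, h2, bw_congr ω ω' e h] at hs'
  have e1 : yw ω = (bw ω e ++ p) ++ a :: (r ++ s ++ [true]) := by
    unfold yw; rw [hs]; simp
  have e2 : yw ω' = (bw ω e ++ p) ++ b :: (r' ++ s' ++ [true]) := by
    unfold yw; rw [hs']; simp
  have hb := be_far (bw ω e ++ p) (r ++ s ++ [true]) (r' ++ s' ++ [true]) a b hab
    (by rw [← List.cons_append, List.getLast?_append]; simp)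
    (by rw [← List.cons_append, List.getLast?_append]; simp)
  rw [← e1, ← e2] at hb
  refine le_trans ?_ hb
  have hk : (K (bw ω e ++ p) : ℝ) ≤ K (bw ω (e + 1)) := by
    have : K (bw ω e ++ p) ≤ K (bw ω (e + 1)) := by
      rw [bw_succ ω e he, h1, ← List.append_assoc]
      exact K_le_append_left _ _
    exact_mod_cast this
  have hk0 : (1 : ℝ) ≤ K (bw ω e ++ p) := by exact_mod_cast K_pos _
  apply one_div_le_one_div_of_le (by positivity)
  nlinarith

open Classical in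
theorem card_agree (W : Finset Word) (ω : Fin N → Word) (j : ℕ) (hj : j ≤ N) :
    ((Bl W N).filter (fun ω' => ∀ l : Fin N, (l : ℕ) < j → ω' l = ω l)).card ≤ W.card ^ (N - j) := by
  have h1 : (Bl W N).filter (fun ω' => ∀ l : Fin N, (l : ℕ) < j → ω' l = ω l) ⊆
      Fintype.piFinset (fun l : Fin N => if (l : ℕ) < j then {ω l} else W) := by
    intro ω' h
    rw [Finset.mem_filter] at h
    rw [Fintype.mem_piFinset]
    intro l
    by_cases hl : (l : ℕ) < j
    · rw [if_pos hl, Finset.mem_singleton]; exact h.2 l hl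
    · rw [if_neg hl]; exact Fintype.mem_piFinset.1 h.1 l
  refine (Finset.card_le_card h1).trans ?_
  rw [Fintype.card_piFinset]
  have h2 : ∀ l : Fin N, (if (l : ℕ) < j then {ω l} else W : Finset Word).card =
      if (l : ℕ) < j then 1 else W.card := by
    intro l; split_ifs <;> simp
  rw [Finset.prod_congr rfl (fun l _ => h2 l), Finset.prod_ite, Finset.prod_const_one, one_mul,
    Finset.prod_const]
  apply le_of_eq
  congr 1
  have h3 := Finset.card_filter_add_card_filter_not (s := (Finset.univ : Finset (Fin N)))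
    (p := fun l : Fin N => (l : ℕ) < j)
  have h4 : (Finset.univ.filter (fun l : Fin N => (l : ℕ) < j)).card = j := by
    rw [Fin.card_filter_val_lt]
    omega
  rw [Finset.card_univ, Fintype.card_fin] at h3
  omega

end FROM

open FROM in
open Classical in
theorem specFRO : SpecFRO := by
  intro W L d hW
  have hL := hW.1
  have hd := hW.2.1
  refine ⟨(2304 * L ^ 2) ^ d, ?_, ?_⟩
  · apply Real.one_le_rpow _ (by linarith)
    nlinarith
  intro N i ω t hi hω ht hN
  have hP : ∃ j, 1 ≤ 64 * t * (K (bw ω j) : ℝ) ^ 2 := ⟨N, by nlinarith⟩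
  set m := Nat.find hP with hm
  have hPm : 1 ≤ 64 * t * (K (bw ω m) : ℝ) ^ 2 := Nat.find_spec hP
  have hmN : m ≤ N := Nat.find_min' hP (by nlinarith)
  set j := max i (m - 1) with hj
  have hij : i ≤ j := le_max_left _ _
  have hmj : m ≤ j + 1 := by
    have : m - 1 ≤ j := le_max_right _ _
    omega
  have hjN : j ≤ N := max_le hi (by omega)
  -- all counted words agree with `ω` up to `j`
  have hsub : (Bl W N).filter (fun ω' => (∀ l : Fin N, (l : ℕ) < i → ω' l = ω l) ∧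
      |be (yw ω) - be (yw ω')| ≤ t) ⊆
      (Bl W N).filter (fun ω' => ∀ l : Fin N, (l : ℕ) < j → ω' l = ω l) := by
    intro ω' h'
    rw [Finset.mem_filter] at h' ⊢
    obtain ⟨h1, h2, h3⟩ := h'
    refine ⟨h1, ?_⟩
    by_contra hc
    push Not at hc
    have hex : ∃ e : ℕ, ∃ he : e < N, ω' ⟨e, he⟩ ≠ ω ⟨e, he⟩ := by
      obtain ⟨l, -, hl⟩ := hc
      exact ⟨l, l.2, hl⟩
    set e := Nat.find hex with hedef
    obtain ⟨heN, hne⟩ := Nat.find_spec hex
    have hmin : ∀ l : Fin N, (l : ℕ) < e → ω' l = ω l := by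
      intro l hl
      by_contra hcc
      exact Nat.find_min hex hl ⟨l.2, hcc⟩
    have hej : e < j := by
      obtain ⟨l, hl1, hl2⟩ := hc
      have : e ≤ l := Nat.find_min' hex ⟨l.2, hl2⟩
      omega
    have hei : i ≤ e := by
      by_contra hcc
      exact hne (h2 ⟨e, heN⟩ (by simpa using hcc))
    have hf := (far hW ω ω' hω h1 e heN hmin hne).trans h3
    have hk0 : (1 : ℝ) ≤ K (bw ω (e + 1)) := by exact_mod_cast K_pos _
    rw [div_le_iff₀ (by positivity)] at hf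
    have : m ≤ e + 1 := Nat.find_min' hP (by linarith)
    have : m - 1 ≤ e := by omega
    have : j ≤ e := max_le hei this
    omega
  have hcard : (((Bl W N).filter (fun ω' => (∀ l : Fin N, (l : ℕ) < i → ω' l = ω l) ∧
      |be (yw ω) - be (yw ω')| ≤ t)).card : ℝ) ≤ (W.card : ℝ) ^ (N - j) := by
    exact_mod_cast (Finset.card_le_card hsub).trans (card_agree W ω j hjN)
  refine hcard.trans ?_
  -- the estimate
  have hKi : (1 : ℝ) ≤ K (bw ω i) := by exact_mod_cast K_pos _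
  have hK1 : (K (bw ω m) : ℝ) ≤ (6 * L) ^ (j + 1 - i) * K (bw ω i) := by
    have h1 : (K (bw ω m) : ℝ) ≤ K (bw ω (j + 1)) := by exact_mod_cast K_mono ω hmj
    have h2 := K_add_le hW ω hω i (j + 1 - i)
    rw [show i + (j + 1 - i) = j + 1 by omega] at h2
    exact h1.trans h2
  have hK2 : (1 : ℝ) ≤ 2304 * L ^ 2 * (t * (K (bw ω i) : ℝ) ^ 2) * ((6 * L) ^ 2) ^ (j - i) := by
    have h0 : (1 : ℝ) ≤ K (bw ω m) := by exact_mod_cast K_pos _
    have h1 : (K (bw ω m) : ℝ) ^ 2 ≤ ((6 * L) ^ (j + 1 - i) * K (bw ω i)) ^ 2 :=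
      pow_le_pow_left₀ (by linarith) hK1 2
    have h2 : (1 : ℝ) ≤ 64 * t * ((6 * L) ^ (j + 1 - i) * K (bw ω i)) ^ 2 :=
      hPm.trans (by apply mul_le_mul_of_nonneg_left h1; positivity)
    refine h2.trans (le_of_eq ?_)
    rw [show j + 1 - i = (j - i) + 1 by omega]
    have e : ((6 * L) ^ (j - i + 1) * (K (bw ω i) : ℝ)) ^ 2 =
        ((6 * L) ^ 2) ^ (j - i) * (6 * L) ^ 2 * (K (bw ω i) : ℝ) ^ 2 := by
      rw [mul_pow, ← pow_mul, mul_comm (j - i + 1) 2, pow_mul, pow_succ]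
    rw [e]
    ring
  have hW1 : (6 * L) ^ (2 * d) ≤ (W.card : ℝ) := hW.2.2.2.2.2
  have hWp : (0 : ℝ) < (6 * L) ^ (2 * d) := by apply Real.rpow_pos_of_pos; linarith
  have hx : 0 < t * (K (bw ω i) : ℝ) ^ 2 := by positivity
  have hK3 : (1 : ℝ) ≤ (2304 * L ^ 2) ^ d * (t * (K (bw ω i) : ℝ) ^ 2) ^ d * (W.card : ℝ) ^ (j - i) := by
    have h1 := Real.one_le_rpow hK2 (show 0 ≤ d by linarith)
    rw [Real.mul_rpow (by positivity) (by positivity), Real.mul_rpow (by positivity) (by positivity)] at h1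
    refine h1.trans ?_
    apply mul_le_mul_of_nonneg_left _ (by positivity)
    have h2 : (((6 * L) ^ 2) ^ (j - i) : ℝ) ^ d = ((6 * L) ^ (2 * d)) ^ (j - i) := by
      rw [← Real.rpow_natCast ((6 * L) ^ (2 * d)) (j - i), ← Real.rpow_mul (by positivity),
        ← Real.rpow_natCast ((6 * L) ^ 2) (j - i), ← Real.rpow_mul (by positivity),
        ← Real.rpow_natCast (6 * L) 2, ← Real.rpow_mul (by positivity)]
      congr 1
      push_cast
      ring
    rw [h2]
    exact pow_le_pow_left₀ hWp.le hW1 _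
  have hcp : (0 : ℝ) ≤ (W.card : ℝ) ^ (N - j) := by positivity
  calc (W.card : ℝ) ^ (N - j) = 1 * (W.card : ℝ) ^ (N - j) := by ring
    _ ≤ ((2304 * L ^ 2) ^ d * (t * (K (bw ω i) : ℝ) ^ 2) ^ d * (W.card : ℝ) ^ (j - i)) *
        (W.card : ℝ) ^ (N - j) := mul_le_mul_of_nonneg_right hK3 hcp
    _ = (2304 * L ^ 2) ^ d * (t * (K (bw ω i) : ℝ) ^ 2) ^ d * (W.card : ℝ) ^ (N - i) := by
        rw [show N - i = (j - i) + (N - j) by omega, pow_add]
        ring

end Pool.Agent.Lib.MP_d0a18a_nt.ZP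
end

section
/-!
# MP_d0a18a_nt, module COL: the average collision probability
-/
set_option autoImplicit false

namespace Pool.Agent.Lib.MP_d0a18a_nt.ZP

open Finset

namespace COLM

open Classical in
/-- the class of `a` in `B` -/
noncomputable def cl {α γ : Type} (B : Finset α) (c : α → γ) (a : α) : Finset α :=
  B.filter (fun b => c b = c a)

theorem mem_cl {α γ : Type} {B : Finset α} {c : α → γ} {a b : α} : b ∈ cl B c a ↔ b ∈ B ∧ c b = c a := by
  simp [cl]

theorem cl_congr {α γ : Type} {B : Finset α} {c : α → γ} {a b : α} (h : c b = c a) :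
    cl B c b = cl B c a := by
  ext x; rw [mem_cl, mem_cl, h]

open Classical in
theorem class_eq {α γ : Type} (M : ℕ) (B : Finset α) (c : α → γ) (k : ℕ) (hk : k ∈ range M) (a1 a2 : α) :
    @Finset.filter _ (fun y : ℕ × α × α =>
      (fun x : ℕ × α × α => (x.1, c x.2.1, c x.2.2)) y = (fun x : ℕ × α × α => (x.1, c x.2.1, c x.2.2)) (k, a1, a2))
      (fun _ => Classical.propDecidable _) (range M ×ˢ (B ×ˢ B))
      = {k} ×ˢ (cl B c a1 ×ˢ cl B c a2) := by
  ext ⟨k', b1, b2⟩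
  simp only [mem_filter, mem_product, mem_singleton, mem_cl, Prod.mk.injEq]
  constructor
  · rintro ⟨⟨h1, h2, h3⟩, h4, h5, h6⟩
    exact ⟨h4, ⟨h2, h5⟩, h3, h6⟩
  · rintro ⟨rfl, ⟨h2, h5⟩, h3, h6⟩
    exact ⟨⟨hk, h2, h3⟩, rfl, h5, h6⟩

open Classical in
theorem CP_eq {α γ δ : Type} (M : ℕ) (B : Finset α) (c : α → γ) (f : ℕ × α × α → δ) (k : ℕ)
    (hk : k ∈ range M) (w1 w2 : α) :
    CP (range M ×ˢ (B ×ˢ B)) f (fun x : ℕ × α × α => (x.1, c x.2.1, c x.2.2)) (k, w1, w2) =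
      (∑ a1 ∈ cl B c w1, ∑ a2 ∈ cl B c w2, ∑ b1 ∈ cl B c w1, ∑ b2 ∈ cl B c w2,
        (if f (k, a1, a2) = f (k, b1, b2) then (1 : ℝ) else 0)) /
      (((cl B c w1).card : ℝ) * ((cl B c w2).card : ℝ)) ^ 2 := by
  unfold CP
  rw [class_eq M B c k hk w1 w2]
  congr 1
  · rw [Finset.card_filter]
    push_cast
    rw [Finset.sum_product, Finset.sum_product, Finset.sum_singleton, Finset.sum_product]
    apply Finset.sum_congr rfl
    intro a1 _
    apply Finset.sum_congr rfl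
    intro a2 _
    rw [Finset.sum_product, Finset.sum_singleton, Finset.sum_product]
  · rw [Finset.card_product, Finset.card_singleton, one_mul, Finset.card_product]
    push_cast
    rfl

open Classical in
theorem sum_CP_le {α γ δ : Type} (M : ℕ) (B : Finset α) (c : α → γ) (f : ℕ × α × α → δ) (E : ℝ)
    (h : ∀ a1 ∈ B, ∀ a2 ∈ B, ∑ b1 ∈ cl B c a1, ∑ b2 ∈ cl B c a2,
      (((range M).filter (fun k => f (k, a1, a2) = f (k, b1, b2))).card : ℝ)
        ≤ E * M * (((cl B c a1).card : ℝ) * ((cl B c a2).card : ℝ))) :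
    ∑ x ∈ range M ×ˢ (B ×ˢ B), CP (range M ×ˢ (B ×ˢ B)) f
      (fun x : ℕ × α × α => (x.1, c x.2.1, c x.2.2)) x ≤ E * ((range M ×ˢ (B ×ˢ B)).card : ℝ) := by
  rw [Finset.sum_product]
  have h1 : ∀ k ∈ range M, ∑ y ∈ B ×ˢ B, CP (range M ×ˢ (B ×ˢ B)) f
      (fun x : ℕ × α × α => (x.1, c x.2.1, c x.2.2)) (k, y) =
      ∑ w1 ∈ B, ∑ w2 ∈ B, (∑ a1 ∈ cl B c w1, ∑ a2 ∈ cl B c w2, ∑ b1 ∈ cl B c w1, ∑ b2 ∈ cl B c w2,
        (if f (k, a1, a2) = f (k, b1, b2) then (1 : ℝ) else 0)) /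
      (((cl B c w1).card : ℝ) * ((cl B c w2).card : ℝ)) ^ 2 := by
    intro k hk
    rw [Finset.sum_product]
    apply Finset.sum_congr rfl
    intro w1 _
    apply Finset.sum_congr rfl
    intro w2 _
    exact CP_eq M B c f k hk w1 w2
  rw [Finset.sum_congr rfl h1, Finset.sum_comm]
  have h2 : ∀ w1 ∈ B, ∑ k ∈ range M, ∑ w2 ∈ B,
      (∑ a1 ∈ cl B c w1, ∑ a2 ∈ cl B c w2, ∑ b1 ∈ cl B c w1, ∑ b2 ∈ cl B c w2,
        (if f (k, a1, a2) = f (k, b1, b2) then (1 : ℝ) else 0)) /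
      (((cl B c w1).card : ℝ) * ((cl B c w2).card : ℝ)) ^ 2 ≤ ∑ w2 ∈ B, E * M := by
    intro w1 hw1
    rw [Finset.sum_comm]
    apply Finset.sum_le_sum
    intro w2 hw2
    rw [← Finset.sum_div]
    have hn1 : 0 < ((cl B c w1).card : ℝ) := by
      have : w1 ∈ cl B c w1 := mem_cl.2 ⟨hw1, rfl⟩
      exact_mod_cast Finset.card_pos.2 ⟨_, this⟩
    have hn2 : 0 < ((cl B c w2).card : ℝ) := by
      have : w2 ∈ cl B c w2 := mem_cl.2 ⟨hw2, rfl⟩
      exact_mod_cast Finset.card_pos.2 ⟨_, this⟩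
    rw [div_le_iff₀ (by positivity)]
    have h3 : ∑ k ∈ range M, ∑ a1 ∈ cl B c w1, ∑ a2 ∈ cl B c w2, ∑ b1 ∈ cl B c w1, ∑ b2 ∈ cl B c w2,
        (if f (k, a1, a2) = f (k, b1, b2) then (1 : ℝ) else 0) =
        ∑ a1 ∈ cl B c w1, ∑ a2 ∈ cl B c w2, ∑ b1 ∈ cl B c w1, ∑ b2 ∈ cl B c w2,
        (((range M).filter (fun k => f (k, a1, a2) = f (k, b1, b2))).card : ℝ) := by
      rw [Finset.sum_comm]
      apply Finset.sum_congr rfl; intro a1 _
      rw [Finset.sum_comm]
      apply Finset.sum_congr rfl; intro a2 _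
      rw [Finset.sum_comm]
      apply Finset.sum_congr rfl; intro b1 _
      rw [Finset.sum_comm]
      apply Finset.sum_congr rfl; intro b2 _
      rw [Finset.card_filter]
      push_cast
      rfl
    rw [h3]
    have h4 : ∀ a1 ∈ cl B c w1, ∀ a2 ∈ cl B c w2, ∑ b1 ∈ cl B c w1, ∑ b2 ∈ cl B c w2,
        (((range M).filter (fun k => f (k, a1, a2) = f (k, b1, b2))).card : ℝ)
        ≤ E * M * (((cl B c w1).card : ℝ) * ((cl B c w2).card : ℝ)) := by
      intro a1 ha1 a2 ha2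
      rw [mem_cl] at ha1 ha2
      have := h a1 ha1.1 a2 ha2.1
      rwa [cl_congr ha1.2, cl_congr ha2.2] at this
    calc _ ≤ ∑ a1 ∈ cl B c w1, ∑ a2 ∈ cl B c w2, E * M * (((cl B c w1).card : ℝ) * ((cl B c w2).card : ℝ)) :=
          Finset.sum_le_sum fun a1 ha1 => Finset.sum_le_sum fun a2 ha2 => h4 a1 ha1 a2 ha2
      _ = E * M * (((cl B c w1).card : ℝ) * ((cl B c w2).card : ℝ)) ^ 2 := by
          rw [Finset.sum_const, Finset.sum_const, nsmul_eq_mul, nsmul_eq_mul]; ring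
  refine (Finset.sum_le_sum h2).trans (le_of_eq ?_)
  rw [Finset.sum_const, Finset.sum_const, Finset.card_product, Finset.card_product, Finset.card_range,
    nsmul_eq_mul, nsmul_eq_mul]
  push_cast
  ring

/-- bounds for `lg` -/
theorem lg_bd (θ : ℝ) (h0 : 0 ≤ θ) (h1 : θ ≤ 1) (v : Word) (hv : v ≠ []) : -3 ≤ lg θ v ∧ lg θ v ≤ 0 := by
  have hb := be_ge_third v hv
  have hb1 := be_le_one v
  have hden : 0 < 1 + θ * be v := by nlinarith
  have hc : 1 / 4 ≤ cr θ (be v) := by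
    unfold cr
    rw [le_div_iff₀ hden]
    nlinarith
  have hc1 : cr θ (be v) ≤ 1 := by
    unfold cr
    rw [div_le_one₀ hden]
    nlinarith
  unfold lg
  constructor
  · have := Real.one_sub_inv_le_log_of_pos (show 0 < cr θ (be v) by linarith)
    have h2 : (cr θ (be v))⁻¹ ≤ 4 := by
      rw [inv_le_comm₀ (by linarith) (by norm_num)]
      linarith
    linarith
  · exact Real.log_nonpos (by linarith) hc1

theorem floor_eq_dist {a b : ℝ} (ha : 0 ≤ a) (hb : 0 ≤ b) (h : ⌊a⌋₊ = ⌊b⌋₊) : |a - b| ≤ 1 := by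
  have h1 := Nat.floor_le ha
  have h2 := Nat.lt_floor_add_one a
  have h3 := Nat.floor_le hb
  have h4 := Nat.lt_floor_add_one b
  rw [h] at h1 h2
  rw [abs_le]; constructor <;> linarith

theorem yw_ne {N : ℕ} (ω : Fin N → Word) : yw ω ≠ [] := by unfold yw; simp

theorem app_ne {u v : Word} (h : v ≠ []) : u ++ v ≠ [] := by simp [h]

end COLM

open FROM COLM in
open Classical in
theorem specCOL (hCEL : SpecCEL) (hFRO : SpecFRO) (hDCN : SpecDCN) (hCOA : SpecCOA) : SpecCOL := by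
  intro W L d hW
  have hL := hW.1
  have hd := hW.2.1
  have hd1 := hW.2.2.1
  obtain ⟨CF, hCF1, hCF⟩ := hFRO W L d hW
  obtain ⟨CD, hCD1, hCD⟩ := hDCN
  have hA : (1 : ℝ) ≤ (36 * L ^ 2) ^ d := Real.one_le_rpow (by nlinarith) (by linarith)
  set C := CF * (36 * L ^ 2) ^ d * CD ^ 2 with hC
  have hCD2 : (1 : ℝ) ≤ CD ^ 2 := by nlinarith
  have hFA : (1 : ℝ) ≤ CF * (36 * L ^ 2) ^ d := by nlinarith
  have hC1 : 1 ≤ C := by nlinarith
  have hCa : CF * (36 * L ^ 2) ^ d ≤ C := by nlinarith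
  have hCb : CD ^ 2 ≤ C := by nlinarith
  have hCc : CD ≤ C := by nlinarith
  obtain ⟨C', hC'1, hC'⟩ := hCOA C d hC1 hd hd1
  refine ⟨C', hC'1, ?_⟩
  intro n M N D S θ hnM hD hS hSN h0 h1
  have h2n : (1 : ℝ) ≤ 2 ^ n := one_le_pow₀ (by norm_num)
  have hMn : (2 : ℝ) ^ n ≤ (M : ℝ) := by exact_mod_cast hnM
  have hM1 : 1 ≤ M := le_trans (Nat.one_le_two_pow) hnM
  have hM0 : (0 : ℝ) < M := by linarith
  have hSL : S ≤ (L ^ N) ^ 2 := by nlinarith
  have hK0 : (1 : ℝ) ≤ K (D 0) := by exact_mod_cast K_pos _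
  have hS0 : 0 < S := by linarith
  obtain ⟨hDC⟩ : Nonempty (∀ (y z : Word), y ≠ [] → z ≠ [] →
    (∀ k ≤ M, |be y - be z| / (CD * (K (D 0) : ℝ) ^ 2) ≤ |lg θ (D k ++ y) - lg θ (D k ++ z)| ∧
      |lg θ (D k ++ y) - lg θ (D k ++ z)| ≤ CD * |be y - be z| / (K (D 0) : ℝ) ^ 2) ∧
    (be y ≠ be z → ∀ s ρ : ℝ, 0 < ρ →
      (((range M).filter (fun k => |lg θ (D k ++ y) - lg θ (D k ++ z) - s| ≤ ρ)).card : ℝ)
        ≤ CD * (1 + (M : ℝ) * ρ * (K (D 0) : ℝ) ^ 2 / |be y - be z|))) :=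
    ⟨fun y z hy hz => hCD M D hM1 hD θ y z h0 h1 hy hz⟩
  -- the class of a word
  have hcl : ∀ a ∈ Bl W N, ∃ i ≤ N, S ≤ (K (bw a i) : ℝ) ^ 2 ∧ (K (bw a i) : ℝ) ^ 2 ≤ 36 * L ^ 2 * S ∧
      cl (Bl W N) (cel S) a = (Bl W N).filter (fun ω' => ∀ l : Fin N, (l : ℕ) < i → ω' l = a l) ∧
      ((cl (Bl W N) (cel S) a).card : ℝ) = (W.card : ℝ) ^ (N - i) := by
    intro a ha
    obtain ⟨-, i, hi, hi1, hi2, hi3⟩ := hCEL W L d hW N S a ha hS hSL
    have e1 : cl (Bl W N) (cel S) a =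
        (Bl W N).filter (fun ω' => ∀ l : Fin N, (l : ℕ) < i → ω' l = a l) := by
      ext b
      rw [mem_cl, mem_filter]
      constructor
      · rintro ⟨h1, h2⟩; exact ⟨h1, (hi3 b h1).1 h2⟩
      · rintro ⟨h1, h2⟩; exact ⟨h1, (hi3 b h1).2 h2⟩
    refine ⟨i, hi, hi1, hi2, e1, ?_⟩
    rw [e1]
    have e2 : (Bl W N).filter (fun ω' => ∀ l : Fin N, (l : ℕ) < i → ω' l = a l) =
        Fintype.piFinset (fun l : Fin N => if (l : ℕ) < i then {a l} else W) := by
      ext b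
      rw [mem_filter, Fintype.mem_piFinset]
      unfold Bl at ha ⊢
      rw [Fintype.mem_piFinset] at ha ⊢
      constructor
      · rintro ⟨h1, h2⟩ l
        by_cases hl : (l : ℕ) < i
        · rw [if_pos hl, mem_singleton]; exact h2 l hl
        · rw [if_neg hl]; exact h1 l
      · intro h
        refine ⟨fun l => ?_, fun l hl => ?_⟩
        · by_cases hl : (l : ℕ) < i
          · have := h l
            rw [if_pos hl, mem_singleton] at this
            rw [this]; exact ha l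
          · have := h l
            rwa [if_neg hl] at this
        · have := h l
          rwa [if_pos hl, mem_singleton] at this
    rw [e2, Fintype.card_piFinset]
    have h2 : ∀ l : Fin N, (if (l : ℕ) < i then {a l} else W : Finset Word).card =
        if (l : ℕ) < i then 1 else W.card := by
      intro l; split_ifs <;> simp
    rw [Finset.prod_congr rfl (fun l _ => h2 l), Finset.prod_ite, Finset.prod_const_one, one_mul,
      Finset.prod_const]
    push_cast
    congr 1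
    have h3 := Finset.card_filter_add_card_filter_not (s := (Finset.univ : Finset (Fin N)))
      (p := fun l : Fin N => (l : ℕ) < i)
    have h4 : (Finset.univ.filter (fun l : Fin N => (l : ℕ) < i)).card = i := by
      rw [Fin.card_filter_val_lt]
      omega
    rw [Finset.card_univ, Fintype.card_fin] at h3
    omega
  -- the Frostman bound
  have hfr : ∀ a ∈ Bl W N, ∀ t : ℝ, (2 : ℝ)⁻¹ ^ n ≤ t →
      (((cl (Bl W N) (cel S) a).filter (fun b => S * |be (yw a) - be (yw b)| ≤ t)).card : ℝ)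
        ≤ C * t ^ d * ((cl (Bl W N) (cel S) a).card : ℝ) := by
    intro a ha t ht
    obtain ⟨i, hi, hi1, hi2, hi3, hi4⟩ := hcl a ha
    have ht0 : 0 < t := lt_of_lt_of_le (by positivity) ht
    have hKN := (hCEL W L d hW N S a ha hS hSL).1
    have hpre : 1 ≤ t / S * (K (bw a N) : ℝ) ^ 2 := by
      have e1 : (L ^ N) ^ 2 ≤ (K (bw a N) : ℝ) ^ 2 := pow_le_pow_left₀ (by positivity) hKN 2
      have e2 : S * 2 ^ n ≤ (K (bw a N) : ℝ) ^ 2 := hSN.trans e1
      have e3 : (1 : ℝ) ≤ t * 2 ^ n := by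
        have := mul_le_mul_of_nonneg_right ht (show (0 : ℝ) ≤ 2 ^ n by positivity)
        rwa [← mul_pow, inv_mul_cancel₀ (by norm_num : (2 : ℝ) ≠ 0), one_pow] at this
      have e4 : t / S * (S * 2 ^ n) = t * 2 ^ n := by field_simp
      have e5 : t / S * (S * 2 ^ n) ≤ t / S * (K (bw a N) : ℝ) ^ 2 :=
        mul_le_mul_of_nonneg_left e2 (by positivity)
      linarith
    have hf := hCF N i a (t / S) hi ha (by positivity) hpre
    have hsub : (cl (Bl W N) (cel S) a).filter (fun b => S * |be (yw a) - be (yw b)| ≤ t) ⊆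
        (Bl W N).filter (fun ω' => (∀ l : Fin N, (l : ℕ) < i → ω' l = a l) ∧
          |be (yw a) - be (yw ω')| ≤ t / S) := by
      intro b hb
      rw [mem_filter, hi3, mem_filter] at hb
      rw [mem_filter]
      refine ⟨hb.1.1, hb.1.2, ?_⟩
      rw [le_div_iff₀ hS0]
      linarith [hb.2]
    have hc1 : (((cl (Bl W N) (cel S) a).filter (fun b => S * |be (yw a) - be (yw b)| ≤ t)).card : ℝ) ≤
        CF * (t / S * (K (bw a i) : ℝ) ^ 2) ^ d * (W.card : ℝ) ^ (N - i) := by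
      refine le_trans ?_ hf
      exact_mod_cast Finset.card_le_card hsub
    refine hc1.trans ?_
    rw [hi4]
    apply mul_le_mul_of_nonneg_right _ (by positivity)
    have e1 : t / S * (K (bw a i) : ℝ) ^ 2 ≤ 36 * L ^ 2 * t := by
      have := mul_le_mul_of_nonneg_left hi2 (show 0 ≤ t / S by positivity)
      refine this.trans (le_of_eq ?_)
      field_simp
    have e2 : (t / S * (K (bw a i) : ℝ) ^ 2) ^ d ≤ (36 * L ^ 2 * t) ^ d :=
      Real.rpow_le_rpow (by positivity) e1 (by linarith)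
    rw [Real.mul_rpow (by positivity) ht0.le] at e2
    calc CF * (t / S * (K (bw a i) : ℝ) ^ 2) ^ d ≤ CF * ((36 * L ^ 2) ^ d * t ^ d) :=
          mul_le_mul_of_nonneg_left e2 (by linarith)
      _ = CF * (36 * L ^ 2) ^ d * t ^ d := by ring
      _ ≤ C * t ^ d := mul_le_mul_of_nonneg_right hCa (by positivity)
  -- distances in a class
  have hdist : ∀ a ∈ Bl W N, ∀ b ∈ cl (Bl W N) (cel S) a,
      0 ≤ S * |be (yw a) - be (yw b)| ∧ S * |be (yw a) - be (yw b)| ≤ 1 := by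
    intro a ha b hb
    refine ⟨by positivity, ?_⟩
    obtain ⟨i, hi, hi1, hi2, hi3, hi4⟩ := hcl a ha
    rw [hi3, mem_filter] at hb
    obtain ⟨s, hs⟩ := bw_split a i
    obtain ⟨s', hs'⟩ := bw_split b i
    rw [bw_congr a b i hb.2] at hs'
    have hn := be_near (bw a i) (s ++ [true]) (s' ++ [true])
    rw [← List.append_assoc, ← List.append_assoc, ← hs, ← hs'] at hn
    have : |be (yw a) - be (yw b)| ≤ 1 / S := hn.trans (one_div_le_one_div_of_le hS0 hi1)
    rw [le_div_iff₀ hS0] at this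
    linarith
  -- equal values
  have hval : ∀ a1 a2 b1 b2 : Fin N → Word, ∀ k : ℕ,
      fS θ D (S * 2 ^ n) ((k, a1, a2) : Smp N) = fS θ D (S * 2 ^ n) ((k, b1, b2) : Smp N) →
      |lg θ (D k ++ yw a1) - lg θ (D k ++ yw b1) -
        (lg θ (D 0 ++ yw a2) - lg θ (D 0 ++ yw b2))| ≤ 1 / ((K (D 0) : ℝ) ^ 2 * (S * 2 ^ n)) := by
    intro a1 a2 b1 b2 k hf
    unfold fS at hf
    set R := (K (D 0) : ℝ) ^ 2 * (S * 2 ^ n) with hR
    have hR0 : 0 < R := by positivity
    have hb := fun (u v : Word) (hv : v ≠ []) => lg_bd θ h0 h1 (u ++ v) (app_ne hv)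
    have l1 := hb (D k) _ (yw_ne a1)
    have l2 := hb (D 0) _ (yw_ne a2)
    have l3 := hb (D k) _ (yw_ne b1)
    have l4 := hb (D 0) _ (yw_ne b2)
    have e1 : lm θ D ((k, a1, a2) : Smp N) = lg θ (D 0 ++ yw a2) - lg θ (D k ++ yw a1) := rfl
    have e2 : lm θ D ((k, b1, b2) : Smp N) = lg θ (D 0 ++ yw b2) - lg θ (D k ++ yw b1) := rfl
    rw [e1, e2] at hf
    have h3 := floor_eq_dist (by apply mul_nonneg _ hR0.le; linarith [l1.1, l1.2, l2.1, l2.2])
      (by apply mul_nonneg _ hR0.le; linarith [l3.1, l3.2, l4.1, l4.2]) hf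
    rw [le_div_iff₀ hR0]
    have e3 : (lg θ (D 0 ++ yw a2) - lg θ (D k ++ yw a1) + 4) * R -
        (lg θ (D 0 ++ yw b2) - lg θ (D k ++ yw b1) + 4) * R =
        -((lg θ (D k ++ yw a1) - lg θ (D k ++ yw b1) -
        (lg θ (D 0 ++ yw a2) - lg θ (D 0 ++ yw b2))) * R) := by ring
    rw [e3, abs_neg, abs_mul, abs_of_pos hR0] at h3
    exact h3
  have key : ∀ a1 ∈ Bl W N, ∀ a2 ∈ Bl W N, ∑ b1 ∈ cl (Bl W N) (cel S) a1,
      ∑ b2 ∈ cl (Bl W N) (cel S) a2,
      (((range M).filter (fun k => fS θ D (S * 2 ^ n) ((k, a1, a2) : Smp N) =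
        fS θ D (S * 2 ^ n) ((k, b1, b2) : Smp N))).card : ℝ)
        ≤ (C' / 2 ^ n) * M * (((cl (Bl W N) (cel S) a1).card : ℝ) * ((cl (Bl W N) (cel S) a2).card : ℝ)) := by
    intro a1 ha1 a2 ha2
    set g : (Fin N → Word) → (Fin N → Word) → ℝ := fun b1 b2 =>
      (((range M).filter (fun k => fS θ D (S * 2 ^ n) ((k, a1, a2) : Smp N) =
        fS θ D (S * 2 ^ n) ((k, b1, b2) : Smp N))).card : ℝ) / M with hg
    have hsum := hC' (Fin N → Word) (Fin N → Word) (cl (Bl W N) (cel S) a1) (cl (Bl W N) (cel S) a2)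
      (fun b => S * |be (yw a1) - be (yw b)|) (fun b => S * |be (yw a2) - be (yw b)|) g n
      (hdist a1 ha1) (hfr a1 ha1) (hfr a2 ha2) ?_ ?_ ?_
    · have e1 : ∑ b1 ∈ cl (Bl W N) (cel S) a1, ∑ b2 ∈ cl (Bl W N) (cel S) a2,
          (((range M).filter (fun k => fS θ D (S * 2 ^ n) ((k, a1, a2) : Smp N) =
            fS θ D (S * 2 ^ n) ((k, b1, b2) : Smp N))).card : ℝ) =
          M * ∑ b1 ∈ cl (Bl W N) (cel S) a1, ∑ b2 ∈ cl (Bl W N) (cel S) a2, g b1 b2 := by
        rw [Finset.mul_sum]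
        apply Finset.sum_congr rfl; intro b1 _
        rw [Finset.mul_sum]
        apply Finset.sum_congr rfl; intro b2 _
        rw [hg]
        field_simp
      rw [e1]
      have e2 := mul_le_mul_of_nonneg_left hsum hM0.le
      refine e2.trans (le_of_eq ?_)
      rw [inv_pow]
      field_simp
    · -- 0 ≤ g ≤ 1
      intro b1 _ b2 _
      refine ⟨by positivity, ?_⟩
      rw [hg]
      simp only
      rw [div_le_one₀ hM0]
      have := Finset.card_filter_le (range M) (fun k => fS θ D (S * 2 ^ n) ((k, a1, a2) : Smp N) =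
        fS θ D (S * 2 ^ n) ((k, b1, b2) : Smp N))
      rw [Finset.card_range] at this
      exact_mod_cast this
    · -- the bound by DCN
      intro b1 hb1 b2 hb2 hpos
      have hne : be (yw a1) ≠ be (yw b1) := by
        intro h
        rw [h, sub_self, abs_zero, mul_zero] at hpos
        exact lt_irrefl _ hpos
      have hρ : (0 : ℝ) < 1 / ((K (D 0) : ℝ) ^ 2 * (S * 2 ^ n)) := by positivity
      have hc := (hDC (yw a1) (yw b1) (yw_ne _) (yw_ne _)).2 hne
        (lg θ (D 0 ++ yw a2) - lg θ (D 0 ++ yw b2)) _ hρ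
      have hle : (((range M).filter (fun k => fS θ D (S * 2 ^ n) ((k, a1, a2) : Smp N) =
        fS θ D (S * 2 ^ n) ((k, b1, b2) : Smp N))).card : ℝ) ≤
        (((range M).filter (fun k => |lg θ (D k ++ yw a1) - lg θ (D k ++ yw b1) -
          (lg θ (D 0 ++ yw a2) - lg θ (D 0 ++ yw b2))| ≤
            1 / ((K (D 0) : ℝ) ^ 2 * (S * 2 ^ n)))).card : ℝ) := by
        have : (range M).filter (fun k => fS θ D (S * 2 ^ n) ((k, a1, a2) : Smp N) =
            fS θ D (S * 2 ^ n) ((k, b1, b2) : Smp N)) ⊆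
          (range M).filter (fun k => |lg θ (D k ++ yw a1) - lg θ (D k ++ yw b1) -
            (lg θ (D 0 ++ yw a2) - lg θ (D 0 ++ yw b2))| ≤
            1 / ((K (D 0) : ℝ) ^ 2 * (S * 2 ^ n))) := by
          intro k hk
          rw [mem_filter] at hk ⊢
          exact ⟨hk.1, hval a1 a2 b1 b2 k hk.2⟩
        exact_mod_cast Finset.card_le_card this
      have hA0 : 0 < |be (yw a1) - be (yw b1)| := abs_pos.2 (sub_ne_zero.2 hne)
      rw [hg]
      simp only
      rw [div_le_iff₀ hM0]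
      refine (hle.trans hc).trans ?_
      have e1 : (M : ℝ) * (1 / ((K (D 0) : ℝ) ^ 2 * (S * 2 ^ n))) * (K (D 0) : ℝ) ^ 2 /
          |be (yw a1) - be (yw b1)| = (2 : ℝ)⁻¹ ^ n / (S * |be (yw a1) - be (yw b1)|) * M := by
        rw [inv_pow]
        field_simp
      rw [e1]
      have e2 : (1 : ℝ) ≤ (2 : ℝ)⁻¹ ^ n * M := by
        rw [inv_pow, inv_mul_eq_div, le_div_iff₀ (by positivity)]
        linarith
      have e3 : 0 ≤ (2 : ℝ)⁻¹ ^ n / (S * |be (yw a1) - be (yw b1)|) * M := by positivity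
      calc CD * (1 + (2 : ℝ)⁻¹ ^ n / (S * |be (yw a1) - be (yw b1)|) * M)
          ≤ C * ((2 : ℝ)⁻¹ ^ n * M + (2 : ℝ)⁻¹ ^ n / (S * |be (yw a1) - be (yw b1)|) * M) := by
            apply mul_le_mul hCc _ (by linarith) (by linarith)
            linarith
        _ = C * ((2 : ℝ)⁻¹ ^ n + (2 : ℝ)⁻¹ ^ n / (S * |be (yw a1) - be (yw b1)|)) * M := by ring
    · -- vanishing
      intro b1 hb1 b2 hb2 hlt
      rw [hg]
      simp only
      rw [div_eq_zero_iff]
      left
      rw [Nat.cast_eq_zero, Finset.card_eq_zero, Finset.filter_eq_empty_iff]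
      intro k hk hf
      have hk' : k ≤ M := (Finset.mem_range.1 hk).le
      have hv := hval a1 a2 b1 b2 k hf
      have d1 := ((hDC (yw a1) (yw b1) (yw_ne _) (yw_ne _)).1 k hk').2
      have d2 := ((hDC (yw a2) (yw b2) (yw_ne _) (yw_ne _)).1 0 (Nat.zero_le _)).1
      set Δ1 := lg θ (D k ++ yw a1) - lg θ (D k ++ yw b1)
      set Δ2 := lg θ (D 0 ++ yw a2) - lg θ (D 0 ++ yw b2)
      have hΔ : |Δ2| ≤ |Δ1| + 1 / ((K (D 0) : ℝ) ^ 2 * (S * 2 ^ n)) := by
        have := abs_sub_abs_le_abs_sub Δ2 Δ1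
        rw [abs_sub_comm Δ2 Δ1] at this
        linarith
      rw [div_le_iff₀ (by positivity)] at d2
      have hCDp : 0 < CD * (K (D 0) : ℝ) ^ 2 := by positivity
      have e1 : |be (yw a2) - be (yw b2)| ≤
          (CD * |be (yw a1) - be (yw b1)| / (K (D 0) : ℝ) ^ 2 +
            1 / ((K (D 0) : ℝ) ^ 2 * (S * 2 ^ n))) * (CD * (K (D 0) : ℝ) ^ 2) :=
        d2.trans (mul_le_mul_of_nonneg_right (hΔ.trans (by linarith)) hCDp.le)
      have e2 : S * ((CD * |be (yw a1) - be (yw b1)| / (K (D 0) : ℝ) ^ 2 +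
            1 / ((K (D 0) : ℝ) ^ 2 * (S * 2 ^ n))) * (CD * (K (D 0) : ℝ) ^ 2)) =
          CD ^ 2 * (S * |be (yw a1) - be (yw b1)|) + CD * (2 : ℝ)⁻¹ ^ n := by
        rw [inv_pow]
        field_simp
      have e3 := mul_le_mul_of_nonneg_left e1 hS0.le
      rw [e2] at e3
      have e4 : CD ^ 2 * (S * |be (yw a1) - be (yw b1)|) ≤ C * (S * |be (yw a1) - be (yw b1)|) :=
        mul_le_mul_of_nonneg_right hCb (by positivity)
      have e5 : CD * (2 : ℝ)⁻¹ ^ n ≤ C * (2 : ℝ)⁻¹ ^ n := mul_le_mul_of_nonneg_right hCc (by positivity)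
      rw [mul_add] at hlt
      linarith
  have hfin := sum_CP_le M (Bl W N) (cel S) (fS θ D (S * 2 ^ n)) (C' / 2 ^ n)
    (by intro a1 h1 a2 h2; convert key a1 h1 a2 h2)
  apply div_le_of_le_mul₀ (by positivity) (by positivity)
  exact hfin

end Pool.Agent.Lib.MP_d0a18a_nt.ZP
end

section
/-!
# DCN: the logarithms of the ratios of two dithered directions
-/
set_option autoImplicit false

namespace Pool.Agent.Lib.MP_d0a18a_nt.ZP

open Finset

namespace DCNM

/-- the determinant identity -/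
theorem det_id (p y z : Word) :
    ((yv (p ++ y)).2 : ℝ) * (yv (p ++ z)).1 - ((yv (p ++ z)).2 : ℝ) * (yv (p ++ y)).1 =
      (-1) ^ p.length * (((yv y).2 : ℝ) * (yv z).1 - ((yv z).2 : ℝ) * (yv y).1) := by
  induction p with
  | nil => simp
  | cons a p ih =>
    rw [List.cons_append, List.cons_append, yv_cons, yv_cons, List.length_cons, pow_succ,
      mul_comm _ (-1 : ℝ), mul_assoc, ← ih]
    push_cast
    ring

theorem Y1_pos (w : Word) : (0 : ℝ) < (yv w).1 := by rw [yv_fst]; exact_mod_cast K_pos w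

theorem Y2_pos (w : Word) (h : w ≠ []) : (0 : ℝ) < (yv w).2 := by
  have := yv_snd_pos w h
  exact_mod_cast this

/-- the denominators `h` -/
noncomputable def hh (θ : ℝ) (y z p : Word) : ℝ :=
  ((yv (p ++ z)).2 : ℝ) * (((yv (p ++ y)).1 : ℝ) + θ * (yv (p ++ y)).2) / ((K y : ℝ) * K z)

theorem cr_eq (θ : ℝ) (hθ : 0 ≤ θ) (w : Word) :
    cr θ (be w) = ((yv w).2 : ℝ) / (((yv w).1 : ℝ) + θ * (yv w).2) := by
  have h1 := Y1_pos w
  have h2 : (0 : ℝ) ≤ (yv w).2 := by positivity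
  have h3 : 0 < ((yv w).1 : ℝ) + θ * (yv w).2 := by positivity
  unfold cr be
  field_simp

/-- the difference of the logarithms -/
theorem lg_eq (θ : ℝ) (hθ : 0 ≤ θ) (y z p : Word) (hy : y ≠ []) (hz : z ≠ [])
    (hp : Even p.length) :
    0 < hh θ y z p ∧ 0 < 1 + (be y - be z) / hh θ y z p ∧
    lg θ (p ++ y) - lg θ (p ++ z) = Real.log (1 + (be y - be z) / hh θ y z p) := by
  have hpy : p ++ y ≠ [] := by simp [hy]
  have hpz : p ++ z ≠ [] := by simp [hz]
  have a1 := Y1_pos (p ++ y)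
  have a2 := Y2_pos (p ++ y) hpy
  have a3 := Y1_pos (p ++ z)
  have a4 := Y2_pos (p ++ z) hpz
  have ky : (0 : ℝ) < K y := by exact_mod_cast K_pos y
  have kz : (0 : ℝ) < K z := by exact_mod_cast K_pos z
  have a5 : 0 < ((yv (p ++ y)).1 : ℝ) + θ * (yv (p ++ y)).2 := by positivity
  have a6 : 0 < ((yv (p ++ z)).1 : ℝ) + θ * (yv (p ++ z)).2 := by positivity
  have hpos : 0 < hh θ y z p := by unfold hh; positivity
  have hdet := det_id p y z
  rw [Even.neg_one_pow hp, one_mul] at hdet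
  have hx : be y - be z = (((yv y).2 : ℝ) * (yv z).1 - ((yv z).2 : ℝ) * (yv y).1) /
      ((K y : ℝ) * K z) := by
    rw [be_eq, be_eq, yv_fst, yv_fst]
    field_simp
  have hratio : cr θ (be (p ++ y)) / cr θ (be (p ++ z)) = 1 + (be y - be z) / hh θ y z p := by
    rw [cr_eq θ hθ, cr_eq θ hθ, hx, ← hdet]
    unfold hh
    field_simp
    ring
  have c1 : 0 < cr θ (be (p ++ y)) := by rw [cr_eq θ hθ]; positivity
  have c2 : 0 < cr θ (be (p ++ z)) := by rw [cr_eq θ hθ]; positivity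
  refine ⟨hpos, ?_, ?_⟩
  · rw [← hratio]; positivity
  · rw [← hratio, Real.log_div c1.ne' c2.ne']
    rfl

theorem hh_lower (θ : ℝ) (hθ : 0 ≤ θ) (y z p : Word) (hp : p ≠ []) :
    (K p : ℝ) ^ 2 / 3 ≤ hh θ y z p := by
  have ky : (0 : ℝ) < K y := by exact_mod_cast K_pos y
  have kz : (0 : ℝ) < K z := by exact_mod_cast K_pos z
  have kp : (0 : ℝ) < K p := by exact_mod_cast K_pos p
  obtain ⟨a, q, rfl⟩ := List.exists_cons_of_ne_nil hp
  have h1 : (K (a :: q) : ℝ) * K y ≤ (yv (a :: q ++ y)).1 := by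
    rw [yv_fst]; exact_mod_cast K_mul_le _ _
  have h2 : (K q : ℝ) * K z ≤ (yv (a :: q ++ z)).2 := by
    rw [List.cons_append, yv_cons]
    simp only
    rw [yv_fst]
    exact_mod_cast K_mul_le _ _
  have h3 : (K (a :: q) : ℝ) ≤ 3 * K q := by exact_mod_cast K_cons_le a q
  have h4 : (0 : ℝ) ≤ θ * (yv (a :: q ++ y)).2 := by positivity
  unfold hh
  rw [le_div_iff₀ (by positivity)]
  calc (K (a :: q) : ℝ) ^ 2 / 3 * (K y * K z) =
        (K (a :: q) / 3 * K z) * (K (a :: q) * K y) := by ring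
    _ ≤ (K q * K z) * (K (a :: q) * K y) := by
        apply mul_le_mul_of_nonneg_right _ (by positivity)
        apply mul_le_mul_of_nonneg_right _ kz.le
        linarith
    _ ≤ _ := mul_le_mul h2 (by linarith) (by positivity) (by positivity)

theorem hh_upper (θ : ℝ) (hθ : 0 ≤ θ) (hθ1 : θ ≤ 1) (y z p : Word) :
    hh θ y z p ≤ 8 * (K p : ℝ) ^ 2 := by
  have ky : (0 : ℝ) < K y := by exact_mod_cast K_pos y
  have kz : (0 : ℝ) < K z := by exact_mod_cast K_pos z
  have h1 : ((yv (p ++ y)).1 : ℝ) ≤ 2 * (K p * K y) := by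
    rw [yv_fst]; exact_mod_cast K_append_le _ _
  have h2 : ((yv (p ++ z)).1 : ℝ) ≤ 2 * (K p * K z) := by
    rw [yv_fst]; exact_mod_cast K_append_le _ _
  have h3 : ((yv (p ++ y)).2 : ℝ) ≤ (yv (p ++ y)).1 := by exact_mod_cast yv_snd_le _
  have h4 : ((yv (p ++ z)).2 : ℝ) ≤ (yv (p ++ z)).1 := by exact_mod_cast yv_snd_le _
  have h5 : (0 : ℝ) ≤ (yv (p ++ y)).2 := by positivity
  have h6 : θ * (yv (p ++ y)).2 ≤ (yv (p ++ y)).2 := mul_le_of_le_one_left h5 hθ1
  have h7 : 0 ≤ θ * ((yv (p ++ y)).2 : ℝ) := by positivity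
  unfold hh
  rw [div_le_iff₀ (by positivity)]
  calc ((yv (p ++ z)).2 : ℝ) * (((yv (p ++ y)).1 : ℝ) + θ * (yv (p ++ y)).2) ≤
        (2 * (K p * K z)) * (4 * (K p * K y)) :=
          mul_le_mul (by linarith) (by linarith) (by positivity) (by positivity)
    _ = _ := by ring

/-- one step of the dithering -/
theorem hh_step (θ : ℝ) (hθ : 0 ≤ θ) (M : ℝ) (hM : 1 ≤ M) (y z p p' : Word)
    (hy : ((1 + 1 / (4 * M)) * ((yv (p ++ y)).1 : ℝ) ≤ ((yv (p' ++ y)).1 : ℝ) ∧
     ((yv (p' ++ y)).1 : ℝ) ≤ (1 + 4 / M) * ((yv (p ++ y)).1 : ℝ)) ∧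
    ((1 + 1 / (4 * M)) * ((yv (p ++ y)).2 : ℝ) ≤ ((yv (p' ++ y)).2 : ℝ) ∧
     ((yv (p' ++ y)).2 : ℝ) ≤ (1 + 4 / M) * ((yv (p ++ y)).2 : ℝ)))
    (hz : ((1 + 1 / (4 * M)) * ((yv (p ++ z)).2 : ℝ) ≤ ((yv (p' ++ z)).2 : ℝ) ∧
     ((yv (p' ++ z)).2 : ℝ) ≤ (1 + 4 / M) * ((yv (p ++ z)).2 : ℝ))) :
    (1 + 1 / (4 * M)) ^ 2 * hh θ y z p ≤ hh θ y z p' ∧
      hh θ y z p' ≤ (1 + 4 / M) ^ 2 * hh θ y z p := by
  have ky : (0 : ℝ) < K y := by exact_mod_cast K_pos y
  have kz : (0 : ℝ) < K z := by exact_mod_cast K_pos z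
  obtain ⟨⟨a1, a2⟩, a3, a4⟩ := hy
  obtain ⟨b1, b2⟩ := hz
  have hM0 : 0 < M := by linarith
  have n1 : (0 : ℝ) ≤ (yv (p ++ y)).1 := by positivity
  have n2 : (0 : ℝ) ≤ (yv (p ++ y)).2 := by positivity
  have n3 : (0 : ℝ) ≤ (yv (p ++ z)).2 := by positivity
  have n4 : (0 : ℝ) ≤ (yv (p' ++ y)).1 := by positivity
  have n5 : (0 : ℝ) ≤ (yv (p' ++ y)).2 := by positivity
  have n6 : (0 : ℝ) ≤ (yv (p' ++ z)).2 := by positivity
  set c : ℝ := 1 + 1 / (4 * M) with hc
  set d : ℝ := 1 + 4 / M with hd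
  have hc0 : 0 < c := by positivity
  have hd0 : 0 < d := by positivity
  have s1 : c * (((yv (p ++ y)).1 : ℝ) + θ * (yv (p ++ y)).2) ≤
      ((yv (p' ++ y)).1 : ℝ) + θ * (yv (p' ++ y)).2 := by
    have := mul_le_mul_of_nonneg_left a3 hθ
    linarith
  have s2 : ((yv (p' ++ y)).1 : ℝ) + θ * (yv (p' ++ y)).2 ≤
      d * (((yv (p ++ y)).1 : ℝ) + θ * (yv (p ++ y)).2) := by
    have := mul_le_mul_of_nonneg_left a4 hθ
    linarith
  unfold hh
  constructor
  · rw [← mul_div_assoc]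
    apply div_le_div_of_nonneg_right _ (by positivity)
    calc c ^ 2 * (((yv (p ++ z)).2 : ℝ) * (((yv (p ++ y)).1 : ℝ) + θ * (yv (p ++ y)).2)) =
          (c * (yv (p ++ z)).2) * (c * (((yv (p ++ y)).1 : ℝ) + θ * (yv (p ++ y)).2)) := by ring
      _ ≤ _ := mul_le_mul b1 s1 (by positivity) n6
  · rw [← mul_div_assoc]
    apply div_le_div_of_nonneg_right _ (by positivity)
    calc ((yv (p' ++ z)).2 : ℝ) * (((yv (p' ++ y)).1 : ℝ) + θ * (yv (p' ++ y)).2) ≤
          (d * (yv (p ++ z)).2) * (d * (((yv (p ++ y)).1 : ℝ) + θ * (yv (p ++ y)).2)) :=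
            mul_le_mul b2 s2 (by positivity) (by positivity)
      _ = _ := by ring

/-- the logarithm on `[2/3, 4/3]` -/
theorem log_bd (u v : ℝ) (hu : 2 / 3 ≤ u) (hu' : u ≤ 4 / 3) (hv : 2 / 3 ≤ v) (hv' : v ≤ 4 / 3)
    (huv : v ≤ u) : 3 / 4 * (u - v) ≤ Real.log u - Real.log v ∧
      Real.log u - Real.log v ≤ 3 / 2 * (u - v) := by
  have hu0 : 0 < u := by linarith
  have hv0 : 0 < v := by linarith
  constructor
  · have h1 := Real.log_le_sub_one_of_pos (show 0 < v / u by positivity)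
    rw [Real.log_div hv0.ne' hu0.ne'] at h1
    have h2 : v / u - 1 = -((u - v) / u) := by field_simp; ring
    have h3 : 3 / 4 * (u - v) ≤ (u - v) / u := by
      rw [le_div_iff₀ hu0]
      nlinarith
    linarith
  · have h1 := Real.log_le_sub_one_of_pos (show 0 < u / v by positivity)
    rw [Real.log_div hu0.ne' hv0.ne'] at h1
    have h2 : u / v - 1 = (u - v) / v := by field_simp
    have h3 : (u - v) / v ≤ 3 / 2 * (u - v) := by
      rw [div_le_iff₀ hv0]
      nlinarith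
    linarith

theorem log_bd_abs (u v : ℝ) (hu : 2 / 3 ≤ u) (hu' : u ≤ 4 / 3) (hv : 2 / 3 ≤ v)
    (hv' : v ≤ 4 / 3) : 3 / 4 * |u - v| ≤ |Real.log u - Real.log v| ∧
      |Real.log u - Real.log v| ≤ 3 / 2 * |u - v| := by
  rcases le_total v u with h | h
  · obtain ⟨h1, h2⟩ := log_bd u v hu hu' hv hv' h
    rw [abs_of_nonneg (by linarith : 0 ≤ u - v),
      abs_of_nonneg (by linarith : 0 ≤ Real.log u - Real.log v)]
    exact ⟨h1, h2⟩
  · obtain ⟨h1, h2⟩ := log_bd v u hv hv' hu hu' h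
    rw [abs_sub_comm u v, abs_sub_comm (Real.log u), abs_of_nonneg (by linarith : 0 ≤ v - u),
      abs_of_nonneg (by linarith : 0 ≤ Real.log v - Real.log u)]
    exact ⟨h1, h2⟩

/-- counting the elements of a monotone sequence with gaps in an interval -/
theorem count (M : ℕ) (f : ℕ → ℝ) (g : ℝ) (hg : 0 < g) (hf : ∀ k < M, f k + g ≤ f (k + 1))
    (s ρ : ℝ) (hρ : 0 < ρ) :
    (((range M).filter (fun k => |f k - s| ≤ ρ)).card : ℝ) ≤ 1 + 2 * ρ / g := by
  set S := (range M).filter (fun k => |f k - s| ≤ ρ) with hS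
  rcases S.eq_empty_or_nonempty with he | hne
  · rw [he, card_empty]
    push_cast
    positivity
  · have h1 := S.min'_mem hne
    have h2 := S.max'_mem hne
    set a := S.min' hne
    set b := S.max' hne
    have hab : a ≤ b := S.min'_le _ h2
    have hsub : S ⊆ Icc a b := fun x hx => mem_Icc.2 ⟨S.min'_le _ hx, S.le_max' _ hx⟩
    have hcard : S.card ≤ b + 1 - a := by
      have := card_le_card hsub
      rwa [Nat.card_Icc] at this
    have hbM : b < M := mem_range.1 (mem_filter.1 h2).1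
    have hgrow : ∀ d, a + d ≤ M → f a + d * g ≤ f (a + d) := by
      intro d
      induction d with
      | zero => intro _; simp
      | succ d ih =>
        intro hd
        have := ih (by omega)
        have h3 := hf (a + d) (by omega)
        rw [← Nat.add_assoc]
        push_cast
        linarith
    have h3 := hgrow (b - a) (by omega)
    rw [Nat.add_sub_cancel' hab] at h3
    have h4 := (abs_le.1 (mem_filter.1 h1).2).1
    have h5 := (abs_le.1 (mem_filter.1 h2).2).2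
    have h6 : ((b - a : ℕ) : ℝ) * g ≤ 2 * ρ := by linarith
    have h7 : ((b - a : ℕ) : ℝ) ≤ 2 * ρ / g := by rwa [le_div_iff₀ hg]
    have h8 : (S.card : ℝ) ≤ 1 + ((b - a : ℕ) : ℝ) := by
      have : S.card ≤ 1 + (b - a) := by omega
      exact_mod_cast this
    linarith

end DCNM

open DCNM in
theorem specDCN : SpecDCN := by
  have he8 : (1 : ℝ) ≤ Real.exp 8 := Real.one_le_exp (by norm_num)
  refine ⟨64 * Real.exp 8, by linarith, fun M D hM hD θ y z hθ hθ1 hy hz => ?_⟩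
  obtain ⟨hD1, hD2, hD3⟩ := hD
  have hMr : (1 : ℝ) ≤ M := by exact_mod_cast hM
  have hM0 : (0 : ℝ) < M := by linarith
  set x := be y - be z with hx
  have hxabs : |x| ≤ 1 := by
    rw [hx, abs_le]
    constructor <;> linarith [be_nonneg y, be_nonneg z, be_le_one y, be_le_one z]
  set h : ℕ → ℝ := fun k => hh θ y z (D k) with hh'
  have hpos : ∀ k ≤ M, 0 < h k := fun k hk => (lg_eq θ hθ y z (D k) hy hz (hD1 k hk).2).1
  have hstep : ∀ k < M, (1 + 1 / (4 * (M : ℝ))) ^ 2 * h k ≤ h (k + 1) ∧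
      h (k + 1) ≤ (1 + 4 / (M : ℝ)) ^ 2 * h k := fun k hk =>
    hh_step θ hθ M hMr y z (D k) (D (k + 1)) (hD3 k hk y) (hD3 k hk z).2
  have hmono : ∀ k ≤ M, h 0 ≤ h k := by
    intro k
    induction k with
    | zero => intro _; exact le_refl _
    | succ k ih =>
      intro hk
      have h1 := ih (by omega)
      have h2 := (hstep k (by omega)).1
      have h3 := hpos k (by omega)
      have h4 : 1 ≤ (1 + 1 / (4 * (M : ℝ))) ^ 2 := by
        apply one_le_pow₀
        have : 0 < 1 / (4 * (M : ℝ)) := by positivity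
        linarith
      calc h 0 ≤ h k := h1
        _ = 1 * h k := (one_mul _).symm
        _ ≤ _ := (mul_le_mul_of_nonneg_right h4 h3.le).trans h2
  have hup : ∀ k ≤ M, h k ≤ Real.exp 8 * h 0 := by
    have h0 := hpos 0 (by omega)
    have h1 : ∀ k ≤ M, h k ≤ Real.exp (8 / M * k) * h 0 := by
      intro k
      induction k with
      | zero => intro _; simp
      | succ k ih =>
        intro hk
        have h1 := ih (by omega)
        have h2 := (hstep k (by omega)).2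
        have h3 : (1 + 4 / (M : ℝ)) ^ 2 ≤ Real.exp (8 / M) := by
          have h4 : 1 + 4 / (M : ℝ) ≤ Real.exp (4 / M) := by
            linarith [Real.add_one_le_exp (4 / (M : ℝ))]
          calc (1 + 4 / (M : ℝ)) ^ 2 ≤ (Real.exp (4 / M)) ^ 2 :=
                pow_le_pow_left₀ (by positivity) h4 2
            _ = Real.exp (8 / M) := by
                rw [← Real.exp_nat_mul]
                congr 1
                push_cast
                ring
        calc h (k + 1) ≤ (1 + 4 / (M : ℝ)) ^ 2 * h k := h2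
          _ ≤ Real.exp (8 / M) * (Real.exp (8 / M * k) * h 0) :=
              mul_le_mul h3 h1 (hpos k (by omega)).le (Real.exp_pos _).le
          _ = Real.exp (8 / M * ((k + 1 : ℕ) : ℝ)) * h 0 := by
              rw [← mul_assoc, ← Real.exp_add]
              congr 2
              push_cast
              ring
    intro k hk
    refine (h1 k hk).trans ?_
    apply mul_le_mul_of_nonneg_right _ h0.le
    apply Real.exp_le_exp.2
    have : (k : ℝ) ≤ M := by exact_mod_cast hk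
    calc 8 / (M : ℝ) * k ≤ 8 / M * M := mul_le_mul_of_nonneg_left this (by positivity)
      _ = 8 := by field_simp
  set κ : ℝ := (K (D 0) : ℝ) ^ 2 with hκ
  have hκ9 : 9 ≤ κ := by
    have : (3 : ℝ) ≤ K (D 0) := by exact_mod_cast hD2
    rw [hκ]
    nlinarith
  have hκ0 : 0 < κ := by linarith
  have hlo0 : κ / 3 ≤ h 0 := hh_lower θ hθ y z (D 0) (hD1 0 (by omega)).1
  have hup0 : h 0 ≤ 8 * κ := hh_upper θ hθ hθ1 y z (D 0)
  have hlo : ∀ k ≤ M, κ / 3 ≤ h k := fun k hk => hlo0.trans (hmono k hk)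
  have hup' : ∀ k ≤ M, h k ≤ 8 * Real.exp 8 * κ := fun k hk => by
    refine (hup k hk).trans ?_
    calc Real.exp 8 * h 0 ≤ Real.exp 8 * (8 * κ) :=
          mul_le_mul_of_nonneg_left hup0 (Real.exp_pos _).le
      _ = _ := by ring
  have hxh : ∀ k ≤ M, |x / h k| ≤ 1 / 3 := fun k hk => by
    rw [abs_div, abs_of_pos (hpos k hk), div_le_iff₀ (hpos k hk)]
    have := hlo k hk
    linarith
  have hlg : ∀ k ≤ M, lg θ (D k ++ y) - lg θ (D k ++ z) = Real.log (1 + x / h k) :=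
    fun k hk => (lg_eq θ hθ y z (D k) hy hz (hD1 k hk).2).2.2
  have hab : ∀ k ≤ M, 2 / 3 ≤ 1 + x / h k ∧ 1 + x / h k ≤ 4 / 3 := fun k hk => by
    have := abs_le.1 (hxh k hk)
    constructor <;> linarith [this.1, this.2]
  refine ⟨fun k hk => ?_, fun hne s ρ hρ => ?_⟩
  · rw [hlg k hk]
    obtain ⟨l1, l2⟩ := log_bd_abs (1 + x / h k) 1 (hab k hk).1 (hab k hk).2 (by norm_num)
      (by norm_num)
    rw [Real.log_one, sub_zero, add_sub_cancel_left, abs_div, abs_of_pos (hpos k hk)] at l1 l2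
    have hk0 := hpos k hk
    constructor
    · refine le_trans ?_ l1
      rw [div_le_iff₀ (by positivity)]
      have h1 : |x| = |x| / h k * h k := by field_simp
      have h2 : |x| / h k * h k ≤ |x| / h k * (8 * Real.exp 8 * κ) :=
        mul_le_mul_of_nonneg_left (hup' k hk) (by positivity)
      have h3 : 0 ≤ |x| / h k * (Real.exp 8 * κ) := by positivity
      nlinarith
    · refine l2.trans ?_
      rw [le_div_iff₀ hκ0]
      have h1 : |x| / h k * κ ≤ 3 * |x| := by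
        rw [div_mul_eq_mul_div, div_le_iff₀ hk0]
        have := hlo k hk
        nlinarith [abs_nonneg x]
      have h2 : 0 ≤ |x| := abs_nonneg x
      nlinarith
  · have hx0 : x ≠ 0 := sub_ne_zero.2 hne
    have hxa : 0 < |x| := abs_pos.2 hx0
    set g : ℝ := 3 / 4 * (|x| / (16 * Real.exp 8 * M * κ)) with hg
    have hg0 : 0 < g := by positivity
    -- the gaps of `1 / h`
    have hgap : ∀ k < M, 1 / (16 * Real.exp 8 * M * κ) ≤ 1 / h k - 1 / h (k + 1) := by
      intro k hk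
      have p0 := hpos k (by omega)
      have p1 := hpos (k + 1) (by omega)
      have h1 := (hstep k hk).1
      have h2 : (1 + 1 / (2 * (M : ℝ))) * h k ≤ h (k + 1) := by
        refine le_trans (mul_le_mul_of_nonneg_right ?_ p0.le) h1
        have e1 : 1 / (2 * (M : ℝ)) = 2 * (1 / (4 * (M : ℝ))) := by field_simp; norm_num
        rw [e1]
        nlinarith [sq_nonneg (1 / (4 * (M : ℝ)))]
      have h3 : 1 / h k - 1 / h (k + 1) = (h (k + 1) - h k) / (h k * h (k + 1)) := by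
        field_simp
      have h4 : 1 / (2 * (M : ℝ)) * h k / (h k * h (k + 1)) ≤
          (h (k + 1) - h k) / (h k * h (k + 1)) := by
        apply div_le_div_of_nonneg_right _ (by positivity)
        linarith
      have h5 : 1 / (2 * (M : ℝ)) * h k / (h k * h (k + 1)) = 1 / (2 * (M : ℝ) * h (k + 1)) := by
        field_simp
      rw [h3]
      refine le_trans ?_ h4
      rw [h5]
      apply one_div_le_one_div_of_le (by positivity)
      have := hup' (k + 1) (by omega)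
      calc 2 * (M : ℝ) * h (k + 1) ≤ 2 * M * (8 * Real.exp 8 * κ) :=
            mul_le_mul_of_nonneg_left this (by positivity)
        _ = _ := by ring
    have hfin : (1 : ℝ) + 2 * ρ / g ≤ 64 * Real.exp 8 * (1 + (M : ℝ) * ρ * κ / |x|) := by
      have e1 : 2 * ρ / g = (128 / 3) * Real.exp 8 * ((M : ℝ) * ρ * κ / |x|) := by
        rw [hg]
        field_simp
        ring
      rw [e1]
      have : 0 ≤ Real.exp 8 * ((M : ℝ) * ρ * κ / |x|) := by positivity
      nlinarith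
    have hcong : ((range M).filter (fun k => |lg θ (D k ++ y) - lg θ (D k ++ z) - s| ≤ ρ)) =
        ((range M).filter (fun k => |Real.log (1 + x / h k) - s| ≤ ρ)) := by
      apply filter_congr
      intro k hk
      rw [hlg k (mem_range.1 hk).le]
    rw [hcong]
    refine le_trans ?_ hfin
    rcases lt_or_gt_of_ne hx0 with hneg | hpos'
    · -- `x < 0`: increasing
      refine count M (fun k => Real.log (1 + x / h k)) g hg0 (fun k hk => ?_) s ρ hρ
      have h1 := hgap k hk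
      have h2 : 1 + x / h (k + 1) - (1 + x / h k) = |x| * (1 / h k - 1 / h (k + 1)) := by
        rw [abs_of_neg hneg]
        ring
      have h3 : |x| * (1 / (16 * Real.exp 8 * M * κ)) ≤ |x| * (1 / h k - 1 / h (k + 1)) :=
        mul_le_mul_of_nonneg_left h1 hxa.le
      have h4 : 0 ≤ |x| * (1 / (16 * Real.exp 8 * M * κ)) := by positivity
      have h5 := (log_bd (1 + x / h (k + 1)) (1 + x / h k) (hab _ (by omega)).1 (hab _ (by omega)).2
        (hab _ (by omega)).1 (hab _ (by omega)).2 (by linarith)).1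
      rw [h2] at h5
      have h6 : g = 3 / 4 * (|x| * (1 / (16 * Real.exp 8 * M * κ))) := by rw [hg]; ring
      show Real.log (1 + x / h k) + g ≤ Real.log (1 + x / h (k + 1))
      linarith
    · -- `x > 0`: decreasing
      have hc := count M (fun k => -Real.log (1 + x / h k)) g hg0 (fun k hk => by
        have h1 := hgap k hk
        have h2 : 1 + x / h k - (1 + x / h (k + 1)) = |x| * (1 / h k - 1 / h (k + 1)) := by
          rw [abs_of_pos hpos']
          ring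
        have h3 : |x| * (1 / (16 * Real.exp 8 * M * κ)) ≤ |x| * (1 / h k - 1 / h (k + 1)) :=
          mul_le_mul_of_nonneg_left h1 hxa.le
        have h4 : 0 ≤ |x| * (1 / (16 * Real.exp 8 * M * κ)) := by positivity
        have h5 := (log_bd (1 + x / h k) (1 + x / h (k + 1)) (hab _ (by omega)).1
          (hab _ (by omega)).2 (hab _ (by omega)).1 (hab _ (by omega)).2 (by linarith)).1
        rw [h2] at h5
        have h6 : g = 3 / 4 * (|x| * (1 / (16 * Real.exp 8 * M * κ))) := by rw [hg]; ring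
        show -Real.log (1 + x / h k) + g ≤ -Real.log (1 + x / h (k + 1))
        linarith) (-s) ρ hρ
      have hcong2 : ((range M).filter (fun k => |Real.log (1 + x / h k) - s| ≤ ρ)) =
          ((range M).filter (fun k => |-Real.log (1 + x / h k) - -s| ≤ ρ)) := by
        apply filter_congr
        intro k _
        rw [show -Real.log (1 + x / h k) - -s = -(Real.log (1 + x / h k) - s) by ring, abs_neg]
      rw [hcong2]
      exact hc

end Pool.Agent.Lib.MP_d0a18a_nt.ZP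
end

section
/-!
# DIT: dithering words
-/
set_option autoImplicit false

namespace Pool.Agent.Lib.MP_d0a18a_nt.ZP

namespace DITM

/-- the eigenform for the letter `a` with eigenvalue `c` (`c^2 = dg a * c + 1`) -/
theorem form_rep (a : Bool) (c : ℝ) (hc : c * c = dg a * c + 1) (j : ℕ) (w : Word) :
    c * ((yv (List.replicate j a ++ w)).1 : ℝ) + ((yv (List.replicate j a ++ w)).2 : ℝ) =
      c ^ j * (c * ((yv w).1 : ℝ) + ((yv w).2 : ℝ)) := by
  induction j with
  | zero => simp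
  | succ j ih =>
    rw [List.replicate_succ, List.cons_append, yv_cons, pow_succ, mul_assoc, mul_left_comm,
      ← ih]
    push_cast
    linear_combination -(((yv (List.replicate j a ++ w)).1 : ℝ)) * hc

/-- the first component, from the eigenform -/
theorem fst_form (c : ℝ) (w : Word) :
    c * ((yv w).1 : ℝ) + ((yv w).2 : ℝ) = ((yv w).1 : ℝ) * (c + be w) := by
  have hK : (0 : ℝ) < (yv w).1 := by rw [yv_fst]; exact_mod_cast K_pos w
  unfold be
  field_simp

theorem Y_pos (w : Word) : (0 : ℝ) < (yv w).1 := by rw [yv_fst]; exact_mod_cast K_pos w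

/-- `x ≈ y` up to the factor `1 ± e` -/
def Ap (e x y : ℝ) : Prop := (1 - e) * y ≤ x ∧ x ≤ (1 + e) * y

/-- two words with the same long beginning -/
theorem ap_be (c : ℝ) (hc : 1 ≤ c) (p w w' : Word) (e : ℝ) (he : 1 / (K p : ℝ) ^ 2 ≤ e) :
    Ap e (c + be (p ++ w)) (c + be (p ++ w')) := by
  have h := (be_near p w w').trans he
  have h0 := be_nonneg (p ++ w')
  have h0' := be_nonneg (p ++ w)
  have he0 : 0 ≤ e := le_trans (abs_nonneg _) h
  rw [abs_le] at h
  constructor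
  · nlinarith [h.1, h.2]
  · nlinarith [h.1, h.2]

/-- the comparison of the first components -/
theorem comp (μ ν : ℝ) (hμ : μ * μ = dg false * μ + 1) (hν : ν * ν = dg true * ν + 1)
    (hμ1 : 1 ≤ μ) (hν1 : 1 ≤ ν) (a b i j : ℕ) (x : Word) (e : ℝ) (he1 : e < 1)
    (hi : 1 / (K (List.replicate i true) : ℝ) ^ 2 ≤ e)
    (hj : 1 / (K (List.replicate j false) : ℝ) ^ 2 ≤ e) :
    (1 - e) ^ 3 * (μ ^ a / ν ^ b) *
        ((yv (List.replicate j false ++ (List.replicate b true ++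
          (List.replicate i true ++ x)))).1 : ℝ) ≤
      ((yv (List.replicate j false ++ (List.replicate a false ++
        (List.replicate i true ++ x)))).1 : ℝ) ∧
      ((yv (List.replicate j false ++ (List.replicate a false ++
        (List.replicate i true ++ x)))).1 : ℝ) ≤
      (1 + e) ^ 3 * (μ ^ a / ν ^ b) *
        ((yv (List.replicate j false ++ (List.replicate b true ++
          (List.replicate i true ++ x)))).1 : ℝ) := by
  have he0 : 0 ≤ e := le_trans (by positivity) hi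
  set z : Word := List.replicate i true ++ x with hz
  set u : Word := List.replicate a false ++ z with hu
  set v : Word := List.replicate b true ++ z with hv
  set P : Word := List.replicate j false with hP
  -- first: ratio for prefix P
  have e1 : ((yv (P ++ u)).1 : ℝ) * (μ + be (P ++ u)) = μ ^ j * (((yv u).1 : ℝ) * (μ + be u)) := by
    rw [← fst_form, ← fst_form, hP]
    exact form_rep false μ hμ j u
  have e2 : ((yv (P ++ v)).1 : ℝ) * (μ + be (P ++ v)) = μ ^ j * (((yv v).1 : ℝ) * (μ + be v)) := by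
    rw [← fst_form, ← fst_form, hP]
    exact form_rep false μ hμ j v
  have e3 : ((yv u).1 : ℝ) * (μ + be u) = μ ^ a * (((yv z).1 : ℝ) * (μ + be z)) := by
    rw [← fst_form, ← fst_form, hu]
    exact form_rep false μ hμ a z
  have e4 : ((yv v).1 : ℝ) * (ν + be v) = ν ^ b * (((yv z).1 : ℝ) * (ν + be z)) := by
    rw [← fst_form, ← fst_form, hv]
    exact form_rep true ν hν b z
  have hvz : v = List.replicate i true ++ (List.replicate b true ++ x) := by
    rw [hv, hz, ← List.append_assoc, ← List.append_assoc, List.replicate_append_replicate,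
      List.replicate_append_replicate, Nat.add_comm]
  have a1 : Ap e (μ + be (P ++ v)) (μ + be (P ++ u)) := ap_be μ hμ1 P v u e hj
  have a2 : Ap e (μ + be z) (μ + be v) := by
    rw [hvz, hz]
    exact ap_be μ hμ1 _ _ _ e hi
  have a3 : Ap e (ν + be v) (ν + be z) := by
    rw [hvz, hz]
    exact ap_be ν hν1 _ _ _ e hi
  have b0 : ∀ (c : ℝ) (w : Word), 1 ≤ c → 0 < c + be w := fun c w hc => by
    have := be_nonneg w
    linarith
  have p1 := b0 μ (P ++ u) hμ1
  have p2 := b0 μ (P ++ v) hμ1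
  have p3 := b0 μ v hμ1
  have p4 := b0 μ z hμ1
  have p5 := b0 ν v hν1
  have p6 := b0 ν z hν1
  have hμj : 0 < μ ^ j := by positivity
  have hμa : 0 < μ ^ a := by positivity
  have hνb : 0 < ν ^ b := by positivity
  -- the exact formula
  have key : ((yv (P ++ u)).1 : ℝ) = (μ ^ a / ν ^ b) * ((yv (P ++ v)).1 : ℝ) *
      (((μ + be (P ++ v)) / (μ + be (P ++ u))) * ((μ + be z) / (μ + be v)) *
        ((ν + be v) / (ν + be z))) := by
    have f1 : ((yv (P ++ u)).1 : ℝ) = μ ^ j * (μ ^ a * (((yv z).1 : ℝ) * (μ + be z))) /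
        (μ + be (P ++ u)) := by
      rw [eq_div_iff p1.ne', e1, e3]
    have f2 : ((yv (P ++ v)).1 : ℝ) = μ ^ j * (((yv v).1 : ℝ) * (μ + be v)) /
        (μ + be (P ++ v)) := by
      rw [eq_div_iff p2.ne', e2]
    have f3 : ((yv v).1 : ℝ) = ν ^ b * (((yv z).1 : ℝ) * (ν + be z)) / (ν + be v) := by
      rw [eq_div_iff p5.ne', e4]
    rw [f1, f2, f3]
    field_simp
  have hap : ∀ x y : ℝ, 0 < y → Ap e x y → 1 - e ≤ x / y ∧ x / y ≤ 1 + e := by
    intro x y hy h
    exact ⟨by rw [le_div_iff₀ hy]; exact h.1, by rw [div_le_iff₀ hy]; exact h.2⟩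
  obtain ⟨c1, d1⟩ := hap _ _ p1 a1
  obtain ⟨c2, d2⟩ := hap _ _ p3 a2
  obtain ⟨c3, d3⟩ := hap _ _ p6 a3
  have hY := Y_pos (P ++ v)
  have hR : 0 < (μ ^ a / ν ^ b) * ((yv (P ++ v)).1 : ℝ) := by positivity
  set r1 := (μ + be (P ++ v)) / (μ + be (P ++ u))
  set r2 := (μ + be z) / (μ + be v)
  set r3 := (ν + be v) / (ν + be z)
  have h1e : 0 < 1 - e := by linarith
  have lo : (1 - e) ^ 3 ≤ r1 * r2 * r3 := by
    rw [pow_succ, pow_two]
    exact mul_le_mul (mul_le_mul c1 c2 h1e.le (by linarith)) c3 h1e.le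
      (mul_nonneg (by linarith) (by linarith))
  have hi' : r1 * r2 * r3 ≤ (1 + e) ^ 3 := by
    rw [pow_succ, pow_two]
    exact mul_le_mul (mul_le_mul d1 d2 (by linarith) (by linarith)) d3 (by linarith)
      (mul_nonneg (by linarith) (by linarith))
  rw [key]
  constructor
  · calc (1 - e) ^ 3 * (μ ^ a / ν ^ b) * ((yv (P ++ v)).1 : ℝ) =
        (μ ^ a / ν ^ b) * ((yv (P ++ v)).1 : ℝ) * (1 - e) ^ 3 := by ring
      _ ≤ _ := mul_le_mul_of_nonneg_left lo hR.le
  · calc (μ ^ a / ν ^ b) * ((yv (P ++ v)).1 : ℝ) * (r1 * r2 * r3) ≤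
        (μ ^ a / ν ^ b) * ((yv (P ++ v)).1 : ℝ) * (1 + e) ^ 3 :=
          mul_le_mul_of_nonneg_left hi' hR.le
      _ = _ := by ring

/-- both components -/
theorem comp2 (μ ν : ℝ) (hμ : μ * μ = dg false * μ + 1) (hν : ν * ν = dg true * ν + 1)
    (hμ1 : 1 ≤ μ) (hν1 : 1 ≤ ν) (a b i j T : ℕ) (x : Word) (e : ℝ) (he1 : e < 1)
    (hT : 1 ≤ T) (hi : T ≤ i) (hj : T + 1 ≤ j) (he : 1 / (T : ℝ) ^ 2 ≤ e) :
    ((1 - e) ^ 3 * (μ ^ a / ν ^ b) *
        ((yv (List.replicate j false ++ (List.replicate b true ++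
          (List.replicate i true ++ x)))).1 : ℝ) ≤
      ((yv (List.replicate j false ++ (List.replicate a false ++
        (List.replicate i true ++ x)))).1 : ℝ) ∧
      ((yv (List.replicate j false ++ (List.replicate a false ++
        (List.replicate i true ++ x)))).1 : ℝ) ≤
      (1 + e) ^ 3 * (μ ^ a / ν ^ b) *
        ((yv (List.replicate j false ++ (List.replicate b true ++
          (List.replicate i true ++ x)))).1 : ℝ)) ∧
    ((1 - e) ^ 3 * (μ ^ a / ν ^ b) *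
        ((yv (List.replicate j false ++ (List.replicate b true ++
          (List.replicate i true ++ x)))).2 : ℝ) ≤
      ((yv (List.replicate j false ++ (List.replicate a false ++
        (List.replicate i true ++ x)))).2 : ℝ) ∧
      ((yv (List.replicate j false ++ (List.replicate a false ++
        (List.replicate i true ++ x)))).2 : ℝ) ≤
      (1 + e) ^ 3 * (μ ^ a / ν ^ b) *
        ((yv (List.replicate j false ++ (List.replicate b true ++
          (List.replicate i true ++ x)))).2 : ℝ)) := by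
  have hK : ∀ (c : Bool) (l : ℕ), T ≤ l → 1 / (K (List.replicate l c) : ℝ) ^ 2 ≤ e := by
    intro c l hl
    refine le_trans ?_ he
    have h1 : l ≤ K (List.replicate l c) := by
      simpa using length_le_K (List.replicate l c)
    have h2 : (T : ℝ) ≤ K (List.replicate l c) := by exact_mod_cast hl.trans h1
    have h3 : (1 : ℝ) ≤ T := by exact_mod_cast hT
    apply one_div_le_one_div_of_le (by positivity)
    exact pow_le_pow_left₀ (by linarith) h2 2
  refine ⟨comp μ ν hμ hν hμ1 hν1 a b i j x e he1 (hK _ _ hi) (hK _ _ (by omega)), ?_⟩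
  obtain ⟨j', rfl⟩ : ∃ j', j = j' + 1 := ⟨j - 1, by omega⟩
  have h := comp μ ν hμ hν hμ1 hν1 a b i j' x e he1 (hK _ _ hi) (hK _ _ (by omega))
  simpa only [List.replicate_succ, List.cons_append, yv_cons] using h

/-- the real inequalities -/
theorem ineq (δ e : ℝ) (hδ : 0 < δ) (hδ1 : δ ≤ 1) (he : e = (1 / 28) * δ) :
    (1 + e) ^ 3 ≤ 1 + 7 * e ∧ 1 - 3 * e ≤ (1 - e) ^ 3 ∧
    (1 + 7 * e) * (1 + δ / 4) ≤ 1 + δ ∧ 1 + 3 * δ ≤ (1 - 3 * e) * (1 + 4 * δ) ∧
    1 + δ / 4 ≤ (1 - 3 * e) * (1 + δ) ∧ (1 + 7 * e) * (1 + 3 * δ) ≤ 1 + 4 * δ := by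
  have he0 : 0 < e := by rw [he]; positivity
  have he1 : e ≤ 1 / 28 := by linarith
  have h2 : δ * δ ≤ δ := by nlinarith
  have h3 : e * e ≤ e := by nlinarith
  have h4 : e * e * e ≤ e := by nlinarith
  have h5 : e * e * e ≤ e * e := by nlinarith
  have h6 : 0 < e * e := by positivity
  refine ⟨by nlinarith, by nlinarith, ?_, ?_, ?_, ?_⟩ <;> rw [he] <;> nlinarith

theorem gen_neg (M δ e E F U V : ℝ) (h4M : 1 / (4 * M) = δ / 4) (h4M' : 4 / M = 4 * δ)
    (hδ : 0 < δ) (hδ1 : δ ≤ 1) (he : e = (1 / 28) * δ) (hE : 0 < E) (hEF : F * E = 1)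
    (h1 : 1 + δ ≤ E) (h2 : E ≤ 1 + 3 * δ)
    (hU : 0 ≤ U) (hV : 0 ≤ V) (g1 : (1 - e) ^ 3 * F * V ≤ U) (g2 : U ≤ (1 + e) ^ 3 * F * V) :
    (1 + 1 / (4 * M)) * U ≤ V ∧ V ≤ (1 + 4 / M) * U := by
  obtain ⟨i1, i2, i3, i4, -, -⟩ := ineq δ e hδ hδ1 he
  have he0 : 0 < e := by rw [he]; positivity
  have he1 : e ≤ 1 / 28 := by linarith
  rw [h4M, h4M']
  constructor
  · have g3 : U * E ≤ (1 + e) ^ 3 * V := by
      calc U * E ≤ (1 + e) ^ 3 * F * V * E := mul_le_mul_of_nonneg_right g2 hE.le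
        _ = (1 + e) ^ 3 * V * (F * E) := by ring
        _ = (1 + e) ^ 3 * V := by rw [hEF, mul_one]
    have g4 : U * (1 + δ) ≤ (1 + 7 * e) * V := by
      calc U * (1 + δ) ≤ U * E := mul_le_mul_of_nonneg_left h1 hU
        _ ≤ (1 + e) ^ 3 * V := g3
        _ ≤ (1 + 7 * e) * V := mul_le_mul_of_nonneg_right i1 hV
    have g6 : (1 + 7 * e) * ((1 + δ / 4) * U) ≤ (1 + 7 * e) * V := by
      calc (1 + 7 * e) * ((1 + δ / 4) * U) = ((1 + 7 * e) * (1 + δ / 4)) * U := by ring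
        _ ≤ (1 + δ) * U := mul_le_mul_of_nonneg_right i3 hU
        _ = U * (1 + δ) := mul_comm _ _
        _ ≤ _ := g4
    exact le_of_mul_le_mul_left g6 (by linarith)
  · have g3 : (1 - e) ^ 3 * V ≤ U * E := by
      calc (1 - e) ^ 3 * V = (1 - e) ^ 3 * V * (F * E) := by rw [hEF, mul_one]
        _ = (1 - e) ^ 3 * F * V * E := by ring
        _ ≤ U * E := mul_le_mul_of_nonneg_right g1 hE.le
    have g4 : (1 - 3 * e) * V ≤ U * (1 + 3 * δ) := by
      calc (1 - 3 * e) * V ≤ (1 - e) ^ 3 * V := mul_le_mul_of_nonneg_right i2 hV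
        _ ≤ U * E := g3
        _ ≤ U * (1 + 3 * δ) := mul_le_mul_of_nonneg_left h2 hU
    have g6 : (1 - 3 * e) * V ≤ (1 - 3 * e) * ((1 + 4 * δ) * U) := by
      calc (1 - 3 * e) * V ≤ U * (1 + 3 * δ) := g4
        _ ≤ U * ((1 - 3 * e) * (1 + 4 * δ)) := mul_le_mul_of_nonneg_left i4 hU
        _ = _ := by ring
    exact le_of_mul_le_mul_left g6 (by linarith)

theorem gen_pos (M δ e E U V : ℝ) (h4M : 1 / (4 * M) = δ / 4) (h4M' : 4 / M = 4 * δ)
    (hδ : 0 < δ) (hδ1 : δ ≤ 1) (he : e = (1 / 28) * δ)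
    (h1 : 1 + δ ≤ E) (h2 : E ≤ 1 + 3 * δ)
    (hV : 0 ≤ V) (g1 : (1 - e) ^ 3 * E * V ≤ U) (g2 : U ≤ (1 + e) ^ 3 * E * V) :
    (1 + 1 / (4 * M)) * V ≤ U ∧ U ≤ (1 + 4 / M) * V := by
  obtain ⟨i1, i2, -, -, i5, i6⟩ := ineq δ e hδ hδ1 he
  have he0 : 0 < e := by rw [he]; positivity
  have he1 : e ≤ 1 / 28 := by linarith
  have h1e : 0 ≤ 1 - e := by linarith
  rw [h4M, h4M']
  constructor
  · calc (1 + δ / 4) * V ≤ ((1 - 3 * e) * (1 + δ)) * V := mul_le_mul_of_nonneg_right i5 hV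
      _ ≤ ((1 - e) ^ 3 * E) * V := by
          apply mul_le_mul_of_nonneg_right _ hV
          exact mul_le_mul i2 h1 (by linarith) (by positivity)
      _ ≤ U := g1
  · calc U ≤ (1 + e) ^ 3 * E * V := g2
      _ ≤ ((1 + 7 * e) * (1 + 3 * δ)) * V := by
          apply mul_le_mul_of_nonneg_right _ hV
          exact mul_le_mul i1 h2 (by linarith) (by linarith)
      _ ≤ _ := mul_le_mul_of_nonneg_right i6 hV

end DITM

open DITM in
theorem specDIT (hIRR : SpecIRR) : SpecDIT := by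
  intro n
  set μ : ℝ := (1 + Real.sqrt 5) / 2 with hμd
  set ν : ℝ := 1 + Real.sqrt 2 with hνd
  have h5 : Real.sqrt 5 * Real.sqrt 5 = 5 := Real.mul_self_sqrt (by norm_num)
  have h2 : Real.sqrt 2 * Real.sqrt 2 = 2 := Real.mul_self_sqrt (by norm_num)
  have hμ : μ * μ = dg false * μ + 1 := by
    rw [dg_false, hμd]
    push_cast
    linear_combination (1 / 4 : ℝ) * h5
  have hν : ν * ν = dg true * ν + 1 := by
    rw [dg_true, hνd]
    push_cast
    linear_combination h2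
  have hs5 : 1 ≤ Real.sqrt 5 := by
    rw [show (1 : ℝ) = Real.sqrt 1 by simp]
    exact Real.sqrt_le_sqrt (by norm_num)
  have hμ1 : 1 ≤ μ := by rw [hμd]; linarith
  have hν1 : 1 ≤ ν := by
    rw [hνd]
    have := Real.sqrt_nonneg 2
    linarith
  have hμ0 : 0 < μ := by linarith
  have hν0 : 0 < ν := by linarith
  obtain ⟨a', b', ha', hb', hpos, hle⟩ := hIRR (1 / (4 * 2 ^ n)) (by positivity)
  set s : ℝ := 2 * ((a' : ℝ) * Real.log μ - (b' : ℝ) * Real.log ν) with hs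
  have hsabs : |s| = 2 * |(a' : ℝ) * Real.log μ - (b' : ℝ) * Real.log ν| := by
    rw [hs, abs_mul]
    norm_num
  have hs0 : 0 < |s| := by rw [hsabs]; linarith
  have hsle : |s| ≤ 1 / (2 * 2 ^ n) := by
    rw [hsabs]
    calc 2 * |(a' : ℝ) * Real.log μ - (b' : ℝ) * Real.log ν| ≤ 2 * (1 / (4 * 2 ^ n)) := by
          linarith
      _ = 1 / (2 * 2 ^ n) := by field_simp; norm_num
  have hpn : (1 : ℝ) ≤ 2 ^ n := one_le_pow₀ (by norm_num)
  have hshalf : |s| ≤ 1 / 2 := by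
    refine hsle.trans ?_
    apply one_div_le_one_div_of_le (by norm_num)
    linarith
  set M : ℕ := ⌈1 / |s|⌉₊ with hM
  have hM1 : 1 / |s| ≤ (M : ℝ) := Nat.le_ceil _
  have hM2 : (M : ℝ) < 1 / |s| + 1 := Nat.ceil_lt_add_one (by positivity)
  have hMs1 : 1 ≤ (M : ℝ) * |s| := by
    rw [div_le_iff₀ hs0] at hM1
    exact hM1
  have hMs2 : (M : ℝ) * |s| ≤ 3 / 2 := by
    have : (M : ℝ) * |s| ≤ (1 / |s| + 1) * |s| := mul_le_mul_of_nonneg_right hM2.le hs0.le
    have e : (1 / |s| + 1) * |s| = 1 + |s| := by field_simp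
    linarith
  have hMn : 2 ^ n ≤ M := by
    have h1 : (2 : ℝ) ^ n ≤ 1 / |s| := by
      rw [le_div_iff₀ hs0]
      have h3 : (2 : ℝ) ^ n * |s| ≤ 2 ^ n * (1 / (2 * 2 ^ n)) :=
        mul_le_mul_of_nonneg_left hsle (by positivity)
      have h4 : (2 : ℝ) ^ n * (1 / (2 * 2 ^ n)) = 1 / 2 := by field_simp
      linarith
    exact_mod_cast h1.trans hM1
  have hM0 : 1 ≤ M := le_trans Nat.one_le_two_pow hMn
  have hMr : (1 : ℝ) ≤ M := by exact_mod_cast hM0
  set a := 2 * a' with ha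
  set b := 2 * b' with hb
  have ha1 : 1 ≤ a := by omega
  have hb1 : 1 ≤ b := by omega
  have hρ : μ ^ a / ν ^ b = Real.exp s := by
    rw [← Real.exp_log (show 0 < μ ^ a / ν ^ b by positivity), Real.log_div (by positivity)
      (by positivity), Real.log_pow, Real.log_pow, hs, ha, hb]
    congr 1
    push_cast
    ring
  set e : ℝ := 1 / (28 * M) with he
  have he0 : 0 < e := by positivity
  have hMe : (M : ℝ) * e = 1 / 28 := by rw [he]; field_simp
  have he28 : e ≤ 1 / 28 := by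
    rw [he]
    apply one_div_le_one_div_of_le (by norm_num)
    linarith
  set T : ℕ := 28 * M with hT
  have hT1 : 1 ≤ T := by omega
  have hTe : 1 / (T : ℝ) ^ 2 ≤ e := by
    have h1 : (T : ℝ) = 28 * M := by rw [hT]; push_cast; ring
    rw [h1, he]
    apply one_div_le_one_div_of_le (by positivity)
    have h3 : (28 : ℝ) * M ≤ (28 * M) * (28 * M) := le_mul_of_one_le_right (by positivity) (by linarith)
    rw [pow_two]
    exact h3
  have hexp1 : 1 + |s| ≤ Real.exp |s| := by linarith [Real.add_one_le_exp |s|]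
  have hexp2 : Real.exp |s| ≤ 1 + 2 * |s| := by
    have h1 := Real.abs_exp_sub_one_le (x := |s|) (by rw [abs_abs]; linarith)
    rw [abs_abs] at h1
    linarith [(abs_le.1 h1).2]
  have hMi : 0 < 1 / (M : ℝ) := by positivity
  have hMe' : e = (1 / 28) * (1 / (M : ℝ)) := by rw [he]; field_simp
  have hsM1 : 1 / (M : ℝ) ≤ |s| := by
    rw [div_le_iff₀ (by positivity)]
    linarith
  have hsM2 : |s| ≤ (3 / 2) * (1 / (M : ℝ)) := by
    rw [← div_eq_mul_one_div, le_div_iff₀ (by positivity)]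
    linarith
  have hMi1 : 1 / (M : ℝ) ≤ 1 := by
    rw [div_le_one (by positivity)]
    exact hMr
  set δ : ℝ := 1 / (M : ℝ) with hδ
  have h4M : 1 / (4 * (M : ℝ)) = δ / 4 := by rw [hδ]; field_simp
  have h4M' : 4 / (M : ℝ) = 4 * δ := by rw [hδ]; field_simp
  have hE1 : 1 + δ ≤ Real.exp |s| := by linarith
  have hE2 : Real.exp |s| ≤ 1 + 3 * δ := by linarith
  rcases lt_or_gt_of_ne (show s ≠ 0 from abs_pos.1 hs0) with hneg | hpos'
  · -- the case `s < 0`
    have hss : s = -|s| := by rw [abs_of_neg hneg]; ring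
    refine ⟨M, fun k => List.replicate (a * (T + 1 + (M - k))) false ++
      List.replicate (b * (T + 1 + k)) true, hMn, ⟨fun k hk => ⟨?_, ?_⟩, ?_, fun k hk x => ?_⟩⟩
    · intro h0
      have := congrArg List.length h0
      simp only [List.length_append, List.length_replicate, List.length_nil] at this
      have h3 : 1 ≤ a * (T + 1 + (M - k)) := Nat.mul_pos (by omega) (by omega)
      omega
    · simp only [List.length_append, List.length_replicate, ha, hb]
      exact (even_two.mul_right _ |>.mul_right _).add (even_two.mul_right _ |>.mul_right _)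
    · refine le_trans ?_ (length_le_K _)
      simp only [List.length_append, List.length_replicate]
      have h3 : 1 * (T + 1) ≤ a * (T + 1 + (M - 0)) := Nat.mul_le_mul ha1 (by omega)
      omega
    · -- D (k+1) x = 1^j 2^b z, D k x = 1^j 1^a z
      obtain ⟨r, hr⟩ : ∃ r, M - k = r + 1 := ⟨M - k - 1, by omega⟩
      have hr' : M - (k + 1) = r := by omega
      have w1 : (List.replicate (a * (T + 1 + (M - (k + 1)))) false ++
          List.replicate (b * (T + 1 + (k + 1))) true) ++ x =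
          List.replicate (a * (T + 1 + r)) false ++ (List.replicate b true ++
            (List.replicate (b * (T + 1 + k)) true ++ x)) := by
        rw [hr', show b * (T + 1 + (k + 1)) = b + b * (T + 1 + k) by ring,
          ← List.replicate_append_replicate]
        simp only [List.append_assoc]
      have w2 : (List.replicate (a * (T + 1 + (M - k))) false ++
          List.replicate (b * (T + 1 + k)) true) ++ x =
          List.replicate (a * (T + 1 + r)) false ++ (List.replicate a false ++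
            (List.replicate (b * (T + 1 + k)) true ++ x)) := by
        rw [hr, show a * (T + 1 + (r + 1)) = a * (T + 1 + r) + a by ring,
          ← List.replicate_append_replicate]
        simp only [List.append_assoc]
      have hi : T ≤ b * (T + 1 + k) := le_trans (by omega) (Nat.mul_le_mul_right (T + 1 + k) hb1)
      have hj : T + 1 ≤ a * (T + 1 + r) :=
        le_trans (by omega) (Nat.mul_le_mul_right (T + 1 + r) ha1)
      obtain ⟨⟨c1, c2⟩, c3, c4⟩ := comp2 μ ν hμ hν hμ1 hν1 a b (b * (T + 1 + k))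
        (a * (T + 1 + r)) T x e (by linarith) hT1 hi hj hTe
      rw [hρ] at c1 c2 c3 c4
      simp only [w1, w2]
      have hex : Real.exp s * Real.exp |s| = 1 := by
        rw [← Real.exp_add, hss, abs_neg, abs_abs]
        simp
      have gen := fun U V => gen_neg M δ e (Real.exp |s|) (Real.exp s) U V h4M h4M' hMi hMi1
        hMe' (Real.exp_pos _) hex hE1 hE2
      exact ⟨gen _ _ (by positivity) (by positivity) c1 c2,
        gen _ _ (by positivity) (by positivity) c3 c4⟩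
  · -- the case `s > 0`
    have hss : s = |s| := (abs_of_pos hpos').symm
    refine ⟨M, fun k => List.replicate (a * (T + 1 + k)) false ++
      List.replicate (b * (T + 1 + (M - k))) true, hMn, ⟨fun k hk => ⟨?_, ?_⟩, ?_, fun k hk x => ?_⟩⟩
    · intro h0
      have := congrArg List.length h0
      simp only [List.length_append, List.length_replicate, List.length_nil] at this
      have h3 : 1 ≤ a * (T + 1 + k) := Nat.mul_pos (by omega) (by omega)
      omega
    · simp only [List.length_append, List.length_replicate, ha, hb]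
      exact (even_two.mul_right _ |>.mul_right _).add (even_two.mul_right _ |>.mul_right _)
    · refine le_trans ?_ (length_le_K _)
      simp only [List.length_append, List.length_replicate]
      have h3 : 1 * (T + 1) ≤ a * (T + 1 + 0) := Nat.mul_le_mul ha1 (by omega)
      omega
    · obtain ⟨r, hr⟩ : ∃ r, M - k = r + 1 := ⟨M - k - 1, by omega⟩
      have hr' : M - (k + 1) = r := by omega
      have w1 : (List.replicate (a * (T + 1 + (k + 1))) false ++
          List.replicate (b * (T + 1 + (M - (k + 1)))) true) ++ x =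
          List.replicate (a * (T + 1 + k)) false ++ (List.replicate a false ++
            (List.replicate (b * (T + 1 + r)) true ++ x)) := by
        rw [hr', show a * (T + 1 + (k + 1)) = a * (T + 1 + k) + a by ring,
          ← List.replicate_append_replicate]
        simp only [List.append_assoc]
      have w2 : (List.replicate (a * (T + 1 + k)) false ++
          List.replicate (b * (T + 1 + (M - k))) true) ++ x =
          List.replicate (a * (T + 1 + k)) false ++ (List.replicate b true ++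
            (List.replicate (b * (T + 1 + r)) true ++ x)) := by
        rw [hr, show b * (T + 1 + (r + 1)) = b + b * (T + 1 + r) by ring,
          ← List.replicate_append_replicate]
        simp only [List.append_assoc]
      have hi : T ≤ b * (T + 1 + r) := le_trans (by omega) (Nat.mul_le_mul_right (T + 1 + r) hb1)
      have hj : T + 1 ≤ a * (T + 1 + k) :=
        le_trans (by omega) (Nat.mul_le_mul_right (T + 1 + k) ha1)
      obtain ⟨⟨c1, c2⟩, c3, c4⟩ := comp2 μ ν hμ hν hμ1 hν1 a b (b * (T + 1 + r))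
        (a * (T + 1 + k)) T x e (by linarith) hT1 hi hj hTe
      rw [hρ, hss] at c1 c2 c3 c4
      simp only [w1, w2]
      have gen := fun U V => gen_pos M δ e (Real.exp |s|) U V h4M h4M' hMi hMi1
        hMe' hE1 hE2
      exact ⟨gen _ _ (by positivity) c1 c2, gen _ _ (by positivity) c3 c4⟩

end Pool.Agent.Lib.MP_d0a18a_nt.ZP
end

section
/-!
# GEO: geometry of one cell
-/
set_option autoImplicit false

namespace Pool.Agent.Lib.MP_d0a18a_nt.ZP

open Finset

namespace GEOM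

/-- the values of the cell coordinates, real form -/
theorem box {a b β θ z t : ℝ} (hθ : 0 ≤ θ) (hθ1 : θ ≤ 1) (hβ : 0 ≤ β) (hβ1 : β ≤ 1)
    (h1 : z ≤ a + β * b) (h2 : a + β * b < z + 1) (h3 : t ≤ b - θ * a) (h4 : b - θ * a < t + 1) :
    ((z - β * (t + 1)) / (1 + β * θ) ≤ a ∧ a ≤ (z - β * (t + 1)) / (1 + β * θ) + 2) ∧
    (t + θ * ((z - β * (t + 1)) / (1 + β * θ)) ≤ b ∧
      b ≤ t + θ * ((z - β * (t + 1)) / (1 + β * θ)) + 3) := by
  set lo : ℝ := (z - β * (t + 1)) / (1 + β * θ) with hlo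
  have hβθ : 0 ≤ β * θ := mul_nonneg hβ hθ
  have hp : 0 < 1 + β * θ := by linarith
  have e : lo * (1 + β * θ) = z - β * (t + 1) := by rw [hlo]; field_simp
  have a1 : lo * (1 + β * θ) ≤ a * (1 + β * θ) := by
    rw [e]
    nlinarith [mul_le_mul_of_nonneg_left h4.le hβ]
  have a2 : a * (1 + β * θ) ≤ (lo + 2) * (1 + β * θ) := by
    have := mul_le_mul_of_nonneg_left h3 hβ
    have e2 : (lo + 2) * (1 + β * θ) = z - β * (t + 1) + 2 * (1 + β * θ) := by
      rw [add_mul, e]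
    rw [e2]
    nlinarith
  have b1 : lo ≤ a := le_of_mul_le_mul_right a1 hp
  have b2 : a ≤ lo + 2 := le_of_mul_le_mul_right a2 hp
  refine ⟨⟨b1, b2⟩, ?_, ?_⟩
  · have := mul_le_mul_of_nonneg_left b1 hθ
    linarith
  · have := mul_le_mul_of_nonneg_left b2 hθ
    nlinarith

theorem floor_mem {lo a : ℝ} (n : ℕ) (ha : 0 ≤ a) (h1 : lo ≤ a) (h2 : a ≤ lo + n) :
    ((⌊a⌋₊ : ℕ) : ℤ) ∈ Finset.Icc ⌊lo⌋ (⌊lo⌋ + n) := by
  have e : ((⌊a⌋₊ : ℕ) : ℤ) = ⌊a⌋ := Int.natCast_floor_eq_floor ha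
  rw [e, Finset.mem_Icc]
  refine ⟨Int.floor_le_floor h1, ?_⟩
  have := Int.floor_le_floor h2
  rwa [Int.floor_add_natCast] at this

theorem fl_bounds (β : ℝ) (q i : ℕ) (hβ : 0 ≤ β) (y : ℕ × ℕ) :
    ((fl β q i y : ℕ) : ℝ) ≤ pr β y / (q : ℝ) ^ i ∧
      pr β y / (q : ℝ) ^ i < ((fl β q i y : ℕ) : ℝ) + 1 := by
  have h0 : 0 ≤ pr β y / (q : ℝ) ^ i := by
    unfold pr
    positivity
  exact ⟨Nat.floor_le h0, Nat.lt_floor_add_one _⟩

theorem fl_near {β : ℝ} {q i : ℕ} (hq : 1 ≤ q) (hβ : 0 ≤ β) {y x : ℕ × ℕ}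
    (h : fl β q i y = fl β q i x) : |pr β y - pr β x| ≤ (q : ℝ) ^ i := by
  have hR : (0 : ℝ) < (q : ℝ) ^ i := by
    have : (0 : ℝ) < q := by exact_mod_cast hq
    positivity
  obtain ⟨a1, a2⟩ := fl_bounds β q i hβ y
  obtain ⟨b1, b2⟩ := fl_bounds β q i hβ x
  rw [h] at a1 a2
  have h1 : |pr β y / (q : ℝ) ^ i - pr β x / (q : ℝ) ^ i| ≤ 1 := by
    rw [abs_le]
    constructor <;> linarith
  rw [← sub_div, abs_div, abs_of_pos hR, div_le_one hR] at h1
  exact h1

theorem ta_bounds (θ : ℝ) (q i : ℕ) (y : ℕ × ℕ) :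
    ((ta θ q i y : ℤ) : ℝ) ≤ ((y.2 : ℝ) - θ * (y.1 : ℝ)) / (q : ℝ) ^ i ∧
      ((y.2 : ℝ) - θ * (y.1 : ℝ)) / (q : ℝ) ^ i < ((ta θ q i y : ℤ) : ℝ) + 1 :=
  ⟨Int.floor_le _, Int.lt_floor_add_one _⟩

theorem cr_bounds {θ β : ℝ} (hθ : 0 ≤ θ) (hθ1 : θ ≤ 1) (hβ : 1 / 3 ≤ β) (hβ1 : β ≤ 1) :
    1 / 4 ≤ cr θ β ∧ cr θ β ≤ 1 := by
  have hβ0 : 0 ≤ β := by linarith
  have hp : 0 < 1 + θ * β := by nlinarith [mul_nonneg hθ hβ0]
  unfold cr
  constructor
  · rw [div_le_div_iff₀ (by norm_num) hp]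
    nlinarith [mul_le_mul_of_nonneg_right hθ1 hβ0]
  · rw [div_le_one hp]
    nlinarith [mul_nonneg hθ hβ0]

/-- the projection identity in the moving frame -/
theorem pr_eq {θ β : ℝ} (hθ : 0 ≤ θ) (hβ : 0 ≤ β) (y : ℕ × ℕ) :
    pr β y = (1 + θ * β) * ((y.1 : ℝ) + cr θ β * ((y.2 : ℝ) - θ * (y.1 : ℝ))) := by
  have hp : 0 < 1 + θ * β := by nlinarith [mul_nonneg hθ hβ]
  unfold pr cr
  field_simp
  ring

theorem frame {θ β R : ℝ} (hθ : 0 ≤ θ) (hβ : 0 ≤ β) {y x : ℕ × ℕ} (h : |pr β y - pr β x| ≤ R) :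
    |((y.1 : ℝ) - x.1) + cr θ β * (((y.2 : ℝ) - θ * (y.1 : ℝ)) - ((x.2 : ℝ) - θ * (x.1 : ℝ)))| ≤ R := by
  have hp : 1 ≤ 1 + θ * β := by nlinarith [mul_nonneg hθ hβ]
  rw [pr_eq hθ hβ y, pr_eq hθ hβ x, ← mul_sub, abs_mul, abs_of_pos (by linarith)] at h
  have e : ((y.1 : ℝ) - x.1) + cr θ β * (((y.2 : ℝ) - θ * (y.1 : ℝ)) - ((x.2 : ℝ) - θ * (x.1 : ℝ))) =
      ((y.1 : ℝ) + cr θ β * ((y.2 : ℝ) - θ * (y.1 : ℝ))) -
        ((x.1 : ℝ) + cr θ β * ((x.2 : ℝ) - θ * (x.1 : ℝ))) := by ring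
  rw [e]
  refine le_trans ?_ h
  exact le_mul_of_one_le_left (abs_nonneg _) hp

end GEOM

open GEOM in
theorem specGEO : SpecGEO := by
  classical
  intro X q i θ β1 β2 hq hθ hθ1 hβ1 hβ1' hβ2 hβ2'
  have hq0 : (0 : ℝ) < q := by exact_mod_cast hq
  have hR : (0 : ℝ) < (q : ℝ) ^ i := by positivity
  have hb1 : 0 ≤ β1 := by linarith
  have hb2 : 0 ≤ β2 := by linarith
  constructor
  · intro z t
    set lo : ℝ := ((z : ℝ) - β1 * ((t : ℝ) + 1)) / (1 + β1 * θ) with hlo
    set lo' : ℝ := (t : ℝ) + θ * lo with hlo'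
    have hcard : (Finset.Icc ⌊lo⌋ (⌊lo⌋ + (2 : ℕ)) ×ˢ Finset.Icc ⌊lo'⌋ (⌊lo'⌋ + (3 : ℕ))).card
        = 12 := by
      rw [Finset.card_product, Int.card_Icc, Int.card_Icc]
      have e1 : (⌊lo⌋ + (2 : ℕ) + 1 - ⌊lo⌋).toNat = 3 := by omega
      have e2 : (⌊lo'⌋ + (3 : ℕ) + 1 - ⌊lo'⌋).toNat = 4 := by omega
      rw [e1, e2]
    rw [← hcard]
    apply Finset.card_le_card_of_injOn (fun p : ℕ × ℕ => ((p.1 : ℤ), (p.2 : ℤ)))
    · intro p hp
      rw [Finset.mem_coe, Finset.mem_image] at hp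
      obtain ⟨y, hy, rfl⟩ := hp
      rw [Finset.mem_filter] at hy
      obtain ⟨_, hy1, hy2⟩ := hy
      obtain ⟨a1, a2⟩ := fl_bounds β1 q i hb1 y
      obtain ⟨b1, b2⟩ := ta_bounds θ q i y
      rw [hy1] at a1 a2
      rw [hy2] at b1 b2
      have e1 : pr β1 y / (q : ℝ) ^ i = (y.1 : ℝ) / (q : ℝ) ^ i + β1 * ((y.2 : ℝ) / (q : ℝ) ^ i) := by
        unfold pr
        ring
      have e2 : ((y.2 : ℝ) - θ * (y.1 : ℝ)) / (q : ℝ) ^ i =
          (y.2 : ℝ) / (q : ℝ) ^ i - θ * ((y.1 : ℝ) / (q : ℝ) ^ i) := by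
        ring
      rw [e1] at a1 a2
      rw [e2] at b1 b2
      obtain ⟨⟨c1, c2⟩, c3, c4⟩ := box hθ hθ1 hb1 hβ1' a1 a2 b1 b2
      have f1 : y.1 / q ^ i = ⌊(y.1 : ℝ) / (q : ℝ) ^ i⌋₊ := by
        rw [← Nat.cast_pow, Nat.floor_div_eq_div]
      have f2 : y.2 / q ^ i = ⌊(y.2 : ℝ) / (q : ℝ) ^ i⌋₊ := by
        rw [← Nat.cast_pow, Nat.floor_div_eq_div]
      rw [Finset.mem_coe, Finset.mem_product]
      simp only [cell]
      rw [f1, f2]
      refine ⟨floor_mem 2 (by positivity) c1 (by push_cast; exact c2),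
        floor_mem 3 (by positivity) c3 (by push_cast; exact c4)⟩
    · intro p _ p' _ h
      have h1 := (Prod.ext_iff.1 h).1
      have h2 := (Prod.ext_iff.1 h).2
      simp only [Nat.cast_inj] at h1 h2
      exact Prod.ext h1 h2
  · intro x hx x' hx' hxx
    unfold Fb
    apply Finset.card_le_card
    intro s hs
    simp only [Finset.mem_image, Finset.mem_filter, Finset.mem_product] at hs
    obtain ⟨⟨y, y'⟩, ⟨⟨hy, hy'⟩, h0, h1, h2⟩, rfl⟩ := hs
    simp only at hy hy' h0 h1 h2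
    unfold sol
    rw [Finset.mem_filter, Finset.mem_product]
    refine ⟨⟨Finset.mem_image_of_mem _ hy, Finset.mem_image_of_mem _ hy'⟩, ?_⟩
    simp only
    have g0 := fl_near hq le_rfl h0
    have g0' := fl_near hq le_rfl hxx
    have g1 := frame hθ hb1 (fl_near hq hb1 h1)
    have g2 := frame hθ hb2 (fl_near hq hb2 h2)
    obtain ⟨k1, k2⟩ := cr_bounds hθ hθ1 hβ1 hβ1'
    obtain ⟨l1, l2⟩ := cr_bounds hθ hθ1 hβ2 hβ2'
    set c1 := cr θ β1 with hc1
    set c2 := cr θ β2 with hc2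
    have hc1p : 0 < c1 := by linarith
    have hκ : c2 / c1 ≤ 4 := by rw [div_le_iff₀ hc1p]; linarith
    have hκ0 : 0 ≤ c2 / c1 := by
      have : 0 < c2 := by linarith
      positivity
    have e0 : ∀ v : ℕ × ℕ, pr 0 v = (v.1 : ℝ) := by intro v; unfold pr; ring
    rw [e0, e0] at g0 g0'
    obtain ⟨ty1, ty2⟩ := ta_bounds θ q i y
    obtain ⟨ty1', ty2'⟩ := ta_bounds θ q i y'
    obtain ⟨tx1, tx2⟩ := ta_bounds θ q i x
    obtain ⟨tx1', tx2'⟩ := ta_bounds θ q i x'
    set τy : ℝ := (y.2 : ℝ) - θ * (y.1 : ℝ) with hτy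
    set τy' : ℝ := (y'.2 : ℝ) - θ * (y'.1 : ℝ) with hτy'
    set τx : ℝ := (x.2 : ℝ) - θ * (x.1 : ℝ) with hτx
    set τx' : ℝ := (x'.2 : ℝ) - θ * (x'.1 : ℝ) with hτx'
    set R : ℝ := (q : ℝ) ^ i with hRdef
    have m1 : |c1 * (τy - τx) - c2 * (τy' - τx')| ≤ 4 * R := by
      rw [abs_le] at g0 g0' g1 g2 ⊢
      constructor <;> linarith [g0.1, g0.2, g0'.1, g0'.2, g1.1, g1.2, g2.1, g2.2]
    have m2 : |(τy - τx) / R - (c2 / c1) * ((τy' - τx') / R)| ≤ 16 := by
      have e : (τy - τx) / R - (c2 / c1) * ((τy' - τx') / R) =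
          (c1 * (τy - τx) - c2 * (τy' - τx')) / (c1 * R) := by
        field_simp
      rw [e, abs_div, abs_of_pos (by positivity : 0 < c1 * R), div_le_iff₀ (by positivity)]
      nlinarith [m1]
    rw [sub_div τy τx, sub_div τy' τx'] at m2
    set Y := ((ta θ q i y : ℤ) : ℝ)
    set Y' := ((ta θ q i y' : ℤ) : ℝ)
    set U := ((ta θ q i x : ℤ) : ℝ)
    set U' := ((ta θ q i x' : ℤ) : ℝ)
    have d1 : |((τy' / R - τx' / R) - (Y' - U'))| ≤ 1 := by
      rw [abs_le]; constructor <;> linarith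
    have d2 : |(c2 / c1) * ((τy' / R - τx' / R) - (Y' - U'))| ≤ 4 := by
      rw [abs_mul, abs_of_nonneg hκ0]
      calc c2 / c1 * |((τy' / R - τx' / R) - (Y' - U'))| ≤ 4 * 1 :=
            mul_le_mul hκ d1 (abs_nonneg _) (by norm_num)
        _ = 4 := by norm_num
    have e3 : (Y - U) - (c2 / c1) * (Y' - U') =
        (τy / R - τx / R - (c2 / c1) * (τy' / R - τx' / R)) +
        ((c2 / c1) * ((τy' / R - τx' / R) - (Y' - U'))) + ((Y - U) - (τy / R - τx / R)) := by
      ring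
    rw [e3]
    rw [abs_le] at m2 d2 ⊢
    constructor <;> linarith [m2.1, m2.2, d2.1, d2.2]

end Pool.Agent.Lib.MP_d0a18a_nt.ZP
end

section
/-! Module VAR: the logarithm of the ratio is nearly constant on the cells. -/
set_option autoImplicit false

namespace Pool.Agent.Lib.MP_d0a18a_nt.ZP

open Finset

namespace VARM

theorem mem_cls {α γ : Type} (X : Finset α) (g : α → γ) (x y : α) :
    y ∈ cls X g x ↔ y ∈ X ∧ g y = g x := by
  unfold cls
  simp

theorem yw_ne_nil {N : ℕ} (ω : Fin N → Word) : yw ω ≠ [] := by simp [yw]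

/-- two sequences in the same cell -/
theorem be_cell (hCEL : SpecCEL) {W : Finset Word} {L d : ℝ} (hc : Code W L d) {N : ℕ} {S : ℝ}
    {ω ω' : Fin N → Word} (hω : ω ∈ Bl W N) (hω' : ω' ∈ Bl W N) (hS : 1 ≤ S)
    (hSN : S ≤ (L ^ N) ^ 2) (h : cel S ω' = cel S ω) : |be (yw ω') - be (yw ω)| ≤ 1 / S := by
  obtain ⟨_, i, hi, hSi, _, hiff⟩ := hCEL W L d hc N S ω hω hS hSN
  have h1 := (hiff ω' hω').1 h
  have h2 : bw ω' i = bw ω i := CELM.bw_congr ω ω' i i hi le_rfl h1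
  have h3 : yw ω' = bw ω i ++ (((List.ofFn ω').drop i).flatten ++ [true]) := by
    unfold yw
    rw [CELM.bw_split ω' i, h2, List.append_assoc]
  have h4 : yw ω = bw ω i ++ (((List.ofFn ω).drop i).flatten ++ [true]) := by
    unfold yw
    rw [CELM.bw_split ω i, List.append_assoc]
  rw [h3, h4]
  refine (be_near _ _ _).trans ?_
  exact one_div_le_one_div_of_le (by linarith) hSi

end VARM

open VARM in
open Classical in
theorem specVAR (hCEL : SpecCEL) (hDCN : SpecDCN) : SpecVAR := by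
  intro W L d hcode
  obtain ⟨C, hC1, hD⟩ := hDCN
  refine ⟨4 * C + 2, by linarith, ?_⟩
  intro M N D S θ hM hDith hS hSN hθ0 hθ1 x hx
  have hxm : x.1 < M ∧ x.2.1 ∈ Bl W N ∧ x.2.2 ∈ Bl W N := by
    simpa [Om, Finset.mem_product] using hx
  have hK0 : (0 : ℝ) < (K (D 0) : ℝ) := by exact_mod_cast K_pos _
  set Q : ℝ := (K (D 0) : ℝ) ^ 2 * S with hQ
  have hQ0 : 0 < Q := by positivity
  set a : ℝ := (lm θ D x + 4) * Q with ha
  -- the values
  have hval : ∀ x' ∈ cls (Om M N W) (gS S) x, |(lm θ D x' + 4) * Q - a| ≤ 2 * C := by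
    intro x' hx'
    have hx1 := ((mem_cls _ _ _ _).1 hx').1
    have hx2 := ((mem_cls _ _ _ _).1 hx').2
    have hxm' : x'.1 < M ∧ x'.2.1 ∈ Bl W N ∧ x'.2.2 ∈ Bl W N := by
      simpa [Om, Finset.mem_product] using hx1
    simp only [gS, Prod.mk.injEq] at hx2
    obtain ⟨e1, e2, e3⟩ := hx2
    have b1 := be_cell hCEL hcode hxm.2.1 hxm'.2.1 hS hSN e2
    have b2 := be_cell hCEL hcode hxm.2.2 hxm'.2.2 hS hSN e3
    have d1 := ((hD M D hM hDith θ (yw x'.2.1) (yw x.2.1) hθ0 hθ1 (yw_ne_nil _)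
      (yw_ne_nil _)).1 x.1 hxm.1.le).2
    have d2 := ((hD M D hM hDith θ (yw x'.2.2) (yw x.2.2) hθ0 hθ1 (yw_ne_nil _)
      (yw_ne_nil _)).1 0 (Nat.zero_le _)).2
    have c1 : ∀ t : ℝ, t ≤ 1 / S → C * t / (K (D 0) : ℝ) ^ 2 ≤ C / Q := by
      intro t ht
      rw [hQ, div_le_div_iff₀ (by positivity) (by positivity)]
      have h5 : t * S ≤ 1 := by
        rw [le_div_iff₀ (by linarith)] at ht
        exact ht
      have h6 : (0 : ℝ) < (K (D 0) : ℝ) ^ 2 := by positivity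
      have h7 : C * (t * S) ≤ C * 1 := mul_le_mul_of_nonneg_left h5 (by linarith)
      nlinarith
    have g1 := d1.trans (c1 _ b1)
    have g2 := d2.trans (c1 _ b2)
    have h8 : |lm θ D x' - lm θ D x| ≤ 2 * C / Q := by
      have h9 : lm θ D x' - lm θ D x =
          (lg θ (D 0 ++ yw x'.2.2) - lg θ (D 0 ++ yw x.2.2)) -
          (lg θ (D x.1 ++ yw x'.2.1) - lg θ (D x.1 ++ yw x.2.1)) := by
        simp only [lm, w1, w2, e1]
        ring
      rw [h9]
      refine (abs_sub _ _).trans ?_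
      have h10 : 2 * C / Q = C / Q + C / Q := by ring
      rw [h10]
      exact add_le_add g2 g1
    have h11 : (lm θ D x' + 4) * Q - a = (lm θ D x' - lm θ D x) * Q := by rw [ha]; ring
    rw [h11, abs_mul, abs_of_pos hQ0]
    rwa [le_div_iff₀ hQ0] at h8
  -- the number of floors
  have hsub : (cls (Om M N W) (gS S) x).image (fS θ D S) ⊆
      Finset.Icc ⌊a - 2 * C⌋₊ ⌊a + 2 * C⌋₊ := by
    intro m hm
    obtain ⟨x', hx', rfl⟩ := Finset.mem_image.1 hm
    have h1 := abs_le.1 (hval x' hx')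
    rw [Finset.mem_Icc]
    unfold fS
    constructor
    · exact Nat.floor_le_floor (by linarith [h1.1])
    · exact Nat.floor_le_floor (by linarith [h1.2])
  have hcard := Finset.card_le_card hsub
  rw [Nat.card_Icc] at hcard
  have h12 : ((((cls (Om M N W) (gS S) x).image (fS θ D S)).card : ℕ) : ℝ) ≤
      ((⌊a + 2 * C⌋₊ + 1 - ⌊a - 2 * C⌋₊ : ℕ) : ℝ) := by exact_mod_cast hcard
  refine h12.trans ?_
  have h13 : ⌊a - 2 * C⌋₊ ≤ ⌊a + 2 * C⌋₊ + 1 :=
    (Nat.floor_le_floor (by linarith)).trans (Nat.le_succ _)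
  rw [Nat.cast_sub h13]
  push_cast
  have h14 : a - 2 * C < (⌊a - 2 * C⌋₊ : ℝ) + 1 := Nat.lt_floor_add_one _
  have h15 : (0 : ℝ) ≤ (⌊a - 2 * C⌋₊ : ℝ) := Nat.cast_nonneg _
  rcases le_or_gt 0 (a + 2 * C) with h16 | h16
  · have h17 := Nat.floor_le h16
    linarith
  · have h17 : ⌊a + 2 * C⌋₊ = 0 := Nat.floor_of_nonpos h16.le
    rw [h17]
    push_cast
    linarith

end Pool.Agent.Lib.MP_d0a18a_nt.ZP
end
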