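import Pool.Agent.Lib.MP_d0a18a_nt.ZP.Spec
import Pool.Agent.Lib.MP_d0a18a_nt.ZP.Spec2

section
set_option autoImplicit false

namespace Pool.Agent.Lib.MP_d0a18a_nt.ZP

namespace CLUM

theorem diverge : ∀ (s t : Word), ¬ s <+: t → ¬ t <+: s →
    ∃ (p : Word) (a b : Bool) (r r' : Word), a ≠ b ∧ s = p ++ a :: r ∧ t = p ++ b :: r' := by
  intro s
  induction s with
  | nil => intro t h _; exact absurd (List.nil_prefix) h
  | cons x s ih =>
    intro t h h'
    cases t with
    | nil => exact absurd (List.nil_prefix) h'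
    | cons y t =>
      by_cases hxy : x = y
      · subst hxy
        have h1 : ¬ s <+: t := fun hh => h (by rw [List.cons_prefix_cons]; exact ⟨rfl, hh⟩)
        have h2 : ¬ t <+: s := fun hh => h' (by rw [List.cons_prefix_cons]; exact ⟨rfl, hh⟩)
        obtain ⟨p, a, b, r, r', hab, e1, e2⟩ := ih t h1 h2
        exact ⟨x :: p, a, b, r, r', hab, by rw [e1]; rfl, by rw [e2]; rfl⟩
      · exact ⟨[], x, y, s, t, hxy, rfl, rfl⟩

end CLUM

open CLUM in
theorem specCLU : SpecCLU := by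
  classical
  intro S ext B ω hω hpf hB hlast hclose
  by_cases hcard : S.card ≤ 1
  · have h1 : (S.card : ℝ) ≤ 1 := by exact_mod_cast hcard
    have h2 : (0 : ℝ) ≤ (A (8 * B * Real.sqrt ω) : ℝ) := Nat.cast_nonneg _
    linarith
  push Not at hcard
  obtain ⟨s0, hs0, s1, hs1, hne⟩ := Finset.one_lt_card.1 hcard
  have hsq : 0 < Real.sqrt ω := Real.sqrt_pos.2 hω
  set κ : ℝ := 1 / (8 * Real.sqrt ω) with hκ
  have hκpos : 0 < κ := by positivity
  -- the common beginning has large continuant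
  have hcommon : ∀ s ∈ S, s ≠ s0 → ∃ p : Word, κ ≤ (K p : ℝ) ∧ p <+: s0 ∧ p <+: s := by
    intro s hs hss
    have n1 : ¬ s <+: s0 := fun h => hss (hpf s hs s0 hs0 h)
    have n2 : ¬ s0 <+: s := fun h => hss (hpf s0 hs0 s hs h).symm
    obtain ⟨p, a, b, r, r', hab, e1, e2⟩ := diverge s s0 n1 n2
    refine ⟨p, ?_, ⟨b :: r', e2.symm⟩, ⟨a :: r, e1.symm⟩⟩
    have hl1 := hlast s hs
    have hl2 := hlast s0 hs0
    have hc := hclose s hs s0 hs0
    have f1 : s ++ ext s = p ++ a :: (r ++ ext s) := by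
      have h : (p ++ a :: r) ++ ext s = p ++ a :: (r ++ ext s) := by simp
      rw [← h, ← e1]
    have f2 : s0 ++ ext s0 = p ++ b :: (r' ++ ext s0) := by
      have h : (p ++ b :: r') ++ ext s0 = p ++ b :: (r' ++ ext s0) := by simp
      rw [← h, ← e2]
    rw [f1] at hl1 hc
    rw [f2] at hl2 hc
    have g1 : (a :: (r ++ ext s)).getLast? = some true := by
      rw [List.getLast?_append_of_ne_nil _ (by simp)] at hl1
      exact hl1
    have g2 : (b :: (r' ++ ext s0)).getLast? = some true := by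
      rw [List.getLast?_append_of_ne_nil _ (by simp)] at hl2
      exact hl2
    have hfar := be_far p _ _ a b hab g1 g2
    have hK : (0 : ℝ) < (K p : ℝ) := by exact_mod_cast K_pos p
    have h3 := hfar.trans hc
    rw [div_le_iff₀ (by positivity)] at h3
    have h4 : ω = Real.sqrt ω ^ 2 := (Real.sq_sqrt hω.le).symm
    rw [hκ, div_le_iff₀ (by positivity)]
    by_contra hcon
    push Not at hcon
    have h5 : (0 : ℝ) ≤ (K p : ℝ) * (8 * Real.sqrt ω) := by positivity
    have h6 : ((K p : ℝ) * (8 * Real.sqrt ω)) ^ 2 < 1 := by nlinarith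
    rw [h4] at h3
    nlinarith
  -- shortest beginning
  obtain ⟨p1, hp1, hp1s, _⟩ := hcommon s1 hs1 (Ne.symm hne)
  have hex : ∃ n : ℕ, κ ≤ (K (s0.take n) : ℝ) := by
    refine ⟨p1.length, ?_⟩
    rw [List.prefix_iff_eq_take] at hp1s
    rw [← hp1s]; exact hp1
  let n0 := Nat.find hex
  have hn0 : κ ≤ (K (s0.take n0) : ℝ) := Nat.find_spec hex
  set p0 := s0.take n0 with hp0
  have hpre : ∀ s ∈ S, p0 <+: s := by
    intro s hs
    by_cases h : s = s0
    · rw [h]; exact List.take_prefix _ _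
    · obtain ⟨p, hp, hps0, hps⟩ := hcommon s hs h
      have h1 : κ ≤ (K (s0.take p.length) : ℝ) := by
        rw [List.prefix_iff_eq_take] at hps0
        rw [← hps0]; exact hp
      have h2 : n0 ≤ p.length := Nat.find_min' hex h1
      have h3 : p0 <+: p := by
        rw [List.prefix_iff_eq_take] at hps0
        rw [hps0, hp0]
        exact List.take_prefix_take_left h2
      exact h3.trans hps
  have hinj : Set.InjOn (fun s : Word => s.drop p0.length) (S : Set Word) := by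
    intro s hs t ht h
    obtain ⟨a, ha⟩ := hpre s hs
    obtain ⟨b, hb⟩ := hpre t ht
    simp only at h
    rw [← ha, ← hb, List.drop_left, List.drop_left] at h
    rw [← ha, ← hb, h]
  have hmaps : ∀ s ∈ (S : Set Word), (fun s : Word => s.drop p0.length) s ∈
      {w : Word | (K w : ℝ) ≤ 8 * B * Real.sqrt ω} := by
    intro s hs
    obtain ⟨a, ha⟩ := hpre s hs
    have h1 := hB s hs
    show (K (s.drop p0.length) : ℝ) ≤ 8 * B * Real.sqrt ω
    rw [← ha, List.drop_left]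
    rw [← ha] at h1
    have h2 : (K p0 : ℝ) * K a ≤ K (p0 ++ a) := by exact_mod_cast K_mul_le p0 a
    have h3 : κ * (K a : ℝ) ≤ B := by
      have : κ * (K a : ℝ) ≤ (K p0 : ℝ) * K a := mul_le_mul_of_nonneg_right hn0 (Nat.cast_nonneg _)
      linarith
    rw [hκ, div_mul_eq_mul_div, div_le_iff₀ (by positivity)] at h3
    linarith
  have hfin := Set.ncard_le_ncard_of_injOn _ hmaps hinj (finite_K_le _)
  rw [Set.ncard_coe_finset] at hfin
  have h7 : (S.card : ℝ) ≤ (A (8 * B * Real.sqrt ω) : ℝ) := by exact_mod_cast hfin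
  linarith

end Pool.Agent.Lib.MP_d0a18a_nt.ZP
end

section
set_option autoImplicit false

namespace Pool.Agent.Lib.MP_d0a18a_nt.ZP

theorem specCNT (hEXI : SpecEXI) (hCRB : SpecCRB) : SpecCNT := by
  obtain ⟨δ, c, C, h⟩ := hEXI
  refine ⟨δ, c, C, h, ?_⟩
  obtain ⟨hc, hC, hA⟩ := h
  obtain ⟨c', hc', hB⟩ := hCRB
  by_contra hlt
  rw [not_le] at hlt
  have he : 0 < (69 / 65 : ℝ) - 2 * δ := by linarith
  -- for all L ≥ 2: c' L^(69/65 - 2 δ) ≤ C
  have h1 : ∀ L : ℝ, 2 ≤ L → c' * L ^ ((69 / 65 : ℝ) - 2 * δ) ≤ C := by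
    intro L hL
    have hL0 : 0 < L := by linarith
    have h2 := (hB L hL).trans (hA L (by linarith)).2
    have h3 : (0 : ℝ) < L ^ (2 * δ) := Real.rpow_pos_of_pos hL0 _
    rw [Real.rpow_sub hL0, ← mul_div_assoc, div_le_iff₀ h3]
    exact h2
  have h2 := tendsto_rpow_atTop he
  obtain ⟨L, hL1, hL2⟩ := ((h2.eventually_gt_atTop (C / c')).and
    (Filter.eventually_ge_atTop (2 : ℝ))).exists
  have h3 := h1 L hL2
  rw [div_lt_iff₀ hc'] at hL1
  linarith

end Pool.Agent.Lib.MP_d0a18a_nt.ZP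
end

section
/-!
# CRA: the sub-solution of the transfer inequality
-/
set_option autoImplicit false

namespace Pool.Agent.Lib.MP_d0a18a_nt.ZP
namespace CRAM

/-- rational lower bound of `y ^ (-69/65)` -/
lemma low (y t k : ℝ) (ht : 0 < t) (hy : 0 < y) (hk0 : 0 ≤ k) (hk : k ^ 65 * t ^ 69 ≤ 1)
    (hl : 0 ≤ t - 4 / 65 * (y - t)) : k * (t - 4 / 65 * (y - t)) / y ≤ y ^ (-(69 / 65) : ℝ) := by
  have h1 : k ≤ t ^ (-(69 / 65) : ℝ) := by
    have h2 : (t ^ (-(69 / 65) : ℝ)) ^ 65 = (t ^ 69)⁻¹ := by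
      rw [← Real.rpow_natCast, ← Real.rpow_mul ht.le, ← Real.rpow_natCast t 69, ← Real.rpow_neg ht.le]
      norm_num
    refine le_of_pow_le_pow_left₀ (n := 65) (by norm_num) (Real.rpow_nonneg ht.le _) ?_
    rw [h2, ← one_div, le_div_iff₀ (by positivity)]
    exact hk
  set z : ℝ := y / t with hz
  have hz0 : 0 < z := by positivity
  have hyz : y = t * z := by rw [hz]; field_simp
  have h3 : z ^ (4 / 65 : ℝ) ≤ 1 + 4 / 65 * (z - 1) := by
    have := rpow_one_add_le_one_add_mul_self (s := z - 1) (by linarith) (p := 4 / 65)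
      (by norm_num) (by norm_num)
    simpa using this
  have h4 : 1 - 4 / 65 * (z - 1) ≤ z ^ (-(4 / 65) : ℝ) := by
    rw [Real.rpow_neg hz0.le, ← one_div, le_div_iff₀ (by positivity)]
    have h5 : 0 ≤ 1 - 4 / 65 * (z - 1) := by
      have : 1 - 4 / 65 * (z - 1) = (t - 4 / 65 * (y - t)) / t := by rw [hz]; field_simp
      rw [this]
      positivity
    have h6 := mul_le_mul_of_nonneg_left h3 h5
    nlinarith [sq_nonneg (z - 1)]
  have h7 : z ^ (-(69 / 65) : ℝ) = z⁻¹ * z ^ (-(4 / 65) : ℝ) := by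
    rw [← Real.rpow_neg_one, ← Real.rpow_add hz0]
    norm_num
  have h8 : y ^ (-(69 / 65) : ℝ) = t ^ (-(69 / 65) : ℝ) * z ^ (-(69 / 65) : ℝ) := by
    rw [hyz, Real.mul_rpow ht.le hz0.le]
  rw [h8, h7]
  have h9 : k * (t - 4 / 65 * (y - t)) / y = k * (z⁻¹ * (1 - 4 / 65 * (z - 1))) := by
    rw [hz]
    field_simp
  rw [h9]
  have h10 : 0 ≤ z⁻¹ * z ^ (-(4 / 65) : ℝ) := by positivity
  calc k * (z⁻¹ * (1 - 4 / 65 * (z - 1))) ≤ k * (z⁻¹ * z ^ (-(4 / 65) : ℝ)) := by
        apply mul_le_mul_of_nonneg_left _ hk0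
        exact mul_le_mul_of_nonneg_left h4 (by positivity)
    _ ≤ t ^ (-(69 / 65) : ℝ) * (z⁻¹ * z ^ (-(4 / 65) : ℝ)) := mul_le_mul_of_nonneg_right h1 h10

lemma posA (x : ℝ) (h1 : 1 / 3 ≤ x) (h2 : x ≤ 27 / 50) :
    0 ≤ (68407 / 100000) * (143 / 100 - 4 / 65 * (1 + x - 143 / 100)) * ((1 + x) ^ 2 - 321 / 625 * (1 + x) + 98 / 625) * (2 + x) ^ 3
      + (9741 / 25000) * (243 / 100 - 4 / 65 * (2 + x - 243 / 100)) * ((2 + x) ^ 2 - 321 / 625 * (2 + x) + 98 / 625) * (1 + x) ^ 3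
      - (1 - 321 / 625 * x + 98 / 625 * x ^ 2) * ((1 + x) ^ 3 * (2 + x) ^ 3) := by
  have a1 : 0 ≤ x - (1 / 3) := by linarith
  have a2 : 0 ≤ (27 / 50) - x := by linarith
  have key : (68407 / 100000) * (143 / 100 - 4 / 65 * (1 + x - 143 / 100)) * ((1 + x) ^ 2 - 321 / 625 * (1 + x) + 98 / 625) * (2 + x) ^ 3
      + (9741 / 25000) * (243 / 100 - 4 / 65 * (2 + x - 243 / 100)) * ((2 + x) ^ 2 - 321 / 625 * (2 + x) + 98 / 625) * (1 + x) ^ 3
      - (1 - 321 / 625 * x + 98 / 625 * x ^ 2) * ((1 + x) ^ 3 * (2 + x) ^ 3)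
      = (64560600139367500 / 11087583486733) * ((x - (1 / 3)) ^ 0 * ((27 / 50) - x) ^ 8) + (415372095493321725 / 11087583486733) * ((x - (1 / 3)) ^ 1 * ((27 / 50) - x) ^ 7) + (1223628017382564345 / 11087583486733) * ((x - (1 / 3)) ^ 2 * ((27 / 50) - x) ^ 6) + (112555827294867380583 / 554379174336650) * ((x - (1 / 3)) ^ 3 * ((27 / 50) - x) ^ 5) + (7248641348154587897439 / 27718958716832500) * ((x - (1 / 3)) ^ 4 * ((27 / 50) - x) ^ 4) + (26289258255353071263861 / 110875834867330000) * ((x - (1 / 3)) ^ 5 * ((27 / 50) - x) ^ 3) + (15608102654377096547247 / 110875834867330000) * ((x - (1 / 3)) ^ 6 * ((27 / 50) - x) ^ 2) + (1055328260446804384827 / 22175166973466000) * ((x - (1 / 3)) ^ 7 * ((27 / 50) - x) ^ 1) + (746214363948112770249 / 110875834867330000) * ((x - (1 / 3)) ^ 8 * ((27 / 50) - x) ^ 0) := by ring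
  rw [key]
  positivity

lemma posB (x : ℝ) (h1 : 27 / 50 ≤ x) (h2 : x ≤ 3 / 4) :
    0 ≤ (59147 / 100000) * (41 / 25 - 4 / 65 * (1 + x - 41 / 25)) * ((1 + x) ^ 2 - 321 / 625 * (1 + x) + 98 / 625) * (2 + x) ^ 3
      + (17841 / 50000) * (66 / 25 - 4 / 65 * (2 + x - 66 / 25)) * ((2 + x) ^ 2 - 321 / 625 * (2 + x) + 98 / 625) * (1 + x) ^ 3
      - (1 - 321 / 625 * x + 98 / 625 * x ^ 2) * ((1 + x) ^ 3 * (2 + x) ^ 3) := by
  have a1 : 0 ≤ x - (27 / 50) := by linarith
  have a2 : 0 ≤ (3 / 4) - x := by linarith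
  have key : (59147 / 100000) * (41 / 25 - 4 / 65 * (1 + x - 41 / 25)) * ((1 + x) ^ 2 - 321 / 625 * (1 + x) + 98 / 625) * (2 + x) ^ 3
      + (17841 / 50000) * (66 / 25 - 4 / 65 * (2 + x - 66 / 25)) * ((2 + x) ^ 2 - 321 / 625 * (2 + x) + 98 / 625) * (1 + x) ^ 3
      - (1 - 321 / 625 * x + 98 / 625 * x ^ 2) * ((1 + x) ^ 3 * (2 + x) ^ 3)
      = (283089827849126848 / 43901533186875) * ((x - (27 / 50)) ^ 0 * ((3 / 4) - x) ^ 8) + (231838727796850592 / 3377041014375) * ((x - (27 / 50)) ^ 1 * ((3 / 4) - x) ^ 7) + (1899208449210253984 / 6271647598125) * ((x - (27 / 50)) ^ 2 * ((3 / 4) - x) ^ 6) + (648619429629956912 / 895949656875) * ((x - (27 / 50)) ^ 3 * ((3 / 4) - x) ^ 5) + (915982977315306604 / 895949656875) * ((x - (27 / 50)) ^ 4 * ((3 / 4) - x) ^ 4) + (216602957346731318 / 250865903925) * ((x - (27 / 50)) ^ 5 * ((3 / 4) - x) ^ 3) + (4156204089145336 / 10034636157) * ((x - (27 / 50)) ^ 6 * ((3 / 4) - x) ^ 2) + (6727930353723350 / 70242453099)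 * ((x - (27 / 50)) ^ 7 * ((3 / 4) - x) ^ 1) + (420183816703750 / 70242453099) * ((x - (27 / 50)) ^ 8 * ((3 / 4) - x) ^ 0) := by ring
  rw [key]
  positivity

/-- from the polynomial inequality to the powers -/
lemma main (x t1 t2 k1 k2 : ℝ) (hx0 : 1 / 3 ≤ x) (hx1 : x ≤ 3 / 4) (ht1 : 1 ≤ t1) (ht2 : 1 ≤ t2)
    (h1 : 0 ≤ k1) (h2 : 0 ≤ k2) (hk1 : k1 ^ 65 * t1 ^ 69 ≤ 1) (hk2 : k2 ^ 65 * t2 ^ 69 ≤ 1)
    (hp : 0 ≤ k1 * (t1 - 4 / 65 * (1 + x - t1)) * ((1 + x) ^ 2 - 321 / 625 * (1 + x) + 98 / 625) * (2 + x) ^ 3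
      + k2 * (t2 - 4 / 65 * (2 + x - t2)) * ((2 + x) ^ 2 - 321 / 625 * (2 + x) + 98 / 625) * (1 + x) ^ 3
      - (1 - 321 / 625 * x + 98 / 625 * x ^ 2) * ((1 + x) ^ 3 * (2 + x) ^ 3)) :
    1 - 321 / 625 * x + 98 / 625 * x ^ 2 ≤
      (1 + x) ^ (-(69 / 65) : ℝ) * (1 - 321 / 625 * (1 / (1 + x)) + 98 / 625 * (1 / (1 + x)) ^ 2)
      + (2 + x) ^ (-(69 / 65) : ℝ) * (1 - 321 / 625 * (1 / (2 + x)) + 98 / 625 * (1 / (2 + x)) ^ 2) := by
  have e1 := low (1 + x) t1 k1 (by linarith) (by linarith) h1 hk1 (by linarith)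
  have e2 := low (2 + x) t2 k2 (by linarith) (by linarith) h2 hk2 (by linarith)
  have p1 : 0 < 1 + x := by linarith
  have p2 : 0 < 2 + x := by linarith
  have g1 : 0 ≤ 1 - 321 / 625 * (1 / (1 + x)) + 98 / 625 * (1 / (1 + x)) ^ 2 := by
    have : 1 / (1 + x) ≤ 1 := by rw [div_le_one p1]; linarith
    nlinarith [sq_nonneg (1 / (1 + x))]
  have g2 : 0 ≤ 1 - 321 / 625 * (1 / (2 + x)) + 98 / 625 * (1 / (2 + x)) ^ 2 := by
    have : 1 / (2 + x) ≤ 1 := by rw [div_le_one p2]; linarith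
    nlinarith [sq_nonneg (1 / (2 + x))]
  have f1 := mul_le_mul_of_nonneg_right e1 g1
  have f2 := mul_le_mul_of_nonneg_right e2 g2
  refine le_trans ?_ (add_le_add f1 f2)
  rw [← sub_nonneg]
  have e : k1 * (t1 - 4 / 65 * (1 + x - t1)) / (1 + x) *
        (1 - 321 / 625 * (1 / (1 + x)) + 98 / 625 * (1 / (1 + x)) ^ 2) +
      k2 * (t2 - 4 / 65 * (2 + x - t2)) / (2 + x) *
        (1 - 321 / 625 * (1 / (2 + x)) + 98 / 625 * (1 / (2 + x)) ^ 2) -
      (1 - 321 / 625 * x + 98 / 625 * x ^ 2) =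
      (k1 * (t1 - 4 / 65 * (1 + x - t1)) * ((1 + x) ^ 2 - 321 / 625 * (1 + x) + 98 / 625) * (2 + x) ^ 3
      + k2 * (t2 - 4 / 65 * (2 + x - t2)) * ((2 + x) ^ 2 - 321 / 625 * (2 + x) + 98 / 625) * (1 + x) ^ 3
      - (1 - 321 / 625 * x + 98 / 625 * x ^ 2) * ((1 + x) ^ 3 * (2 + x) ^ 3)) / ((1 + x) ^ 3 * (2 + x) ^ 3) := by
    field_simp
  rw [e]
  positivity

end CRAM

open CRAM in
theorem specCRA : SpecCRA := by
  refine ⟨fun x => 1 - 321 / 625 * x + 98 / 625 * x ^ 2, 7 / 10, 17 / 20, by norm_num, by norm_num, ?_⟩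
  intro x h1 h2
  refine ⟨?_, ?_, ?_⟩
  · show (7 : ℝ) / 10 ≤ 1 - 321 / 625 * x + 98 / 625 * x ^ 2
    nlinarith [mul_nonneg (sub_nonneg.2 h1) (sub_nonneg.2 h2), sq_nonneg (x - 3 / 4)]
  · show 1 - 321 / 625 * x + 98 / 625 * x ^ 2 ≤ (17 : ℝ) / 20
    nlinarith [mul_nonneg (sub_nonneg.2 h1) (sub_nonneg.2 h2)]
  · rcases le_total x (54 / 100) with h | h
    · exact main x (143 / 100) (243 / 100) (68407 / 100000) (38964 / 100000) h1 h2 (by norm_num)
        (by norm_num) (by norm_num) (by norm_num) (by norm_num) (by norm_num)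
        (by have := posA x h1 (by linarith); norm_num at this ⊢; linarith)
    · exact main x (164 / 100) (264 / 100) (59147 / 100000) (35682 / 100000) h1 h2 (by norm_num)
        (by norm_num) (by norm_num) (by norm_num) (by norm_num) (by norm_num)
        (by have := posB x (by linarith) h2; norm_num at this ⊢; linarith)

end Pool.Agent.Lib.MP_d0a18a_nt.ZP
end

section
set_option autoImplicit false

namespace Pool.Agent.Lib.MP_d0a18a_nt.ZP

namespace CRBM

/-- the quotient of the continuant without the last letter by the continuant -/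
noncomputable def xx (w : Word) : ℝ := ((xv w).2 : ℝ) / ((K w : ℕ) : ℝ)

theorem Kpos (w : Word) : (0 : ℝ) < (K w : ℝ) := by exact_mod_cast K_pos w

theorem xx_nonneg (w : Word) : 0 ≤ xx w := by unfold xx; positivity

theorem K_snoc_x (w : Word) (a : Bool) : (K (w ++ [a]) : ℝ) = ((dg a : ℝ) + xx w) * (K w : ℝ) := by
  have h := Kpos w
  rw [K_snoc, xx]
  push_cast
  field_simp

theorem xx_snoc (w : Word) (a : Bool) : xx (w ++ [a]) = 1 / ((dg a : ℝ) + xx w) := by
  have h := Kpos w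
  have h2 := K_snoc_x w a
  have h3 : (0 : ℝ) < (dg a : ℝ) + xx w := by
    have : (1 : ℝ) ≤ dg a := by exact_mod_cast dg_pos a
    linarith [xx_nonneg w]
  have h4 : ((xv (w ++ [a])).2 : ℝ) = (K w : ℝ) := by rw [xv_snoc]; rfl
  rw [xx, h2, h4]
  field_simp

/-- good words -/
def Good (w : Word) : Prop := 1 / 3 ≤ xx w ∧ xx w ≤ 3 / 4

theorem good_snoc (w : Word) (a : Bool) (h : Good w) : Good (w ++ [a]) := by
  obtain ⟨h1, h2⟩ := h
  unfold Good
  rw [xx_snoc]
  have h3 : (1 : ℝ) ≤ dg a := by exact_mod_cast dg_pos a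
  have h4 : (dg a : ℝ) ≤ 2 := by exact_mod_cast dg_le a
  constructor
  · rw [div_le_div_iff₀ (by norm_num) (by linarith)]; linarith
  · rw [div_le_div_iff₀ (by linarith) (by norm_num)]; linarith

theorem good_true : Good [true] := by
  have : xx [true] = 1 / 2 := by
    have h := xx_snoc [] true
    have h0 : xx [] = 0 := by simp [xx, xv_nil]
    rw [List.nil_append, h0] at h
    rw [h, dg_true]
    norm_num
  unfold Good
  rw [this]
  norm_num

theorem K_true : K [true] = 2 := by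
  have := K_snoc [] true
  simpa [K_nil, xv_nil, dg_true] using this

/-- the continuations that stay below `L` -/
def S (L : ℝ) (w : Word) : Set Word := {u | (K (w ++ u) : ℝ) ≤ L}

theorem S_sub (L : ℝ) (w : Word) : S L w ⊆ {u : Word | (K u : ℝ) ≤ L} := by
  intro u hu
  have h : (K u : ℝ) ≤ K (w ++ u) := by exact_mod_cast K_le_append_right w u
  exact h.trans hu

theorem S_fin (L : ℝ) (w : Word) : (S L w).Finite := (finite_K_le L).subset (S_sub L w)

theorem card_step (L : ℝ) (w : Word) (h : (K w : ℝ) ≤ L) :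
    1 + (S L (w ++ [false])).ncard + (S L (w ++ [true])).ncard ≤ (S L w).ncard := by
  classical
  have inj : ∀ a : Bool, Function.Injective (fun u : Word => a :: u) :=
    fun a => List.cons_injective
  have e0 : ({[]} : Set Word).ncard = 1 := Set.ncard_singleton _
  have e1 : ((fun u : Word => false :: u) '' (S L (w ++ [false]))).ncard
      = (S L (w ++ [false])).ncard := Set.ncard_image_of_injective _ (inj false)
  have e2 : ((fun u : Word => true :: u) '' (S L (w ++ [true]))).ncard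
      = (S L (w ++ [true])).ncard := Set.ncard_image_of_injective _ (inj true)
  have f1 : ((fun u : Word => false :: u) '' (S L (w ++ [false]))).Finite := (S_fin L _).image _
  have f2 : ((fun u : Word => true :: u) '' (S L (w ++ [true]))).Finite := (S_fin L _).image _
  have d1 : Disjoint ({[]} : Set Word) ((fun u : Word => false :: u) '' (S L (w ++ [false]))) := by
    rw [Set.disjoint_singleton_left]
    rintro ⟨u, _, hu⟩
    exact List.cons_ne_nil _ _ hu
  have d2 : Disjoint ({[]} ∪ ((fun u : Word => false :: u) '' (S L (w ++ [false]))))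
      ((fun u : Word => true :: u) '' (S L (w ++ [true]))) := by
    rw [Set.disjoint_left]
    rintro u hu ⟨v, _, rfl⟩
    rcases hu with hu | ⟨v', _, hv'⟩
    · exact List.cons_ne_nil _ _ hu
    · have := (List.cons.inj hv').1
      exact Bool.false_ne_true this
  have hsub : ({[]} ∪ ((fun u : Word => false :: u) '' (S L (w ++ [false])))) ∪
      ((fun u : Word => true :: u) '' (S L (w ++ [true]))) ⊆ S L w := by
    rintro u ((hu | ⟨v, hv, rfl⟩) | ⟨v, hv, rfl⟩)
    · rw [Set.mem_singleton_iff] at hu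
      subst hu
      simpa [S] using h
    · have : w ++ [false] ++ v = w ++ false :: v := by simp
      unfold S at hv ⊢
      rw [Set.mem_setOf_eq, this] at hv
      exact hv
    · have : w ++ [true] ++ v = w ++ true :: v := by simp
      unfold S at hv ⊢
      rw [Set.mem_setOf_eq, this] at hv
      exact hv
  have hc := Set.ncard_le_ncard hsub (S_fin L w)
  rw [Set.ncard_union_eq d2 ((Set.finite_singleton _).union f1) f2,
    Set.ncard_union_eq d1 (Set.finite_singleton _) f1, e0, e1, e2] at hc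
  exact hc

end CRBM

open CRBM in
theorem specCRB (hCRA : SpecCRA) : SpecCRB := by
  obtain ⟨g, m, M, hm, hM, H⟩ := hCRA
  set p : ℝ := 69 / 65 with hp
  have hp0 : 0 < p := by rw [hp]; norm_num
  -- the potential
  let h : Word → ℝ := fun w => (K w : ℝ) ^ (-p) * g (xx w)
  have hstep : ∀ w, Good w → h w ≤ h (w ++ [false]) + h (w ++ [true]) := by
    intro w hw
    have hK := Kpos w
    obtain ⟨_, _, h3⟩ := H (xx w) hw.1 hw.2
    have hx := xx_nonneg w
    show (K w : ℝ) ^ (-p) * g (xx w) ≤ (K (w ++ [false]) : ℝ) ^ (-p) * g (xx (w ++ [false]))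
      + (K (w ++ [true]) : ℝ) ^ (-p) * g (xx (w ++ [true]))
    rw [K_snoc_x, K_snoc_x, xx_snoc, xx_snoc, dg_true, dg_false]
    rw [Real.mul_rpow (by push_cast; linarith) hK.le, Real.mul_rpow (by push_cast; linarith) hK.le]
    push_cast
    have e : (-(69 / 65) : ℝ) = -p := by rw [hp]
    rw [e] at h3
    have := mul_le_mul_of_nonneg_left h3 (Real.rpow_nonneg hK.le (-p))
    calc (K w : ℝ) ^ (-p) * g (xx w) ≤ _ := this
      _ = _ := by ring
  have hup : ∀ w, Good w → h w ≤ M * (K w : ℝ) ^ (-p) := by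
    intro w hw
    obtain ⟨_, h2, _⟩ := H (xx w) hw.1 hw.2
    have := mul_le_mul_of_nonneg_left h2 (Real.rpow_nonneg (Kpos w).le (-p))
    calc h w ≤ _ := this
      _ = _ := by ring
  refine ⟨(2 : ℝ) ^ (-p) * m / (2 * M), by positivity, ?_⟩
  intro L hL
  have hL0 : 0 < L := by linarith
  have hLp : (0 : ℝ) < L ^ (-p) := Real.rpow_pos_of_pos hL0 _
  have hbig : ∀ w, Good w → L < (K w : ℝ) →
      h w ≤ M * L ^ (-p) * (2 * ((S L w).ncard : ℝ) + 1) := by
    intro w hw hKw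
    have h1 := hup w hw
    have h2 : (K w : ℝ) ^ (-p) ≤ L ^ (-p) :=
      Real.rpow_le_rpow_of_nonpos hL0 hKw.le (by linarith)
    have h3 : M * (K w : ℝ) ^ (-p) ≤ M * L ^ (-p) := mul_le_mul_of_nonneg_left h2 hM.le
    have h4 : (0 : ℝ) ≤ ((S L w).ncard : ℝ) := by positivity
    have h5 : 0 < M * L ^ (-p) := by positivity
    nlinarith
  have key : ∀ n : ℕ, ∀ w : Word, Good w → ⌊L⌋₊ + 1 ≤ n + w.length →
      h w ≤ M * L ^ (-p) * (2 * ((S L w).ncard : ℝ) + 1) ∧
      ((K w : ℝ) ≤ L → h w ≤ M * L ^ (-p) * (2 * ((S L w).ncard : ℝ))) := by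
    intro n
    induction n with
    | zero =>
      intro w hw hl
      have h1 : L < (K w : ℝ) := by
        have h2 : (w.length : ℝ) ≤ K w := by exact_mod_cast length_le_K w
        have h3 : (⌊L⌋₊ : ℝ) + 1 ≤ (w.length : ℝ) := by
          have : ⌊L⌋₊ + 1 ≤ w.length := by omega
          exact_mod_cast this
        have h4 := Nat.lt_floor_add_one L
        linarith
      exact ⟨hbig w hw h1, fun h2 => absurd h1 (not_lt.2 h2)⟩
    | succ n ih =>
      intro w hw hl
      rcases lt_or_ge L (K w : ℝ) with h1 | h1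
      · exact ⟨hbig w hw h1, fun h2 => absurd h1 (not_lt.2 h2)⟩
      · have hc := card_step L w h1
        have hcR : (1 : ℝ) + ((S L (w ++ [false])).ncard : ℝ) + ((S L (w ++ [true])).ncard : ℝ)
            ≤ ((S L w).ncard : ℝ) := by exact_mod_cast hc
        have hf := (ih (w ++ [false]) (good_snoc w false hw) (by simp; omega)).1
        have ht := (ih (w ++ [true]) (good_snoc w true hw) (by simp; omega)).1
        have hs := hstep w hw
        have h5 : 0 < M * L ^ (-p) := by positivity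
        have h6 : h w ≤ M * L ^ (-p) * (2 * ((S L w).ncard : ℝ)) := by
          have : M * L ^ (-p) * (2 * ((S L (w ++ [false])).ncard : ℝ) + 1)
              + M * L ^ (-p) * (2 * ((S L (w ++ [true])).ncard : ℝ) + 1)
              ≤ M * L ^ (-p) * (2 * ((S L w).ncard : ℝ)) := by
            rw [← mul_add]
            apply mul_le_mul_of_nonneg_left _ h5.le
            linarith
          linarith
        refine ⟨?_, fun _ => h6⟩
        have : M * L ^ (-p) * (2 * ((S L w).ncard : ℝ))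
            ≤ M * L ^ (-p) * (2 * ((S L w).ncard : ℝ) + 1) := by
          apply mul_le_mul_of_nonneg_left _ h5.le
          linarith
        linarith
  have hK2 : (K [true] : ℝ) = 2 := by rw [K_true]; norm_num
  have h1 := (key (⌊L⌋₊ + 1) [true] good_true (by omega)).2 (by rw [hK2]; exact hL)
  have h2 : (2 : ℝ) ^ (-p) * m ≤ h [true] := by
    show (2 : ℝ) ^ (-p) * m ≤ (K [true] : ℝ) ^ (-p) * g (xx [true])
    rw [hK2]
    apply mul_le_mul_of_nonneg_left _ (Real.rpow_nonneg (by norm_num) _)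
    exact (H (xx [true]) good_true.1 good_true.2).1
  have h3 : ((S L [true]).ncard : ℝ) ≤ (A L : ℝ) := by
    have : (S L [true]).ncard ≤ A L := Set.ncard_le_ncard (S_sub L [true]) (finite_K_le L)
    exact_mod_cast this
  have h4 : (2 : ℝ) ^ (-p) * m ≤ M * L ^ (-p) * (2 * (A L : ℝ)) := by
    refine (h2.trans h1).trans ?_
    apply mul_le_mul_of_nonneg_left _ (by positivity)
    linarith
  have h5 : L ^ (-p) * L ^ p = 1 := by
    rw [← Real.rpow_add hL0]; simp
  have hLp' : (0 : ℝ) < L ^ p := Real.rpow_pos_of_pos hL0 _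
  rw [div_mul_eq_mul_div, div_le_iff₀ (by positivity)]
  calc (2 : ℝ) ^ (-p) * m * L ^ p ≤ M * L ^ (-p) * (2 * (A L : ℝ)) * L ^ p :=
        mul_le_mul_of_nonneg_right h4 hLp'.le
    _ = (A L : ℝ) * (2 * M) * (L ^ (-p) * L ^ p) := by ring
    _ = (A L : ℝ) * (2 * M) := by rw [h5, mul_one]

end Pool.Agent.Lib.MP_d0a18a_nt.ZP
end

section
/-!
# DNL: projections give denominators
-/
set_option autoImplicit false

namespace Pool.Agent.Lib.MP_d0a18a_nt.ZP

open Finset

namespace DNLM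

theorem mem_Dn {N : ℝ} {d : ℕ} (h1 : (d : ℝ) ≤ N) (h2 : ∃ w : Word, K w = d) : d ∈ Dn N := by
  classical
  unfold Dn
  rw [Finset.mem_filter, Finset.mem_range]
  exact ⟨Nat.lt_succ_of_le (Nat.le_floor h1), h2⟩

end DNLM

open DNLM in
theorem specDNL : SpecDNL := by
  intro q Y v R L _ hY hv
  classical
  have hKv : (0 : ℝ) < (K v : ℝ) := by exact_mod_cast K_pos v
  have hsub : Y.image (fl (be v) q 0) ⊆
      (Dn (2 * R * L)).image (fun d : ℕ => ⌊(d : ℝ) / (K v : ℝ)⌋₊) := by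
    intro z hz
    rw [Finset.mem_image] at hz
    obtain ⟨x, hx, rfl⟩ := hz
    obtain ⟨w, hw, hwR⟩ := hY x hx
    rw [Finset.mem_image]
    refine ⟨K (w ++ v), mem_Dn ?_ ⟨_, rfl⟩, ?_⟩
    · have h1 : (K (w ++ v) : ℝ) ≤ 2 * ((K w : ℝ) * (K v : ℝ)) := by
        exact_mod_cast K_append_le w v
      have h0 : (0 : ℝ) < (K w : ℝ) := by exact_mod_cast K_pos w
      have h2 : (K w : ℝ) * (K v : ℝ) ≤ R * L := by
        apply mul_le_mul hwR hv hKv.le (le_trans h0.le hwR)
      calc (K (w ++ v) : ℝ) ≤ 2 * ((K w : ℝ) * (K v : ℝ)) := h1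
        _ ≤ 2 * (R * L) := by linarith
        _ = 2 * R * L := by ring
    · show ⌊((K (w ++ v) : ℕ) : ℝ) / (K v : ℝ)⌋₊ = fl (be v) q 0 x
      unfold fl pr
      rw [K_append_be, hw, pow_zero, div_one, mul_div_cancel_left₀ _ hKv.ne']
  exact (Finset.card_le_card hsub).trans Finset.card_image_le

end Pool.Agent.Lib.MP_d0a18a_nt.ZP
end

section
/-!
# ENA (helper65): the entropy is at most the logarithm of the number of values
-/
set_option autoImplicit false

namespace Pool.Agent.Lib.MP_d0a18a_nt.ZP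

open Finset

namespace ENAM

open Classical in
/-- the sum of the reciprocals of the fibre sizes is the number of values -/
theorem sum_inv {α β : Type} (X : Finset α) (f : α → β) :
    ∑ x ∈ X, (1 : ℝ) / ((X.filter (fun y => f y = f x)).card : ℝ) = ((X.image f).card : ℝ) := by
  have h := Finset.sum_comp (s := X)
    (f := fun b : β => (1 : ℝ) / ((X.filter (fun y => f y = b)).card : ℝ)) (g := f)
  rw [h, Finset.card_eq_sum_ones, Nat.cast_sum]
  refine Finset.sum_congr rfl fun b hb => ?_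
  obtain ⟨x, hx, rfl⟩ := Finset.mem_image.1 hb
  have hpos : (0 : ℝ) < ((X.filter (fun y => f y = f x)).card : ℝ) := by
    exact Nat.cast_pos.2 (Finset.card_pos.2 ⟨x, Finset.mem_filter.2 ⟨hx, rfl⟩⟩)
  rw [nsmul_eq_mul, mul_one_div_cancel hpos.ne', Nat.cast_one]

end ENAM

theorem specENA : SpecENA := by
  classical
  intro α β X f hX
  have hc : (0 : ℝ) < (X.card : ℝ) := by exact_mod_cast Finset.card_pos.2 hX
  have hN : (0 : ℝ) < ((X.image f).card : ℝ) := by
    exact_mod_cast Finset.card_pos.2 (hX.image f)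
  have hpos : ∀ x ∈ X, (0 : ℝ) < ((X.filter (fun y => f y = f x)).card : ℝ) := by
    intro x hx
    exact Nat.cast_pos.2 (Finset.card_pos.2 ⟨x, Finset.mem_filter.2 ⟨hx, rfl⟩⟩)
  have hle : ∀ x ∈ X, ((X.filter (fun y => f y = f x)).card : ℝ) ≤ (X.card : ℝ) := by
    intro x _
    exact_mod_cast Finset.card_filter_le _ _
  constructor
  · unfold Hs
    refine div_nonneg (Finset.sum_nonneg fun x hx => Real.log_nonneg ?_) hc.le
    rw [one_le_div (hpos x hx)]
    exact hle x hx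
  · unfold Hs
    rw [div_le_iff₀ hc]
    have h1 : ∀ x ∈ X, Real.log ((X.card : ℝ) / ((X.filter (fun y => f y = f x)).card : ℝ)) ≤
        Real.log ((X.image f).card : ℝ) + (((X.card : ℝ) / ((X.image f).card : ℝ)) *
          (1 / ((X.filter (fun y => f y = f x)).card : ℝ)) - 1) := by
      intro x hx
      have h2 : (0 : ℝ) < ((X.card : ℝ) / ((X.image f).card : ℝ)) *
          (1 / ((X.filter (fun y => f y = f x)).card : ℝ)) :=
        mul_pos (div_pos hc hN) (one_div_pos.2 (hpos x hx))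
      have h3 := Real.log_le_sub_one_of_pos h2
      have h4 : (X.card : ℝ) / ((X.filter (fun y => f y = f x)).card : ℝ) =
          ((X.image f).card : ℝ) * (((X.card : ℝ) / ((X.image f).card : ℝ)) *
          (1 / ((X.filter (fun y => f y = f x)).card : ℝ))) := by
        field_simp
      rw [h4, Real.log_mul hN.ne' h2.ne']
      linarith
    calc ∑ x ∈ X, Real.log ((X.card : ℝ) / ((X.filter (fun y => f y = f x)).card : ℝ))
        ≤ ∑ x ∈ X, (Real.log ((X.image f).card : ℝ) + (((X.card : ℝ) / ((X.image f).card : ℝ)) *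
          (1 / ((X.filter (fun y => f y = f x)).card : ℝ)) - 1)) := Finset.sum_le_sum h1
      _ = Real.log ((X.image f).card : ℝ) * (X.card : ℝ) := by
        rw [Finset.sum_add_distrib, Finset.sum_sub_distrib, ← Finset.mul_sum, ENAM.sum_inv]
        simp only [Finset.sum_const, nsmul_eq_mul, mul_one]
        rw [div_mul_cancel₀ _ hN.ne']
        ring

end Pool.Agent.Lib.MP_d0a18a_nt.ZP
end

section
/-!
# ENB: one step of the chain rule
-/
set_option autoImplicit false

namespace Pool.Agent.Lib.MP_d0a18a_nt.ZP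

open Finset

namespace ENBM

open Classical in
/-- the number of points of the class of `x` under `h` -/
noncomputable def nn {α δ : Type} (X : Finset α) (h : α → δ) (x : α) : ℝ :=
  ((X.filter (fun y => h y = h x)).card : ℝ)

open Classical in
theorem nn_pos {α δ : Type} {X : Finset α} (h : α → δ) {x : α} (hx : x ∈ X) : 0 < nn X h x := by
  unfold nn
  have : 0 < (X.filter (fun y => h y = h x)).card :=
    Finset.card_pos.2 ⟨x, Finset.mem_filter.2 ⟨hx, rfl⟩⟩
  exact_mod_cast this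

theorem nn_congr {α δ : Type} (X : Finset α) (h : α → δ) {x y : α} (hxy : h x = h y) :
    nn X h x = nn X h y := by
  unfold nn; rw [hxy]

theorem nn_eq_sum {α δ : Type} (X : Finset α) (h : α → δ) (x : α)
    [inst : ∀ y, Decidable (h y = h x)] :
    nn X h x = ∑ y ∈ X, (if h y = h x then (1 : ℝ) else 0) := by
  have : inst = fun y => Classical.propDecidable _ := Subsingleton.elim _ _
  subst this
  unfold nn
  rw [Finset.card_filter]
  push_cast
  rfl

/-- the reciprocals of the class sizes over one class sum up to at most one -/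
theorem sum_inv_le {α δ : Type} (X : Finset α) (h : α → δ) (b : δ)
    [inst : ∀ y, Decidable (h y = b)] :
    ∑ x ∈ X, (if h x = b then (nn X h x)⁻¹ else 0) ≤ 1 := by
  classical
  have hinst : inst = fun y => Classical.propDecidable _ := Subsingleton.elim _ _
  subst hinst
  rw [← Finset.sum_filter]
  have h1 : ∀ x ∈ X.filter (fun x => h x = b),
      (nn X h x)⁻¹ = (((X.filter (fun y => h y = b)).card : ℝ))⁻¹ := by
    intro x hx
    rw [Finset.mem_filter] at hx
    unfold nn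
    rw [hx.2]
  rw [Finset.sum_congr rfl h1, Finset.sum_const, nsmul_eq_mul]
  rcases eq_or_ne ((X.filter (fun y => h y = b)).card : ℝ) 0 with h0 | h0
  · rw [h0]; simp
  · rw [mul_inv_cancel₀ h0]

theorem sum_log_nonpos {α : Type} (X : Finset α) (t : α → ℝ) (ht : ∀ x ∈ X, 0 < t x)
    (hs : ∑ x ∈ X, t x ≤ X.card) : ∑ x ∈ X, Real.log (t x) ≤ 0 := by
  have h1 : ∑ x ∈ X, Real.log (t x) ≤ ∑ x ∈ X, (t x - 1) :=
    Finset.sum_le_sum (fun x hx => Real.log_le_sub_one_of_pos (ht x hx))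
  rw [Finset.sum_sub_distrib] at h1
  simp at h1
  linarith

open Classical in
/-- conditioning -/
theorem cond {α β β' γ : Type} (X : Finset α) (f : α → β) (f' : α → β') (g : α → γ)
    (hff : ∀ x ∈ X, ∀ y ∈ X, f x = f y → f' x = f' y) :
    ∑ x ∈ X, nn X (fun x => (f' x, g x)) x * nn X f x *
      ((nn X (fun x => (f x, g x)) x)⁻¹ * (nn X f' x)⁻¹) ≤ X.card := by
  have h1 : ∀ x ∈ X, nn X (fun x => (f' x, g x)) x * nn X f x *
      ((nn X (fun x => (f x, g x)) x)⁻¹ * (nn X f' x)⁻¹)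
      = ∑ z ∈ X, ∑ y ∈ X, (if (f' z, g z) = (f' x, g x) then (1 : ℝ) else 0) *
        (if f y = f x then (1 : ℝ) else 0) *
        ((nn X (fun x => (f x, g x)) x)⁻¹ * (nn X f' x)⁻¹) := by
    intro x _
    rw [nn_eq_sum X (fun x => (f' x, g x)) x, nn_eq_sum X f x, Finset.sum_mul_sum, Finset.sum_mul]
    apply Finset.sum_congr rfl
    intro z _
    rw [Finset.sum_mul]
  rw [Finset.sum_congr rfl h1, Finset.sum_comm]
  have h2 : ∀ z ∈ X, ∑ x ∈ X, ∑ y ∈ X, (if (f' z, g z) = (f' x, g x) then (1 : ℝ) else 0) *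
        (if f y = f x then (1 : ℝ) else 0) *
        ((nn X (fun x => (f x, g x)) x)⁻¹ * (nn X f' x)⁻¹) ≤ 1 := by
    intro z hz
    rw [Finset.sum_comm]
    have h3 : ∀ y ∈ X, ∑ x ∈ X, (if (f' z, g z) = (f' x, g x) then (1 : ℝ) else 0) *
        (if f y = f x then (1 : ℝ) else 0) *
        ((nn X (fun x => (f x, g x)) x)⁻¹ * (nn X f' x)⁻¹)
        ≤ (if f' y = f' z then (1 : ℝ) else 0) * (nn X f' z)⁻¹ := by
      intro y hy
      have h4 : ∀ x ∈ X, (if (f' z, g z) = (f' x, g x) then (1 : ℝ) else 0) *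
          (if f y = f x then (1 : ℝ) else 0) *
          ((nn X (fun x => (f x, g x)) x)⁻¹ * (nn X f' x)⁻¹)
          ≤ ((if f' y = f' z then (1 : ℝ) else 0) * (nn X f' z)⁻¹) *
            (if (f x, g x) = (f y, g z) then (nn X (fun x => (f x, g x)) x)⁻¹ else 0) := by
        intro x hx
        have hpos : 0 < nn X (fun x => (f x, g x)) x := nn_pos _ hx
        have hpos' : 0 < nn X f' z := nn_pos _ hz
        by_cases ha : (f' z, g z) = (f' x, g x)
        · by_cases hb : f y = f x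
          · have hc : f' z = f' x := (Prod.ext_iff.1 ha).1
            have hd : g z = g x := (Prod.ext_iff.1 ha).2
            have he : f' y = f' z := by rw [hff y hy x hx hb, hc]
            rw [if_pos ha, if_pos hb, if_pos he, if_pos (by rw [hb, hd]),
              nn_congr X f' hc]
            apply le_of_eq
            ring
          · rw [if_neg hb]
            simp only [mul_zero, zero_mul]
            split_ifs <;> positivity
        · rw [if_neg ha]
          simp only [zero_mul]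
          split_ifs <;> positivity
      refine le_trans (Finset.sum_le_sum h4) ?_
      rw [← Finset.mul_sum]
      have h5 := sum_inv_le X (fun x => (f x, g x)) (f y, g z)
      have h6 : 0 ≤ (if f' y = f' z then (1 : ℝ) else 0) * (nn X f' z)⁻¹ := by
        have hpos' : 0 < nn X f' z := nn_pos _ hz
        split_ifs <;> positivity
      exact mul_le_of_le_one_right h6 h5
    refine le_trans (Finset.sum_le_sum h3) ?_
    rw [← Finset.sum_mul, ← nn_eq_sum, mul_inv_cancel₀ (nn_pos f' hz).ne']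
  refine le_trans (Finset.sum_le_sum h2) ?_
  simp

open Classical in
/-- the values of `f'` inside a class of `g` -/
theorem vals {α β' γ : Type} (X : Finset α) (f' : α → β') (g : α → γ) (m : ℝ)
    (hm : ∀ x ∈ X, ((((X.filter (fun y => g y = g x)).image f').card : ℕ) : ℝ) ≤ m) :
    ∑ x ∈ X, nn X g x * (nn X (fun x => (f' x, g x)) x)⁻¹ ≤ m * X.card := by
  have h1 : ∀ x ∈ X, nn X g x * (nn X (fun x => (f' x, g x)) x)⁻¹
      = ∑ z ∈ X, (if g z = g x then (1 : ℝ) else 0) * (nn X (fun x => (f' x, g x)) x)⁻¹ := by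
    intro x _
    rw [nn_eq_sum X g x, Finset.sum_mul]
  rw [Finset.sum_congr rfl h1, Finset.sum_comm]
  have h2 : ∀ z ∈ X, ∑ x ∈ X, (if g z = g x then (1 : ℝ) else 0) *
      (nn X (fun x => (f' x, g x)) x)⁻¹ ≤ m := by
    intro z hz
    refine le_trans ?_ (hm z hz)
    have h3 : ∑ x ∈ X, (if g z = g x then (1 : ℝ) else 0) * (nn X (fun x => (f' x, g x)) x)⁻¹
        ≤ ∑ b ∈ (X.filter (fun y => g y = g z)).image f', ∑ x ∈ X,
          (if (f' x, g x) = (b, g z) then (nn X (fun x => (f' x, g x)) x)⁻¹ else 0) := by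
      rw [Finset.sum_comm]
      apply Finset.sum_le_sum
      intro x hx
      have hpos : 0 < nn X (fun x => (f' x, g x)) x := nn_pos _ hx
      by_cases h : g z = g x
      · rw [if_pos h, one_mul]
        have hmem : f' x ∈ (X.filter (fun y => g y = g z)).image f' :=
          Finset.mem_image.2 ⟨x, Finset.mem_filter.2 ⟨hx, h.symm⟩, rfl⟩
        refine le_trans ?_ (Finset.single_le_sum (f := fun b =>
          (if (f' x, g x) = (b, g z) then (nn X (fun x => (f' x, g x)) x)⁻¹ else 0))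
          (fun b _ => by split_ifs <;> positivity) hmem)
        rw [if_pos (by rw [h])]
      · rw [if_neg h, zero_mul]
        apply Finset.sum_nonneg
        intro b _
        split_ifs <;> positivity
    refine le_trans h3 ?_
    refine le_trans (Finset.sum_le_sum (fun b _ => sum_inv_le X (fun x => (f' x, g x)) (b, g z))) ?_
    simp
  refine le_trans (Finset.sum_le_sum h2) ?_
  rw [Finset.sum_const, nsmul_eq_mul, mul_comm]

open Classical in
/-- the collision probability in terms of the class sizes -/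
theorem CP_eq {α β γ : Type} (X : Finset α) (f : α → β) (g : α → γ) (x : α) :
    CP X f g x = (∑ u ∈ X.filter (fun y => g y = g x), nn X (fun x => (f x, g x)) u)
      / (nn X g x) ^ 2 := by
  unfold CP
  congr 1
  have h1 : ∀ u ∈ X.filter (fun y => g y = g x), nn X (fun x => (f x, g x)) u
      = (((X.filter (fun y => g y = g x)).filter (fun v => f u = f v)).card : ℝ) := by
    intro u hu
    rw [Finset.mem_filter] at hu
    unfold nn
    congr 2
    ext v
    simp only [Finset.mem_filter, Prod.mk.injEq, hu.2]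
    constructor
    · rintro ⟨h1, h2, h3⟩; exact ⟨⟨h1, h3⟩, h2.symm⟩
    · rintro ⟨⟨h1, h3⟩, h2⟩; exact ⟨h1, h2.symm, h3⟩
  rw [Finset.sum_congr rfl h1]
  rw [Finset.card_filter, Finset.sum_product]
  push_cast
  apply Finset.sum_congr rfl
  intro u _
  rw [Finset.card_filter]
  push_cast
  rfl

open Classical in
theorem CP_pos {α β γ : Type} (X : Finset α) (f : α → β) (g : α → γ) {x : α} (hx : x ∈ X) :
    0 < CP X f g x := by
  rw [CP_eq]
  apply div_pos
  · apply Finset.sum_pos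
    · intro u hu
      exact nn_pos _ (Finset.mem_filter.1 hu).1
    · exact ⟨x, Finset.mem_filter.2 ⟨hx, rfl⟩⟩
  · have := nn_pos (X := X) g hx
    positivity

open Classical in
theorem jensen {α β γ : Type} (X : Finset α) (f : α → β) (g : α → γ) :
    ∑ x ∈ X, nn X (fun x => (f x, g x)) x / (nn X g x * CP X f g x) ≤ X.card := by
  set W : α → ℝ := fun x => ∑ u ∈ X.filter (fun y => g y = g x), nn X (fun x => (f x, g x)) u
    with hW
  have hWpos : ∀ x ∈ X, 0 < W x := by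
    intro x hx
    apply Finset.sum_pos
    · intro u hu
      exact nn_pos _ (Finset.mem_filter.1 hu).1
    · exact ⟨x, Finset.mem_filter.2 ⟨hx, rfl⟩⟩
  have h1 : ∀ x ∈ X, nn X (fun x => (f x, g x)) x / (nn X g x * CP X f g x)
      = ∑ z ∈ X, (if g z = g x then (1 : ℝ) else 0) * (nn X (fun x => (f x, g x)) x / W x) := by
    intro x hx
    rw [CP_eq, ← Finset.sum_mul, ← nn_eq_sum]
    have h2 := (nn_pos (X := X) g hx).ne'
    have h3 := (hWpos x hx).ne'
    change _ / (nn X g x * (W x / nn X g x ^ 2)) = _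
    field_simp
  rw [Finset.sum_congr rfl h1, Finset.sum_comm]
  have h2 : ∀ z ∈ X, ∑ x ∈ X, (if g z = g x then (1 : ℝ) else 0) *
      (nn X (fun x => (f x, g x)) x / W x) ≤ 1 := by
    intro z hz
    have h3 : ∀ x ∈ X, (if g z = g x then (1 : ℝ) else 0) *
      (nn X (fun x => (f x, g x)) x / W x)
        = (if g x = g z then nn X (fun x => (f x, g x)) x else 0) / W z := by
      intro x _
      by_cases h : g z = g x
      · rw [if_pos h, if_pos h.symm, one_mul]
        congr 1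
        simp only [hW, h]
      · rw [if_neg h, if_neg (Ne.symm h)]; simp
    rw [Finset.sum_congr rfl h3, ← Finset.sum_div, ← Finset.sum_filter]
    exact le_of_eq (div_self (hWpos z hz).ne')
  refine le_trans (Finset.sum_le_sum h2) ?_
  simp

end ENBM

open ENBM in
theorem specENB : SpecENB := by
  intro α β β' γ X f f' g m hne hm hff hval
  classical
  have hX : (0 : ℝ) < X.card := by exact_mod_cast Finset.card_pos.2 hne
  have hm0 : 0 < m := by linarith
  -- rewrite the entropies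
  have hHs : ∀ {δ : Type} (h : α → δ), Hs X h
      = (∑ x ∈ X, Real.log ((X.card : ℝ) / nn X h x)) / X.card := by
    intro δ h
    rfl
  have hlog : ∀ {δ : Type} (h : α → δ), ∑ x ∈ X, Real.log ((X.card : ℝ) / nn X h x)
      = X.card * Real.log X.card - ∑ x ∈ X, Real.log (nn X h x) := by
    intro δ h
    rw [← nsmul_eq_mul, ← Finset.sum_const, ← Finset.sum_sub_distrib]
    apply Finset.sum_congr rfl
    intro x hx
    rw [Real.log_div hX.ne' (nn_pos h hx).ne']
  -- the three inequalities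
  have e1 := sum_log_nonpos X _ (fun x hx => by
    have h1 := nn_pos (X := X) (fun x => (f' x, g x)) hx
    have h2 := nn_pos (X := X) f hx
    have h3 := nn_pos (X := X) (fun x => (f x, g x)) hx
    have h4 := nn_pos (X := X) f' hx
    positivity) (cond X f f' g hff)
  have e2 := sum_log_nonpos X (fun x => m⁻¹ * (nn X g x * (nn X (fun x => (f' x, g x)) x)⁻¹))
    (fun x hx => by
      have h1 := nn_pos (X := X) (fun x => (f' x, g x)) hx
      have h2 := nn_pos (X := X) g hx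
      positivity) (by
    rw [← Finset.mul_sum]
    have := vals X f' g m hval
    rw [inv_mul_le_iff₀ hm0]
    exact this)
  have e3 := sum_log_nonpos X _ (fun x hx => by
    have h1 := nn_pos (X := X) (fun x => (f x, g x)) hx
    have h2 := nn_pos (X := X) g hx
    have h3 := CP_pos X f g hx
    positivity) (jensen X f g)
  have l1 : ∀ x ∈ X, Real.log (nn X (fun x => (f' x, g x)) x * nn X f x *
      ((nn X (fun x => (f x, g x)) x)⁻¹ * (nn X f' x)⁻¹))
      = Real.log (nn X (fun x => (f' x, g x)) x) + Real.log (nn X f x)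
        - Real.log (nn X (fun x => (f x, g x)) x) - Real.log (nn X f' x) := by
    intro x hx
    have h1 := (nn_pos (X := X) (fun x => (f' x, g x)) hx).ne'
    have h2 := (nn_pos (X := X) f hx).ne'
    have h3 := (nn_pos (X := X) (fun x => (f x, g x)) hx).ne'
    have h4 := (nn_pos (X := X) f' hx).ne'
    rw [Real.log_mul (by positivity) (by positivity), Real.log_mul h1 h2,
      Real.log_mul (by positivity) (by positivity), Real.log_inv, Real.log_inv]
    ring
  have l2 : ∀ x ∈ X, Real.log (m⁻¹ * (nn X g x * (nn X (fun x => (f' x, g x)) x)⁻¹))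
      = - Real.log m + Real.log (nn X g x) - Real.log (nn X (fun x => (f' x, g x)) x) := by
    intro x hx
    have h1 := (nn_pos (X := X) (fun x => (f' x, g x)) hx).ne'
    have h2 := (nn_pos (X := X) g hx).ne'
    rw [Real.log_mul (by positivity) (by positivity), Real.log_mul h2 (by positivity),
      Real.log_inv, Real.log_inv]
    ring
  have l3 : ∀ x ∈ X, Real.log (nn X (fun x => (f x, g x)) x / (nn X g x * CP X f g x))
      = Real.log (nn X (fun x => (f x, g x)) x) - Real.log (nn X g x)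
        + Real.log (1 / CP X f g x) := by
    intro x hx
    have h1 := (nn_pos (X := X) (fun x => (f x, g x)) hx).ne'
    have h2 := (nn_pos (X := X) g hx).ne'
    have h3 := (CP_pos X f g hx).ne'
    rw [Real.log_div h1 (by positivity), Real.log_mul h2 h3, one_div, Real.log_inv]
    ring
  rw [Finset.sum_congr rfl l1, Finset.sum_sub_distrib, Finset.sum_sub_distrib,
    Finset.sum_add_distrib] at e1
  rw [Finset.sum_congr rfl l2, Finset.sum_sub_distrib, Finset.sum_add_distrib, Finset.sum_const,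
    nsmul_eq_mul] at e2
  rw [Finset.sum_congr rfl l3, Finset.sum_add_distrib, Finset.sum_sub_distrib] at e3
  rw [hHs f, hHs f', hlog f, hlog f', ← sub_nonneg]
  have : (↑X.card * Real.log ↑X.card - ∑ x ∈ X, Real.log (nn X f x)) / ↑X.card -
      ((↑X.card * Real.log ↑X.card - ∑ x ∈ X, Real.log (nn X f' x)) / ↑X.card +
        (∑ x ∈ X, Real.log (1 / CP X f g x)) / ↑X.card - Real.log m)
      = ((∑ x ∈ X, Real.log (nn X f' x)) - (∑ x ∈ X, Real.log (nn X f x))
        - (∑ x ∈ X, Real.log (1 / CP X f g x)) + X.card * Real.log m) / X.card := by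
    field_simp
    ring
  rw [this]
  apply div_nonneg _ hX.le
  linarith

end Pool.Agent.Lib.MP_d0a18a_nt.ZP
end

section
/-!
# ENC: entropy version of one step of the chain rule
-/
set_option autoImplicit false

namespace Pool.Agent.Lib.MP_d0a18a_nt.ZP

open Finset

namespace ENCM

open ENBM

open Classical in
/-- averaging over the classes -/
theorem avg_cls {α γ : Type} (X : Finset α) (g : α → γ) (F : α → ℝ) :
    ∑ x ∈ X, (∑ y ∈ cls X g x, F y) / ((cls X g x).card : ℝ) = ∑ y ∈ X, F y := by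
  have h1 : ∀ x ∈ X, (∑ y ∈ cls X g x, F y) / ((cls X g x).card : ℝ)
      = ∑ y ∈ X, (if g x = g y then (1 : ℝ) else 0) * (F y * (nn X g y)⁻¹) := by
    intro x _
    unfold cls
    rw [Finset.sum_div, Finset.sum_filter]
    apply Finset.sum_congr rfl
    intro y _
    by_cases h : g y = g x
    · rw [if_pos h, if_pos h.symm, one_mul, nn_congr X g h]
      unfold nn
      rw [div_eq_mul_inv]
    · rw [if_neg h, if_neg (Ne.symm h), zero_mul]
  rw [Finset.sum_congr rfl h1, Finset.sum_comm]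
  apply Finset.sum_congr rfl
  intro y hy
  rw [← Finset.sum_mul, ← nn_eq_sum]
  have := (nn_pos (X := X) g hy).ne'
  field_simp

open Classical in
theorem Hs_cls {α β γ : Type} (X : Finset α) (f : α → β) (g : α → γ) (x : α) :
    Hs (cls X g x) f = (∑ y ∈ cls X g x, Real.log (nn X g y / nn X (fun x => (f x, g x)) y)) /
      ((cls X g x).card : ℝ) := by
  unfold Hs
  congr 1
  apply Finset.sum_congr rfl
  intro y hy
  unfold cls at hy
  rw [Finset.mem_filter] at hy
  congr 2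
  · unfold cls nn
    rw [hy.2]
  · unfold cls nn
    congr 2
    ext z
    simp only [Finset.mem_filter, Prod.mk.injEq]
    constructor
    · rintro ⟨⟨h1, h2⟩, h3⟩
      exact ⟨h1, h3, h2.trans hy.2.symm⟩
    · rintro ⟨h1, h2, h3⟩
      exact ⟨⟨h1, h3.trans hy.2⟩, h2⟩

open Classical in
theorem sum_Hs_cls {α β γ : Type} (X : Finset α) (f : α → β) (g : α → γ) :
    ∑ x ∈ X, Hs (cls X g x) f =
      ∑ y ∈ X, Real.log (nn X g y / nn X (fun x => (f x, g x)) y) := by
  rw [← avg_cls X g (fun y => Real.log (nn X g y / nn X (fun x => (f x, g x)) y))]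
  exact Finset.sum_congr rfl fun x _ => Hs_cls X f g x

theorem Hs_eq {α δ : Type} (X : Finset α) (hne : X.Nonempty) (h : α → δ) :
    Hs X h = Real.log X.card - (∑ x ∈ X, Real.log (nn X h x)) / X.card := by
  have hX : (0 : ℝ) < X.card := by exact_mod_cast Finset.card_pos.2 hne
  have h1 : Hs X h = (∑ x ∈ X, Real.log ((X.card : ℝ) / nn X h x)) / X.card := rfl
  have h2 : ∑ x ∈ X, Real.log ((X.card : ℝ) / nn X h x)
      = X.card * Real.log X.card - ∑ x ∈ X, Real.log (nn X h x) := by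
    rw [← nsmul_eq_mul, ← Finset.sum_const, ← Finset.sum_sub_distrib]
    apply Finset.sum_congr rfl
    intro x hx
    rw [Real.log_div hX.ne' (nn_pos h hx).ne']
  rw [h1, h2]
  field_simp

end ENCM

open ENBM ENCM in
theorem specENC : SpecENC := by
  intro α β β' γ X f f' g m hne hm hff hval
  classical
  have hX : (0 : ℝ) < X.card := by exact_mod_cast Finset.card_pos.2 hne
  have hm0 : 0 < m := by linarith
  have e1 := sum_log_nonpos X _ (fun x hx => by
    have h1 := nn_pos (X := X) (fun x => (f' x, g x)) hx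
    have h2 := nn_pos (X := X) f hx
    have h3 := nn_pos (X := X) (fun x => (f x, g x)) hx
    have h4 := nn_pos (X := X) f' hx
    positivity) (cond X f f' g hff)
  have e2 := sum_log_nonpos X (fun x => m⁻¹ * (nn X g x * (nn X (fun x => (f' x, g x)) x)⁻¹))
    (fun x hx => by
      have h1 := nn_pos (X := X) (fun x => (f' x, g x)) hx
      have h2 := nn_pos (X := X) g hx
      positivity) (by
    rw [← Finset.mul_sum]
    have := vals X f' g m hval
    rw [inv_mul_le_iff₀ hm0]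
    exact this)
  have l1 : ∀ x ∈ X, Real.log (nn X (fun x => (f' x, g x)) x * nn X f x *
      ((nn X (fun x => (f x, g x)) x)⁻¹ * (nn X f' x)⁻¹))
      = Real.log (nn X (fun x => (f' x, g x)) x) + Real.log (nn X f x)
        - Real.log (nn X (fun x => (f x, g x)) x) - Real.log (nn X f' x) := by
    intro x hx
    have h1 := (nn_pos (X := X) (fun x => (f' x, g x)) hx).ne'
    have h2 := (nn_pos (X := X) f hx).ne'
    have h3 := (nn_pos (X := X) (fun x => (f x, g x)) hx).ne'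
    have h4 := (nn_pos (X := X) f' hx).ne'
    rw [Real.log_mul (by positivity) (by positivity), Real.log_mul h1 h2,
      Real.log_mul (by positivity) (by positivity), Real.log_inv, Real.log_inv]
    ring
  have l2 : ∀ x ∈ X, Real.log (m⁻¹ * (nn X g x * (nn X (fun x => (f' x, g x)) x)⁻¹))
      = - Real.log m + Real.log (nn X g x) - Real.log (nn X (fun x => (f' x, g x)) x) := by
    intro x hx
    have h1 := (nn_pos (X := X) (fun x => (f' x, g x)) hx).ne'
    have h2 := (nn_pos (X := X) g hx).ne'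
    rw [Real.log_mul (by positivity) (by positivity), Real.log_mul h2 (by positivity),
      Real.log_inv, Real.log_inv]
    ring
  have l3 : ∀ x ∈ X, Real.log (nn X g x / nn X (fun x => (f x, g x)) x)
      = Real.log (nn X g x) - Real.log (nn X (fun x => (f x, g x)) x) := by
    intro x hx
    rw [Real.log_div (nn_pos (X := X) g hx).ne' (nn_pos (X := X) (fun x => (f x, g x)) hx).ne']
  rw [Finset.sum_congr rfl l1, Finset.sum_sub_distrib, Finset.sum_sub_distrib,
    Finset.sum_add_distrib] at e1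
  rw [Finset.sum_congr rfl l2, Finset.sum_sub_distrib, Finset.sum_add_distrib, Finset.sum_const,
    nsmul_eq_mul] at e2
  rw [Hs_eq X hne f, Hs_eq X hne f', sum_Hs_cls, Finset.sum_congr rfl l3,
    Finset.sum_sub_distrib, ← sub_nonneg]
  have : Real.log ↑X.card - (∑ x ∈ X, Real.log (nn X f x)) / ↑X.card -
      (Real.log ↑X.card - (∑ x ∈ X, Real.log (nn X f' x)) / ↑X.card +
        (∑ x ∈ X, Real.log (nn X g x) - ∑ x ∈ X, Real.log (nn X (fun x => (f x, g x)) x)) /
          ↑X.card - Real.log m)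
      = ((∑ x ∈ X, Real.log (nn X f' x)) - (∑ x ∈ X, Real.log (nn X f x))
        - (∑ x ∈ X, Real.log (nn X g x) - ∑ x ∈ X, Real.log (nn X (fun x => (f x, g x)) x))
        + X.card * Real.log m) / X.card := by
    field_simp
    ring
  rw [this]
  apply div_nonneg _ hX.le
  linarith

end Pool.Agent.Lib.MP_d0a18a_nt.ZP
end

section
/-!
# ENM: monotonicity of the entropy up to the number of values
-/
set_option autoImplicit false

namespace Pool.Agent.Lib.MP_d0a18a_nt.ZP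

open Finset

open ENBM ENCM in
theorem specENM : SpecENM := by
  intro α β γ X f g m hne hm hval
  classical
  have hX : (0 : ℝ) < X.card := by exact_mod_cast Finset.card_pos.2 hne
  have hm0 : 0 < m := by linarith
  have e2 := sum_log_nonpos X (fun x => m⁻¹ * (nn X g x * (nn X (fun x => (f x, g x)) x)⁻¹))
    (fun x hx => by
      have h1 := nn_pos (X := X) (fun x => (f x, g x)) hx
      have h2 := nn_pos (X := X) g hx
      positivity) (by
    rw [← Finset.mul_sum]
    have := vals X f g m hval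
    rw [inv_mul_le_iff₀ hm0]
    exact this)
  have l2 : ∀ x ∈ X, Real.log (m⁻¹ * (nn X g x * (nn X (fun x => (f x, g x)) x)⁻¹))
      = - Real.log m + Real.log (nn X g x) - Real.log (nn X (fun x => (f x, g x)) x) := by
    intro x hx
    have h1 := (nn_pos (X := X) (fun x => (f x, g x)) hx).ne'
    have h2 := (nn_pos (X := X) g hx).ne'
    rw [Real.log_mul (by positivity) (by positivity), Real.log_mul h2 (by positivity),
      Real.log_inv, Real.log_inv]
    ring
  rw [Finset.sum_congr rfl l2, Finset.sum_sub_distrib, Finset.sum_add_distrib, Finset.sum_const,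
    nsmul_eq_mul] at e2
  have e3 : ∑ x ∈ X, Real.log (nn X (fun x => (f x, g x)) x) ≤ ∑ x ∈ X, Real.log (nn X f x) := by
    apply Finset.sum_le_sum
    intro x hx
    apply Real.log_le_log (nn_pos (X := X) (fun x => (f x, g x)) hx)
    unfold nn
    norm_cast
    apply Finset.card_le_card
    intro y hy
    simp only [Finset.mem_filter, Prod.mk.injEq] at hy ⊢
    exact ⟨hy.1, hy.2.1⟩
  rw [Hs_eq X hne f, Hs_eq X hne g, ← sub_nonneg]
  have : Real.log ↑X.card - (∑ x ∈ X, Real.log (nn X g x)) / ↑X.card + Real.log m -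
      (Real.log ↑X.card - (∑ x ∈ X, Real.log (nn X f x)) / ↑X.card)
      = ((∑ x ∈ X, Real.log (nn X f x)) - (∑ x ∈ X, Real.log (nn X g x))
        + X.card * Real.log m) / X.card := by
    field_simp
    ring
  rw [this]
  apply div_nonneg _ hX.le
  linarith

end Pool.Agent.Lib.MP_d0a18a_nt.ZP
end

section
/-!
# EXC: exact chain rule
-/
set_option autoImplicit false

namespace Pool.Agent.Lib.MP_d0a18a_nt.ZP

open Finset

namespace EXCM

/-- averaging over the classes -/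
theorem sum_avg {α γ : Type} (X : Finset α) (g : α → γ) (F : α → ℝ) :
    ∑ x ∈ X, (∑ y ∈ cls X g x, F y) / ((cls X g x).card : ℝ) = ∑ y ∈ X, F y := by
  classical
  have h1 : ∀ x ∈ X, (∑ y ∈ cls X g x, F y) / ((cls X g x).card : ℝ) =
      ∑ y ∈ X, if g y = g x then F y / ((cls X g y).card : ℝ) else 0 := by
    intro x _
    rw [← Finset.sum_filter, Finset.sum_div]
    have e : cls X g x = X.filter (fun y => g y = g x) := by
      unfold cls
      congr
    rw [← e]
    refine Finset.sum_congr rfl fun y hy => ?_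
    have : cls X g y = cls X g x := by
      rw [e, Finset.mem_filter] at hy
      unfold cls
      rw [hy.2]
    rw [this]
  rw [Finset.sum_congr rfl h1, Finset.sum_comm]
  refine Finset.sum_congr rfl fun y hy => ?_
  rw [← Finset.sum_filter, Finset.sum_const, nsmul_eq_mul]
  have e : X.filter (fun x => g y = g x) = cls X g y := by
    unfold cls
    refine Finset.filter_congr fun x _ => ?_
    exact eq_comm
  rw [e]
  have hpos : (0 : ℝ) < ((cls X g y).card : ℝ) := by
    have : y ∈ cls X g y := by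
      unfold cls
      simp [hy]
    exact_mod_cast Finset.card_pos.2 ⟨y, this⟩
  field_simp

end EXCM

open EXCM in
theorem specEXC : SpecEXC := by
  classical
  intro α β γ X c g hX hcg
  have hn : (0 : ℝ) < (X.card : ℝ) := by exact_mod_cast Finset.card_pos.2 hX
  -- entropy of a class
  have h1 : ∀ x ∈ X, Hs (cls X g x) c = (∑ y ∈ cls X g x,
      Real.log (((cls X g y).card : ℝ) / ((cls X c y).card : ℝ))) / ((cls X g x).card : ℝ) := by
    intro x hx
    unfold Hs
    congr 1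
    refine Finset.sum_congr rfl fun y hy => ?_
    have hy' : y ∈ X ∧ g y = g x := by
      unfold cls at hy
      simpa using hy
    have e1 : cls X g y = cls X g x := by
      unfold cls
      rw [hy'.2]
    have e2 : (cls X g x).filter (fun z => c z = c y) = cls X c y := by
      ext z
      unfold cls
      simp only [Finset.mem_filter]
      constructor
      · rintro ⟨⟨h1, -⟩, h2⟩
        exact ⟨h1, h2⟩
      · rintro ⟨h1, h2⟩
        exact ⟨⟨h1, (hcg z h1 y hy'.1 h2).trans hy'.2⟩, h2⟩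
    rw [e1]
    congr 3
    rw [← e2]
  rw [Finset.sum_congr rfl h1, sum_avg X g]
  unfold Hs
  rw [← add_div, ← Finset.sum_add_distrib]
  congr 1
  refine Finset.sum_congr rfl fun y hy => ?_
  have p1 : (0 : ℝ) < ((cls X g y).card : ℝ) := by
    have : y ∈ cls X g y := by
      unfold cls
      simp [hy]
    exact_mod_cast Finset.card_pos.2 ⟨y, this⟩
  have p2 : (0 : ℝ) < ((cls X c y).card : ℝ) := by
    have : y ∈ cls X c y := by
      unfold cls
      simp [hy]
    exact_mod_cast Finset.card_pos.2 ⟨y, this⟩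
  have e1 : (X.filter (fun z => c z = c y)).card = (cls X c y).card := by
    unfold cls
    congr
  have e2 : (X.filter (fun z => g z = g y)).card = (cls X g y).card := by
    unfold cls
    congr
  have g1 : ((Finset.filter (fun z => c z = c y) X).card : ℝ) = ((cls X c y).card : ℝ) := by
    exact_mod_cast e1
  have g2 : ((Finset.filter (fun z => g z = g y) X).card : ℝ) = ((cls X g y).card : ℝ) := by
    exact_mod_cast e2
  have f1 : Real.log ((X.card : ℝ) / ((cls X c y).card : ℝ)) =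
      Real.log ((X.card : ℝ) / ((cls X g y).card : ℝ)) +
      Real.log (((cls X g y).card : ℝ) / ((cls X c y).card : ℝ)) := by
    rw [← Real.log_mul (by positivity) (by positivity)]
    congr 1
    field_simp
  convert f1 using 4

end Pool.Agent.Lib.MP_d0a18a_nt.ZP
end

section
/-!
# FI2: the exponent 0.687
-/
set_option autoImplicit false

namespace Pool.Agent.Lib.MP_d0a18a_nt.ZP

theorem specFI2 (hCNT : SpecCNT) (hMA2 : SpecMA2) : SpecFI2 := by
  obtain ⟨δ, c, C, h, hδ⟩ := hCNT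
  obtain ⟨N0, hN0⟩ := hMA2 δ c C h (by linarith) (1 / 10000) (by norm_num)
  refine ⟨max N0 1, fun N hN => ?_⟩
  have h1 : 1 ≤ N := le_trans (le_max_right _ _) hN
  refine (Real.rpow_le_rpow_of_exponent_le h1 ?_).trans
    (hN0 N (le_trans (le_max_left _ _) hN))
  norm_num
  linarith

end Pool.Agent.Lib.MP_d0a18a_nt.ZP
end

section
/-!
# FIB: the number of solutions, from the entropy of the ratio
-/
set_option autoImplicit false

namespace Pool.Agent.Lib.MP_d0a18a_nt.ZP

open Finset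

namespace FIBM

open ENBM ENCM

theorem exp_two_lt : Real.exp 2 < 7.39 := by
  have h := Real.exp_one_lt_d9
  have e : Real.exp 2 = Real.exp 1 * Real.exp 1 := by rw [← Real.exp_add]; norm_num
  rw [e]
  have h0 := Real.exp_pos 1
  nlinarith

theorem exp_near {a b : ℝ} (ha : -2 ≤ a) (hb : -2 ≤ b) :
    |a - b| ≤ 7.39 * |Real.exp a - Real.exp b| := by
  wlog hab : a ≤ b generalizing a b
  · rw [abs_sub_comm a b, abs_sub_comm (Real.exp a)]
    exact this hb ha (le_of_not_ge hab)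
  have h1 : Real.exp a * (b - a) ≤ Real.exp b - Real.exp a := by
    have e : Real.exp b = Real.exp a * Real.exp (b - a) := by rw [← Real.exp_add]; congr 1; ring
    have h2 := Real.add_one_le_exp (b - a)
    have h3 := mul_le_mul_of_nonneg_left h2 (Real.exp_pos a).le
    rw [e]
    linarith
  have h4 : 1 / 7.39 ≤ Real.exp a := by
    have h5 : Real.exp (-2) ≤ Real.exp a := Real.exp_le_exp.2 ha
    have h6 : 1 / 7.39 ≤ Real.exp (-2) := by
      rw [Real.exp_neg, ← one_div]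
      exact one_div_le_one_div_of_le (Real.exp_pos 2) exp_two_lt.le
    linarith
  have h7 : (1 / 7.39 : ℝ) * (b - a) ≤ Real.exp b - Real.exp a :=
    (mul_le_mul_of_nonneg_right h4 (by linarith)).trans h1
  rw [abs_sub_comm a b, abs_sub_comm (Real.exp a), abs_of_nonneg (by linarith : 0 ≤ b - a),
    abs_of_nonneg (by nlinarith : 0 ≤ Real.exp b - Real.exp a)]
  linarith

/-- the least `k` with `|p_2 - t'| ≤ 2^k` -/
def kk (t' : ℤ) (p : ℤ × ℤ) : ℕ := Nat.clog 2 (p.2 - t').natAbs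

theorem kk_le (t' : ℤ) (p : ℤ × ℤ) : |(p.2 : ℝ) - t'| ≤ (2 : ℝ) ^ kk t' p := by
  have h := Nat.le_pow_clog (b := 2) (by norm_num) (p.2 - t').natAbs
  have h1 : (((p.2 - t').natAbs : ℕ) : ℝ) = |(p.2 : ℝ) - t'| := by
    rw [Nat.cast_natAbs]
    push_cast
    rfl
  rw [← h1]
  unfold kk
  exact_mod_cast h

theorem kk_gt (t' : ℤ) (p : ℤ × ℤ) (h0 : kk t' p ≠ 0) :
    (2 : ℝ) ^ kk t' p < 2 * |(p.2 : ℝ) - t'| := by
  have h2 : 1 < (p.2 - t').natAbs := by
    by_contra hc
    exact h0 (Nat.clog_of_right_le_one (not_lt.1 hc) 2)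
  have h := Nat.pow_pred_clog_lt_self (b := 2) (by norm_num) h2
  have h1 : (((p.2 - t').natAbs : ℕ) : ℝ) = |(p.2 : ℝ) - t'| := by
    rw [Nat.cast_natAbs]
    push_cast
    rfl
  rw [← h1]
  unfold kk at h0 ⊢
  set k := Nat.clog 2 (p.2 - t').natAbs with hk
  have h3 : 2 ^ k = 2 * 2 ^ k.pred := by
    rw [← pow_succ', Nat.pred_eq_sub_one, Nat.sub_add_cancel (by omega)]
  have h4 : 2 ^ k < 2 * (p.2 - t').natAbs := by omega
  exact_mod_cast h4

theorem kk_bound {t' : ℤ} {p : ℤ × ℤ} {h : ℕ} (h1 : |(p.2 : ℝ)| ≤ 3 * 2 ^ h)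
    (h2 : |(t' : ℝ)| ≤ 3 * 2 ^ h) : kk t' p ≤ h + 3 := by
  unfold kk
  apply Nat.clog_le_of_le_pow
  have e1 : (((p.2 - t').natAbs : ℕ) : ℝ) = |(p.2 : ℝ) - t'| := by
    rw [Nat.cast_natAbs]
    push_cast
    rfl
  have h3 : |(p.2 : ℝ) - t'| ≤ 8 * 2 ^ h := by
    calc |(p.2 : ℝ) - t'| ≤ |(p.2 : ℝ)| + |(t' : ℝ)| := abs_sub _ _
      _ ≤ 3 * 2 ^ h + 3 * 2 ^ h := add_le_add h1 h2
      _ ≤ 8 * 2 ^ h := by
        have : (0 : ℝ) < 2 ^ h := by positivity
        linarith
  have h4 : (((p.2 - t').natAbs : ℕ) : ℝ) ≤ ((2 ^ (h + 3) : ℕ) : ℝ) := by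
    rw [e1]
    push_cast
    calc |(p.2 : ℝ) - t'| ≤ 8 * 2 ^ h := h3
      _ = 2 ^ (h + 3) := by ring
  exact_mod_cast h4

/-- the number of values of the floor of numbers in an interval -/
theorem card_floor {ι : Type} (S : Finset ι) (f : ι → ℝ) (D : ℝ)
    (hD : ∀ a ∈ S, ∀ b ∈ S, |f a - f b| ≤ D) :
    ((S.image (fun a => ⌊f a⌋)).card : ℝ) ≤ D + 2 ∨ S = ∅ := by
  classical
  rcases S.eq_empty_or_nonempty with h | h
  · exact Or.inr h
  · left
    obtain ⟨a, ha, hmin⟩ := S.exists_min_image f h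
    have hsub : S.image (fun a => ⌊f a⌋) ⊆ Finset.Icc ⌊f a⌋ ⌊f a + D⌋ := by
      intro z hz
      obtain ⟨b, hb, rfl⟩ := Finset.mem_image.1 hz
      rw [Finset.mem_Icc]
      refine ⟨Int.floor_le_floor (hmin b hb), Int.floor_le_floor ?_⟩
      have := hD b hb a ha
      rw [abs_le] at this
      linarith
    have hc := Finset.card_le_card hsub
    rw [Int.card_Icc] at hc
    have hD0 : 0 ≤ D := (abs_nonneg _).trans (hD a ha a ha)
    have h1 : ⌊f a⌋ ≤ ⌊f a + D⌋ := Int.floor_le_floor (by linarith)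
    have h2 : ((S.image (fun a => ⌊f a⌋)).card : ℤ) ≤ ⌊f a + D⌋ + 1 - ⌊f a⌋ := by omega
    have h3 : ((S.image (fun a => ⌊f a⌋)).card : ℝ) ≤ (⌊f a + D⌋ : ℝ) + 1 - (⌊f a⌋ : ℝ) := by
      exact_mod_cast h2
    have h4 : (⌊f a + D⌋ : ℝ) ≤ f a + D := Int.floor_le _
    have h5 : f a < (⌊f a⌋ : ℝ) + 1 := Int.lt_floor_add_one _
    linarith

open Classical in
/-- the `ω` for which `p` is a solution -/
noncomputable def Sp {ι : Type} (Ω : Finset ι) (lam : ι → ℝ) (C : Finset ℤ) (t t' : ℤ)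
    (p : ℤ × ℤ) : Finset ι :=
  Ω.filter (fun ω => p ∈ sol C (Real.exp (lam ω)) t t')

open Classical in
/-- the number of values of `ℓ` for one `p` -/
theorem cnt {ι : Type} (Ω : Finset ι) (lam : ι → ℝ) (C : Finset ℤ) (t t' : ℤ) (h : ℕ)
    (hlam : ∀ ω ∈ Ω, |lam ω| ≤ 2) (p : ℤ × ℤ) (hk : kk t' p ≤ h + 3) :
    (((Sp Ω lam C t t' p).image (fun ω => ⌊lam ω * 2 ^ h⌋)).card : ℝ) * 2 ^ kk t' p ≤
      640 * 2 ^ h := by
  have hh : (0 : ℝ) < 2 ^ h := by positivity
  have hkp : (0 : ℝ) < 2 ^ kk t' p := by positivity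
  set k := kk t' p with hkdef
  set S := Sp Ω lam C t t' p with hS
  have hmem : ∀ ω ∈ S, |lam ω| ≤ 2 ∧
      |((p.1 : ℝ) - t) - Real.exp (lam ω) * ((p.2 : ℝ) - t')| ≤ 21 := by
    intro ω hω
    rw [hS] at hω
    unfold Sp at hω
    rw [Finset.mem_filter] at hω
    refine ⟨hlam ω hω.1, ?_⟩
    have h1 := hω.2
    unfold sol at h1
    exact (Finset.mem_filter.1 h1).2
  by_cases h0 : k = 0
  · -- `k = 0`
    have hD : ∀ a ∈ S, ∀ b ∈ S, |lam a * 2 ^ h - lam b * 2 ^ h| ≤ 4 * 2 ^ h := by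
      intro a ha b hb
      rw [← sub_mul, abs_mul, abs_of_pos hh]
      apply mul_le_mul_of_nonneg_right _ hh.le
      calc |lam a - lam b| ≤ |lam a| + |lam b| := abs_sub _ _
        _ ≤ 2 + 2 := add_le_add (hmem a ha).1 (hmem b hb).1
        _ = 4 := by norm_num
    rw [h0, pow_zero, mul_one]
    have hh1 : (1 : ℝ) ≤ 2 ^ h := one_le_pow₀ (by norm_num)
    rcases card_floor S (fun ω => lam ω * 2 ^ h) _ hD with h1 | h1
    · linarith
    · rw [h1]; simp
  · have hgt := kk_gt t' p (by rw [← hkdef]; exact h0)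
    rw [← hkdef] at hgt
    have hpos : 0 < |(p.2 : ℝ) - t'| := by linarith
    have hexp : ∀ a ∈ S, ∀ b ∈ S, |Real.exp (lam a) - Real.exp (lam b)| * 2 ^ k ≤ 84 := by
      intro a ha b hb
      have h1 := (hmem a ha).2
      have h2 := (hmem b hb).2
      have h3 : |(Real.exp (lam a) - Real.exp (lam b)) * ((p.2 : ℝ) - t')| ≤ 42 := by
        have e : (Real.exp (lam a) - Real.exp (lam b)) * ((p.2 : ℝ) - t') =
          (((p.1 : ℝ) - t) - Real.exp (lam b) * ((p.2 : ℝ) - t')) -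
          (((p.1 : ℝ) - t) - Real.exp (lam a) * ((p.2 : ℝ) - t')) := by ring
        rw [e]
        calc _ ≤ _ := abs_sub _ _
          _ ≤ 21 + 21 := add_le_add h2 h1
          _ = 42 := by norm_num
      rw [abs_mul] at h3
      have h4 : |Real.exp (lam a) - Real.exp (lam b)| * 2 ^ k ≤
          |Real.exp (lam a) - Real.exp (lam b)| * (2 * |(p.2 : ℝ) - t'|) :=
        mul_le_mul_of_nonneg_left hgt.le (abs_nonneg _)
      linarith
    have hD : ∀ a ∈ S, ∀ b ∈ S, |lam a * 2 ^ h - lam b * 2 ^ h| ≤ 621 * 2 ^ h / 2 ^ k := by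
      intro a ha b hb
      rw [← sub_mul, abs_mul, abs_of_pos hh, le_div_iff₀ hkp]
      have h1 := (abs_le.1 (hmem a ha).1).1
      have h2 := (abs_le.1 (hmem b hb).1).1
      have h3 := exp_near h1 h2
      have h4 := hexp a ha b hb
      have h5 : |lam a - lam b| * 2 ^ k ≤ 621 := by
        have h6 := mul_le_mul_of_nonneg_right h3 hkp.le
        linarith
      calc |lam a - lam b| * 2 ^ h * 2 ^ k = (|lam a - lam b| * 2 ^ k) * 2 ^ h := by ring
        _ ≤ 621 * 2 ^ h := mul_le_mul_of_nonneg_right h5 hh.le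
    have h8 : (2 : ℝ) ^ k ≤ 8 * 2 ^ h := by
      calc (2 : ℝ) ^ k ≤ 2 ^ (h + 3) := pow_le_pow_right₀ (by norm_num) hk
        _ = 8 * 2 ^ h := by ring
    rcases card_floor S (fun ω => lam ω * 2 ^ h) _ hD with h1 | h1
    · have h2 := mul_le_mul_of_nonneg_right h1 hkp.le
      have h3 : (621 * 2 ^ h / 2 ^ k + 2) * (2 : ℝ) ^ k = 621 * 2 ^ h + 2 * 2 ^ k := by
        field_simp
      rw [h3] at h2
      linarith
    · rw [h1]; simp

open Classical in
theorem sum_Sp {ι : Type} (Ω : Finset ι) (l : ι → ℤ) (S : Finset ι) (hS : S ⊆ Ω) :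
    ∑ ω ∈ S, (nn Ω l ω)⁻¹ ≤ ((S.image l).card : ℝ) := by
  rw [← Finset.sum_fiberwise_of_maps_to (t := S.image l) (g := l)
    (fun p hp => Finset.mem_image_of_mem _ hp)]
  calc ∑ b ∈ S.image l, ∑ ω ∈ S.filter (fun ω => l ω = b), (nn Ω l ω)⁻¹
      ≤ ∑ b ∈ S.image l, (1 : ℝ) := by
        apply Finset.sum_le_sum
        intro b _
        have hs : S.filter (fun ω => l ω = b) ⊆ Ω.filter (fun ω => l ω = b) :=
          Finset.filter_subset_filter _ hS
        refine (Finset.sum_le_sum_of_subset_of_nonneg hs ?_).trans ?_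
        · intro ω hω _
          exact inv_nonneg.2 (nn_pos l (Finset.mem_filter.1 hω).1).le
        · have e1 := sum_inv_le Ω l b
          rw [← Finset.sum_filter] at e1
          exact e1
    _ = _ := by simp

open Classical in
/-- the number of possible solutions with given `k` -/
theorem card_k {ι : Type} (Ω : Finset ι) (lam : ι → ℝ) (C : Finset ℤ) (t t' : ℤ) (δ C1 : ℝ)
    (hC1 : 1 ≤ C1) (hlam : ∀ ω ∈ Ω, |lam ω| ≤ 2)
    (hreg : ∀ (t : ℤ) (d : ℝ), 1 ≤ d →
      ((C.filter (fun s => t ≤ s ∧ (s : ℝ) ≤ t + d)).card : ℝ) ≤ C1 * d ^ δ) (k : ℕ) :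
    ((((C ×ˢ C).filter (fun p => (Sp Ω lam C t t' p).Nonempty)).filter
      (fun p => kk t' p = k)).card : ℝ) ≤ C1 ^ 2 * (116 : ℝ) ^ δ * ((2 : ℝ) ^ k) ^ (2 * δ) := by
  have hk : (1 : ℝ) ≤ 2 ^ k := one_le_pow₀ (by norm_num)
  have hsub : ((C ×ˢ C).filter (fun p => (Sp Ω lam C t t' p).Nonempty)).filter
      (fun p => kk t' p = k) ⊆
      (C.filter (fun s => (t - 29 * 2 ^ k : ℤ) ≤ s ∧
        (s : ℝ) ≤ ((t - 29 * 2 ^ k : ℤ) : ℝ) + 58 * 2 ^ k)) ×ˢ
      (C.filter (fun s => (t' - 2 ^ k : ℤ) ≤ s ∧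
        (s : ℝ) ≤ ((t' - 2 ^ k : ℤ) : ℝ) + 2 * 2 ^ k)) := by
    intro p hp
    rw [Finset.mem_filter, Finset.mem_filter, Finset.mem_product] at hp
    obtain ⟨⟨⟨m1, m2⟩, ω, hω⟩, hpk⟩ := hp
    have h1 := kk_le t' p
    rw [hpk] at h1
    unfold Sp at hω
    rw [Finset.mem_filter] at hω
    have h2 := hω.2
    unfold sol at h2
    have h3 := (Finset.mem_filter.1 h2).2
    have h4 : Real.exp (lam ω) ≤ 7.39 := by
      have h5 := (abs_le.1 (hlam ω hω.1)).2
      exact (Real.exp_le_exp.2 h5).trans exp_two_lt.le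
    have h6 : |Real.exp (lam ω) * ((p.2 : ℝ) - t')| ≤ 7.39 * 2 ^ k := by
      rw [abs_mul, abs_of_pos (Real.exp_pos _)]
      exact mul_le_mul h4 h1 (abs_nonneg _) (by norm_num)
    have h7 : |(p.1 : ℝ) - t| ≤ 29 * 2 ^ k := by
      have e : (p.1 : ℝ) - t = (((p.1 : ℝ) - t) - Real.exp (lam ω) * ((p.2 : ℝ) - t')) +
        Real.exp (lam ω) * ((p.2 : ℝ) - t') := by ring
      rw [e]
      calc _ ≤ _ := abs_add_le _ _
        _ ≤ 21 + 7.39 * 2 ^ k := add_le_add h3 h6
        _ ≤ 29 * 2 ^ k := by linarith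
    rw [abs_le] at h1 h7
    rw [Finset.mem_product, Finset.mem_filter, Finset.mem_filter]
    refine ⟨⟨m1, ?_, ?_⟩, ⟨m2, ?_, ?_⟩⟩
    · have : ((t - 29 * 2 ^ k : ℤ) : ℝ) ≤ (p.1 : ℝ) := by push_cast; linarith
      exact_mod_cast this
    · push_cast; linarith
    · have : ((t' - 2 ^ k : ℤ) : ℝ) ≤ (p.2 : ℝ) := by push_cast; linarith
      exact_mod_cast this
    · push_cast; linarith
  have h1 := Finset.card_le_card hsub
  rw [Finset.card_product] at h1
  have h2 := hreg (t - 29 * 2 ^ k) (58 * 2 ^ k) (by linarith)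
  have h3 := hreg (t' - 2 ^ k) (2 * 2 ^ k) (by linarith)
  have h1' := (Nat.cast_le (α := ℝ)).2 h1
  rw [Nat.cast_mul] at h1'
  calc ((((C ×ˢ C).filter (fun p => (Sp Ω lam C t t' p).Nonempty)).filter
      (fun p => kk t' p = k)).card : ℝ) ≤ _ := h1'
    _ ≤ (C1 * (58 * 2 ^ k) ^ δ) * (C1 * (2 * 2 ^ k) ^ δ) :=
        mul_le_mul h2 h3 (Nat.cast_nonneg _) (by positivity)
    _ = C1 ^ 2 * (116 : ℝ) ^ δ * ((2 : ℝ) ^ k) ^ (2 * δ) := by
        have e1 : (58 * (2 : ℝ) ^ k) ^ δ * (2 * 2 ^ k) ^ δ =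
            (116 : ℝ) ^ δ * ((2 : ℝ) ^ k) ^ (2 * δ) := by
          rw [← Real.mul_rpow (by positivity) (by positivity),
            Real.rpow_mul (by positivity), ← Real.mul_rpow (by positivity) (by positivity)]
          congr 1
          rw [Real.rpow_two]
          ring
        calc _ = C1 ^ 2 * ((58 * (2 : ℝ) ^ k) ^ δ * (2 * 2 ^ k) ^ δ) := by ring
          _ = _ := by rw [e1]; ring

end FIBM

open ENBM ENCM FIBM in
theorem specFIB : SpecFIB := by
  intro δ C1 hδ hC1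
  classical
  set A0 : ℝ := C1 ^ 2 * (116 : ℝ) ^ δ with hA0
  have hA01 : 1 ≤ A0 := by
    have h1 : (1 : ℝ) ≤ (116 : ℝ) ^ δ := Real.one_le_rpow (by norm_num) (by linarith)
    have h2 : 1 ≤ C1 ^ 2 := one_le_pow₀ hC1
    rw [hA0]
    nlinarith
  have hl2 : 0 < Real.log 2 := Real.log_pos (by norm_num)
  have hl4 : 0 < Real.log 4 := Real.log_pos (by norm_num)
  have hd : 0 ≤ 2 * δ - 1 := by linarith
  refine ⟨Real.log 4 + Real.log (A0 * 640) + 3 * (2 * δ - 1) * Real.log 2, ?_, ?_⟩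
  · have h1 : 1 ≤ Real.log (A0 * 640) := by
      rw [Real.le_log_iff_exp_le (by positivity)]
      have := Real.exp_one_lt_d9
      linarith
    have h2 : 0 ≤ 3 * (2 * δ - 1) * Real.log 2 := by positivity
    linarith
  intro ι Ω lam h C hne hh hlam hC hreg t ht t' ht'
  have hN : (0 : ℝ) < Ω.card := by exact_mod_cast Finset.card_pos.2 hne
  set l : ι → ℤ := fun ω => ⌊lam ω * 2 ^ h⌋ with hl
  set F : ι → ℝ := fun ω => ((sol C (Real.exp (lam ω)) t t').card : ℝ) with hF
  have hFpos : ∀ ω, 0 < F ω := by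
    intro ω
    have : 0 < (sol C (Real.exp (lam ω)) t t').card := by
      apply Finset.card_pos.2
      refine ⟨(t, t'), ?_⟩
      unfold sol
      rw [Finset.mem_filter, Finset.mem_product]
      refine ⟨⟨ht, ht'⟩, ?_⟩
      simp
    simp only [hF]
    exact_mod_cast this
  set R : ℤ × ℤ → ℝ := fun p => ((h : ℝ) + 4) * A0 * 640 * 2 ^ h *
    ((2 : ℝ) ^ kk t' p) ^ (2 * δ - 1) with hR
  have hRpos : ∀ p, 0 < R p := by
    intro p
    simp only [hR]
    positivity
  set Λ : ℝ := Real.log ((h : ℝ) + 4) + Real.log (A0 * 640) + h * Real.log 2 +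
    (2 * δ - 1) * (h + 3) * Real.log 2 with hΛ
  have hkk : ∀ p ∈ C ×ˢ C, kk t' p ≤ h + 3 := by
    intro p hp
    rw [Finset.mem_product] at hp
    exact kk_bound (hC _ hp.2) (hC _ ht')
  have hRΛ : ∀ p ∈ C ×ˢ C, Real.log (R p) ≤ Λ := by
    intro p hp
    have e : Real.log (R p) = Real.log ((h : ℝ) + 4) + Real.log (A0 * 640) + h * Real.log 2 +
        (2 * δ - 1) * (kk t' p) * Real.log 2 := by
      simp only [hR]
      rw [Real.log_mul (by positivity) (by positivity), Real.log_mul (by positivity) (by positivity),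
        mul_assoc (((h : ℝ) + 4)), Real.log_mul (by positivity) (by positivity), Real.log_pow,
        Real.log_rpow (by positivity), Real.log_pow]
      ring
    rw [e, hΛ]
    have h1 : ((kk t' p : ℕ) : ℝ) ≤ (h : ℝ) + 3 := by exact_mod_cast hkk p hp
    have h2 : (2 * δ - 1) * ((kk t' p : ℕ) : ℝ) ≤ (2 * δ - 1) * ((h : ℝ) + 3) :=
      mul_le_mul_of_nonneg_left h1 hd
    have h3 := mul_le_mul_of_nonneg_right h2 hl2.le
    linarith
  -- the mass of `r`
  have hmass : ∑ ω ∈ Ω, ∑ p ∈ sol C (Real.exp (lam ω)) t t', (nn Ω l ω)⁻¹ * (R p)⁻¹ ≤ 1 := by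
    have hcomm : ∑ ω ∈ Ω, ∑ p ∈ sol C (Real.exp (lam ω)) t t', (nn Ω l ω)⁻¹ * (R p)⁻¹ =
        ∑ p ∈ C ×ˢ C, ∑ ω ∈ Sp Ω lam C t t' p, (nn Ω l ω)⁻¹ * (R p)⁻¹ := by
      apply Finset.sum_comm'
      intro ω p
      unfold Sp
      rw [Finset.mem_filter]
      constructor
      · rintro ⟨h1, h2⟩
        exact ⟨⟨h1, h2⟩, Finset.mem_of_mem_filter _ h2⟩
      · rintro ⟨⟨h1, h2⟩, _⟩
        exact ⟨h1, h2⟩
    rw [hcomm]
    have hone : ∀ p ∈ C ×ˢ C, ∑ ω ∈ Sp Ω lam C t t' p, (nn Ω l ω)⁻¹ * (R p)⁻¹ ≤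
        if (Sp Ω lam C t t' p).Nonempty then
          (((h : ℝ) + 4) * (A0 * ((2 : ℝ) ^ kk t' p) ^ (2 * δ)))⁻¹ else 0 := by
      intro p hp
      by_cases hS : (Sp Ω lam C t t' p).Nonempty
      · rw [if_pos hS, ← Finset.sum_mul]
        have h1 := sum_Sp Ω l (Sp Ω lam C t t' p) (Finset.filter_subset _ _)
        have h2 := cnt Ω lam C t t' h hlam p (hkk p hp)
        have hkp : (0 : ℝ) < 2 ^ kk t' p := by positivity
        have h3 : ∑ ω ∈ Sp Ω lam C t t' p, (nn Ω l ω)⁻¹ ≤ 640 * 2 ^ h / 2 ^ kk t' p := by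
          rw [le_div_iff₀ hkp]
          exact (mul_le_mul_of_nonneg_right h1 hkp.le).trans h2
        calc (∑ ω ∈ Sp Ω lam C t t' p, (nn Ω l ω)⁻¹) * (R p)⁻¹
            ≤ (640 * 2 ^ h / 2 ^ kk t' p) * (R p)⁻¹ :=
              mul_le_mul_of_nonneg_right h3 (inv_nonneg.2 (hRpos p).le)
          _ = (((h : ℝ) + 4) * (A0 * ((2 : ℝ) ^ kk t' p) ^ (2 * δ)))⁻¹ := by
              have e1 : ((2 : ℝ) ^ kk t' p) ^ (2 * δ) =
                  ((2 : ℝ) ^ kk t' p) ^ (2 * δ - 1) * 2 ^ kk t' p := by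
                conv_rhs => rw [← Real.rpow_one ((2 : ℝ) ^ kk t' p)]
                rw [← Real.rpow_mul hkp.le, one_mul, ← Real.rpow_add hkp]
                congr 1
                ring
              simp only [hR]
              rw [e1]
              have hq : (0 : ℝ) < ((2 : ℝ) ^ kk t' p) ^ (2 * δ - 1) := by positivity
              have hA : 0 < A0 := by linarith
              have hh4 : (0 : ℝ) < (h : ℝ) + 4 := by positivity
              field_simp
      · rw [if_neg hS]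
        rw [Finset.not_nonempty_iff_eq_empty] at hS
        rw [hS]
        simp
    refine (Finset.sum_le_sum hone).trans ?_
    rw [← Finset.sum_filter]
    have hmaps : ∀ p ∈ (C ×ˢ C).filter (fun p => (Sp Ω lam C t t' p).Nonempty),
        kk t' p ∈ Finset.range (h + 4) := by
      intro p hp
      rw [Finset.mem_range]
      have := hkk p (Finset.mem_filter.1 hp).1
      omega
    rw [← Finset.sum_fiberwise_of_maps_to hmaps]
    have hk1 : ∀ k ∈ Finset.range (h + 4),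
        ∑ p ∈ ((C ×ˢ C).filter (fun p => (Sp Ω lam C t t' p).Nonempty)).filter
          (fun p => kk t' p = k), (((h : ℝ) + 4) * (A0 * ((2 : ℝ) ^ kk t' p) ^ (2 * δ)))⁻¹ ≤
        ((h : ℝ) + 4)⁻¹ := by
      intro k _
      have h1 : ∀ p ∈ ((C ×ˢ C).filter (fun p => (Sp Ω lam C t t' p).Nonempty)).filter
          (fun p => kk t' p = k), (((h : ℝ) + 4) * (A0 * ((2 : ℝ) ^ kk t' p) ^ (2 * δ)))⁻¹ =
          (((h : ℝ) + 4) * (A0 * ((2 : ℝ) ^ k) ^ (2 * δ)))⁻¹ := by
        intro p hp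
        rw [(Finset.mem_filter.1 hp).2]
      rw [Finset.sum_congr rfl h1, Finset.sum_const, nsmul_eq_mul]
      have h2 := card_k Ω lam C t t' δ C1 hC1 hlam hreg k
      have hq : (0 : ℝ) < ((2 : ℝ) ^ k) ^ (2 * δ) := by positivity
      have hA : 0 < A0 := by linarith
      have hh4 : (0 : ℝ) < (h : ℝ) + 4 := by positivity
      calc _ ≤ (A0 * ((2 : ℝ) ^ k) ^ (2 * δ)) *
            (((h : ℝ) + 4) * (A0 * ((2 : ℝ) ^ k) ^ (2 * δ)))⁻¹ :=
            mul_le_mul_of_nonneg_right h2 (by positivity)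
        _ = ((h : ℝ) + 4)⁻¹ := by field_simp
    refine (Finset.sum_le_sum hk1).trans ?_
    rw [Finset.sum_const, Finset.card_range, nsmul_eq_mul]
    push_cast
    have hh4 : (0 : ℝ) < (h : ℝ) + 4 := by positivity
    rw [mul_inv_cancel₀ hh4.ne']
  -- one `ω`
  have hom : ∀ ω ∈ Ω, Real.log (F ω) + Real.log Ω.card - Real.log (nn Ω l ω) ≤
      Λ - 1 + Ω.card * ∑ p ∈ sol C (Real.exp (lam ω)) t t', (nn Ω l ω)⁻¹ * (R p)⁻¹ := by
    intro ω hω
    have hn := nn_pos (X := Ω) l hω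
    have hFp := hFpos ω
    have h1 : ∀ p ∈ sol C (Real.exp (lam ω)) t t',
        Real.log (F ω) + Real.log Ω.card - Real.log (nn Ω l ω) - Λ ≤
        (F ω * Ω.card) * ((nn Ω l ω)⁻¹ * (R p)⁻¹) - 1 := by
      intro p hp
      have hRp := hRpos p
      have hpC : p ∈ C ×ˢ C := Finset.mem_of_mem_filter _ hp
      have e1 := Real.log_le_sub_one_of_pos
        (show 0 < (F ω * Ω.card) * ((nn Ω l ω)⁻¹ * (R p)⁻¹) by positivity)
      rw [Real.log_mul (by positivity) (by positivity), Real.log_mul (by positivity) (by positivity),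
        Real.log_mul (by positivity) (by positivity), Real.log_inv, Real.log_inv] at e1
      have e2 := hRΛ p hpC
      linarith
    have h2 := Finset.sum_le_sum h1
    rw [Finset.sum_const, nsmul_eq_mul, Finset.sum_sub_distrib, ← Finset.mul_sum,
      Finset.sum_const, nsmul_eq_mul, mul_one] at h2
    change F ω * (Real.log (F ω) + Real.log Ω.card - Real.log (nn Ω l ω) - Λ) ≤
      (F ω * Ω.card) * ∑ p ∈ sol C (Real.exp (lam ω)) t t', (nn Ω l ω)⁻¹ * (R p)⁻¹ - F ω at h2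
    have h3 : F ω * (Real.log (F ω) + Real.log Ω.card - Real.log (nn Ω l ω) - Λ) ≤
        F ω * (Ω.card * ∑ p ∈ sol C (Real.exp (lam ω)) t t', (nn Ω l ω)⁻¹ * (R p)⁻¹ - 1) := by
      linarith
    have h4 := le_of_mul_le_mul_left h3 hFp
    linarith
  have hsum := Finset.sum_le_sum hom
  rw [Finset.sum_sub_distrib, Finset.sum_add_distrib, Finset.sum_const, nsmul_eq_mul,
    Finset.sum_add_distrib, Finset.sum_const, nsmul_eq_mul, ← Finset.mul_sum] at hsum
  have hm2 := mul_le_mul_of_nonneg_left hmass hN.le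
  have hfin : ∑ ω ∈ Ω, Real.log (F ω) ≤
      Ω.card * (Λ - (Real.log Ω.card - (∑ x ∈ Ω, Real.log (nn Ω l x)) / Ω.card)) := by
    have e : Ω.card * (Λ - (Real.log Ω.card - (∑ x ∈ Ω, Real.log (nn Ω l x)) / Ω.card)) =
        Ω.card * Λ - Ω.card * Real.log Ω.card + ∑ x ∈ Ω, Real.log (nn Ω l x) := by
      field_simp
      ring
    rw [e]
    linarith
  have hfin2 : (∑ ω ∈ Ω, Real.log (F ω)) / Ω.card ≤ Λ - Hs Ω l := by
    rw [Hs_eq Ω hne l, div_le_iff₀ hN]
    linarith
  have hlog4 : Real.log ((h : ℝ) + 4) ≤ Real.log ((h : ℝ) + 1) + Real.log 4 := by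
    rw [← Real.log_mul (by positivity) (by norm_num)]
    apply Real.log_le_log (by positivity)
    have : (0 : ℝ) ≤ h := Nat.cast_nonneg h
    linarith
  refine hfin2.trans ?_
  rw [hΛ]
  nlinarith [hlog4]

end Pool.Agent.Lib.MP_d0a18a_nt.ZP
end

section
/-!
# G3D: the three direction inequality, abstract form
-/
set_option autoImplicit false

namespace Pool.Agent.Lib.MP_d0a18a_nt.ZP

open Finset

namespace G3DM

open ENBM ENCM

open Classical in
/-- the pairs with `Z0 y = Z0 y'`, `Z1 y = Z1 u`, `Z2 y' = Z2 u'` -/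
noncomputable def QQ {α γ : Type} (X : Finset α) (Z0 Z1 Z2 : α → γ) (u u' : α) : Finset (α × α) :=
  (X ×ˢ X).filter (fun p => Z0 p.1 = Z0 p.2 ∧ Z1 p.1 = Z1 u ∧ Z2 p.2 = Z2 u')

open Classical in
/-- the number of pairs of values of `c` -/
theorem card_c {α β γ τ : Type} (X : Finset α) (c : α → β) (Z0 Z1 Z2 : α → γ) (T : α → τ)
    (B : ℕ) (h1 : ∀ z t, ((X.filter (fun y => Z1 y = z ∧ T y = t)).image c).card ≤ B)
    (h2 : ∀ z t, ((X.filter (fun y => Z2 y = z ∧ T y = t)).image c).card ≤ B) (u u' : α) :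
    ((QQ X Z0 Z1 Z2 u u').image (fun p => (c p.1, c p.2))).card ≤
      B ^ 2 * Fb X Z0 Z1 Z2 T u u' := by
  have hsub : (QQ X Z0 Z1 Z2 u u').image (fun p => (c p.1, c p.2)) ⊆
      ((QQ X Z0 Z1 Z2 u u').image (fun p => (T p.1, T p.2))).biUnion (fun t =>
        ((X.filter (fun y => Z1 y = Z1 u ∧ T y = t.1)).image c) ×ˢ
        ((X.filter (fun y => Z2 y = Z2 u' ∧ T y = t.2)).image c)) := by
    intro q hq
    rw [Finset.mem_image] at hq
    obtain ⟨p, hp, rfl⟩ := hq
    have hp' := hp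
    unfold QQ at hp'
    rw [Finset.mem_filter, Finset.mem_product] at hp'
    obtain ⟨⟨a1, a2⟩, a3, a4, a5⟩ := hp'
    rw [Finset.mem_biUnion]
    refine ⟨(T p.1, T p.2), Finset.mem_image.2 ⟨p, hp, rfl⟩, ?_⟩
    rw [Finset.mem_product]
    exact ⟨Finset.mem_image.2 ⟨p.1, Finset.mem_filter.2 ⟨a1, a4, rfl⟩, rfl⟩,
      Finset.mem_image.2 ⟨p.2, Finset.mem_filter.2 ⟨a2, a5, rfl⟩, rfl⟩⟩
  refine (Finset.card_le_card hsub).trans ?_
  have h3 := Finset.card_biUnion_le_card_mul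
    ((QQ X Z0 Z1 Z2 u u').image (fun p => (T p.1, T p.2))) (fun t =>
        ((X.filter (fun y => Z1 y = Z1 u ∧ T y = t.1)).image c) ×ˢ
        ((X.filter (fun y => Z2 y = Z2 u' ∧ T y = t.2)).image c)) (B ^ 2) (by
    intro t _
    rw [Finset.card_product, pow_two]
    exact Nat.mul_le_mul (h1 _ _) (h2 _ _))
  refine h3.trans ?_
  rw [mul_comm]
  exact le_of_eq rfl

open Classical in
/-- the sum of the reciprocals of the class sizes -/
theorem sum_inv {α β γ : Type} (X : Finset α) (c : α → β) (Z0 Z1 Z2 : α → γ) (u u' : α) :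
    ∑ p ∈ QQ X Z0 Z1 Z2 u u', (nn X c p.1)⁻¹ * (nn X c p.2)⁻¹ ≤
      (((QQ X Z0 Z1 Z2 u u').image (fun p => (c p.1, c p.2))).card : ℝ) := by
  have h0 : ∀ x ∈ X, 0 ≤ (nn X c x)⁻¹ := fun x hx => inv_nonneg.2 (nn_pos c hx).le
  rw [← Finset.sum_fiberwise_of_maps_to (t := (QQ X Z0 Z1 Z2 u u').image
    (fun p => (c p.1, c p.2))) (g := fun p => (c p.1, c p.2))
    (fun p hp => Finset.mem_image_of_mem _ hp)]
  calc ∑ b ∈ (QQ X Z0 Z1 Z2 u u').image (fun p => (c p.1, c p.2)),
        ∑ p ∈ (QQ X Z0 Z1 Z2 u u').filter (fun p => (c p.1, c p.2) = b),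
          (nn X c p.1)⁻¹ * (nn X c p.2)⁻¹
      ≤ ∑ b ∈ (QQ X Z0 Z1 Z2 u u').image (fun p => (c p.1, c p.2)), (1 : ℝ) := by
        apply Finset.sum_le_sum
        intro b _
        have hs : (QQ X Z0 Z1 Z2 u u').filter (fun p => (c p.1, c p.2) = b) ⊆
            (X.filter (fun x => c x = b.1)) ×ˢ (X.filter (fun x => c x = b.2)) := by
          intro p hp
          rw [Finset.mem_filter] at hp
          obtain ⟨hp1, hp2⟩ := hp
          unfold QQ at hp1
          rw [Finset.mem_filter, Finset.mem_product] at hp1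
          rw [Finset.mem_product, Finset.mem_filter, Finset.mem_filter]
          exact ⟨⟨hp1.1.1, (Prod.ext_iff.1 hp2).1⟩, ⟨hp1.1.2, (Prod.ext_iff.1 hp2).2⟩⟩
        refine (Finset.sum_le_sum_of_subset_of_nonneg hs ?_).trans ?_
        · intro p hp _
          rw [Finset.mem_product, Finset.mem_filter, Finset.mem_filter] at hp
          exact mul_nonneg (h0 _ hp.1.1) (h0 _ hp.2.1)
        · rw [Finset.sum_product]
          simp only
          rw [← Finset.sum_mul_sum]
          have e1 := sum_inv_le X c b.1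
          have e2 := sum_inv_le X c b.2
          rw [← Finset.sum_filter] at e1 e2
          have e3 : 0 ≤ ∑ x ∈ X.filter (fun x => c x = b.2), (nn X c x)⁻¹ :=
            Finset.sum_nonneg fun x hx => h0 x (Finset.mem_filter.1 hx).1
          exact mul_le_one₀ e1 e3 e2
    _ = _ := by simp

open Classical in
theorem Fb_congr {α γ τ : Type} (X : Finset α) (Z0 Z1 Z2 : α → γ) (T : α → τ) {x x' u u' : α}
    (h1 : Z1 x = Z1 u) (h2 : Z2 x' = Z2 u') : Fb X Z0 Z1 Z2 T x x' = Fb X Z0 Z1 Z2 T u u' := by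
  unfold Fb
  rw [h1, h2]

open Classical in
theorem Fb_pos {α γ τ : Type} (X : Finset α) (Z0 Z1 Z2 : α → γ) (T : α → τ) {x x' : α}
    (hx : x ∈ X) (hx' : x' ∈ X) (h0 : Z0 x = Z0 x') : 0 < Fb X Z0 Z1 Z2 T x x' := by
  unfold Fb
  apply Finset.card_pos.2
  exact ⟨(T x, T x'), Finset.mem_image.2 ⟨(x, x'), Finset.mem_filter.2
    ⟨Finset.mem_product.2 ⟨hx, hx'⟩, h0, rfl, rfl⟩, rfl⟩⟩

open Classical in
/-- the claim `Σ_S ρ ≤ 1` -/
theorem claim {α β γ τ : Type} (X : Finset α) (c : α → β) (Z0 Z1 Z2 : α → γ) (T : α → τ)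
    (B : ℕ) (hB : 1 ≤ B) (h1 : ∀ z t, ((X.filter (fun y => Z1 y = z ∧ T y = t)).image c).card ≤ B)
    (h2 : ∀ z t, ((X.filter (fun y => Z2 y = z ∧ T y = t)).image c).card ≤ B) :
    ∑ p ∈ (X ×ˢ X).filter (fun p => Z0 p.1 = Z0 p.2),
      nn X Z1 p.1 * nn X Z2 p.2 * ((((B : ℝ) ^ 2 * (Fb X Z0 Z1 Z2 T p.1 p.2 : ℝ))⁻¹) *
        ((nn X c p.1)⁻¹ * (nn X c p.2)⁻¹)) ≤ (X.card : ℝ) ^ 2 := by
  have hB0 : (0 : ℝ) < B := by exact_mod_cast hB
  set F : α × α → ℝ := fun p => ((B : ℝ) ^ 2 * (Fb X Z0 Z1 Z2 T p.1 p.2 : ℝ))⁻¹ *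
        ((nn X c p.1)⁻¹ * (nn X c p.2)⁻¹) with hF
  have e1 : ∀ p ∈ (X ×ˢ X).filter (fun p => Z0 p.1 = Z0 p.2),
      nn X Z1 p.1 * nn X Z2 p.2 * F p =
      ∑ v ∈ X ×ˢ X, (if Z1 p.1 = Z1 v.1 ∧ Z2 p.2 = Z2 v.2 then F p else 0) := by
    intro p _
    rw [nn_eq_sum X Z1 p.1, nn_eq_sum X Z2 p.2, Finset.sum_mul_sum, Finset.sum_product,
      Finset.sum_mul]
    apply Finset.sum_congr rfl
    intro v _
    rw [Finset.sum_mul]
    apply Finset.sum_congr rfl
    intro v' _
    by_cases a1 : Z1 p.1 = Z1 v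
    · by_cases a2 : Z2 p.2 = Z2 v'
      · rw [if_pos a1.symm, if_pos a2.symm, if_pos ⟨a1, a2⟩]; ring
      · rw [if_neg (show ¬ (Z2 v' = Z2 p.2) from fun h => a2 (Eq.symm h)),
          if_neg (show ¬ (Z1 p.1 = Z1 v ∧ Z2 p.2 = Z2 v') from fun h => a2 h.2)]
        ring
    · rw [if_neg (show ¬ (Z1 v = Z1 p.1) from fun h => a1 (Eq.symm h)),
        if_neg (show ¬ (Z1 p.1 = Z1 v ∧ Z2 p.2 = Z2 v') from fun h => a1 h.1)]
      ring
  rw [Finset.sum_congr rfl e1, Finset.sum_comm]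
  have e2 : ∀ v ∈ X ×ˢ X, ∑ p ∈ (X ×ˢ X).filter (fun p => Z0 p.1 = Z0 p.2),
      (if Z1 p.1 = Z1 v.1 ∧ Z2 p.2 = Z2 v.2 then F p else 0) ≤ 1 := by
    intro v hv
    rw [← Finset.sum_filter, Finset.filter_filter]
    have e3 : (X ×ˢ X).filter (fun p => Z0 p.1 = Z0 p.2 ∧ Z1 p.1 = Z1 v.1 ∧ Z2 p.2 = Z2 v.2) =
      QQ X Z0 Z1 Z2 v.1 v.2 := rfl
    rw [e3]
    have e4 : ∀ p ∈ QQ X Z0 Z1 Z2 v.1 v.2, F p =
        ((B : ℝ) ^ 2 * (Fb X Z0 Z1 Z2 T v.1 v.2 : ℝ))⁻¹ *
        ((nn X c p.1)⁻¹ * (nn X c p.2)⁻¹) := by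
      intro p hp
      unfold QQ at hp
      rw [Finset.mem_filter] at hp
      simp only [hF]
      rw [Fb_congr X Z0 Z1 Z2 T hp.2.2.1 hp.2.2.2]
    rw [Finset.sum_congr rfl e4, ← Finset.mul_sum]
    have e5 := sum_inv X c Z0 Z1 Z2 v.1 v.2
    have e6 : (((QQ X Z0 Z1 Z2 v.1 v.2).image (fun p => (c p.1, c p.2))).card : ℝ) ≤
        (B : ℝ) ^ 2 * (Fb X Z0 Z1 Z2 T v.1 v.2 : ℝ) := by
      exact_mod_cast card_c X c Z0 Z1 Z2 T B h1 h2 v.1 v.2
    rcases (Nat.eq_zero_or_pos (Fb X Z0 Z1 Z2 T v.1 v.2)) with h | h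
    · rw [h]; simp
    · have h' : (0 : ℝ) < (Fb X Z0 Z1 Z2 T v.1 v.2 : ℝ) := by exact_mod_cast h
      rw [inv_mul_le_iff₀ (by positivity), mul_one]
      exact e5.trans e6
  refine (Finset.sum_le_sum e2).trans ?_
  rw [Finset.sum_const, Finset.card_product, nsmul_eq_mul, mul_one]
  push_cast
  rw [pow_two]

theorem final (n a0 a1 a2 ac L b av : ℝ) (hn : 0 < n)
    (h : a1 + a2 - n * (2 * b) - n * av - ac - ac + a0 - n * L ≤ 0) :
    2 * (L - ac / n) ≤ (L - a0 / n) + (L - a1 / n) + (L - a2 / n) + 2 * b + av := by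
  rw [← sub_nonneg]
  have : (L - a0 / n) + (L - a1 / n) + (L - a2 / n) + 2 * b + av - 2 * (L - ac / n) =
      -(a1 + a2 - n * (2 * b) - n * av - ac - ac + a0 - n * L) / n := by
    field_simp
    ring
  rw [this]
  apply div_nonneg _ hn.le
  linarith

end G3DM

open ENBM ENCM G3DM in
theorem specG3D : SpecG3D := by
  intro α β γ τ X c Z0 Z1 Z2 T B hne hB h1 h2
  classical
  have hX : (0 : ℝ) < X.card := by exact_mod_cast Finset.card_pos.2 hne
  have hB0 : (0 : ℝ) < B := by exact_mod_cast hB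
  set S : Finset (α × α) := (X ×ˢ X).filter (fun p => Z0 p.1 = Z0 p.2) with hS
  -- summation with the weight `1/n_0`
  have key : ∀ G : α × α → ℝ, ∑ p ∈ S, (nn X Z0 p.1)⁻¹ * G p =
      ∑ x ∈ X, (∑ x' ∈ cls X Z0 x, G (x, x')) / ((cls X Z0 x).card : ℝ) := by
    intro G
    rw [hS, Finset.sum_filter, Finset.sum_product]
    apply Finset.sum_congr rfl
    intro x _
    unfold cls
    rw [Finset.sum_div, Finset.sum_filter]
    apply Finset.sum_congr rfl
    intro y _
    by_cases h : Z0 x = Z0 y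
    · rw [if_pos h, if_pos h.symm]
      unfold nn
      rw [div_eq_mul_inv, mul_comm]
    · rw [if_neg h, if_neg (fun h' => h (Eq.symm h'))]
  have keyR : ∀ G : α → ℝ, ∑ p ∈ S, (nn X Z0 p.1)⁻¹ * G p.2 = ∑ x ∈ X, G x := by
    intro G
    rw [key (fun p => G p.2)]
    exact avg_cls X Z0 G
  have keyL : ∀ G : α → ℝ, ∑ p ∈ S, (nn X Z0 p.1)⁻¹ * G p.1 = ∑ x ∈ X, G x := by
    intro G
    rw [key (fun p => G p.1)]
    apply Finset.sum_congr rfl
    intro x hx
    have h3 : (0 : ℝ) < ((cls X Z0 x).card : ℝ) := nn_pos (X := X) Z0 hx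
    change (∑ x' ∈ cls X Z0 x, G x) / ((cls X Z0 x).card : ℝ) = G x
    rw [Finset.sum_const, nsmul_eq_mul]
    field_simp
  have hmem : ∀ p ∈ S, p.1 ∈ X ∧ p.2 ∈ X ∧ Z0 p.1 = Z0 p.2 := by
    intro p hp
    rw [hS, Finset.mem_filter, Finset.mem_product] at hp
    exact ⟨hp.1.1, hp.1.2, hp.2⟩
  have hcl := claim X c Z0 Z1 Z2 T B hB h1 h2
  rw [← hS] at hcl
  -- the inequality `log t ≤ t - 1`
  have hlog : ∀ p ∈ S, (nn X Z0 p.1)⁻¹ * (Real.log (nn X Z1 p.1) + Real.log (nn X Z2 p.2)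
      - 2 * Real.log B - Real.log (Fb X Z0 Z1 Z2 T p.1 p.2 : ℝ) - Real.log (nn X c p.1)
      - Real.log (nn X c p.2) + Real.log (nn X Z0 p.1) - Real.log X.card)
      ≤ (X.card : ℝ)⁻¹ * (nn X Z1 p.1 * nn X Z2 p.2 *
        ((((B : ℝ) ^ 2 * (Fb X Z0 Z1 Z2 T p.1 p.2 : ℝ))⁻¹) *
        ((nn X c p.1)⁻¹ * (nn X c p.2)⁻¹))) - (nn X Z0 p.1)⁻¹ := by
    intro p hp
    obtain ⟨m1, m2, m3⟩ := hmem p hp
    have p0 := nn_pos (X := X) Z0 m1
    have p1 := nn_pos (X := X) Z1 m1
    have p2 := nn_pos (X := X) Z2 m2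
    have pc := nn_pos (X := X) c m1
    have pc' := nn_pos (X := X) c m2
    have pF : (0 : ℝ) < (Fb X Z0 Z1 Z2 T p.1 p.2 : ℝ) := by
      exact_mod_cast Fb_pos X Z0 Z1 Z2 T m1 m2 m3
    set t : ℝ := nn X Z1 p.1 * nn X Z2 p.2 *
        ((((B : ℝ) ^ 2 * (Fb X Z0 Z1 Z2 T p.1 p.2 : ℝ))⁻¹) *
        ((nn X c p.1)⁻¹ * (nn X c p.2)⁻¹)) * (nn X Z0 p.1 * (X.card : ℝ)⁻¹) with ht
    have htp : 0 < t := by positivity
    have e1 := Real.log_le_sub_one_of_pos htp
    have e2 : Real.log t = Real.log (nn X Z1 p.1) + Real.log (nn X Z2 p.2)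
      - 2 * Real.log B - Real.log (Fb X Z0 Z1 Z2 T p.1 p.2 : ℝ) - Real.log (nn X c p.1)
      - Real.log (nn X c p.2) + Real.log (nn X Z0 p.1) - Real.log X.card := by
      rw [ht, Real.log_mul (by positivity) (by positivity),
        Real.log_mul (by positivity) (by positivity),
        Real.log_mul (by positivity) (by positivity),
        Real.log_mul (by positivity) (by positivity),
        Real.log_mul (by positivity) (by positivity),
        Real.log_mul (by positivity) (by positivity), Real.log_inv, Real.log_inv, Real.log_inv,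
        Real.log_inv, Real.log_mul (by positivity) (by positivity), Real.log_pow]
      push_cast
      ring
    rw [← e2]
    calc (nn X Z0 p.1)⁻¹ * Real.log t ≤ (nn X Z0 p.1)⁻¹ * (t - 1) :=
          mul_le_mul_of_nonneg_left e1 (by positivity)
      _ = _ := by
          rw [ht]
          field_simp
  have hsum := Finset.sum_le_sum hlog
  rw [Finset.sum_sub_distrib, ← Finset.mul_sum] at hsum
  -- the right side is nonpositive
  have hw : ∑ p ∈ S, (nn X Z0 p.1)⁻¹ = X.card := by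
    have := keyL (fun _ => 1)
    simpa using this
  have hr : (X.card : ℝ)⁻¹ * ∑ p ∈ S, (nn X Z1 p.1 * nn X Z2 p.2 *
        ((((B : ℝ) ^ 2 * (Fb X Z0 Z1 Z2 T p.1 p.2 : ℝ))⁻¹) *
        ((nn X c p.1)⁻¹ * (nn X c p.2)⁻¹))) ≤ X.card := by
    rw [inv_mul_le_iff₀ hX, ← pow_two]
    exact hcl
  have hle := hsum.trans (by rw [hw]; linarith : _ ≤ (0 : ℝ))
  -- the left side
  have hl : ∑ p ∈ S, (nn X Z0 p.1)⁻¹ * (Real.log (nn X Z1 p.1) + Real.log (nn X Z2 p.2)
      - 2 * Real.log B - Real.log (Fb X Z0 Z1 Z2 T p.1 p.2 : ℝ) - Real.log (nn X c p.1)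
      - Real.log (nn X c p.2) + Real.log (nn X Z0 p.1) - Real.log X.card)
      = ∑ x ∈ X, Real.log (nn X Z1 x) + ∑ x ∈ X, Real.log (nn X Z2 x)
        - X.card * (2 * Real.log B)
        - X.card * av2 X Z0 (fun x x' => Real.log (Fb X Z0 Z1 Z2 T x x' : ℝ))
        - ∑ x ∈ X, Real.log (nn X c x) - ∑ x ∈ X, Real.log (nn X c x)
        + ∑ x ∈ X, Real.log (nn X Z0 x) - X.card * Real.log X.card := by
    have a1 := keyL (fun x => Real.log (nn X Z1 x))
    have a2 := keyR (fun x => Real.log (nn X Z2 x))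
    have a3 := keyL (fun _ => 2 * Real.log B)
    have a4 := key (fun p => Real.log (Fb X Z0 Z1 Z2 T p.1 p.2 : ℝ))
    have a5 := keyL (fun x => Real.log (nn X c x))
    have a6 := keyR (fun x => Real.log (nn X c x))
    have a7 := keyL (fun x => Real.log (nn X Z0 x))
    have a8 := keyL (fun _ => Real.log X.card)
    rw [Finset.sum_const, nsmul_eq_mul] at a3 a8
    have a9 : (X.card : ℝ) * av2 X Z0 (fun x x' => Real.log (Fb X Z0 Z1 Z2 T x x' : ℝ)) =
        ∑ x ∈ X, (∑ x' ∈ cls X Z0 x, Real.log (Fb X Z0 Z1 Z2 T x x' : ℝ)) /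
          ((cls X Z0 x).card : ℝ) := by
      unfold av2
      rw [mul_comm, div_mul_cancel₀ _ hX.ne']
    rw [a9, ← a1, ← a2, ← a3, ← a4, ← a7, ← a8]
    nth_rewrite 1 [← a5]
    rw [← a6, ← Finset.sum_add_distrib, ← Finset.sum_sub_distrib, ← Finset.sum_sub_distrib, ← Finset.sum_sub_distrib,
      ← Finset.sum_sub_distrib, ← Finset.sum_add_distrib, ← Finset.sum_sub_distrib]
    apply Finset.sum_congr rfl
    intro p _
    ring
  rw [hl] at hle
  rw [Hs_eq X hne c, Hs_eq X hne Z0, Hs_eq X hne Z1, Hs_eq X hne Z2]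
  exact final _ _ _ _ _ _ _ _ hX hle

end Pool.Agent.Lib.MP_d0a18a_nt.ZP
end

section
/-!
# IRR: the golden ratio and the silver ratio are multiplicatively independent
-/
set_option autoImplicit false

namespace Pool.Agent.Lib.MP_d0a18a_nt.ZP

namespace IRRM

/-- powers of the golden ratio -/
theorem pow_mu (a : ℕ) (ha : 1 ≤ a) : ∃ L F : ℕ, 1 ≤ F ∧
    2 * ((1 + Real.sqrt 5) / 2) ^ a = (L : ℝ) + F * Real.sqrt 5 := by
  obtain ⟨n, rfl⟩ : ∃ n, a = n + 1 := ⟨a - 1, by omega⟩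
  have h := Real.goldenRatio_mul_fib_succ_add_fib n
  unfold Real.goldenRatio at h
  refine ⟨2 * Nat.fib n + Nat.fib (n + 1), Nat.fib (n + 1), Nat.fib_pos.2 (by omega), ?_⟩
  rw [← h]
  push_cast
  ring

/-- powers of the silver ratio -/
theorem pow_nu (b : ℕ) : ∃ c d : ℕ, 1 ≤ c ∧ (1 ≤ b → 1 ≤ d) ∧
    (1 + Real.sqrt 2) ^ b = (c : ℝ) + d * Real.sqrt 2 := by
  induction b with
  | zero => exact ⟨1, 0, le_refl _, by omega, by simp⟩
  | succ b ih =>
    obtain ⟨c, d, hc, -, h⟩ := ih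
    have h2 : Real.sqrt 2 * Real.sqrt 2 = 2 := Real.mul_self_sqrt (by norm_num)
    refine ⟨c + 2 * d, c + d, by omega, fun _ => by omega, ?_⟩
    rw [pow_succ, h]
    push_cast
    linear_combination (d : ℝ) * h2

theorem irr10 : Irrational (Real.sqrt 10) := by
  have h : ¬ IsSquare (10 : ℕ) := by
    rintro ⟨r, hr⟩
    have h1 : r ≤ 3 := by nlinarith
    interval_cases r <;> omega
  have := irrational_sqrt_natCast_iff.2 h
  exact_mod_cast this

theorem ne (a b : ℕ) (ha : 1 ≤ a) (hb : 1 ≤ b) :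
    ((1 + Real.sqrt 5) / 2) ^ a ≠ (1 + Real.sqrt 2) ^ b := by
  intro h
  obtain ⟨L, F, hF, h1⟩ := pow_mu a ha
  obtain ⟨c, d, hc, hd, h2⟩ := pow_nu b
  have hd1 := hd hb
  rw [h, h2] at h1
  have h5 : Real.sqrt 5 * Real.sqrt 5 = 5 := Real.mul_self_sqrt (by norm_num)
  have h22 : Real.sqrt 2 * Real.sqrt 2 = 2 := Real.mul_self_sqrt (by norm_num)
  have h10 : Real.sqrt 5 * Real.sqrt 2 = Real.sqrt 10 := by
    rw [← Real.sqrt_mul (by norm_num)]
    norm_num
  have h3 : (F : ℝ) * Real.sqrt 5 - 2 * d * Real.sqrt 2 = 2 * c - L := by linarith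
  have h4 : 4 * (F : ℝ) * d * Real.sqrt 10 = 5 * F ^ 2 + 8 * d ^ 2 - (2 * c - L) ^ 2 := by
    rw [← h3, ← h10]
    linear_combination (F : ℝ) ^ 2 * h5 + 4 * (d : ℝ) ^ 2 * h22
  have hFd : (4 * (F : ℝ) * d) ≠ 0 := by
    have : (1 : ℝ) ≤ F := by exact_mod_cast hF
    have : (1 : ℝ) ≤ d := by exact_mod_cast hd1
    positivity
  have h6 : Real.sqrt 10 =
      (((5 * (F : ℚ) ^ 2 + 8 * (d : ℚ) ^ 2 - (2 * (c : ℚ) - L) ^ 2) / (4 * F * d) : ℚ) : ℝ) := by
    push_cast
    rw [eq_div_iff hFd]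
    linarith
  exact irr10 ⟨_, h6.symm⟩

end IRRM

open IRRM in
theorem specIRR : SpecIRR := by
  intro η hη
  set μ : ℝ := (1 + Real.sqrt 5) / 2 with hμ
  set ν : ℝ := 1 + Real.sqrt 2 with hν
  have h5a : (2 : ℝ) < Real.sqrt 5 := by
    rw [show (2 : ℝ) = Real.sqrt 4 by
      rw [show (4 : ℝ) = 2 ^ 2 by norm_num, Real.sqrt_sq (by norm_num)]]
    exact Real.sqrt_lt_sqrt (by norm_num) (by norm_num)
  have h5b : Real.sqrt 5 < 2.4 := by
    rw [show (2.4 : ℝ) = Real.sqrt (2.4 ^ 2) by rw [Real.sqrt_sq (by norm_num)]]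
    exact Real.sqrt_lt_sqrt (by norm_num) (by norm_num)
  have h2a : (1 : ℝ) < Real.sqrt 2 := by
    rw [show (1 : ℝ) = Real.sqrt 1 by simp]
    exact Real.sqrt_lt_sqrt (by norm_num) (by norm_num)
  have hμ1 : 1 < μ := by rw [hμ]; linarith
  have hμν : μ < ν := by rw [hμ, hν]; linarith
  have hμ0 : 0 < μ := by linarith
  have hν0 : 0 < ν := by linarith
  have hlμ : 0 < Real.log μ := Real.log_pos hμ1
  have hlν : Real.log μ < Real.log ν := Real.log_lt_log hμ0 hμν
  obtain ⟨n, hn⟩ := exists_nat_gt (Real.log μ / η)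
  have hn0 : (0 : ℝ) < n := lt_trans (by positivity) hn
  have hn1 : 0 < n := by exact_mod_cast hn0
  obtain ⟨j, k, hk0, hkn, hjk⟩ := Real.exists_int_int_abs_mul_sub_le (Real.log ν / Real.log μ) hn1
  have hk1 : (1 : ℝ) ≤ k := by exact_mod_cast hk0
  have hsmall : 1 / ((n : ℝ) + 1) ≤ 1 / 2 := by
    apply one_div_le_one_div_of_le (by norm_num)
    have : (1 : ℝ) ≤ n := by exact_mod_cast hn1
    linarith
  have hξ : 1 < Real.log ν / Real.log μ := by
    rw [lt_div_iff₀ hlμ]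
    linarith
  have hj1 : 1 ≤ j := by
    have h1 := (abs_le.1 (hjk.trans hsmall)).2
    have h2 : (1 : ℝ) < k * (Real.log ν / Real.log μ) := by nlinarith
    have h3 : (0 : ℝ) < j := by linarith
    have : 0 < j := by exact_mod_cast h3
    omega
  have e : (j.toNat : ℝ) * Real.log μ - (k.toNat : ℝ) * Real.log ν =
      -((k * (Real.log ν / Real.log μ) - j) * Real.log μ) := by
    have ej : ((j.toNat : ℕ) : ℝ) = (j : ℝ) := by
      have : ((j.toNat : ℕ) : ℤ) = j := Int.toNat_of_nonneg (by omega)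
      exact_mod_cast congrArg (fun z : ℤ => (z : ℝ)) this
    have ek : ((k.toNat : ℕ) : ℝ) = (k : ℝ) := by
      have : ((k.toNat : ℕ) : ℤ) = k := Int.toNat_of_nonneg (by omega)
      exact_mod_cast congrArg (fun z : ℤ => (z : ℝ)) this
    rw [ej, ek]
    field_simp
    ring
  have hja : 1 ≤ j.toNat := by omega
  have hkb : 1 ≤ k.toNat := by omega
  refine ⟨j.toNat, k.toNat, hja, hkb, ?_, ?_⟩
  · rw [abs_pos, sub_ne_zero]
    intro h
    apply ne _ _ hja hkb
    apply Real.log_injOn_pos (Set.mem_Ioi.2 (by positivity)) (Set.mem_Ioi.2 (by positivity))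
    rw [Real.log_pow, Real.log_pow]
    exact h
  · rw [e, abs_neg, abs_mul, abs_of_pos hlμ]
    calc |k * (Real.log ν / Real.log μ) - j| * Real.log μ ≤ (1 / ((n : ℝ) + 1)) * Real.log μ :=
          mul_le_mul_of_nonneg_right hjk hlμ.le
      _ ≤ η := by
          rw [div_lt_iff₀ hη] at hn
          rw [one_div, inv_mul_le_iff₀ (by positivity)]
          nlinarith

end Pool.Agent.Lib.MP_d0a18a_nt.ZP
end

section
/-!
# MP_d0a18a_nt, module LEV: the three direction inequality on one level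
-/
set_option autoImplicit false

namespace Pool.Agent.Lib.MP_d0a18a_nt.ZP

open Finset

namespace LEVM

theorem cr_pos {θ β : ℝ} (h0 : 0 ≤ θ) (hb : 1 / 3 ≤ β) : 0 < cr θ β := by
  unfold cr
  have : 0 < 1 + θ * β := by nlinarith
  apply div_pos (by linarith) this

theorem cr_ge {θ β : ℝ} (h0 : 0 ≤ θ) (h1 : θ ≤ 1) (hb : 1 / 3 ≤ β) : 1 / 4 ≤ cr θ β := by
  unfold cr
  have : 0 < 1 + θ * β := by nlinarith
  rw [le_div_iff₀ this]
  nlinarith

theorem cr_le {θ β : ℝ} (h0 : 0 ≤ θ) (hb : 1 / 3 ≤ β) (hb1 : β ≤ 1) : cr θ β ≤ 1 := by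
  unfold cr
  have : 0 < 1 + θ * β := by nlinarith
  rw [div_le_one₀ this]
  nlinarith

theorem lg_bd (θ : ℝ) (h0 : 0 ≤ θ) (h1 : θ ≤ 1) (v : Word) (hv : v ≠ []) :
    -(2 * Real.log 2) ≤ lg θ v ∧ lg θ v ≤ 0 := by
  have hb := be_ge_third v hv
  have hb1 := be_le_one v
  have e1 := cr_ge h0 h1 hb
  have e2 := cr_le h0 hb hb1
  unfold lg
  constructor
  · have h2 := Real.log_le_log (by norm_num) e1
    have h3 : Real.log (1 / 4) = -(2 * Real.log 2) := by
      rw [one_div, Real.log_inv, show (4 : ℝ) = 2 ^ 2 by norm_num, Real.log_pow]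
      push_cast; ring
    linarith
  · exact Real.log_nonpos (by linarith) e2

theorem mem_cls {α γ : Type} {X : Finset α} {g : α → γ} {x y : α} : y ∈ cls X g x ↔ y ∈ X ∧ g y = g x := by
  simp [cls]

theorem Fb_pos {α γ τ : Type} (X : Finset α) (Z0 Z1 Z2 : α → γ) (T : α → τ) {x x' : α}
    (hx : x ∈ X) (hx' : x' ∈ X) (h : Z0 x = Z0 x') : 0 < Fb X Z0 Z1 Z2 T x x' := by
  classical
  unfold Fb
  apply Finset.card_pos.2
  refine ⟨(T x, T x'), Finset.mem_image.2 ⟨(x, x'), ?_, rfl⟩⟩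
  rw [mem_filter, mem_product]
  exact ⟨⟨hx, hx'⟩, h, rfl, rfl⟩

theorem av2_le {α γ : Type} (X : Finset α) (Z0 : α → γ) (G : α → α → ℝ) (b : ℝ) (hX : X.Nonempty)
    (h : ∀ x ∈ X, ∀ x' ∈ cls X Z0 x, G x x' ≤ b) : av2 X Z0 G ≤ b := by
  unfold av2
  have hX0 : (0 : ℝ) < X.card := by exact_mod_cast hX.card_pos
  rw [div_le_iff₀ hX0]
  calc _ ≤ ∑ x ∈ X, b := by
        apply Finset.sum_le_sum
        intro x hx
        have hx' : x ∈ cls X Z0 x := by simp [cls, hx]
        have hc : (0 : ℝ) < (cls X Z0 x).card := by exact_mod_cast Finset.card_pos.2 ⟨x, hx'⟩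
        rw [div_le_iff₀ hc]
        calc _ ≤ ∑ x' ∈ cls X Z0 x, b := Finset.sum_le_sum (fun x' h' => h x hx x' h')
          _ = b * ((cls X Z0 x).card : ℝ) := by rw [Finset.sum_const, nsmul_eq_mul]; ring
    _ = b * X.card := by rw [Finset.sum_const, nsmul_eq_mul]; ring

theorem av2_avg {α γ ι : Type} (X : Finset α) (Z0 : α → γ) (Ω : Finset ι) (G : ι → α → α → ℝ) :
    (∑ ω ∈ Ω, av2 X Z0 (G ω)) / (Ω.card : ℝ) = av2 X Z0 (fun x x' => (∑ ω ∈ Ω, G ω x x') / (Ω.card : ℝ)) := by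
  unfold av2
  rw [← Finset.sum_div, Finset.sum_comm, div_right_comm]
  congr 1
  rw [Finset.sum_div]
  apply Finset.sum_congr rfl
  intro x _
  rw [← Finset.sum_div, Finset.sum_comm, div_right_comm]
  congr 1
  rw [Finset.sum_div]

end LEVM

open LEVM in
open Classical in
theorem specLEV (hG3D : SpecG3D) (hGEO : SpecGEO) (hTCL : SpecTCL) (hFIB : SpecFIB) : SpecLEV := by
  intro δ c C hCnt hδ
  obtain ⟨C1, hC1, hT⟩ := hTCL δ c C hCnt (by linarith)
  obtain ⟨C2, hC2, hF⟩ := hFIB δ C1 hδ hC1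
  have hl12 : 0 ≤ Real.log 12 := Real.log_nonneg (by norm_num)
  refine ⟨2 * Real.log 12 + C2, by linarith, ?_⟩
  intro T W hT1 hW h i ε ι Ω v1 v2 hh hTq hΩ hDir x hx
  have hq2 : 2 ≤ 2 ^ h := by
    calc 2 = 2 ^ 1 := rfl
      _ ≤ 2 ^ h := Nat.pow_le_pow_right (by norm_num) hh
  obtain ⟨ht1, ht2⟩ := hT T hT1 W hW (2 ^ h) i hq2 hTq x hx
  set P := cls (W.image xv) (cell (2 ^ h) (i + 1)) x with hP
  have hxP : x ∈ P := mem_cls.2 ⟨hx, rfl⟩
  have hPne : P.Nonempty := ⟨x, hxP⟩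
  set θ : ℝ := (x.2 : ℝ) / (x.1 : ℝ) with hθ
  obtain ⟨w, hw, hwx⟩ := Finset.mem_image.1 hx
  have hx1 : 1 ≤ x.1 := by rw [← hwx]; exact K_pos w
  have hx21 : x.2 ≤ x.1 := by rw [← hwx]; exact xv_snd_le w
  have hθ0 : 0 ≤ θ := by positivity
  have hθ1 : θ ≤ 1 := div_le_one_of_le₀ (by exact_mod_cast hx21) (by positivity)
  obtain ⟨hne, hDir2⟩ := hDir
  have hent := hDir2 θ hθ0 hθ1
  have hΩ0 : (0 : ℝ) < Ω.card := by exact_mod_cast hΩ.card_pos
  -- G3D for each pair of directions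
  have hg : ∀ ω ∈ Ω, 2 * Hs P (cell (2 ^ h) i) ≤ Hs P (fl 0 (2 ^ h) i) +
      (Hs P (fl (be (v1 ω)) (2 ^ h) i) + Hs P (fl (be (v2 ω)) (2 ^ h) i)) + 2 * Real.log 12 +
      av2 P (fl 0 (2 ^ h) i) (fun y y' => Real.log (Fb P (fl 0 (2 ^ h) i) (fl (be (v1 ω)) (2 ^ h) i)
        (fl (be (v2 ω)) (2 ^ h) i) (ta θ (2 ^ h) i) y y' : ℝ)) := by
    intro ω hω
    obtain ⟨n1, n2⟩ := hne ω hω
    have b1 := be_ge_third _ n1
    have b2 := be_ge_third _ n2
    have c1 := be_le_one (v1 ω)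
    have c2 := be_le_one (v2 ω)
    have g1 := hGEO P (2 ^ h) i θ (be (v1 ω)) (be (v2 ω)) (by omega) hθ0 hθ1 b1 c1 b2 c2
    have g2 := hGEO P (2 ^ h) i θ (be (v2 ω)) (be (v1 ω)) (by omega) hθ0 hθ1 b2 c2 b1 c1
    have := hG3D _ _ _ _ P (cell (2 ^ h) i) (fl 0 (2 ^ h) i) (fl (be (v1 ω)) (2 ^ h) i)
      (fl (be (v2 ω)) (2 ^ h) i) (ta θ (2 ^ h) i) 12 hPne (by norm_num) ?_ ?_
    · push_cast at this
      linarith
    · intro z t
      refine le_trans (le_of_eq ?_) (g1.1 z t)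
      congr <;> exact Subsingleton.elim _ _
    · intro z t
      refine le_trans (le_of_eq ?_) (g2.1 z t)
      congr <;> exact Subsingleton.elim _ _
  have hsum := Finset.sum_le_sum hg
  rw [Finset.sum_const, nsmul_eq_mul, Finset.sum_add_distrib, Finset.sum_add_distrib,
    Finset.sum_add_distrib, Finset.sum_const, nsmul_eq_mul, Finset.sum_const, nsmul_eq_mul] at hsum
  have hav : (∑ ω ∈ Ω, av2 P (fl 0 (2 ^ h) i) (fun y y' => Real.log (Fb P (fl 0 (2 ^ h) i)
      (fl (be (v1 ω)) (2 ^ h) i) (fl (be (v2 ω)) (2 ^ h) i) (ta θ (2 ^ h) i) y y' : ℝ))) / (Ω.card : ℝ) ≤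
      (2 * δ - 1 + ε) * (h * Real.log 2) + Real.log (h + 1) + C2 := by
    rw [av2_avg]
    apply av2_le _ _ _ _ hPne
    intro y hy y' hy'
    rw [mem_cls] at hy'
    set lam : ι → ℝ := fun ω => lg θ (v2 ω) - lg θ (v1 ω) with hlam
    have hfib := hF ι Ω lam h (offs (W.image xv) (2 ^ h) i x) hΩ hh ?_ ?_ ?_
      (ta θ (2 ^ h) i y) ?_ (ta θ (2 ^ h) i y') ?_
    · have hle : (∑ ω ∈ Ω, Real.log (Fb P (fl 0 (2 ^ h) i)
          (fl (be (v1 ω)) (2 ^ h) i) (fl (be (v2 ω)) (2 ^ h) i) (ta θ (2 ^ h) i) y y' : ℝ)) ≤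
          ∑ ω ∈ Ω, Real.log ((sol (offs (W.image xv) (2 ^ h) i x) (Real.exp (lam ω))
            (ta θ (2 ^ h) i y) (ta θ (2 ^ h) i y')).card : ℝ) := by
        apply Finset.sum_le_sum
        intro ω hω
        obtain ⟨n1, n2⟩ := hne ω hω
        have b1 := be_ge_third _ n1
        have b2 := be_ge_third _ n2
        have c1 := be_le_one (v1 ω)
        have c2 := be_le_one (v2 ω)
        have g1 := (hGEO P (2 ^ h) i θ (be (v1 ω)) (be (v2 ω)) (by omega) hθ0 hθ1 b1 c1 b2 c2).2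
          y hy y' hy'.1 hy'.2.symm
        have hexp : Real.exp (lam ω) = cr θ (be (v2 ω)) / cr θ (be (v1 ω)) := by
          rw [hlam]
          simp only [lg]
          rw [Real.exp_sub, Real.exp_log (cr_pos hθ0 b2), Real.exp_log (cr_pos hθ0 b1)]
        rw [hexp]
        have hpos : 0 < Fb P (fl 0 (2 ^ h) i) (fl (be (v1 ω)) (2 ^ h) i) (fl (be (v2 ω)) (2 ^ h) i)
            (ta θ (2 ^ h) i) y y' := Fb_pos _ _ _ _ _ hy hy'.1 hy'.2.symm
        apply Real.log_le_log (by exact_mod_cast hpos)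
        have g2 : Fb P (fl 0 (2 ^ h) i) (fl (be (v1 ω)) (2 ^ h) i) (fl (be (v2 ω)) (2 ^ h) i)
            (ta θ (2 ^ h) i) y y' ≤ (sol (offs (W.image xv) (2 ^ h) i x)
              (cr θ (be (v2 ω)) / cr θ (be (v1 ω))) (ta θ (2 ^ h) i y) (ta θ (2 ^ h) i y')).card := by
          refine g1.trans (le_of_eq ?_)
          unfold offs
          congr <;> exact Subsingleton.elim _ _
        exact_mod_cast g2
      have hle2 := div_le_div_of_nonneg_right hle hΩ0.le
      refine (hle2.trans hfib).trans ?_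
      have hent' : (1 - ε) * (h * Real.log 2) ≤ Hs Ω (fun ω => ⌊lam ω * 2 ^ h⌋) := hent
      nlinarith [hent']
    · intro ω hω
      obtain ⟨n1, n2⟩ := hne ω hω
      have l1 := lg_bd θ hθ0 hθ1 _ n1
      have l2 := lg_bd θ hθ0 hθ1 _ n2
      have l3 := Real.log_two_lt_d9
      rw [abs_le, hlam]
      simp only
      constructor <;> linarith
    · intro s hs
      have := ht1 s hs
      push_cast at this
      exact this
    · exact ht2
    · unfold offs
      exact Finset.mem_image_of_mem _ hy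
    · unfold offs
      exact Finset.mem_image_of_mem _ hy'.1
  have h3 : 2 * Hs P (cell (2 ^ h) i) ≤ Hs P (fl 0 (2 ^ h) i) +
      (∑ ω ∈ Ω, (Hs P (fl (be (v1 ω)) (2 ^ h) i) + Hs P (fl (be (v2 ω)) (2 ^ h) i))) / (Ω.card : ℝ) +
      2 * Real.log 12 +
      (∑ ω ∈ Ω, av2 P (fl 0 (2 ^ h) i) (fun y y' => Real.log (Fb P (fl 0 (2 ^ h) i)
      (fl (be (v1 ω)) (2 ^ h) i) (fl (be (v2 ω)) (2 ^ h) i) (ta θ (2 ^ h) i) y y' : ℝ))) / (Ω.card : ℝ) := by
    have h4 := div_le_div_of_nonneg_right hsum hΩ0.le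
    rw [add_div, add_div, add_div, mul_div_cancel_left₀ _ hΩ0.ne', mul_div_cancel_left₀ _ hΩ0.ne',
      mul_div_cancel_left₀ _ hΩ0.ne'] at h4
    exact h4
  linarith

end Pool.Agent.Lib.MP_d0a18a_nt.ZP
end

section
/-!
# RHO: a finite family of pairs of directions whose ratio has almost full entropy
-/
set_option autoImplicit false

namespace Pool.Agent.Lib.MP_d0a18a_nt.ZP

open Finset

namespace RHOM

/-- Jensen -/
theorem jensen {ι : Type} (V : Finset ι) (f : ι → ℝ) (B : ℝ) (hB : 0 < B) (hf : ∀ v ∈ V, 0 < f v)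
    (hs : ∑ v ∈ V, f v ≤ (V.card : ℝ) * B) :
    -((V.card : ℝ) * Real.log B) ≤ ∑ v ∈ V, Real.log (1 / f v) := by
  have h1 : ∀ v ∈ V, -Real.log B + 1 - f v / B ≤ Real.log (1 / f v) := by
    intro v hv
    have hv := hf v hv
    rw [one_div, Real.log_inv]
    have h2 := Real.log_le_sub_one_of_pos (div_pos hv hB)
    rw [Real.log_div hv.ne' hB.ne'] at h2
    linarith
  have h2 := Finset.sum_le_sum h1
  rw [Finset.sum_sub_distrib, Finset.sum_const, nsmul_eq_mul, ← Finset.sum_div] at h2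
  have h3 : (∑ v ∈ V, f v) / B ≤ (V.card : ℝ) := by
    rw [div_le_iff₀ hB]; exact hs
  nlinarith

open Classical in
theorem mem_cls {α γ : Type} {X : Finset α} {g : α → γ} {x y : α} :
    y ∈ cls X g x ↔ y ∈ X ∧ g y = g x := by
  unfold cls
  exact Finset.mem_filter

theorem fS_step {N : ℕ} (θ : ℝ) (D : ℕ → Word) (S : ℝ) (n : ℕ) (x : Smp N) :
    fS θ D S x = fS θ D (S * 2 ^ n) x / 2 ^ n := by
  unfold fS
  rw [← Nat.floor_div_natCast]
  congr 1
  push_cast
  field_simp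

theorem one_step (hENB : SpecENB) (M N n : ℕ) (W : Finset Word) (D : ℕ → Word) (S θ CV CL : ℝ)
    (hne : (Om M N W).Nonempty) (hCV : 1 ≤ CV) (hCL : 1 ≤ CL)
    (hV : ∀ x ∈ Om M N W, ∀ inst : DecidableEq ℕ,
      (((@Finset.image _ _ inst (fS θ D S) (cls (Om M N W) (gS S) x)).card : ℕ) : ℝ) ≤ CV)
    (hL : (∑ x ∈ Om M N W, CP (Om M N W) (fS θ D (S * 2 ^ n)) (gS S) x) / ((Om M N W).card : ℝ)
        ≤ CL / 2 ^ n) :
    Hs (Om M N W) (fS θ D S) + (n * Real.log 2 - Real.log CL - Real.log CV)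
      ≤ Hs (Om M N W) (fS θ D (S * 2 ^ n)) := by
  classical
  have hc : (0 : ℝ) < ((Om M N W).card : ℝ) := by exact_mod_cast Finset.card_pos.2 hne
  have h1 := hENB (Smp N) ℕ ℕ (ℕ × List Word × List Word) (Om M N W) (fS θ D (S * 2 ^ n))
    (fS θ D S) (gS S) CV hne hCV
    (fun x _ y _ e => by rw [fS_step θ D S n x, fS_step θ D S n y, e])
    (fun x hx => hV x hx _)
  have h2 := jensen (Om M N W) (fun x => CP (Om M N W) (fS θ D (S * 2 ^ n)) (gS S) x) (CL / 2 ^ n)
    (by positivity) (fun x hx => ENBM.CP_pos _ _ _ hx) (by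
      rw [div_le_iff₀ hc] at hL
      linarith)
  have h3 : Real.log (CL / 2 ^ n) = Real.log CL - n * Real.log 2 := by
    rw [Real.log_div (by linarith) (by positivity), Real.log_pow]
  rw [h3] at h2
  have h4 : n * Real.log 2 - Real.log CL ≤
      (∑ x ∈ Om M N W, Real.log (1 / CP (Om M N W) (fS θ D (S * 2 ^ n)) (gS S) x)) /
        ((Om M N W).card : ℝ) := by
    rw [le_div_iff₀ hc]
    linarith
  linarith

theorem vals_le {N : ℕ} (θ : ℝ) (D : ℕ → Word) (S : ℝ) (h : ℕ) (X : Finset (Smp N)) (x : Smp N)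
    (hS : (K (D 0) : ℝ) ^ 2 * S ≤ 2 ^ h) (hS0 : 0 ≤ S) (inst : DecidableEq ℕ) :
    (((@Finset.image _ _ inst (fS θ D S) (cls X (fun ω : Smp N => ⌊lm θ D ω * 2 ^ h⌋) x)).card : ℕ) : ℝ)
      ≤ 3 := by
  classical
  set l : ℤ := ⌊lm θ D x * 2 ^ h⌋ with hl
  set y0 : ℝ := ((l : ℝ) / 2 ^ h + 4) * ((K (D 0) : ℝ) ^ 2 * S) with hy0
  have hP : (0 : ℝ) < 2 ^ h := by positivity
  have hKS : 0 ≤ (K (D 0) : ℝ) ^ 2 * S := by positivity
  have hsub : @Finset.image _ _ inst (fS θ D S) (cls X (fun ω : Smp N => ⌊lm θ D ω * 2 ^ h⌋) x)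
      ⊆ Finset.Icc ⌊y0⌋₊ (⌊y0⌋₊ + 1) := by
    intro v hv
    rw [mem_image] at hv
    obtain ⟨y, hy, rfl⟩ := hv
    have hc : ⌊lm θ D y * 2 ^ h⌋ = l := (mem_cls.1 hy).2
    have a1 : (l : ℝ) ≤ lm θ D y * 2 ^ h := by rw [← hc]; exact Int.floor_le _
    have a2 : lm θ D y * 2 ^ h < (l : ℝ) + 1 := by rw [← hc]; exact Int.lt_floor_add_one _
    have b1 : (l : ℝ) / 2 ^ h ≤ lm θ D y := by rwa [div_le_iff₀ hP]
    have b2 : lm θ D y ≤ (l : ℝ) / 2 ^ h + 1 / 2 ^ h := by
      rw [← add_div, le_div_iff₀ hP]; exact a2.le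
    have c1 : y0 ≤ (lm θ D y + 4) * ((K (D 0) : ℝ) ^ 2 * S) := by
      rw [hy0]
      apply mul_le_mul_of_nonneg_right _ hKS
      linarith
    have c2 : (lm θ D y + 4) * ((K (D 0) : ℝ) ^ 2 * S) ≤ y0 + 1 := by
      have d1 : (lm θ D y + 4) * ((K (D 0) : ℝ) ^ 2 * S) ≤
          ((l : ℝ) / 2 ^ h + 1 / 2 ^ h + 4) * ((K (D 0) : ℝ) ^ 2 * S) := by
        apply mul_le_mul_of_nonneg_right _ hKS
        linarith
      have d2 : 1 / (2 : ℝ) ^ h * ((K (D 0) : ℝ) ^ 2 * S) ≤ 1 := by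
        rw [one_div, inv_mul_le_iff₀ hP]
        linarith
      rw [hy0]
      nlinarith
    rw [Finset.mem_Icc]
    unfold fS
    constructor
    · exact Nat.floor_le_floor c1
    · refine (Nat.floor_le_floor c2).trans ?_
      rcases le_or_gt 0 y0 with h0 | h0
      · rw [Nat.floor_add_one h0]
      · have : ⌊y0 + 1⌋₊ ≤ 1 := by
          apply Nat.floor_le_of_le
          push_cast
          linarith
        omega
  have hcard := Finset.card_le_card hsub
  rw [Nat.card_Icc] at hcard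
  have : (@Finset.image _ _ inst (fS θ D S)
      (cls X (fun ω : Smp N => ⌊lm θ D ω * 2 ^ h⌋) x)).card ≤ 3 := by omega
  exact_mod_cast this

end RHOM

open RHOM in
theorem specRHO (hCOD : SpecCOD) (hDIT : SpecDIT) (hVAR : SpecVAR) (hCOL : SpecCOL)
    (hENA : SpecENA) (hENB : SpecENB) (hENM : SpecENM) : SpecRHO := by
  classical
  intro ε h1 hε
  obtain ⟨W, L, d, hcode⟩ := hCOD
  obtain ⟨CV, hCV, hV⟩ := hVAR W L d hcode
  obtain ⟨CL, hCL, hL⟩ := hCOL W L d hcode
  have hlV := Real.log_nonneg hCV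
  have hlL := Real.log_nonneg hCL
  have hl2 : 0 < Real.log 2 := Real.log_pos (by norm_num)
  have hl3 : 0 ≤ Real.log 3 := Real.log_nonneg (by norm_num)
  -- choice of n
  obtain ⟨n, hn⟩ := exists_nat_ge ((Real.log CL + Real.log CV) / (ε / 2 * Real.log 2) + 1)
  have hn1 : (1 : ℝ) ≤ n := by
    have : 0 ≤ (Real.log CL + Real.log CV) / (ε / 2 * Real.log 2) := by positivity
    linarith
  have hnC : Real.log CL + Real.log CV ≤ ε / 2 * (n * Real.log 2) := by
    have h2 : (Real.log CL + Real.log CV) / (ε / 2 * Real.log 2) ≤ n := by linarith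
    rw [div_le_iff₀ (by positivity)] at h2
    linarith
  obtain ⟨M, D, hM, hD⟩ := hDIT n
  have hM1 : 1 ≤ M := le_trans Nat.one_le_two_pow hM
  obtain ⟨g, hg⟩ := pow_unbounded_of_one_lt ((K (D 0) : ℝ) ^ 2) (by norm_num : (1 : ℝ) < 2)
  -- choice of J
  obtain ⟨J, hJ⟩ := exists_nat_ge ((Real.log 3 + g * Real.log 2) / (ε / 2 * (n * Real.log 2)) + h1)
  have hnl : 0 < (n : ℝ) * Real.log 2 := by positivity
  have hJ1 : Real.log 3 + g * Real.log 2 ≤ ε / 2 * (J * (n * Real.log 2)) := by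
    have h2 : (Real.log 3 + g * Real.log 2) / (ε / 2 * (n * Real.log 2)) ≤ J := by
      have : (0 : ℝ) ≤ h1 := by positivity
      linarith
    rw [div_le_iff₀ (by positivity)] at h2
    linarith
  have hJh : h1 ≤ J := by
    have : (0 : ℝ) ≤ (Real.log 3 + g * Real.log 2) / (ε / 2 * (n * Real.log 2)) := by positivity
    have : (h1 : ℝ) ≤ J := by linarith
    exact_mod_cast this
  have hn1' : 1 ≤ n := by exact_mod_cast hn1
  set N : ℕ := n * (J + 1) with hN
  set X : Finset (Smp N) := Om M N W with hX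
  obtain ⟨hL2, hd1, hd2, hWK, hWp, hWc⟩ := id hcode
  have hWne : W.Nonempty := by
    rw [← Finset.card_pos]
    have : (0 : ℝ) < (W.card : ℝ) := lt_of_lt_of_le (Real.rpow_pos_of_pos (by linarith) _) hWc
    exact_mod_cast this
  have hXne : X.Nonempty := by
    rw [hX]
    unfold Om Bl
    refine Finset.Nonempty.product ?_ (Finset.Nonempty.product ?_ ?_)
    · exact ⟨0, mem_range.2 (by omega)⟩
    · exact Fintype.piFinset_nonempty.2 (fun _ => hWne)
    · exact Fintype.piFinset_nonempty.2 (fun _ => hWne)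
  have hLN : (2 : ℝ) ^ (n * (J + 1)) ≤ (L ^ N) ^ 2 := by
    have e1 : (2 : ℝ) ^ N ≤ L ^ N := pow_le_pow_left₀ (by norm_num) hL2 N
    have e2 : 1 ≤ (2 : ℝ) ^ N := one_le_pow₀ (by norm_num)
    rw [← hN]
    nlinarith
  refine ⟨n * J + g, ?_, Smp N, X, w1 D, w2 D, hXne, ?_, ?_⟩
  · nlinarith
  · intro ω _
    constructor
    · unfold w1 yw; simp
    · unfold w2 yw; simp
  intro θ hθ0 hθ1
  -- the levels
  have hlev : ∀ j : ℕ, j ≤ J → (j : ℝ) * (n * Real.log 2 - Real.log CL - Real.log CV)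
      ≤ Hs X (fS θ D (2 ^ (n * j))) := by
    intro j
    induction j with
    | zero =>
      intro _
      simpa using (hENA (Smp N) ℕ X (fS θ D (2 ^ (n * 0))) hXne).1
    | succ j ih =>
      intro hj
      have h3 := ih (by omega)
      have hS1 : (1 : ℝ) ≤ 2 ^ (n * j) := one_le_pow₀ (by norm_num)
      have hmono : (2 : ℝ) ^ (n * (j + 1)) ≤ (L ^ N) ^ 2 := by
        refine le_trans (pow_le_pow_right₀ (by norm_num) ?_) hLN
        exact Nat.mul_le_mul_left n (by omega)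
      have hS2 : (2 : ℝ) ^ (n * j) * 2 ^ n ≤ (L ^ N) ^ 2 := by
        rw [← pow_add]
        simpa [mul_add] using hmono
      have hS3 : (2 : ℝ) ^ (n * j) ≤ (L ^ N) ^ 2 := by
        refine le_trans ?_ hS2
        have : (1 : ℝ) ≤ 2 ^ n := one_le_pow₀ (by norm_num)
        nlinarith
      have h4 := one_step hENB M N n W D (2 ^ (n * j)) θ CV CL hXne hCV hCL
        (fun x hx inst => by
          have h5 := hV M N D (2 ^ (n * j)) θ hM1 hD hS1 hS3 hθ0 hθ1 x hx
          refine le_trans (le_of_eq ?_) h5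
          congr <;> exact Subsingleton.elim _ _)
        (hL n M N D (2 ^ (n * j)) θ hM hD hS1 hS2 hθ0 hθ1)
      have e : (2 : ℝ) ^ (n * j) * 2 ^ n = 2 ^ (n * (j + 1)) := by
        rw [← pow_add]; congr 1
      rw [e] at h4
      push_cast
      rw [hX]
      rw [hX] at h3
      linarith
  have hJl := hlev J le_rfl
  have hm := hENM (Smp N) ℕ ℤ X (fS θ D (2 ^ (n * J))) (fun ω => ⌊lm θ D ω * 2 ^ (n * J + g)⌋) 3 hXne
    (by norm_num) (fun x _ => by
      have h5 := vals_le θ D (2 ^ (n * J)) (n * J + g) X x (by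
        rw [pow_add, mul_comm]
        have : (0 : ℝ) < 2 ^ (n * J) := by positivity
        exact mul_le_mul_of_nonneg_left hg.le this.le) (by positivity) (Classical.decEq ℕ)
      refine le_trans (le_of_eq ?_) h5
      congr <;> exact Subsingleton.elim _ _)
  have hfin : (1 - ε) * (((n * J + g : ℕ) : ℝ) * Real.log 2)
      ≤ (J : ℝ) * (n * Real.log 2 - Real.log CL - Real.log CV) - Real.log 3 := by
    have a1 : (J : ℝ) * (Real.log CL + Real.log CV) ≤ J * (ε / 2 * (n * Real.log 2)) :=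
      mul_le_mul_of_nonneg_left hnC (by positivity)
    have a2 : (0 : ℝ) ≤ ε * (g * Real.log 2) := by positivity
    push_cast
    nlinarith
  have hfinal := hfin.trans (by linarith : _ ≤ Hs X (fun ω => ⌊lm θ D ω * 2 ^ (n * J + g)⌋))
  exact hfinal

end Pool.Agent.Lib.MP_d0a18a_nt.ZP
end

section
set_option autoImplicit false

namespace Pool.Agent.Lib.MP_d0a18a_nt.ZP

namespace XCTM

theorem suffix_case (w w' : Word) (hw : w.head? = some true)
    (hx : xv w = xv w') (hp : w.reverse <+: w'.reverse) : w = w' := by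
  obtain ⟨t, ht⟩ := hp
  have e : w' = t.reverse ++ w := by
    have := congrArg List.reverse ht
    simpa using this.symm
  by_cases hz : t.reverse = []
  · rw [e, hz]; rfl
  · exfalso
    have hwne : w ≠ [] := by
      rintro rfl
      simp at hw
    have h1 := K_append t.reverse w
    rw [← e] at h1
    have h2 : K w = K w' := by rw [K, K, hx]
    have h3 := xv_snd_pos t.reverse hz
    have h4 := yv_snd_pos w hwne
    have h5 : 1 ≤ (xv t.reverse).1 := by rw [xv_fst]; exact K_pos _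
    rw [yv_fst] at h1
    have h6 : 1 ≤ (xv t.reverse).2 * (yv w).2 := Nat.mul_pos h3 h4
    have h7 : K w ≤ (xv t.reverse).1 * K w := Nat.le_mul_of_pos_left _ h5
    omega

theorem last_of_head (w : Word) (hw : w.head? = some true) : w.reverse.getLast? = some true := by
  rw [List.getLast?_reverse]; exact hw

theorem be_rev (w : Word) : be w.reverse = ((xv w).2 : ℝ) / ((xv w).1 : ℝ) := by
  rw [be, yv_reverse]

end XCTM

open XCTM in
theorem specXCT : SpecXCT := by
  intro w w' hw hw' hx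
  by_cases h1 : w.reverse <+: w'.reverse
  · exact suffix_case w w' hw hx h1
  by_cases h2 : w'.reverse <+: w.reverse
  · exact (suffix_case w' w hw' hx.symm h2).symm
  exfalso
  obtain ⟨p, a, b, r, r', hab, e1, e2⟩ := CLUM.diverge _ _ h1 h2
  have l1 := last_of_head w hw
  have l2 := last_of_head w' hw'
  rw [e1, List.getLast?_append_of_ne_nil _ (by simp)] at l1
  rw [e2, List.getLast?_append_of_ne_nil _ (by simp)] at l2
  have hfar := be_far p r r' a b hab l1 l2
  rw [← e1, ← e2, be_rev, be_rev, hx, sub_self, abs_zero] at hfar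
  have hK : (0 : ℝ) < (K p : ℝ) := by exact_mod_cast K_pos p
  have : (0 : ℝ) < 1 / (64 * (K p : ℝ) ^ 2) := by positivity
  linarith

end Pool.Agent.Lib.MP_d0a18a_nt.ZP
end
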