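import Pool.Agent.Lib.MP_d0a18a_nt.ZP.Spec
import Pool.Agent.Lib.MP_d0a18a_nt.ZP.SUM
import Pool.Agent.Lib.MP_d0a18a_nt.ZP.TCL
import Pool.Agent.Lib.MP_d0a18a_nt.ZP.XCT
import Pool.Agent.Lib.MP_d0a18a_nt.ZP.VAR

section
set_option autoImplicit false

namespace Pool.Agent.Lib.MP_d0a18a_nt.ZP

theorem specSUP (hSTP : SpecSTP) : SpecSUP := by
  intro L M hL hM
  set SM : Set Word := {w : Word | (K w : ℝ) ≤ M} with hSM
  have h1 : (stop L ×ˢ SM).ncard ≤ ({w : Word | (K w : ℝ) ≤ 6 * (L * M)}).ncard := by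
    refine Set.ncard_le_ncard_of_injOn (fun p : Word × Word => p.1 ++ p.2) ?_ ?_ (finite_K_le _)
    · rintro ⟨s, v⟩ ⟨hs, hv⟩
      show (K (s ++ v) : ℝ) ≤ 6 * (L * M)
      have hs' : (K s : ℝ) ≤ 3 * L := stop_le hL hs
      have hv' : (K v : ℝ) ≤ M := hv
      have h2 : (K (s ++ v) : ℝ) ≤ 2 * (K s * K v) := by exact_mod_cast K_append_le s v
      have h3 : (K s : ℝ) * K v ≤ (3 * L) * M :=
        mul_le_mul hs' hv' (by positivity) (by linarith)
      linarith
    · rintro ⟨s, v⟩ ⟨hs, hv⟩ ⟨s', v'⟩ ⟨hs', hv'⟩ e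
      simp only at e
      have hss : s = s' := by
        have p1 : s <+: s ++ v := List.prefix_append _ _
        have p2 : s' <+: s ++ v := by rw [e]; exact List.prefix_append _ _
        rcases List.prefix_or_prefix_of_prefix p1 p2 with h | h
        · exact stop_prefix hs hs' h
        · exact (stop_prefix hs' hs h).symm
      subst hss
      rw [List.append_cancel_left e]
  rw [Set.ncard_prod] at h1
  calc A L * A M ≤ (stop L).ncard * A M := Nat.mul_le_mul_right _ (hSTP L hL)
    _ = (stop L).ncard * SM.ncard := rfl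
    _ ≤ _ := h1

end Pool.Agent.Lib.MP_d0a18a_nt.ZP
end

section
/-! Assembly of the second theorem -/
set_option autoImplicit false

namespace Pool.Agent.Lib.MP_d0a18a_nt.ZP

theorem gCNT : SpecCNT := specCNT (specEXI specSUB (specSUP specSTP)) (specCRB specCRA)
theorem gCOD : SpecCOD := specCOD (specCRB specCRA) specSTP
theorem gVAR : SpecVAR := specVAR specCEL specDCN
theorem gCOL : SpecCOL := specCOL specCEL specFRO specDCN specCOA
theorem gENM : SpecENM := specENM
theorem gRHO : SpecRHO := specRHO gCOD (specDIT specIRR) gVAR gCOL specENA specENB gENM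
theorem gLEV : SpecLEV := specLEV specG3D specGEO (specTCL specCLU) specFIB
theorem gSUM : SpecSUM := specSUM specSTP specXCT gLEV specENC specEXC specENA specDNL
theorem gFI2 : SpecFI2 := specFI2 gCNT (specMA2 gSUM gRHO)

end Pool.Agent.Lib.MP_d0a18a_nt.ZP
end
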