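import Mathlib

/-!
# MP_d0a18a_nt: the projection method for denominators with partial quotients in {1,2}

Definitions and basic facts (all proved here, free to use).
-/

set_option autoImplicit false

namespace Pool.Agent.Lib.MP_d0a18a_nt.ZP

/-- words over the alphabet {1,2}: `false` codes the letter 1, `true` codes the letter 2 -/
abbrev Word := List Bool

/-- the letter -/
def dg (a : Bool) : ℕ := if a then 2 else 1

/-- `xv w = (K(w), K(w without its last letter))`, `xv [] = (1,0)` -/
def xv (w : Word) : ℕ × ℕ := w.foldl (fun p a => (dg a * p.1 + p.2, p.1)) (1, 0)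

/-- `yv w = (K(w), K(w without its first letter))`, `yv [] = (1,0)` -/
def yv (w : Word) : ℕ × ℕ := w.foldr (fun a p => (dg a * p.1 + p.2, p.1)) (1, 0)

/-- the continuant of the word -/
def K (w : Word) : ℕ := (xv w).1

/-- the direction `K(w without first letter)/K(w) = [0; w_1, w_2, ..., w_k]` -/
noncomputable def be (w : Word) : ℝ := ((yv w).2 : ℝ) / ((yv w).1 : ℝ)

/-- the number of words with continuant at most `L` -/
noncomputable def A (L : ℝ) : ℕ := {w : Word | (K w : ℝ) ≤ L}.ncard

/-- the set of words at which the continuant (reading from the left) exceeds `L` for the first time -/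
def stop (L : ℝ) : Set Word :=
  {w | L < (K w : ℝ) ∧ ∀ (u : Word) (a : Bool), w = u ++ [a] → (K u : ℝ) ≤ L}

/-- the counting hypothesis: exact order of growth of the number of words -/
def Cnt (δ c C : ℝ) : Prop :=
  0 < c ∧ 0 < C ∧ ∀ L : ℝ, 1 ≤ L → c * L ^ (2 * δ) ≤ (A L : ℝ) ∧ (A L : ℝ) ≤ C * L ^ (2 * δ)

/-- the set of denominators `d ≤ N` (continuants of words) -/
noncomputable def Dn (N : ℝ) : Finset ℕ := by
  classical exact (Finset.range (⌊N⌋₊ + 1)).filter (fun d => ∃ w : Word, K w = d)

theorem xv_nil : xv [] = (1, 0) := rfl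
theorem yv_nil : yv [] = (1, 0) := rfl
theorem K_nil : K [] = 1 := rfl
theorem dg_pos (a : Bool) : 1 ≤ dg a := by cases a <;> simp [dg]
theorem dg_le (a : Bool) : dg a ≤ 2 := by cases a <;> simp [dg]
theorem dg_true : dg true = 2 := rfl
theorem dg_false : dg false = 1 := rfl

theorem yv_cons (a : Bool) (w : Word) : yv (a :: w) = (dg a * (yv w).1 + (yv w).2, (yv w).1) := rfl

theorem xv_snoc (w : Word) (a : Bool) :
    xv (w ++ [a]) = (dg a * (xv w).1 + (xv w).2, (xv w).1) := by
  simp [xv, List.foldl_append]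

theorem xv_reverse (w : Word) : xv w.reverse = yv w := by
  simp [xv, yv, List.foldl_reverse]

theorem yv_reverse (w : Word) : yv w.reverse = xv w := by
  rw [← xv_reverse, List.reverse_reverse]

private theorem foldl_fst (v : Word) : ∀ p : ℕ × ℕ,
    (v.foldl (fun p a => (dg a * p.1 + p.2, p.1)) p).1 = p.1 * (yv v).1 + p.2 * (yv v).2 := by
  induction v with
  | nil => intro p; simp [yv]
  | cons a v ih =>
    intro p
    rw [List.foldl_cons, ih, yv_cons]
    ring

/-- the key identity `K(uv) = <x_u, y_v>` -/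
theorem K_append (u v : Word) :
    K (u ++ v) = (xv u).1 * (yv v).1 + (xv u).2 * (yv v).2 := by
  unfold K
  rw [show xv (u ++ v) = v.foldl (fun p a => (dg a * p.1 + p.2, p.1)) (xv u) by
    simp [xv, List.foldl_append]]
  exact foldl_fst v _

theorem yv_fst (w : Word) : (yv w).1 = K w := by
  have := K_append [] w
  simp [xv_nil] at this
  exact this.symm

theorem xv_fst (w : Word) : (xv w).1 = K w := rfl

theorem K_reverse (w : Word) : K w.reverse = K w := by
  rw [K, xv_reverse, yv_fst]

theorem K_cons (a : Bool) (w : Word) : K (a :: w) = dg a * K w + (yv w).2 := by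
  rw [← yv_fst, yv_cons, yv_fst]

theorem K_snoc (w : Word) (a : Bool) : K (w ++ [a]) = dg a * K w + (xv w).2 := by
  rw [K, xv_snoc]; rfl

theorem K_pos (w : Word) : 1 ≤ K w := by
  induction w with
  | nil => simp [K_nil]
  | cons a w ih =>
    rw [K_cons]
    have := dg_pos a
    nlinarith

theorem yv_snd_le (w : Word) : (yv w).2 ≤ (yv w).1 := by
  cases w with
  | nil => simp [yv_nil]
  | cons a w =>
    rw [yv_cons]
    have := dg_pos a
    simp only
    nlinarith [Nat.zero_le (yv w).2, Nat.zero_le (yv w).1]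

theorem xv_snd_le (w : Word) : (xv w).2 ≤ (xv w).1 := by
  have := yv_snd_le w.reverse
  rwa [yv_reverse] at this

theorem yv_snd_pos (w : Word) (h : w ≠ []) : 1 ≤ (yv w).2 := by
  cases w with
  | nil => exact absurd rfl h
  | cons a w => rw [yv_cons]; simp only; rw [yv_fst]; exact K_pos w

theorem xv_snd_pos (w : Word) (h : w ≠ []) : 1 ≤ (xv w).2 := by
  have := yv_snd_pos w.reverse (by simpa using h)
  rwa [yv_reverse] at this

theorem K_mul_le (u v : Word) : K u * K v ≤ K (u ++ v) := by
  rw [K_append, yv_fst, xv_fst]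
  exact Nat.le_add_right _ _

theorem K_append_le (u v : Word) : K (u ++ v) ≤ 2 * (K u * K v) := by
  rw [K_append, yv_fst, xv_fst]
  have h1 := xv_snd_le u
  have h2 := yv_snd_le v
  rw [xv_fst] at h1
  rw [yv_fst] at h2
  have := Nat.mul_le_mul h1 h2
  linarith

theorem K_le_append_left (u v : Word) : K u ≤ K (u ++ v) :=
  le_trans (by nlinarith [K_pos v, K_pos u]) (K_mul_le u v)

theorem K_le_append_right (u v : Word) : K v ≤ K (u ++ v) :=
  le_trans (by nlinarith [K_pos v, K_pos u]) (K_mul_le u v)

theorem K_snoc_le (w : Word) (a : Bool) : K (w ++ [a]) ≤ 3 * K w := by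
  rw [K_snoc]
  have h1 := xv_snd_le w
  rw [xv_fst] at h1
  have := dg_le a
  nlinarith

theorem K_cons_le (a : Bool) (w : Word) : K (a :: w) ≤ 3 * K w := by
  rw [K_cons]
  have h1 := yv_snd_le w
  rw [yv_fst] at h1
  have := dg_le a
  nlinarith

theorem length_le_K (w : Word) : w.length ≤ K w := by
  induction w with
  | nil => simp
  | cons a w ih =>
    rw [K_cons, List.length_cons]
    have := dg_pos a
    rcases eq_or_ne w [] with rfl | h
    · simp [K_nil, yv_nil]; omega
    · have := yv_snd_pos w h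
      nlinarith

theorem finite_K_le (L : ℝ) : {w : Word | (K w : ℝ) ≤ L}.Finite := by
  apply (List.finite_length_le Bool ⌊L⌋₊).subset
  intro w hw
  simp only [Set.mem_setOf_eq] at hw ⊢
  exact Nat.le_floor (le_trans (by exact_mod_cast length_le_K w) hw)

theorem A_mono {L M : ℝ} (h : L ≤ M) : A L ≤ A M :=
  Set.ncard_le_ncard (fun _ hw => le_trans hw h) (finite_K_le M)

theorem A_pos {L : ℝ} (h : 1 ≤ L) : 1 ≤ A L := by
  have hne : ({w : Word | (K w : ℝ) ≤ L}).Nonempty := ⟨[], by simpa [K_nil] using h⟩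
  exact (Set.ncard_pos (finite_K_le L)).2 hne

/-! ### the directions -/

theorem be_nil : be [] = 0 := by simp [be, yv_nil]

theorem be_eq (w : Word) : be w = ((yv w).2 : ℝ) / (K w : ℝ) := by rw [be, yv_fst]

theorem be_nonneg (w : Word) : 0 ≤ be w := by unfold be; positivity

theorem be_le_one (w : Word) : be w ≤ 1 := by
  unfold be
  exact div_le_one_of_le₀ (by exact_mod_cast yv_snd_le w) (by positivity)

theorem be_cons (a : Bool) (w : Word) : be (a :: w) = 1 / ((dg a : ℝ) + be w) := by
  have hK : (0 : ℝ) < (yv w).1 := by rw [yv_fst]; exact_mod_cast K_pos w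
  unfold be
  rw [yv_cons]
  push_cast
  field_simp

theorem be_ge_third (w : Word) (h : w ≠ []) : 1 / 3 ≤ be w := by
  cases w with
  | nil => exact absurd rfl h
  | cons a w =>
    rw [be_cons]
    have h1 := be_le_one w
    have h2 : (dg a : ℝ) ≤ 2 := by exact_mod_cast dg_le a
    have h3 : (1 : ℝ) ≤ dg a := by exact_mod_cast dg_pos a
    have h4 := be_nonneg w
    apply one_div_le_one_div_of_le <;> linarith

/-- a word ending with the letter 2 has direction at most `3/4` -/
theorem be_le_of_end (w : Word) : be (w ++ [true]) ≤ 3 / 4 := by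
  cases w with
  | nil => simp [be, yv, dg]; norm_num
  | cons a w =>
    rw [List.cons_append, be_cons]
    have h1 := be_ge_third (w ++ [true]) (by simp)
    have h3 : (1 : ℝ) ≤ dg a := by exact_mod_cast dg_pos a
    rw [div_le_div_iff₀ (by linarith) (by norm_num)]
    linarith

/-- the projection identity: `K(uv) = K(v) (x_1 + be(v) x_2)`, `x = xv u` -/
theorem K_append_be (u v : Word) :
    (K (u ++ v) : ℝ) = (K v : ℝ) * (((xv u).1 : ℝ) + be v * ((xv u).2 : ℝ)) := by
  have hK : (0 : ℝ) < (K v : ℝ) := by exact_mod_cast K_pos v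
  rw [K_append, be_eq, yv_fst]
  push_cast
  field_simp

/-- the exact difference formula for directions of two words with the same beginning `p` -/
theorem be_diff (p w w' : Word) :
    |be (p ++ w) - be (p ++ w')| * ((K (p ++ w) : ℝ) * (K (p ++ w') : ℝ))
      = |be w - be w'| * ((K w : ℝ) * (K w' : ℝ)) := by
  induction p with
  | nil => simp
  | cons a p ih =>
    have hK : (0 : ℝ) < (K (p ++ w) : ℝ) := by exact_mod_cast K_pos _
    have hK' : (0 : ℝ) < (K (p ++ w') : ℝ) := by exact_mod_cast K_pos _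
    have hc : (K (a :: (p ++ w)) : ℝ) = ((dg a : ℝ) + be (p ++ w)) * (K (p ++ w) : ℝ) := by
      rw [K_cons, be_eq]; push_cast; field_simp
    have hc' : (K (a :: (p ++ w')) : ℝ) = ((dg a : ℝ) + be (p ++ w')) * (K (p ++ w') : ℝ) := by
      rw [K_cons, be_eq]; push_cast; field_simp
    have h3 : (1 : ℝ) ≤ dg a := by exact_mod_cast dg_pos a
    have h4 := be_nonneg (p ++ w)
    have h5 := be_nonneg (p ++ w')
    rw [List.cons_append, List.cons_append, be_cons, be_cons, hc, hc']
    have e : 1 / ((dg a : ℝ) + be (p ++ w)) - 1 / ((dg a : ℝ) + be (p ++ w'))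
        = -(be (p ++ w) - be (p ++ w')) / (((dg a : ℝ) + be (p ++ w)) * ((dg a : ℝ) + be (p ++ w'))) := by
      have : (dg a : ℝ) + be (p ++ w) ≠ 0 := by linarith
      have : (dg a : ℝ) + be (p ++ w') ≠ 0 := by linarith
      field_simp
      ring
    rw [e, abs_div, abs_neg, abs_of_pos (show (0 : ℝ) < ((dg a : ℝ) + be (p ++ w)) * ((dg a : ℝ) + be (p ++ w')) by
      apply mul_pos <;> linarith), ← ih]
    have : (dg a : ℝ) + be (p ++ w) ≠ 0 := by linarith
    have : (dg a : ℝ) + be (p ++ w') ≠ 0 := by linarith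
    field_simp

/-- contraction: words with the same beginning `p` have directions within `1/K(p)^2` -/
theorem be_near (p w w' : Word) : |be (p ++ w) - be (p ++ w')| ≤ 1 / (K p : ℝ) ^ 2 := by
  have hp : (0 : ℝ) < (K p : ℝ) := by exact_mod_cast K_pos _
  have hw : (0 : ℝ) < (K w : ℝ) := by exact_mod_cast K_pos _
  have hw' : (0 : ℝ) < (K w' : ℝ) := by exact_mod_cast K_pos _
  have h1 : (K p : ℝ) * K w ≤ K (p ++ w) := by exact_mod_cast K_mul_le p w
  have h2 : (K p : ℝ) * K w' ≤ K (p ++ w') := by exact_mod_cast K_mul_le p w'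
  have h := be_diff p w w'
  have hb : |be w - be w'| ≤ 1 := by
    rw [abs_le]; constructor <;> linarith [be_nonneg w, be_nonneg w', be_le_one w, be_le_one w']
  have h3 : |be (p ++ w) - be (p ++ w')| * (((K p : ℝ) * K w) * ((K p : ℝ) * K w'))
      ≤ |be (p ++ w) - be (p ++ w')| * ((K (p ++ w) : ℝ) * (K (p ++ w') : ℝ)) := by
    apply mul_le_mul_of_nonneg_left _ (abs_nonneg _)
    apply mul_le_mul h1 h2 (by positivity) (by positivity)
  rw [h] at h3
  have h4 : |be w - be w'| * ((K w : ℝ) * (K w' : ℝ)) ≤ (K w : ℝ) * (K w' : ℝ) := by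
    nlinarith [mul_pos hw hw']
  rw [le_div_iff₀ (by positivity)]
  have h5 := h3.trans h4
  have h6 : |be (p ++ w) - be (p ++ w')| * (K p : ℝ) ^ 2 * ((K w : ℝ) * (K w' : ℝ))
      ≤ 1 * ((K w : ℝ) * (K w' : ℝ)) := by nlinarith
  exact le_of_mul_le_mul_right h6 (mul_pos hw hw')

/-- separation: two words `p a ..`, `p b ..` with `a <> b`, both ending with the letter 2, have
directions at distance at least `1/(64 K(p)^2)` -/
theorem be_far (p r r' : Word) (a b : Bool) (hab : a ≠ b)
    (h : (a :: r).getLast? = some true) (h' : (b :: r').getLast? = some true) :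
    1 / (64 * (K p : ℝ) ^ 2) ≤ |be (p ++ a :: r) - be (p ++ b :: r')| := by
  wlog hba : a = false generalizing a b r r'
  · have ha : a = true := by simpa using hba
    have hb : b = false := by
      cases b
      · rfl
      · exact absurd ha hab
    rw [abs_sub_comm]
    exact this r' r b a (Ne.symm hab) h' h hb
  have hb : b = true := by
    cases b
    · exact absurd hba hab
    · rfl
  subst hba hb
  have hp : (0 : ℝ) < (K p : ℝ) := by exact_mod_cast K_pos _
  -- `r` is nonempty and ends with the letter 2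
  have hr : ∃ s, r = s ++ [true] := by
    rcases List.eq_nil_or_concat r with rfl | ⟨s, x, rfl⟩
    · simp at h
    · refine ⟨s, ?_⟩
      rw [List.concat_eq_append] at h ⊢
      rw [← List.cons_append, List.getLast?_append] at h
      simp at h
      rw [h]
  obtain ⟨s, rfl⟩ := hr
  have h1 : 4 / 7 ≤ be (false :: (s ++ [true])) := by
    rw [be_cons]
    have := be_le_of_end s
    have h0 := be_nonneg (s ++ [true])
    rw [dg_false, div_le_div_iff₀ (by norm_num) (by push_cast; linarith)]
    push_cast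
    linarith
  have h2 : be (true :: r') ≤ 1 / 2 := by
    rw [be_cons, dg_true]
    have h0 := be_nonneg r'
    push_cast
    apply one_div_le_one_div_of_le <;> linarith
  have h3 : 1 / 14 ≤ |be (false :: (s ++ [true])) - be (true :: r')| := by
    rw [le_abs]; left; linarith
  set w := false :: (s ++ [true]) with hw
  set w' := true :: r' with hw'
  have hkw : (0 : ℝ) < (K w : ℝ) := by exact_mod_cast K_pos _
  have hkw' : (0 : ℝ) < (K w' : ℝ) := by exact_mod_cast K_pos _
  have e := be_diff p w w'
  have u1 : (K (p ++ w) : ℝ) ≤ 2 * (K p * K w) := by exact_mod_cast K_append_le p w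
  have u2 : (K (p ++ w') : ℝ) ≤ 2 * (K p * K w') := by exact_mod_cast K_append_le p w'
  have u3 : (K (p ++ w) : ℝ) * (K (p ++ w') : ℝ) ≤ (2 * (K p * K w)) * (2 * (K p * K w')) :=
    mul_le_mul u1 u2 (by positivity) (by positivity)
  have u4 : (1 / 14 : ℝ) * ((K w : ℝ) * (K w' : ℝ))
      ≤ |be (p ++ w) - be (p ++ w')| * ((2 * (K p * K w)) * (2 * (K p * K w'))) := by
    calc (1 / 14 : ℝ) * ((K w : ℝ) * (K w' : ℝ)) ≤ |be w - be w'| * ((K w : ℝ) * (K w' : ℝ)) := by
          apply mul_le_mul_of_nonneg_right h3 (by positivity)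
      _ = |be (p ++ w) - be (p ++ w')| * ((K (p ++ w) : ℝ) * (K (p ++ w') : ℝ)) := e.symm
      _ ≤ _ := mul_le_mul_of_nonneg_left u3 (abs_nonneg _)
  rw [div_le_iff₀ (by positivity)]
  have u5 : (1 / 14 : ℝ) * ((K w : ℝ) * (K w' : ℝ))
      ≤ (|be (p ++ w) - be (p ++ w')| * (4 * (K p : ℝ) ^ 2)) * ((K w : ℝ) * (K w' : ℝ)) := by
    nlinarith
  have u6 := le_of_mul_le_mul_right u5 (mul_pos hkw hkw')
  nlinarith

/-! ### the first passage sets -/

theorem stop_lt {L : ℝ} {w : Word} (h : w ∈ stop L) : L < (K w : ℝ) := h.1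

theorem stop_le {L : ℝ} (hL : 1 ≤ L) {w : Word} (h : w ∈ stop L) : (K w : ℝ) ≤ 3 * L := by
  rcases List.eq_nil_or_concat w with rfl | ⟨u, a, rfl⟩
  · have := h.1
    simp [K_nil] at this
    linarith
  · rw [List.concat_eq_append] at h ⊢
    have h1 := h.2 u a rfl
    have h2 : (K (u ++ [a]) : ℝ) ≤ 3 * K u := by exact_mod_cast K_snoc_le u a
    linarith

/-- the first passage sets are prefix free -/
theorem stop_prefix {L : ℝ} {w w' : Word} (h : w ∈ stop L) (h' : w' ∈ stop L) (hp : w <+: w') :
    w = w' := by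
  obtain ⟨r, rfl⟩ := hp
  rcases List.eq_nil_or_concat r with rfl | ⟨s, a, rfl⟩
  · simp
  · exfalso
    rw [List.concat_eq_append, ← List.append_assoc] at h'
    have h1 := h'.2 (w ++ s) a rfl
    have h2 : (K w : ℝ) ≤ K (w ++ s) := by exact_mod_cast K_le_append_left w s
    linarith [h.1]

/-- every word with continuant above `L` has a beginning in the first passage set -/
theorem exists_stop {L : ℝ} (w : Word) (h : L < (K w : ℝ)) : ∃ s ∈ stop L, s <+: w := by
  induction w using List.reverseRecOn with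
  | nil => exact ⟨[], ⟨h, by simp⟩, List.prefix_refl _⟩
  | append_singleton u a ih =>
    by_cases hu : L < (K u : ℝ)
    · obtain ⟨s, hs, hp⟩ := ih hu
      exact ⟨s, hs, hp.trans (List.prefix_append _ _)⟩
    · refine ⟨u ++ [a], ⟨h, ?_⟩, List.prefix_refl _⟩
      intro u' a' e
      have := List.append_inj_left' e rfl
      rw [← this]
      exact not_lt.1 hu

theorem stop_finite {L : ℝ} (hL : 1 ≤ L) : (stop L).Finite :=
  (finite_K_le (3 * L)).subset (fun _ h => stop_le hL h)

end Pool.Agent.Lib.MP_d0a18a_nt.ZP
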