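import Pool.Agent.Lib.MP_d0a18a_nt.ZP.Defs

/-!
# MP_d0a18a_nt: `#(D_2 ∩ [1,N]) ≥ N^0.585`

THEOREM (exponent `1 - (1-δ)^2/δ - ε`, `δ = 0.5313` the dimension of the set of continued fractions
with digits 1, 2; known before: `δ` trivially, 0.5378 Bourgain-Kontorovich).

Idea: `K(uv) = <x_u, y_v> = K(v) (x_1 + be(v) x_2)` for `x = xv u`.  The set `X` of the `T^(2δ)`
vectors `x_u`, `K(u) ~ T`, is projected in finitely many fixed directions `(1, be v)`, `v ∈ V`, which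
form a `δ`-regular family.  `X` is made into an exactly regular tree `Y` (UNI), its levels are cut
into blocks with the chord property (BLK), in each block the average over `v` of the collision
probability of the projection is bounded by the L2 methods of Kaufman and Falconer (WIN), and the
blocks are added up with Shannon entropy (ENB).

Every module XXX is a file `ZP/XXX.lean` (imports ZP.Spec), theorem
`specXXX (hYYY : SpecYYY) .. : SpecXXX`; ANY other Spec may be a hypothesis; own lemmas in namespace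
`Pool.Agent.Lib.MP_d0a18a_nt.ZP.XXXM`.  `Defs.lean` contains many proved facts: read it first.
-/

set_option autoImplicit false

namespace Pool.Agent.Lib.MP_d0a18a_nt.ZP

open Finset

/-! ## Part 1: the number of words -/

/-- STP (100 lines).  PROOF.  For `u` with `K u ≤ L` let `k` be the least number with
`L < K (u ++ [true] ++ replicate k false)` (it exists: `length_le_K`); put
`φ u = u ++ [true] ++ replicate k false`.  `φ u ∈ stop L`: the beginning without the last letter is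
`u` (if `k = 0`) or `u ++ [true] ++ replicate (k-1) false`, of continuant `≤ L` by minimality.
`φ` is injective: `u` is what stands before the LAST letter `true` of `φ u`.  So
`A L = #{K u ≤ L} ≤ #stop L` (`Set.ncard_le_ncard_of_injOn`, `stop_finite`). -/
def SpecSTP : Prop := ∀ L : ℝ, 1 ≤ L → A L ≤ (stop L).ncard

/-- SUB (100 lines).  PROOF.  Let `K w ≤ L M`.  If `K w > L`, let `s ∈ stop L` be a beginning of `w`
(`exists_stop`), `s = u ++ [a]`, `K u ≤ L`, `w = u ++ a :: v`; then `K s * K v ≤ K w ≤ L M` and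
`K s > L` give `K v ≤ M`.  So `{K ≤ LM} ⊆ {K ≤ L} ∪ image of {K ≤ L} × Bool × {K ≤ M}` under
`(u,a,v) ↦ u ++ a :: v`, and `A(LM) ≤ A(L) + 2 A(L) A(M) ≤ 3 A(L) A(M)` by `A_pos`. -/
def SpecSUB : Prop := ∀ L M : ℝ, 1 ≤ L → 1 ≤ M → A (L * M) ≤ 3 * (A L * A M)

/-- SUP (80 lines).  PROOF.  `(s, v) ↦ s ++ v` maps `stop L × {K ≤ M}` injectively (`stop_prefix`: of
two beginnings of the same word one is a beginning of the other) to `{K ≤ 6LM}`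
(`K_append_le`, `stop_le`).  Then STP. -/
def SpecSUP : Prop := ∀ L M : ℝ, 1 ≤ L → 1 ≤ M → A L * A M ≤ A (6 * (L * M))

/-- EXI (150 lines; from SUB, SUP).  PROOF.  `u_k = log A(2^k)`, `k ∈ ℕ`.  SUB: `u_(k+l) ≤ u_k + u_l + D`,
SUP and SUB: `u_k + u_l ≤ log A(6 * 2^(k+l)) ≤ log (3 A(6) A(2^(k+l))) ≤ u_(k+l) + D`, with a constant
`D ≥ 0`.  So `u_k + D` and `D - u_k` are `Subadditive`; with `λ = lim u_k / k`
(`Subadditive.tendsto_lim`, `Subadditive.lim_le_div`; boundedness below from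
`0 ≤ u_k ≤ k (u_1 + D)`) one gets `|u_k - λ k| ≤ D` for all `k`.  `λ ≥ 0`.  For real `L ≥ 1` take
`2^k ≤ L < 2^(k+1)` and use `A_mono`: `e^(-λ-D) L^(λ/log 2) ≤ A L ≤ e^(λ+D) L^(λ/log 2)`.
`δ = λ/(2 log 2)`. -/
def SpecEXI : Prop := ∃ δ c C : ℝ, Cnt δ c C

/-- CRA (200 lines, real analysis).  PROOF.  Take `g x = 1 - (321/625) x + (98/625) x^2`, `m = 7/10`,
`M = 17/20` (`g` is decreasing on `[1/3,3/4]`, `g(1/3) = .846`, `g(3/4) = .703`).  Numerically the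
quotient right side / left side is between 1.00040 and 1.00089 on the interval.  With `p = 69/65`:
(i) cubic Taylor bound: for `u > -1`:
`(1+u)^(-p) ≥ 1 - p u + p(p+1)/2 u^2 - p(p+1)(p+2)/6 u^3` (difference `f`: `f(0) = f'(0) = 0` and
`f'' = p(p+1)[(1+u)^(-p-2) - 1 + (p+2)u] ≥ 0` by Bernoulli); (ii) `(a+x)^(-p) = (a+x0)^(-p) (1+u)^(-p)`,
`u = (x-x0)/(a+x0)`, and rational lower bounds `κ ≤ t^(-p)` from `κ^65 * t^69 ≤ 1` (norm_num):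
`t=1.43: κ=.68407; t=2.43: κ=.38964; t=1.64: κ=.59147; t=2.64: κ=.35682`; (iii) on `[1/3, .54]` use
`x0 = .43`, on `[.54, .75]` use `x0 = .64`: the resulting lower bound minus `g x` is `≥ .00031`
resp. `≥ .00026`.  After multiplication by `(1+x)^2 (2+x)^2` this is a polynomial inequality of degree
7 in `x`: e.g. write `x = lo + (hi-lo) s/(1+s)`, `s ≥ 0`, and check positive coefficients, or
subdivide.  (The single centre `x0 = .54`, κ = .63232, .37175, works on the whole interval with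
margin .000096.)  Any other `g` is allowed. -/
def SpecCRA : Prop := ∃ g : ℝ → ℝ, ∃ m M : ℝ, 0 < m ∧ 0 < M ∧
  ∀ x : ℝ, 1 / 3 ≤ x → x ≤ 3 / 4 → m ≤ g x ∧ g x ≤ M ∧
    g x ≤ (1 + x) ^ (-(69 / 65) : ℝ) * g (1 / (1 + x)) + (2 + x) ^ (-(69 / 65) : ℝ) * g (1 / (2 + x))

/-- CRB (120 lines; from CRA).  PROOF.  For a word `w` let `x_w = (xv w).2/(xv w).1`; call `w` good if
`1/3 ≤ x_w ≤ 3/4`.  `[true]` is good (`x = 1/2`), and if `w` is good so are `w ++ [a]`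
(`x_(wa) = 1/(a + x_w)`, `K (w ++ [a]) = (a + x_w) K w`).  `h(w) = K(w)^(-69/65) g(x_w)`: for good `w`
CRA gives `h(w) ≤ h(w ++ [false]) + h(w ++ [true])`.  CLAIM: for good `w` with `K w ≤ L`:
`h(w) ≤ 2 M L^(-69/65) N(w)`, `N(w) = #{u : K (w ++ u) ≤ L}` (finite).  Induction on `N(w)` (or on
`⌊L⌋ - length w`): if `K (w ++ [a]) ≤ L` use the induction hypothesis (`N(w ++ [a]) < N(w)`), if
`K (w ++ [a]) > L` then `h(w ++ [a]) ≤ M L^(-69/65)`; and `N(w) ≥ 1 + Σ_(a : K (w ++ [a]) ≤ L) N(w ++ [a])`.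
With `w = [true]` and `N([true]) ≤ A L`: `2^(-69/65) m ≤ h([true]) ≤ 2 M L^(-69/65) A(L)`. -/
def SpecCRB : Prop := ∃ c : ℝ, 0 < c ∧ ∀ L : ℝ, 2 ≤ L → c * L ^ (69 / 65 : ℝ) ≤ (A L : ℝ)

/-- CNT (40 lines; from EXI, CRB): if `2δ < 69/65` then `c' L^(69/65) ≤ A L ≤ C L^(2δ)` fails for
large `L`. -/
def SpecCNT : Prop := ∃ δ c C : ℝ, Cnt δ c C ∧ 69 / 130 ≤ δ

/-! ## Part 2: directions and the set `X` -/

/-- CLU (150 lines; cluster lemma).  PROOF.  Let `κ = 1/(8 √ω)` and fix `s0 ∈ S` (`S = ∅` is trivial).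
If `s ∈ S`, `s ≠ s0`, then neither is a beginning of the other, so `s = p ++ a :: r`,
`s0 = p ++ b :: r'` with `a ≠ b`; `be_far` for `s ++ ext s = p ++ a :: (r ++ ext s)` and
`s0 ++ ext s0` gives `1/(64 K(p)^2) ≤ ω`, i.e. `K p ≥ κ`.  If there is no such `s`, `#S ≤ 1`.  Otherwise
let `p0` be the SHORTEST beginning of `s0` with `K p0 ≥ κ`; it is a beginning of every such `p`, hence
of every `s ∈ S` (also of `s0`).  `s = p0 ++ s'`, `K s' ≤ K s / K p0 ≤ B/κ = 8 B √ω`, and `s ↦ s'` is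
injective. -/
def SpecCLU : Prop := ∀ (S : Finset Word) (ext : Word → Word) (B ω : ℝ), 0 < ω →
  (∀ s ∈ S, ∀ s' ∈ S, s <+: s' → s = s') → (∀ s ∈ S, (K s : ℝ) ≤ B) →
  (∀ s ∈ S, (s ++ ext s).getLast? = some true) →
  (∀ s ∈ S, ∀ s' ∈ S, |be (s ++ ext s) - be (s' ++ ext s')| ≤ ω) →
  (S.card : ℝ) ≤ 1 + (A (8 * B * Real.sqrt ω) : ℝ)

open Classical in
/-- the finite family `b v`, `v ∈ V`, of directions in `[0,1]` is `δ`-regular down to scale `r` -/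
def DirReg {ι : Type} (V : Finset ι) (b : ι → ℝ) (C0 δ r : ℝ) : Prop :=
  (∀ v ∈ V, 0 ≤ b v ∧ b v ≤ 1) ∧
  ∀ t ω : ℝ, r ≤ ω → ω ≤ 1 →
    ((V.filter (fun v => t ≤ b v ∧ b v ≤ t + ω)).card : ℝ) ≤ C0 * ω ^ δ * (V.card : ℝ)

/-- DIR (120 lines; from CLU, STP).  PROOF.  `V = {v ++ [true] : v ∈ stop L}`; `K ≤ 9L` (`stop_le`,
`K_snoc_le`), `#V ≥ A L ≥ c L^(2δ)` (STP).  `V` is prefix free: if `v ++ [true]` is a beginning of
`v' ++ [true]` and `v ≠ v'` then `v` is a beginning of `v'`, against `stop_prefix`.  For an interval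
`[t, t+ω]`, `1/L^2 ≤ ω ≤ 1`, apply CLU to `S = {v ∈ V : t ≤ be v ≤ t+ω}`, `ext = []`, `B = 9L`:
`#S ≤ 1 + A(72 L √ω) ≤ 1 + C (72 L √ω)^(2δ)` (`L √ω ≥ 1`) `≤ (1 + C 72^(2δ)) L^(2δ) ω^δ
≤ C0 ω^δ #V`. -/
def SpecDIR : Prop := ∀ δ c C : ℝ, Cnt δ c C → 0 < δ → ∃ C0 : ℝ, 0 < C0 ∧
  ∀ L : ℝ, 1 ≤ L → ∃ V : Finset Word, V.Nonempty ∧ (∀ v ∈ V, (K v : ℝ) ≤ 9 * L) ∧
    DirReg V be C0 δ (1 / L ^ 2)

/-- level-`i` cell of a point of `ℕ × ℕ`, grid of side `q ^ i` -/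
def cell (q i : ℕ) (x : ℕ × ℕ) : ℕ × ℕ := (x.1 / q ^ i, x.2 / q ^ i)

open Classical in
/-- XLD (250 lines; local dimension; from CLU).  PROOF.  Write `R1 = q^i`, `R2 = q^j`, `x = xv w`,
`w = true :: v`, `v ∈ stop T`: `T < x_1 = K w ≤ 9T`, `x_2 ≤ x_1`, and `x_2/x_1 = be w.reverse`
(`yv_reverse`), where `w.reverse` ends with `true`.  Fix a level-`j` cell; for points `x, x'` of it
`|x_1 - x_1'|, |x_2 - x_2'| < R2`, so
`|x_2/x_1 - x_2'/x_1'| ≤ (x_2/x_1) R2/x_1' + R2/x_1' ≤ 2 R2/T`.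
CASE `R1 > T`: then `q^(j-i) = R2/R1 ≤ 10` and there are at most `(q^(j-i))^2 ≤ 100` cells of level `i`
in a cell of level `j`.
CASE `R1 ≤ T`: `B = √(T/R1) ≥ 1`.  For each `w` of the cell let `s(w) ∈ stop B` be a beginning of
`w.reverse` (`exists_stop`, `K w > T ≥ B`); `B < K s ≤ 3B`.  The set `S` of these `s` is prefix free
(`stop_prefix`); choosing for each `s ∈ S` a word `w` with `w.reverse = s ++ ext s`, CLU with
`B := 3B`, `ω := 2 R2/T` gives `#S ≤ 1 + A(24 √(2 R2/R1)) ≤ C' (q^(j-i))^δ`.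
For fixed `s ∈ S` the points `x` with `s(w) = s` have `|x_2/x_1 - x_2'/x_1'| ≤ 1/K(s)^2 < R1/T`
(`be_near`), so with `α` the quotient of one of them `|x_2 - α x_1| ≤ 9 R1`.  `⌊x_1/R1⌋` takes at most
`q^(j-i)` values in the cell, and for a given value `k` we have `α x_1 ∈ [α k R1, α (k+1) R1]`, `α ≤ 1`,
so `x_2` lies in an interval of length `19 R1` and `⌊x_2/R1⌋` takes at most 21 values.  Total
`≤ 21 q^(j-i) C' (q^(j-i))^δ`. -/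
def SpecXLD : Prop := ∀ δ c C : ℝ, Cnt δ c C → 0 < δ → ∃ C1 : ℝ, 1 ≤ C1 ∧
  ∀ T : ℝ, 1 ≤ T → ∀ W : Finset Word, (∀ w ∈ W, ∃ v ∈ stop T, w = true :: v) →
    ∀ q i j : ℕ, 2 ≤ q → i ≤ j → (q : ℝ) ^ j ≤ 10 * T → ∀ x ∈ W.image xv,
      (((((W.image xv).filter (fun y => cell q j y = cell q j x)).image (cell q i)).card : ℕ) : ℝ)
        ≤ C1 * ((q : ℝ) ^ (j - i)) ^ (1 + δ)

/-- XCT (80 lines): `xv` is injective on the words beginning with the letter 2.  PROOF.  Let `w ≠ w'`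
begin with `true`, `xv w = xv w'`.  If `w' = z ++ w` with `z ≠ []`, then
`K w' = (xv z).1 (yv w).1 + (xv z).2 (yv w).2 > K w` (`K_append`, `xv_snd_pos`, `yv_snd_pos`),
contradiction; the same with `w, w'` exchanged.  Otherwise the reversed words are
`p ++ a :: r`, `p ++ b :: r'`, `a ≠ b`, both ending with `true`, and `be_far` gives
`be w.reverse ≠ be w'.reverse`, i.e. `(xv w).2/(xv w).1 ≠ (xv w').2/(xv w').1`. -/
def SpecXCT : Prop := ∀ w w' : Word, w.head? = some true → w'.head? = some true → xv w = xv w' → w = w'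

open Classical in
/-- XS (60 lines; from STP, XLD, XCT).  PROOF.  `X` = image of `{true :: v : v ∈ stop T}` under `xv`;
`K (true :: v) ≤ 9T` (`K_cons_le`, `stop_le`); `#X = #stop T ≥ A T ≥ c T^(2δ)`. -/
def SpecXS : Prop := ∀ δ c C : ℝ, Cnt δ c C → 0 < δ → ∃ c1 C1 : ℝ, 0 < c1 ∧ 1 ≤ C1 ∧
  ∀ T : ℝ, 1 ≤ T → ∃ X : Finset (ℕ × ℕ),
    (∀ x ∈ X, ∃ w : Word, xv w = x ∧ (K w : ℝ) ≤ 9 * T) ∧ c1 * T ^ (2 * δ) ≤ (X.card : ℝ) ∧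
    ∀ q i j : ℕ, 2 ≤ q → i ≤ j → (q : ℝ) ^ j ≤ 10 * T → ∀ x ∈ X,
      ((((X.filter (fun y => cell q j y = cell q j x)).image (cell q i)).card : ℕ) : ℝ)
        ≤ C1 * ((q : ℝ) ^ (j - i)) ^ (1 + δ)

/-! ## Part 3: combinatorics of trees -/

open Classical in
/-- UNI (200 lines; uniformization).  PROOF.  By induction on `m ≤ n` there are a nonempty `Y_m ⊆ X` with
`#X ≤ (2 (log2 D + 1))^m #Y_m` and numbers `c_i`, `i < m`, such that for `i < m`, `x ∈ Y_m` the class of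
`x` at level `i+1` in `Y_m` contains exactly `c_i` classes of level `i`, and such that every level-`m`
class of `Y_m` has exactly `N_m = ∏_(i<m) c_i` points (`N_0 = 1`: `p 0` is injective).
STEP `m → m+1`: for a class `B` of level `m+1` of `Y_m` let `ν(B)` be its number of level-`m` classes,
`1 ≤ ν(B) ≤ D`; `#B = ν(B) N_m`.  Choose `k ≤ log2 D` such that the classes `B` with
`2^k ≤ ν(B) < 2^(k+1)` contain at least `#Y_m/(log2 D + 1)` points; keep only these `B`, and in each of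
them keep exactly `c_m = 2^k` level-`m` classes, as a whole: this keeps at least half of the points of
`B`.  The conditions for `i < m` are preserved: they concern level-`(i+1)` classes, which lie inside
level-`m` classes (nestedness) and are kept whole or removed whole. -/
def SpecUNI : Prop := ∀ (α β : Type) (X : Finset α) (p : ℕ → α → β) (n D : ℕ), X.Nonempty → 1 ≤ D →
  (∀ i, ∀ x ∈ X, ∀ y ∈ X, p i x = p i y → p (i + 1) x = p (i + 1) y) →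
  (∀ x ∈ X, ∀ y ∈ X, p 0 x = p 0 y → x = y) →
  (∀ i < n, ∀ x ∈ X, ((X.filter (fun y => p (i + 1) y = p (i + 1) x)).image (p i)).card ≤ D) →
  ∃ Y ⊆ X, Y.Nonempty ∧ ∃ c : ℕ → ℕ,
    (∀ i < n, 1 ≤ c i ∧ c i ≤ D ∧
      ∀ x ∈ Y, ((Y.filter (fun y => p (i + 1) y = p (i + 1) x)).image (p i)).card = c i) ∧
    X.card ≤ (2 * (Nat.log 2 D + 1)) ^ n * Y.card

open Classical in
/-- REG (100 lines): numbers of classes in an exactly regular tree.  PROOF.  Induction on `j`: the level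
`j+1` class of `x` is the disjoint union of `c_j` level-`j` classes, each containing `∏_(k ∈ [i,j)) c_k`
classes of level `i`, and the level-`i` classes in different level-`j` classes are different
(nestedness).  The second statement is the case `i = 0` (`p 0` injective). -/
def SpecREG : Prop := ∀ (α β : Type) (Y : Finset α) (p : ℕ → α → β) (n : ℕ) (c : ℕ → ℕ),
  (∀ i, ∀ x ∈ Y, ∀ y ∈ Y, p i x = p i y → p (i + 1) x = p (i + 1) y) →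
  (∀ x ∈ Y, ∀ y ∈ Y, p 0 x = p 0 y → x = y) →
  (∀ i < n, ∀ x ∈ Y, ((Y.filter (fun y => p (i + 1) y = p (i + 1) x)).image (p i)).card = c i) →
  ∀ i j, i ≤ j → j ≤ n → ∀ x ∈ Y,
    ((Y.filter (fun y => p j y = p j x)).image (p i)).card = ∏ k ∈ Ico i j, c k ∧
    (Y.filter (fun y => p j y = p j x)).card = ∏ k ∈ Ico 0 j, c k

/-- average of `s` over `[b, a)` -/
noncomputable def avg (s : ℕ → ℝ) (b a : ℕ) : ℝ := (∑ k ∈ Ico b a, s k) / ((a : ℝ) - b)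

/-- BLK (200 lines; block decomposition with the chord property).  PROOF.  Cut `[0,n)` from the top into
windows `[n-ℓ,n), [n-2ℓ,n-ℓ), ..` (the last one shorter).  In a window `[e,w)` start with `a = w`.  While
`a > e`: let `m = min_(e ≤ b < a) avg s b a` and let `b` be the SMALLEST `b ∈ [e,a)` with
`avg s b a ≤ m + η`; the block is `[b,a)`, and one continues with `a := b`.  Chord property: for
`b ≤ i < a`, `avg s i a ≥ m ≥ avg s b a - η` (and `i = a` is trivial).  For the next minimum `m'`: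
if `e ≤ b' < b` then `avg s b' a > m + η` and it is a convex combination of `avg s b a ≤ m + η` and
`avg s b' b`, so `avg s b' b > m + η`; hence `m' > m + η`.  As `0 ≤ m ≤ M`, a window has at most
`M/η + 1` blocks, and there are at most `n/ℓ + 1` windows. -/
def SpecBLK : Prop := ∀ (s : ℕ → ℝ) (n ℓ : ℕ) (M η : ℝ), 1 ≤ ℓ → 0 < η → 0 ≤ M →
  (∀ i < n, 0 ≤ s i ∧ s i ≤ M) →
  ∃ (J : ℕ) (t : ℕ → ℕ), t 0 = n ∧ t J = 0 ∧ (∀ j < J, t (j + 1) < t j ∧ t j ≤ t (j + 1) + ℓ) ∧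
    (J : ℝ) ≤ ((n : ℝ) / ℓ + 1) * (M / η + 2) ∧
    ∀ j < J, ∀ i, t (j + 1) ≤ i → i ≤ t j →
      (avg s (t (j + 1)) (t j) - η) * ((t j : ℝ) - i) ≤ ∑ k ∈ Ico i (t j), s k

open Classical in
/-- Shannon entropy of `f x` for uniform `x ∈ X` -/
noncomputable def Hs {α β : Type} (X : Finset α) (f : α → β) : ℝ :=
  (∑ x ∈ X, Real.log ((X.card : ℝ) / ((X.filter (fun y => f y = f x)).card : ℝ))) / (X.card : ℝ)

open Classical in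
/-- collision probability of `f` on the class of `x` under `g` -/
noncomputable def CP {α β γ : Type} (X : Finset α) (f : α → β) (g : α → γ) (x : α) : ℝ :=
  ((((X.filter (fun y => g y = g x)) ×ˢ (X.filter (fun y => g y = g x))).filter
    (fun p => f p.1 = f p.2)).card : ℝ) / ((X.filter (fun y => g y = g x)).card : ℝ) ^ 2

open Classical in
/-- ENA (50 lines): entropy at most log of the number of values.  PROOF.  Jensen (concavity of log) or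
`log t ≤ t - 1`: with `N` = number of values, `Σ_x [log (#X/#f(x)) - log N] ≤ Σ_x (#X/(N #f(x)) - 1)
= (#X/N) N - #X = 0`. -/
def SpecENA : Prop := ∀ (α β : Type) (X : Finset α) (f : α → β), X.Nonempty →
  0 ≤ Hs X f ∧ Hs X f ≤ Real.log ((X.image f).card : ℝ)

open Classical in
/-- ENB (200 lines; one step of the chain rule).  Write `n_f(x) = #{y ∈ X : f y = f x}` etc.
PROOF.  (1) `Hs f - Hs f' = avg_x log (n_f'(x)/n_f(x))`.  (2) CONDITIONING: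
`Σ_x log (n_f'(x)/n_f(x)) ≥ Σ_x log (n_(f',g)(x)/n_(f,g)(x))`, because by `log t ≤ t - 1`
`Σ_x log [n_(f',g)(x) n_f(x)/(n_(f,g)(x) n_f'(x))] ≤ Σ_x n_(f',g)(x) n_f(x)/(n_(f,g)(x) n_f'(x)) - #X ≤ 0`:
group the `x` by the pair `(f x, g x)`; the sum is `Σ_((a,p) occurring) n_(f',g)(φ(a),p) n_a/n_f'(φ(a))`
(`f' = φ ∘ f`), and for fixed `a` the sum over `p` of `n_(f',g)(φ(a),p)` is `≤ n_f'(φ(a))`.
(3) `log (n_(f',g)/n_(f,g)) = log (n_g/n_(f,g)) - log (n_g/n_(f',g))`.  For a class `B` of `g` (with at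
most `m` values of `f'`): `Σ_(x ∈ B) log (n_g/n_(f',g)) ≤ #B log m` (as in ENA), and
`(1/#B) Σ_(x ∈ B) log (#B/n_(f,g)(x)) ≥ - log ((1/#B) Σ_(x ∈ B) n_(f,g)(x)/#B) = log (1/CP)` (Jensen; the
number of pairs in `B` with `f p.1 = f p.2` is `Σ_(x ∈ B) n_(f,g)(x)`). -/
def SpecENB : Prop := ∀ (α β β' γ : Type) (X : Finset α) (f : α → β) (f' : α → β') (g : α → γ) (m : ℝ),
  X.Nonempty → 1 ≤ m →
  (∀ x ∈ X, ∀ y ∈ X, f x = f y → f' x = f' y) →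
  (∀ x ∈ X, ((((X.filter (fun y => g y = g x)).image f').card : ℕ) : ℝ) ≤ m) →
  Hs X f' + (∑ x ∈ X, Real.log (1 / CP X f g x)) / (X.card : ℝ) - Real.log m ≤ Hs X f

/-! ## Part 4: the L2 estimate in one window -/

open Classical in
/-- the number of pairs of points with almost equal projections in direction `(1, β)` -/
noncomputable def coll (S : Finset (ℝ × ℝ)) (β : ℝ) : ℕ :=
  ((S ×ˢ S).filter (fun p => |(p.1.1 - p.2.1) + β * (p.1.2 - p.2.2)| ≤ 3)).card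

open Classical in
/-- Frostman condition in a square of side `Q` (`dist` is the sup distance) -/
def Fro (S : Finset (ℝ × ℝ)) (B Q σ : ℝ) : Prop :=
  (∀ c ∈ S, ∀ c' ∈ S, dist c c' ≤ Q) ∧
  ∀ c ∈ S, ∀ ρ : ℝ, 1 ≤ ρ → ρ ≤ Q →
    ((S.filter (fun c' => dist c c' ≤ ρ)).card : ℝ) ≤ B * (S.card : ℝ) * (ρ / Q) ^ σ

/-- KAU (200 lines; Kaufman).  PROOF.  Let `z = c - c'`, `d = dist c c' ≤ Q`.  CLAIM:
`#{v ∈ V : |z_1 + b_v z_2| ≤ 3} ≤ C max(1,d)^(-δ) #V`.  Trivial (with `C ≥ 12^δ`) if `d ≤ 12`.  If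
`d > 12` and `|z_2| < d/2` then `|z_1| = d` and `|z_1 + b z_2| > d/2 > 3`: no `v`.  If `|z_2| ≥ d/2`, then
`b_v` is in an interval of length `6/|z_2| ≤ 12/d =: ω ≤ 1`, `ω ≥ 1/Q`: at most
`C0 (12/d)^δ #V`.  So `Σ_v coll ≤ C #V Σ_(c,c') max(1,d)^(-δ)`, and for fixed `c`, with
`ρ_k = min(2^k, Q)`, `0 ≤ k ≤ k1`, `2^(k1-1) < Q ≤ 2^k1` (`k1 ≤ 1 + log2 Q`):
`Σ_c' max(1,d)^(-δ) ≤ Σ_k 2^δ 2^(-kδ) B #S (ρ_k/Q)^σ ≤ C B #S Σ_k ρ_k^(σ-δ) Q^(-σ)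
≤ C B #S (k1+1) Q^(-min(σ,δ))`. -/
def SpecKAU : Prop := ∀ δ C0 : ℝ, 0 < δ → δ ≤ 1 → 0 < C0 → ∃ C1 : ℝ, 0 < C1 ∧
  ∀ (ι : Type) (V : Finset ι) (b : ι → ℝ) (S : Finset (ℝ × ℝ)) (B Q σ : ℝ),
    1 ≤ Q → 0 ≤ σ → σ ≤ 2 → 1 ≤ B → DirReg V b C0 δ (1 / Q) → Fro S B Q σ →
    ∑ v ∈ V, (coll S (b v) : ℝ)
      ≤ C1 * B * (1 + Real.log Q) * (V.card : ℝ) * (S.card : ℝ) ^ 2 * Q ^ (-(min σ δ))

/-- EAV (150 lines).  PROOF.  `m = max 1 (min |τ| Q)`.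
(a) If `|s| ≥ 2|τ|` then `|s - b τ| ≥ |s|/2`, so each term is
`≤ e^(-s²/8) = e^(-s²/16) e^(-s²/16) ≤ e^(-s²/16) e^(-τ²/4) ≤ C e^(-s²/16) m^(-δ)`
(`e^(-τ²/4) ≤ 2 max(1,|τ|)^(-1) ≤ 2 m^(-δ)`), and `e^(-s²/16) ≤ exp(-max 0 (s²-4τ²)/16)`.
(b) If `|s| < 2|τ|` the last factor on the right is 1.  If `m = 1`: trivial.  Otherwise `|τ| > 1`, and for
`i ≥ 0` the `v` with `|s - b_v τ| ≤ 2^i` have `b_v` in an interval of length `2^(i+1)/|τ|`, so with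
`ω = 2^(i+1)/m ≥ 1/Q`: their number is `≤ C0 ω^δ #V` if `ω ≤ 1` and `≤ #V ≤ ω^δ #V` if `ω > 1`.
Hence (dyadic decomposition of `|s - b_v τ| ≤ 3Q+..`, finitely many `i`) the sum is
`≤ max(1,C0) #V m^(-δ) (2^δ + Σ_(i≥1) 2^((i+1)δ) e^(-4^(i-1)/2))`, a convergent series. -/
def SpecEAV : Prop := ∀ δ C0 : ℝ, 0 < δ → δ ≤ 1 → 0 < C0 → ∃ C1 : ℝ, 0 < C1 ∧
  ∀ (ι : Type) (V : Finset ι) (b : ι → ℝ) (Q τ s : ℝ), 1 ≤ Q → DirReg V b C0 δ (1 / Q) →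
    ∑ v ∈ V, Real.exp (-((s - b v * τ) ^ 2) / 2)
      ≤ C1 * (V.card : ℝ) * (max 1 (min |τ| Q)) ^ (-δ) * Real.exp (-(max 0 (s ^ 2 - 4 * τ ^ 2)) / 16)

/-- the frequency weight of the direction `(1, β)` at scale `Q` -/
noncomputable def Wt (Q β : ℝ) (ξ : ℝ × ℝ) : ℝ :=
  ∫ s : ℝ, Real.exp (-(s ^ 2) / 2) *
    Real.exp (-(Q ^ 2 * ((ξ.1 - s) ^ 2 + (ξ.2 - β * s) ^ 2)) / 2)

/-- DOM (250 lines; from EAV; pointwise domination of the average frequency weight).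
PROOF.  Put `ζ = Q ξ` and substitute `s = τ/Q`:
`Wt Q β ξ = Q⁻¹ ∫ e^(-τ²/(2Q²)) e^(-(ζ_1-τ)²/2) e^(-(ζ_2-βτ)²/2) dτ`.  Sum over `v` and use EAV (with
`s := ζ_2`): `Σ_v Wt ≤ C #V Q⁻¹ ∫ e^(-τ²/(2Q²)) e^(-(ζ_1-τ)²/2) m(τ)^(-δ) e^(-P/16) dτ`,
`P = max 0 (ζ_2²-4τ²)`, `m(τ) = max 1 (min |τ| Q)`.  POINTWISE in `τ`: the integrand is at most
`C e^(-(ζ_1-τ)²/4) Σ_(k ≤ k1) 2^(-kδ) e^(-|ζ|²/(16·4^k))` (then `∫ e^(-(ζ_1-τ)²/4) dτ = 2√π`).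
Indeed take `k` with `|τ| ≤ 2^k`, minimal, if that `k` is `< k1`, and `k = k1` otherwise.  We use
`ζ_1² ≤ 2(ζ_1-τ)² + 2τ²` and `ζ_2² ≤ P + 4τ²`.
* `k < k1`: `m(τ) ≥ 2^(k-1)` (`2^(k1-1) < Q`; if `k = 0`, `m ≥ 1`), `m^(-δ) ≤ 2^δ 2^(-kδ)`; and with
  `τ² ≤ 4^k`: `ζ_1²/(16·4^k) ≤ (ζ_1-τ)²/8 + 1/8`, `ζ_2²/(16·4^k) ≤ P/16 + 1/4`, so
  `e^(-(ζ_1-τ)²/2) e^(-P/16) ≤ e^(3/8) e^(-(ζ_1-τ)²/4) e^(-|ζ|²/(16·4^k))`.
* `k = k1`: `|τ| > 2^(k1-1)` or `k1 = 0`, `m(τ) ≥ 2^(k1-1)`, `m^(-δ) ≤ 2^δ 2^(-k1 δ)`; and by `4^k1 ≥ Q²`: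
  `|ζ|²/(16·4^k1) ≤ |ζ|²/(16Q²) ≤ (ζ_1-τ)²/8 + τ²/(8Q²) + P/16 + τ²/(4Q²)`, and `1/8 + 1/4 ≤ 1/2`. -/
def SpecDOM : Prop := ∀ δ C0 : ℝ, 0 < δ → δ ≤ 1 → 0 < C0 → ∃ C1 : ℝ, 0 < C1 ∧
  ∀ (ι : Type) (V : Finset ι) (b : ι → ℝ) (Q : ℝ) (k1 : ℕ) (ξ : ℝ × ℝ), 1 ≤ Q →
    Q ≤ 2 ^ k1 → (2 : ℝ) ^ k1 < 2 * Q → DirReg V b C0 δ (1 / Q) →
    ∑ v ∈ V, Wt Q (b v) ξ
      ≤ C1 * (V.card : ℝ) * Q⁻¹ * ∑ k ∈ range (k1 + 1), (2 : ℝ) ^ (-(k * δ)) *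
          Real.exp (-(Q ^ 2 * (ξ.1 ^ 2 + ξ.2 ^ 2)) / (16 * 4 ^ k))

/-- the squared modulus of the exponential sum over `S` -/
noncomputable def FS (S : Finset (ℝ × ℝ)) (ξ : ℝ × ℝ) : ℝ :=
  (∑ c ∈ S, Real.cos (ξ.1 * c.1 + ξ.2 * c.2)) ^ 2 + (∑ c ∈ S, Real.sin (ξ.1 * c.1 + ξ.2 * c.2)) ^ 2

/-- GID (200 lines; Gaussian identity).  PROOF.  `FS S ξ = Σ_(c,c') cos (ξ·z)`, `z = c - c'`.  For each
`z`, by Fubini (everything is dominated by Gaussians; `Wt` is integrable with integral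
`√(2π)·2π/Q²`) and the translation `ξ = η + s (1,β)`:
`∫ cos(ξ·z) Wt = ∫ e^(-s²/2) [∫ cos((η + s(1,β))·z) e^(-Q²|η|²/2) dη] ds`; the inner integral is
`cos(s (z_1+βz_2)) (2π/Q²) e^(-|z|²/(2Q²))` (the sine part is odd; one dimensional fact
`∫ cos(t x) e^(-a x²/2) dx = √(2π/a) e^(-t²/(2a))`, from `fourierIntegral_gaussian` or
`integral_cexp_quadratic`), and `∫ e^(-s²/2) cos(s y) ds = √(2π) e^(-y²/2)`. -/
def SpecGID : Prop := ∀ (S : Finset (ℝ × ℝ)) (β Q : ℝ), 0 < Q →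
  MeasureTheory.Integrable (fun ξ : ℝ × ℝ => FS S ξ * Wt Q β ξ) ∧
  ∑ c ∈ S, ∑ c' ∈ S, Real.exp (-(((c.1 - c'.1) + β * (c.2 - c'.2)) ^ 2) / 2) *
      Real.exp (-((c.1 - c'.1) ^ 2 + (c.2 - c'.2) ^ 2) / (2 * Q ^ 2))
    = (2 * Real.pi) ^ (-(3 / 2) : ℝ) * Q ^ 2 * ∫ ξ : ℝ × ℝ, FS S ξ * Wt Q β ξ

/-- GIS (100 lines; isotropic Gaussian identity).  PROOF as in GID: for each `z`
`∫∫ cos(ξ·z) e^(-a|ξ|²) dξ = (π/a) e^(-|z|²/(4a))`. -/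
def SpecGIS : Prop := ∀ (S : Finset (ℝ × ℝ)) (a : ℝ), 0 < a →
  MeasureTheory.Integrable (fun ξ : ℝ × ℝ => FS S ξ * Real.exp (-(a * (ξ.1 ^ 2 + ξ.2 ^ 2)))) ∧
  ∫ ξ : ℝ × ℝ, FS S ξ * Real.exp (-(a * (ξ.1 ^ 2 + ξ.2 ^ 2)))
    = Real.pi / a * ∑ c ∈ S, ∑ c' ∈ S,
        Real.exp (-((c.1 - c'.1) ^ 2 + (c.2 - c'.2) ^ 2) / (4 * a))

/-- ISO (120 lines).  PROOF.  `ρ0 = Q/2^k ≥ 1/2`.  Fix `c`.  For `i ≥ 0`:
`#{c' : dist c c' ≤ 2^i ρ0} ≤ B #S (min(Q, max(1, 2^i ρ0))/Q)^σ ≤ B #S 2^((i+1)σ) 2^(-kσ)`.  Points with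
`2^(i-1) ρ0 < dist ≤ 2^i ρ0`, `i ≥ 1`, have `4^(k+1) |z|²/Q² = 4|z|²/ρ0² ≥ 4^i`.  So the sum over `c'` is
`≤ B #S 2^(-kσ) (2^σ + Σ_(i≥1) 2^((i+1)σ) e^(-4^i)) ≤ C B #S 2^(-kσ)`, `σ ≤ 2`.  (All sums are finite:
`dist ≤ Q`.) -/
def SpecISO : Prop := ∃ C1 : ℝ, 0 < C1 ∧ ∀ (S : Finset (ℝ × ℝ)) (B Q σ : ℝ) (k : ℕ),
  1 ≤ Q → 0 ≤ σ → σ ≤ 2 → 1 ≤ B → Fro S B Q σ → (2 : ℝ) ^ k ≤ 2 * Q →
  ∑ c ∈ S, ∑ c' ∈ S, Real.exp (-(4 ^ (k + 1) * ((c.1 - c'.1) ^ 2 + (c.2 - c'.2) ^ 2)) / Q ^ 2)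
    ≤ C1 * B * (S.card : ℝ) ^ 2 * (2 : ℝ) ^ (-(k * σ))

/-- FAL (150 lines; Falconer; from DOM, GID, GIS, ISO).  PROOF.  `k1` with `Q ≤ 2^k1 < 2Q`.  For a pair
counted in `coll`: `1 ≤ e^(9/2) e^(-(z_1+βz_2)²/2)` and `1 ≤ e e^(-|z|²/(2Q²))` (`|z_i| ≤ Q`).  So by GID
`Σ_v coll ≤ C Q² ∫ FS (Σ_v Wt)`, by DOM (`FS ≥ 0`)
`≤ C #V Q Σ_k 2^(-kδ) ∫ FS e^(-Q²|ξ|²/(16·4^k))`, by GIS (`a = Q²/(16·4^k)`)
`= C #V Q Σ_k 2^(-kδ) 16π 4^k Q⁻² Σ_(c,c') e^(-4^(k+1)|z|²/Q²)`, by ISO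
`≤ C B #V #S² Q⁻¹ Σ_(k ≤ k1) 2^((2-δ-σ)k) ≤ C B #V #S² Q⁻¹ (k1+1) max(1, (2Q)^(2-δ-σ))`, and
`Q⁻¹ max(1, Q^(2-δ-σ)) = Q^(-min(1, σ+δ-1))`, `k1 + 1 ≤ 2 + log2 Q`. -/
def SpecFAL : Prop := ∀ δ C0 : ℝ, 0 < δ → δ ≤ 1 → 0 < C0 → ∃ C1 : ℝ, 0 < C1 ∧
  ∀ (ι : Type) (V : Finset ι) (b : ι → ℝ) (S : Finset (ℝ × ℝ)) (B Q σ : ℝ),
    1 ≤ Q → 0 ≤ σ → σ ≤ 2 → 1 ≤ B → DirReg V b C0 δ (1 / Q) → Fro S B Q σ →
    ∑ v ∈ V, (coll S (b v) : ℝ)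
      ≤ C1 * B * (1 + Real.log Q) * (V.card : ℝ) * (S.card : ℝ) ^ 2 * Q ^ (-(min 1 (σ + δ - 1)))

/-- the linear function through `(1, δ)` and `(1+δ, 1)` -/
noncomputable def ell (δ σ : ℝ) : ℝ := δ + (σ - 1) * ((1 - δ) / δ)

/-- WIN (80 lines; from KAU, FAL).  PROOF.  `0 < (1-δ)/δ < 1`.  `σ ≤ 1`: `min σ δ ≥ ell δ σ`, since
`ell δ 1 = δ`, `ell` is increasing, and `σ - ell δ σ` is increasing in `σ` with value
`(1-δ)/δ - δ > 0` at 0 (`δ ≤ 3/5`).  `σ ≥ 1`: `σ + δ - 1 - ell δ σ = (σ-1)(1 - (1-δ)/δ) ≥ 0` and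
`ell δ (1+δ) = 1`. -/
def SpecWIN : Prop := ∀ δ C0 : ℝ, 1 / 2 < δ → δ ≤ 3 / 5 → 0 < C0 → ∃ C1 : ℝ, 0 < C1 ∧
  ∀ (ι : Type) (V : Finset ι) (b : ι → ℝ) (S : Finset (ℝ × ℝ)) (B Q σ : ℝ),
    1 ≤ Q → 0 ≤ σ → σ ≤ 2 → 1 ≤ B → DirReg V b C0 δ (1 / Q) → Fro S B Q σ →
    ∑ v ∈ V, (coll S (b v) : ℝ)
      ≤ C1 * B * (1 + Real.log Q) * (V.card : ℝ) * (S.card : ℝ) ^ 2 * Q ^ (-(ell δ (min σ (1 + δ))))

/-! ## Part 5: blocks and assembly -/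

/-- the projection in the direction `(1, β)` -/
noncomputable def pr (β : ℝ) (x : ℕ × ℕ) : ℝ := (x.1 : ℝ) + β * (x.2 : ℝ)

/-- level-`i` value of the projection -/
noncomputable def fl (β : ℝ) (q i : ℕ) (x : ℕ × ℕ) : ℕ := ⌊pr β x / (q : ℝ) ^ i⌋₊

open Classical in
/-- the level-`b` cells in the level-`a` cell of `x`, as points of the plane -/
noncomputable def kids (q : ℕ) (Y : Finset (ℕ × ℕ)) (b a : ℕ) (x : ℕ × ℕ) : Finset (ℝ × ℝ) :=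
  ((Y.filter (fun y => cell q a y = cell q a x)).image (cell q b)).image
    (fun c => ((c.1 : ℝ), (c.2 : ℝ)))

open Classical in
/-- `Y` is an exactly regular tree below level `a` -/
def Tree (q : ℕ) (Y : Finset (ℕ × ℕ)) (c : ℕ → ℕ) (a : ℕ) : Prop :=
  ∀ i < a, ∀ x ∈ Y,
    ((Y.filter (fun y => cell q (i + 1) y = cell q (i + 1) x)).image (cell q i)).card = c i

/-- BLF (200 lines; from REG; Frostman condition of a block).  PROOF.  `Q = q^(a-b)`, `S = kids`,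
`#S = ∏_(k ∈ [b,a)) c_k` by REG (`p = cell q`, nested by `Nat.div_div_eq_div_mul`; the cast is injective).
All cells of `S` lie in one level-`a` cell: coordinates differ by less than `Q`.  Let `c ∈ S`,
`1 ≤ ρ ≤ Q`.  If `ρ = Q` the bound is trivial.  Else `q^(i-b) ≤ ρ < q^(i+1-b)`, `b ≤ i < a`.  A `c'` with
`dist ≤ ρ` has its level-`(i+1)` cell at distance `≤ 1` in each coordinate from that of `c`: at most 9
cells, each containing `∏_(k ∈ [b,i+1)) c_k` cells of `S` (REG).  So the number is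
`≤ 9 #S/∏_(k ∈ [i+1,a)) c_k ≤ 9 #S q^(-σ'(a-i-1))`, `σ' = max 0 (σ-η)` (chord property; for `σ' = 0` use
`c_k ≥ 1`), and `(ρ/Q)^σ' ≥ q^(-σ'(a-i))`, `q^σ' ≤ q²`. -/
def SpecBLF : Prop := ∀ (q : ℕ) (Y : Finset (ℕ × ℕ)) (c : ℕ → ℕ) (b a : ℕ) (σ η : ℝ),
  2 ≤ q → b < a → Tree q Y c a → 0 ≤ η → σ ≤ 2 →
  (∀ i, b ≤ i → i ≤ a → (q : ℝ) ^ ((σ - η) * ((a : ℝ) - i)) ≤ ∏ k ∈ Ico i a, (c k : ℝ)) →
  ∀ x ∈ Y, Fro (kids q Y b a x) (9 * (q : ℝ) ^ 2) ((q : ℝ) ^ (a - b)) (max 0 (σ - η)) ∧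
    ((kids q Y b a x).card : ℝ) = ∏ k ∈ Ico b a, (c k : ℝ)

open Classical in
/-- BLC (150 lines; from REG; collisions).  PROOF.  Let `P` be the class of `x` under `cell q a`.  Each
level-`b` cell in `P` contains the same number `N` of points of `Y` (REG, second part), so
`#P = N #kids`.  If `y, z ∈ P` lie in the cells `c, c'` and `fl β q b y = fl β q b z`, then
`|pr β y - pr β z|/q^b < 1`, and `y/q^b - c, z/q^b - c' ∈ [0,1)²`, so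
`|(c_1 - c_1') + β (c_2 - c_2')| < 1 + 2 = 3`.  Hence the number of such pairs is `≤ N² coll`. -/
def SpecBLC : Prop := ∀ (q : ℕ) (Y : Finset (ℕ × ℕ)) (c : ℕ → ℕ) (b a : ℕ) (β : ℝ),
  2 ≤ q → b < a → Tree q Y c a → 0 ≤ β → β ≤ 1 → ∀ x ∈ Y,
    CP Y (fl β q b) (cell q a) x ≤ (coll (kids q Y b a x) β : ℝ) / ((kids q Y b a x).card : ℝ) ^ 2

open Classical in
/-- BLS (60 lines; from BLF, BLC, WIN). -/
def SpecBLS : Prop := ∀ δ C0 : ℝ, 1 / 2 < δ → δ ≤ 3 / 5 → 0 < C0 → ∃ C1 : ℝ, 1 ≤ C1 ∧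
  ∀ (ι : Type) (V : Finset ι) (bt : ι → ℝ) (q : ℕ) (Y : Finset (ℕ × ℕ)) (c : ℕ → ℕ) (b a : ℕ)
    (σ η : ℝ), 2 ≤ q → b < a → Tree q Y c a → 0 ≤ η → σ ≤ 2 →
  (∀ i, b ≤ i → i ≤ a → (q : ℝ) ^ ((σ - η) * ((a : ℝ) - i)) ≤ ∏ k ∈ Ico i a, (c k : ℝ)) →
  DirReg V bt C0 δ (1 / (q : ℝ) ^ (a - b)) →
  ∀ x ∈ Y, ∑ v ∈ V, CP Y (fl (bt v) q b) (cell q a) x
    ≤ C1 * (q : ℝ) ^ 2 * (1 + Real.log ((q : ℝ) ^ (a - b))) * (V.card : ℝ) *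
      ((q : ℝ) ^ (a - b)) ^ (-(ell δ (min (max 0 (σ - η)) (1 + δ))))

/-- TEL (150 lines; from ENA, ENB): adding up the blocks for one direction.  PROOF.  Apply ENB for
`j < J` with `f = fl β q (t (j+1))`, `f' = fl β q (t j)`, `g = cell q (t j)`, `m = 3`: `f` determines `f'`
(`Nat.floor_div_natCast`: `⌊y/q^a⌋ = ⌊y/q^b⌋ / q^(a-b)` for `b ≤ a`), and on a class of `g` the numbers
`pr β y / q^a` lie in an interval `[r, r+2)`, so `f'` takes at most 3 values.  Sum over `j`,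
`Hs ≥ 0` at the start, ENA at the end. -/
def SpecTEL : Prop := ∀ (q : ℕ) (Y : Finset (ℕ × ℕ)) (β : ℝ) (J : ℕ) (t : ℕ → ℕ), 2 ≤ q → Y.Nonempty →
  0 ≤ β → β ≤ 1 → (∀ j < J, t (j + 1) < t j) → t J = 0 →
  ∑ j ∈ range J, ((∑ x ∈ Y, Real.log (1 / CP Y (fl β q (t (j + 1))) (cell q (t j)) x)) / (Y.card : ℝ)
      - Real.log 3)
    ≤ Real.log ((Y.image (fl β q 0)).card : ℝ)

/-- DNL (60 lines): projections give denominators.  PROOF.  For `x ∈ Y` with `xv w = x`: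
`K (w ++ v) = K v * pr (be v) x` (`K_append_be`) and `K (w ++ v) ≤ 2 K w K v ≤ 2 R (9L)`.  The set
`{K v * pr (be v) x : x ∈ Y}` consists of elements of `Dn`, and has at least as many elements as
`Y.image (fl (be v) q 0)`, because `fl` is a function of `K v * pr (be v) x`. -/
def SpecDNL : Prop := ∀ (q : ℕ) (Y : Finset (ℕ × ℕ)) (v : Word) (R L : ℝ), 2 ≤ q →
  (∀ x ∈ Y, ∃ w : Word, xv w = x ∧ (K w : ℝ) ≤ R) → (K v : ℝ) ≤ L →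
  (Y.image (fl (be v) q 0)).card ≤ (Dn (2 * R * L)).card

/-- ASM (helper69; from XS, DIR, UNI, BLK, BLS, TEL, DNL).  The error per level. -/
noncomputable def Err (C2 η : ℝ) (h ℓ : ℕ) : ℝ :=
  Real.log (4 * h + 2) + η * h + (2 / η + 2) / ℓ * (C2 * (h + Real.log (ℓ * h + 1) + 1))

/-- ASM (helper69).  PROOF.  `q = 2^h`, `L = q^ℓ`, `V` from DIR, `T = q^n/10` (small `n` with `q^n < 10` are
absorbed in `C3`), `X` from XS, `Y` from UNI (`p = cell q`, `D = q²`, loss `(2(2h+1))^n`),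
`s_k = log c_k/log q ∈ [0,2]`, blocks from BLK (`M = 2`).  For each block, Jensen over `v` and BLS:
`(1/#V) Σ_v log (1/CP) ≥ ell(..) log Q - log C1 - 2 log q - log (1 + ℓ h)`, and
`ell(min (max 0 (σ-η)) (1+δ)) log Q ≥ ell(σ) log Q - η log Q - log C1'` (local dimension bound of XS).
Sum over the blocks: `Σ len ell(σ_j) = n (δ - b) + b Σ s_k`, `b = (1-δ)/δ`,
`log q Σ s_k = log #Y ≥ log #X - n log (4h+2)`, `log #X ≥ 2δ log T - C`; and `δ - b + 2δb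
= 1 - (1-δ)²/δ`. -/
def SpecASM : Prop := ∀ δ c C : ℝ, Cnt δ c C → 1 / 2 < δ → δ ≤ 3 / 5 → ∃ C2 : ℝ, 1 ≤ C2 ∧
  ∀ (h ℓ : ℕ) (η : ℝ), 1 ≤ h → 1 ≤ ℓ → 0 < η → η ≤ 1 → ∃ C3 : ℝ, 1 ≤ C3 ∧ ∀ n : ℕ, 1 ≤ n →
    (n : ℝ) * (h * Real.log 2) * (1 - (1 - δ) ^ 2 / δ) - n * Err C2 η h ℓ - C3
      ≤ Real.log ((Dn (C3 * 2 ^ (h * n))).card : ℝ)

/-- MAI (150 lines; from ASM).  PROOF.  Choose `η = min 1 (ε log 2/8)`.., `h` with
`log (4h+2) ≤ (ε/4) h log 2`, then `ℓ` with `(2/η+2)/ℓ * C2 (h + log (ℓh+1) + 1) ≤ (ε/4) h log 2`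
(`log (ℓh+1)/ℓ → 0`): `Err ≤ (ε/2 + ε/8) h log 2`.  For large `N` let `n` be maximal with
`C3 2^(hn) ≤ N`; `N < C3 2^(h(n+1))`, so `n h log 2 ≥ log N - C'`, and `Dn` is monotone:
`log #Dn N ≥ (1 - (1-δ)²/δ - (5/8) ε) log N - C'' ≥ (1 - (1-δ)²/δ - ε) log N`. -/
def SpecMAI : Prop := ∀ δ c C : ℝ, Cnt δ c C → 1 / 2 < δ → δ ≤ 3 / 5 → ∀ ε : ℝ, 0 < ε →
  ∃ N0 : ℝ, ∀ N : ℝ, N0 ≤ N → N ^ (1 - (1 - δ) ^ 2 / δ - ε) ≤ ((Dn N).card : ℝ)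

/-- TRV (80 lines; from XS; the trivial bound).  PROOF.  For `x = xv w ∈ X`, `w ≠ []`: `x.1 = K w` and
`x.2 = K w.dropLast` are continuants `≤ 9T`; `w = []` gives the single point `(1,0)`.  So
`#X ≤ (#Dn(9T))² + 1`, hence `#Dn(9T) ≥ c' T^δ ≥ (9T)^(59/100)` for large `T`. -/
def SpecTRV : Prop := ∀ δ c C : ℝ, Cnt δ c C → 3 / 5 ≤ δ →
  ∃ N0 : ℝ, ∀ N : ℝ, N0 ≤ N → N ^ (59 / 100 : ℝ) ≤ ((Dn N).card : ℝ)

/-- FIN (80 lines; from CNT, MAI, TRV).  PROOF.  If `δ ≥ 3/5`: TRV.  Otherwise `69/130 ≤ δ ≤ 3/5`,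
`1 - (1-δ)²/δ ≥ 0.5851 > 0.585` (`(1-δ)² ≤ 0.4149 δ`), MAI. -/
def SpecFIN : Prop := ∃ N0 : ℝ, ∀ N : ℝ, N0 ≤ N → N ^ (0.585 : ℝ) ≤ ((Dn N).card : ℝ)

/-- RES (80 lines): denominators in the sense of the problem.  PROOF.  `b = (yv w).2`,
`l = w.map dg`; by induction the fold is `(yv w).2/(yv w).1`, and consecutive continuants are coprime. -/
def SpecRES : Prop := ∀ w : Word, ∃ b : ℕ, Nat.Coprime b (K w) ∧
  ∃ l : List ℕ, (∀ a ∈ l, 1 ≤ a ∧ a ≤ 2) ∧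
    ((b : ℚ) / (K w : ℚ) = l.foldr (fun a x => 1 / ((a : ℚ) + x)) 0)

end Pool.Agent.Lib.MP_d0a18a_nt.ZP
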